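import Pool.Agent.W_MP_654ec6_h2.Model
import Pool.Agent.W_MP_654ec6.B.Defs
import Pool.Agent.W_MP_654ec6.C.Defs

/-!
# Part G: the interface

`AmbData R N ρ C ψ U`: the metric space `W` consists of the ambient part, the images of the sets
`VA N ρ j` (points of the patch `j` outside the balls of radius `ρ k` around the vertices `± x_k`)
under infinitesimal isometries `ψ j` (for the metrics `gC R N j`), and of open sets `U k` (the block at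
the vertex `x_k`, with a collar) of diameter at most `C ρ k`.
-/

open scoped RealInnerProductSpace Topology
open Filter

namespace Pool.Agent.W_MP_654ec6_h2

open Pool.Agent.W_MP_654ec6

/-- The direction of the last three coordinates. -/
noncomputable def dir3 (u : E4) : E3 := ‖tl u‖⁻¹ • tl u

/-- The distance of `(X, Y)` to the nearest of the two vertices `± x_k`. -/
noncomputable def vd (N : ℕ∞) (k : ℕ) (X Y : ℝ) : ℝ :=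
  Real.sqrt ((|X| - zz k) ^ 2 + (Y - FF N (zz k)) ^ 2)

/-- The domain of the patch `j` without the balls around the vertices (and, if `N` is finite,
without the half ball of radius `ρ 0` around the middle of the middle edge). -/
def VA (N : ℕ∞) (ρ : ℕ → ℝ) (j : ℕ) : Set E4 :=
  {u | u ∈ VC N j ∧ (∀ k : ℕ, 1 ≤ k → (k : ℕ∞) ≤ N → ρ k < vd N k (pX N j u) (pY N j u)) ∧
    (N ≠ ⊤ → ρ 0 < Real.sqrt (pX N j u ^ 2 + (pY N j u - GG N 0) ^ 2))}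

/-- `a` in the patch `i` and `b` in the patch `j` represent the same point. -/
def SamePt (N : ℕ∞) (i : ℕ) (a : E4) (j : ℕ) (b : E4) : Prop :=
  pY N i a = pY N j b ∧ ((pX N i a = pX N j b ∧ dir3 a = dir3 b) ∨
    (pX N i a = -pX N j b ∧ dir3 a = -dir3 b))

/-- The interface to the spaces of part F. -/
structure AmbData (R : ℝ) (N : ℕ∞) (ρ : ℕ → ℝ) (C : ℝ) {W : Type} [MetricSpace W]
    (ψ : ℕ → E4 → W) (U : ℕ → Set W) : Prop where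
  R_pos : 0 < R
  R_le : R ≤ 1 / 8
  locLip : LocLipProp W
  ρ_pos : ∀ k, 0 < ρ k
  ρ_le : ∀ k, 1 ≤ k → ρ k ≤ zz k ^ 2 / 100
  C_pos : 0 < C
  upper : ∀ j : ℕ, (j : ℕ∞) ≤ N → ∀ a ∈ VA N ρ j, ∀ ε > (0 : ℝ), ∀ᶠ q in 𝓝 (a, a),
    dist (ψ j q.1) (ψ j q.2) ≤ (1 + ε) * Real.sqrt (qf (gC R N j a) (q.1 - q.2))
  lower : ∀ j : ℕ, (j : ℕ∞) ≤ N → ∀ a ∈ VA N ρ j, ∀ ε > (0 : ℝ), ∀ᶠ q in 𝓝 (a, a),
    Real.sqrt (qf (gC R N j a) (q.1 - q.2)) ≤ (1 + ε) * dist (ψ j q.1) (ψ j q.2)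
  opn : ∀ j : ℕ, (j : ℕ∞) ≤ N → ∀ a ∈ VA N ρ j, ∀ S ∈ 𝓝 a, ψ j '' S ∈ 𝓝 (ψ j a)
  same : ∀ i j : ℕ, (i : ℕ∞) ≤ N → (j : ℕ∞) ≤ N → ∀ a ∈ VA N ρ i, ∀ b ∈ VA N ρ j,
    (ψ i a = ψ j b ↔ SamePt N i a j b)
  cover : ∀ w : W, (∃ j : ℕ, (j : ℕ∞) ≤ N ∧ ∃ a ∈ VA N ρ j, ψ j a = w) ∨
    ∃ k : ℕ, (k : ℕ∞) ≤ N ∧ (N = ⊤ → 1 ≤ k) ∧ w ∈ U k
  isOpen_VA : ∀ j : ℕ, (j : ℕ∞) ≤ N → IsOpen (VA N ρ j)
  isOpen_U : ∀ k, IsOpen (U k)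
  disj : ∀ k l : ℕ, k ≠ l → Disjoint (U k) (U l)
  collar : ∀ j : ℕ, (j : ℕ∞) ≤ N → ∀ a ∈ VA N ρ j, ∀ k : ℕ, 1 ≤ k → (k : ℕ∞) ≤ N →
    ψ j a ∈ U k → vd N k (pX N j a) (pY N j a) < 2 * ρ k
  collar' : ∀ j : ℕ, (j : ℕ∞) ≤ N → ∀ a ∈ VA N ρ j, ∀ k : ℕ, 1 ≤ k → (k : ℕ∞) ≤ N →
    vd N k (pX N j a) (pY N j a) < 3 / 2 * ρ k → ψ j a ∈ U k
  diam : ∀ k : ℕ, 1 ≤ k → (k : ℕ∞) ≤ N → ∀ w ∈ U k, ∀ w' ∈ U k, dist w w' ≤ C * ρ k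

/-- The facts about the functions `FF`, `GG`, `bb` for `N = ⊤` used for the tangent cone at the
vertex `x`. -/
structure AmbFun (R : ℝ) : Prop where
  FF_even : ∀ X, FF ⊤ (-X) = FF ⊤ X
  GG_even : ∀ X, GG ⊤ (-X) = GG ⊤ X
  FF_ge : ∀ X, FF ⊤ 0 ≤ FF ⊤ X
  FF_le_GG : ∀ X, FF ⊤ X ≤ GG ⊤ X
  FF_small : ∀ ε > (0 : ℝ), ∃ η > (0 : ℝ), ∀ X X' : ℝ, |X| ≤ η → |X'| ≤ η →
    |FF ⊤ X - FF ⊤ X'| ≤ ε * |X - X'|
  GG_small : ∀ ε > (0 : ℝ), ∃ η > (0 : ℝ), ∀ X : ℝ, |X| ≤ η → GG ⊤ X - FF ⊤ X ≤ ε * |X|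
  GG_lip : ∀ X X' : ℝ, |GG ⊤ X - GG ⊤ X'| ≤ |X - X'| / 10
  bb_pos : ∀ X Y, GG ⊤ X < Y → 0 < bb R ⊤ X Y
  bb_le : ∀ X Y, GG ⊤ X < Y → bb R ⊤ X Y ≤ R * (Y - FF ⊤ X)
  bb_eq : ∀ X Y, GG ⊤ X < Y → 5 / 4 * (GG ⊤ X - FF ⊤ X) ≤ Y - FF ⊤ X →
    bb R ⊤ X Y = R * (Y - FF ⊤ X)
  FF_cont : Continuous (FF ⊤)
  sc_pos : ∀ (j : ℕ) (X Y : ℝ), GG ⊤ X < Y → 0 < sc ⊤ j X Y
  edge_Y : ∀ (j : ℕ) (u : E4), n3 u = 0 → opEdge ⊤ j (pX ⊤ j u) → pY ⊤ j u = GG ⊤ (pX ⊤ j u)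
  near_edge : ∀ (j : ℕ) (a : E4), n3 a = 0 → opEdge ⊤ j (pX ⊤ j a) →
    ∀ S ∈ 𝓝 a, ∃ v ∈ S, GG ⊤ (pX ⊤ j v) < pY ⊤ j v
  GG_zz : ∀ k : ℕ, 1 ≤ k → GG ⊤ (zz k) = FF ⊤ (zz k)

/-- The vector of `ℝ⁴` with first coordinate `X` and last coordinates `η`. -/
noncomputable def cv (X : ℝ) (η : E3) : E4 := WithLp.toLp 2 ![X, η 0, η 1, η 2]

theorem cv_zero (X : ℝ) (η : E3) : cv X η 0 = X := rfl

theorem tl_cv (X : ℝ) (η : E3) : tl (cv X η) = η := by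
  ext i
  fin_cases i <;> rfl

theorem n3_eq (u : E4) : n3 u = ‖tl u‖ := by
  unfold n3
  rw [EuclideanSpace.norm_eq, Fin.sum_univ_three]
  simp only [Real.norm_eq_abs, sq_abs]
  rfl

theorem dir3_neg (u : E4) : dir3 (-u) = -dir3 u := by
  unfold dir3
  rw [tl_neg, norm_neg, smul_neg]

theorem norm_dir3 {u : E4} (h : tl u ≠ 0) : ‖dir3 u‖ = 1 := by
  unfold dir3
  rw [norm_smul, norm_inv, norm_norm]
  exact inv_mul_cancel₀ (norm_ne_zero_iff.2 h)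

theorem dir3_of_eq_zero {u : E4} (h : tl u = 0) : dir3 u = 0 := by
  unfold dir3
  rw [h, smul_zero]

theorem dir3_eq_zero {u : E4} : dir3 u = 0 ↔ tl u = 0 := by
  constructor
  · intro h
    by_contra hne
    have := norm_dir3 hne
    rw [h, norm_zero] at this
    exact zero_ne_one this
  · exact dir3_of_eq_zero

theorem norm_smul_dir3 (u : E4) : ‖tl u‖ • dir3 u = tl u := by
  by_cases h : tl u = 0
  · rw [h]; simp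
  · unfold dir3
    rw [smul_smul, mul_inv_cancel₀ (norm_ne_zero_iff.2 h), one_smul]

theorem cv_tl (u : E4) : cv (u 0) (tl u) = u := by
  ext i
  fin_cases i <;> rfl

theorem norm_cv_sq (X : ℝ) (η : E3) : ‖cv X η‖ ^ 2 = X ^ 2 + ‖η‖ ^ 2 := by
  rw [norm_sq_split, cv_zero, tl_cv]

theorem cv_sub (X X' : ℝ) (η η' : E3) : cv X η - cv X' η' = cv (X - X') (η - η') := by
  ext i
  fin_cases i <;> simp [cv]

theorem cv_neg (X : ℝ) (η : E3) : -cv X η = cv (-X) (-η) := by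
  ext i
  fin_cases i <;> simp [cv]

/-- The quadratic form of the ambient metric. -/
theorem qf_gC (R : ℝ) (N : ℕ∞) (j : ℕ) (u v : E4) :
    qf (gC R N j u) v =
      ‖v‖ ^ 2 + (BC R N j u - 1) * (‖tl v‖ ^ 2 - (⟪tl u, tl v⟫ / ‖tl u‖) ^ 2) := by
  have h1 : ‖v‖ ^ 2 = v 0 ^ 2 + v 1 ^ 2 + v 2 ^ 2 + v 3 ^ 2 := by
    rw [EuclideanSpace.norm_sq_eq, Fin.sum_univ_four]
    simp only [Real.norm_eq_abs, sq_abs]
  have h2 : ‖tl v‖ ^ 2 = v 1 ^ 2 + v 2 ^ 2 + v 3 ^ 2 := by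
    rw [EuclideanSpace.norm_sq_eq, Fin.sum_univ_three]
    simp only [Real.norm_eq_abs, sq_abs]
    rfl
  have h3 : ⟪tl u, tl v⟫ = u 1 * v 1 + u 2 * v 2 + u 3 * v 3 := by
    rw [PiLp.inner_apply, Fin.sum_univ_three]
    simp [tl]
    ring
  rw [h1, h2, h3, ← n3_eq, div_pow]
  unfold qf gC
  simp only [Matrix.of_apply, Fin.sum_univ_four]
  have d1 : ¬ ((1 : Fin 4) = 0) := by decide
  have d2 : ¬ ((2 : Fin 4) = 0) := by decide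
  have d3 : ¬ ((3 : Fin 4) = 0) := by decide
  have d4 : ¬ ((1 : Fin 4) = 2) := by decide
  have d5 : ¬ ((1 : Fin 4) = 3) := by decide
  have d6 : ¬ ((2 : Fin 4) = 1) := by decide
  have d7 : ¬ ((2 : Fin 4) = 3) := by decide
  have d8 : ¬ ((3 : Fin 4) = 1) := by decide
  have d9 : ¬ ((3 : Fin 4) = 2) := by decide
  have e1 : ¬ ((0 : Fin 4) = 1) := by decide
  have e2 : ¬ ((0 : Fin 4) = 2) := by decide
  have e3 : ¬ ((0 : Fin 4) = 3) := by decide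
  simp only [d1, d2, d3, d4, d5, d6, d7, d8, d9, e1, e2, e3, if_true, if_false, or_true, true_or,
    or_self]
  ring

end Pool.Agent.W_MP_654ec6_h2
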