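import Pool.Agent.W_MP_654ec6_h2.Cone
import Pool.Agent.W_MP_654ec6.B.Defs

/-!
# Part G, Pk: the conical points `p_k`

`ψ` is an open infinitesimal isometry (with factor `s`) of the punctured ball `{0 < ‖u‖ < δ}` to a
metric space `W` with the property `LocLipProp`, two-to-one by `u ↦ -u`, and the images of the sets
`{0 < ‖u‖ ≤ r}` are closed. Then `dist (ψ u) (ψ v) = s min (‖u - v‖) (‖u + v‖)` near the puncture, and
in every complete space `X` in which `W` is dense there is a limit point `p`, the vertex of a flat cone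
over `ℝP³`.
-/

open scoped RealInnerProductSpace
open Filter Topology

namespace Pool.Agent.W_MP_654ec6_h2

open Pool.Agent.W_MP_654ec6

/-- The hypotheses on the parametrisation of a neighbourhood of a conical point. -/
structure PkChart (W : Type) [MetricSpace W] (ψ : E4 → W) (s δ : ℝ) : Prop where
  s_pos : 0 < s
  δ_pos : 0 < δ
  upper : ∀ u, 0 < ‖u‖ → ‖u‖ < δ → ∀ ε > (0 : ℝ), ∀ᶠ q in 𝓝 (u, u),
    dist (ψ q.1) (ψ q.2) ≤ (1 + ε) * (s * ‖q.1 - q.2‖)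
  lower : ∀ u, 0 < ‖u‖ → ‖u‖ < δ → ∀ ε > (0 : ℝ), ∀ᶠ q in 𝓝 (u, u),
    s * ‖q.1 - q.2‖ ≤ (1 + ε) * dist (ψ q.1) (ψ q.2)
  opn : ∀ u, 0 < ‖u‖ → ‖u‖ < δ → ∀ U ∈ 𝓝 u, ψ '' U ∈ 𝓝 (ψ u)
  inj : ∀ u v, 0 < ‖u‖ → ‖u‖ < δ → 0 < ‖v‖ → ‖v‖ < δ → (ψ u = ψ v ↔ v = u ∨ v = -u)
  closed : ∀ r, r < δ → IsClosed (ψ '' {u | 0 < ‖u‖ ∧ ‖u‖ ≤ r})

/-- The distance of `ℝ⁴/±`. -/
theorem modDt_one_le (u v : E4) : modDt 1 u v ≤ ‖u - v‖ := by
  rw [modDt_one]; exact min_le_left _ _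

theorem modDt_one_lip (a b v : E4) : |modDt 1 a v - modDt 1 b v| ≤ ‖a - b‖ := by
  have h1 := modDt_triangle (Or.inr rfl) a b v
  have h2 := modDt_triangle (Or.inr rfl) b a v
  have h3 := modDt_one_le a b
  have h4 := modDt_one_le b a
  rw [norm_sub_rev b a] at h4
  rw [abs_le]
  constructor <;> linarith

theorem le_modDt_one (u v : E4) : ‖u‖ - ‖v‖ ≤ modDt 1 u v :=
  (le_abs_self _).trans (abs_norm_sub_le_modDt 1 u v)

theorem modDt_one_le_add (u v : E4) : modDt 1 u v ≤ ‖u‖ + ‖v‖ :=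
  (modDt_one_le u v).trans (norm_sub_le u v)

/-- A locally Lipschitz function on `[0, 1]` with infinitesimal Lipschitz constant `L`. -/
theorem pk_real_lip {h : ℝ → ℝ} {L : ℝ}
    (hh : ∀ t ∈ Set.Icc (0 : ℝ) 1, ∀ ε > (0 : ℝ), ∀ᶠ s in 𝓝[Set.Icc (0 : ℝ) 1] t,
      |h s - h t| ≤ (L + ε) * |s - t|) : h 1 - h 0 ≤ L := by
  have hcont : ContinuousOn h (Set.Icc 0 1) := by
    intro t ht
    rw [ContinuousWithinAt, tendsto_iff_dist_tendsto_zero]
    have h1 : Tendsto (fun s => (L + 1) * |s - t|) (𝓝[Set.Icc (0 : ℝ) 1] t) (𝓝 0) := by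
      have : Continuous (fun s : ℝ => (L + 1) * |s - t|) := by fun_prop
      have h2 := this.tendsto t
      simp only [sub_self, abs_zero, mul_zero] at h2
      exact h2.mono_left nhdsWithin_le_nhds
    exact squeeze_zero' (Eventually.of_forall fun _ => dist_nonneg) (hh t ht 1 one_pos) h1
  apply le_of_forall_pos_le_add
  intro ε hε
  have key : Set.Icc (0 : ℝ) 1 ⊆ {t | h t - h 0 ≤ (L + ε) * t} := by
    have hcl : IsClosed ({t | h t - h 0 ≤ (L + ε) * t} ∩ Set.Icc (0 : ℝ) 1) := by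
      have h1 : ContinuousOn (fun t => h t - h 0 - (L + ε) * t) (Set.Icc (0 : ℝ) 1) := by
        apply ContinuousOn.sub (ContinuousOn.sub hcont continuousOn_const)
        fun_prop
      have h2 := h1.preimage_isClosed_of_isClosed isClosed_Icc (isClosed_Iic (a := (0 : ℝ)))
      convert h2 using 1
      ext t
      simp only [Set.mem_inter_iff, Set.mem_ofPred_eq, Set.mem_preimage, Set.mem_Iic]
      constructor
      · rintro ⟨h3, h4⟩; exact ⟨h4, by linarith⟩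
      · rintro ⟨h3, h4⟩; exact ⟨by linarith, h3⟩
    apply hcl.Icc_subset_of_forall_mem_nhdsWithin
    · simp
    · rintro t ⟨ht1, ht2⟩
      have hh1 := hh t ⟨ht2.1, ht2.2.le⟩ ε hε
      have h3 : ∀ᶠ s in 𝓝[>] t, s ∈ Set.Icc (0 : ℝ) 1 := by
        have : Set.Ioo t 1 ∈ 𝓝[>] t := Ioo_mem_nhdsGT ht2.2
        filter_upwards [this] with s hs
        exact ⟨(ht2.1.trans hs.1.le), hs.2.le⟩
      have h4 : ∀ᶠ s in 𝓝[>] t, |h s - h t| ≤ (L + ε) * |s - t| := by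
        have h5 : 𝓝[>] t ≤ 𝓝[Set.Icc (0 : ℝ) 1] t := by
          rw [nhdsWithin, nhdsWithin]
          apply le_inf inf_le_left
          rw [le_principal_iff]
          exact h3
        exact h5 hh1
      filter_upwards [h4, self_mem_nhdsWithin] with s hs hs2
      have h6 : t < s := hs2
      rw [abs_of_pos (sub_pos.2 h6)] at hs
      have h7 := le_abs_self (h s - h t)
      have h8 : h t - h 0 ≤ (L + ε) * t := ht1
      change h s - h 0 ≤ (L + ε) * s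
      linarith
  have := key (Set.right_mem_Icc.2 zero_le_one)
  simpa using this

section

variable {W : Type} [MetricSpace W] {ψ : E4 → W} {s δ : ℝ}

theorem PkChart.dist_segment (P : PkChart W ψ s δ) {u v : E4}
    (hseg : ∀ t ∈ Set.Icc (0 : ℝ) 1, 0 < ‖u + t • (v - u)‖ ∧ ‖u + t • (v - u)‖ < δ) :
    dist (ψ u) (ψ v) ≤ s * ‖u - v‖ := by
  have hs := P.s_pos
  let h : ℝ → ℝ := fun t => dist (ψ u) (ψ (u + t • (v - u)))
  have key := pk_real_lip (h := h) (L := s * ‖u - v‖) ?_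
  · have h0 : h 0 = 0 := by simp [h]
    have h1 : h 1 = dist (ψ u) (ψ v) := by
      simp only [h, one_smul]
      congr 2
      abel
    rw [h0, h1, sub_zero] at key
    exact key
  · intro t ht ε hε
    obtain ⟨a1, a2⟩ := hseg t ht
    have hn : 0 ≤ s * ‖u - v‖ := by positivity
    have hε' : 0 < ε / (s * ‖u - v‖ + 1) := by positivity
    have h1 := P.upper _ a1 a2 _ hε'
    have hc : Tendsto (fun r : ℝ => (u + r • (v - u), u + t • (v - u))) (𝓝 t)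
        (𝓝 (u + t • (v - u), u + t • (v - u))) := by
      have : Continuous (fun r : ℝ => (u + r • (v - u), u + t • (v - u))) := by fun_prop
      exact this.tendsto t
    have h2 := hc.eventually h1
    filter_upwards [nhdsWithin_le_nhds h2] with r hr
    have e1 : u + r • (v - u) - (u + t • (v - u)) = (r - t) • (v - u) := by
      rw [sub_smul]; abel
    rw [e1, norm_smul, Real.norm_eq_abs, norm_sub_rev v u] at hr
    have h3 : |h r - h t| ≤ dist (ψ (u + r • (v - u))) (ψ (u + t • (v - u))) := by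
      simp only [h]
      rw [dist_comm (ψ u), dist_comm (ψ u)]
      exact abs_dist_sub_le _ _ _
    refine h3.trans (hr.trans ?_)
    have h4 : (1 + ε / (s * ‖u - v‖ + 1)) * (s * (|r - t| * ‖u - v‖)) =
        (s * ‖u - v‖ + ε * (s * ‖u - v‖ / (s * ‖u - v‖ + 1))) * |r - t| := by
      field_simp
    rw [h4]
    apply mul_le_mul_of_nonneg_right _ (abs_nonneg _)
    have h5 : s * ‖u - v‖ / (s * ‖u - v‖ + 1) ≤ 1 := by
      rw [div_le_one (by positivity)]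
      linarith
    nlinarith

theorem pk_segment_pos {u v : E4} (hu : 0 < ‖u‖) (hv : 0 < ‖v‖) (h : 0 ≤ ⟪u, v⟫) {t : ℝ}
    (ht : t ∈ Set.Icc (0 : ℝ) 1) : 0 < ‖u + t • (v - u)‖ := by
  obtain ⟨h0, h1⟩ := ht
  have e : u + t • (v - u) = (1 - t) • u + t • v := by
    rw [smul_sub, sub_smul, one_smul]; abel
  have h2 : 0 < ‖u + t • (v - u)‖ ^ 2 := by
    rw [e, norm_add_sq_real, norm_smul, norm_smul, inner_smul_left, inner_smul_right]
    simp only [conj_trivial, Real.norm_eq_abs]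
    rw [mul_pow, mul_pow, sq_abs, sq_abs]
    have h3 : 0 ≤ 1 - t := by linarith
    have h4 : 0 ≤ 2 * ((1 - t) * (t * ⟪u, v⟫)) := by positivity
    rcases h0.eq_or_lt with h5 | h5
    · subst h5
      simp
      positivity
    · have h6 : 0 < t ^ 2 * ‖v‖ ^ 2 := by positivity
      have h7 : 0 ≤ (1 - t) ^ 2 * ‖u‖ ^ 2 := by positivity
      linarith
  by_contra hcon
  have : ‖u + t • (v - u)‖ = 0 := le_antisymm (not_lt.1 hcon) (norm_nonneg _)
  rw [this] at h2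
  simp at h2

theorem PkChart.dist_le (P : PkChart W ψ s δ) {u v : E4} (hu : 0 < ‖u‖) (hu' : ‖u‖ < δ)
    (hv : 0 < ‖v‖) (hv' : ‖v‖ < δ) : dist (ψ u) (ψ v) ≤ s * modDt 1 u v := by
  have key : ∀ v : E4, 0 < ‖v‖ → ‖v‖ < δ → 0 ≤ ⟪u, v⟫ → dist (ψ u) (ψ v) ≤ s * ‖u - v‖ := by
    intro v hv hv' h
    apply P.dist_segment
    intro t ht
    refine ⟨pk_segment_pos hu hv h ht, ?_⟩
    have hconv := (convex_ball (0 : E4) δ).add_smul_sub_mem (x := u) (y := v)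
      (by simpa using hu') (by simpa using hv') ht
    simpa using hconv
  rw [modDt_one]
  rcases le_total 0 ⟪u, v⟫ with h | h
  · have h1 : ‖u - v‖ ≤ ‖u + v‖ := by
      apply le_of_sq_le_sq _ (norm_nonneg _)
      rw [norm_sub_sq_real, norm_add_sq_real]
      linarith
    rw [min_eq_left h1]
    exact key v hv hv' h
  · have h1 : ‖u + v‖ ≤ ‖u - v‖ := by
      apply le_of_sq_le_sq _ (norm_nonneg _)
      rw [norm_sub_sq_real, norm_add_sq_real]
      linarith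
    rw [min_eq_right h1]
    have h2 := key (-v) (by rwa [norm_neg]) (by rwa [norm_neg]) (by rw [inner_neg_right]; linarith)
    rw [sub_neg_eq_add] at h2
    have h3 : ψ v = ψ (-v) := (P.inj v (-v) hv hv' (by rwa [norm_neg]) (by rwa [norm_neg])).2
      (Or.inr rfl)
    rw [h3]
    exact h2

open Classical in
/-- The tent function. -/
noncomputable def pkTent (ψ : E4 → W) (s δ : ℝ) (v : E4) (w : W) : ℝ :=
  if h : ∃ a, (0 < ‖a‖ ∧ ‖a‖ < δ) ∧ ψ a = w then max 0 (s * δ / 2 - s * modDt 1 h.choose v) else 0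

theorem PkChart.tent_apply (P : PkChart W ψ s δ) (v : E4) {a : E4} (ha : 0 < ‖a‖)
    (ha' : ‖a‖ < δ) : pkTent ψ s δ v (ψ a) = max 0 (s * δ / 2 - s * modDt 1 a v) := by
  unfold pkTent
  have h : ∃ b, (0 < ‖b‖ ∧ ‖b‖ < δ) ∧ ψ b = ψ a := ⟨a, ⟨ha, ha'⟩, rfl⟩
  rw [dif_pos h]
  have hch := h.choose_spec
  generalize h.choose = b at hch ⊢
  obtain ⟨⟨h1, h2⟩, h3⟩ := hch
  rcases (P.inj b a h1 h2 ha ha').1 h3 with h4 | h4
  · rw [h4]
  · rw [h4, modDt_neg_left]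

omit [MetricSpace W] in
theorem pkTent_of_not {v : E4} {w : W} (h : w ∉ ψ '' {a | 0 < ‖a‖ ∧ ‖a‖ < δ}) :
    pkTent ψ s δ v w = 0 := by
  unfold pkTent
  apply dif_neg
  rintro ⟨a, ha, hw⟩
  exact h ⟨a, ha, hw⟩

theorem PkChart.tent_lip (P : PkChart W ψ s δ) (hW : LocLipProp W) {v : E4} (hv : ‖v‖ < δ / 4)
    (p q : W) : |pkTent ψ s δ v p - pkTent ψ s δ v q| ≤ dist p q := by
  have hs := P.s_pos
  have hδ := P.δ_pos
  have := hW (pkTent ψ s δ v) 1 zero_le_one ?_ p q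
  · rwa [one_mul] at this
  intro p ε hε
  by_cases hp : p ∈ ψ '' {a | 0 < ‖a‖ ∧ ‖a‖ < δ}
  · obtain ⟨a, ⟨ha, ha'⟩, rfl⟩ := hp
    have h1 := P.lower a ha ha' ε hε
    have h2 : ∀ᶠ q in 𝓝 (a, a), ((0 < ‖q.1‖ ∧ ‖q.1‖ < δ) ∧ (0 < ‖q.2‖ ∧ ‖q.2‖ < δ)) := by
      have c1 : Continuous (fun q : E4 × E4 => ‖q.1‖) := by fun_prop
      have c2 : Continuous (fun q : E4 × E4 => ‖q.2‖) := by fun_prop
      have e1 := (c1.tendsto (a, a)).eventually (Ioo_mem_nhds ha ha')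
      have e2 := (c2.tendsto (a, a)).eventually (Ioo_mem_nhds ha ha')
      exact e1.and e2
    have h12 := h1.and h2
    rw [nhds_prod_eq] at h12
    obtain ⟨U, hU, hUU⟩ := Filter.mem_prod_self_iff.1 h12
    have h3 := P.opn a ha ha' U hU
    have h4 : ∀ᶠ q in 𝓝 (ψ a, ψ a), q.1 ∈ ψ '' U ∧ q.2 ∈ ψ '' U := by
      rw [nhds_prod_eq]
      exact (Filter.prod_mem_prod h3 h3)
    filter_upwards [h4] with q hq
    obtain ⟨⟨x, hx, hx'⟩, ⟨y, hy, hy'⟩⟩ := hq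
    obtain ⟨h5, ⟨h6, h7⟩, h8, h9⟩ := hUU (Set.mk_mem_prod hx hy)
    rw [← hx', ← hy', P.tent_apply v h6 h7, P.tent_apply v h8 h9]
    have h10 : |max 0 (s * δ / 2 - s * modDt 1 x v) - max 0 (s * δ / 2 - s * modDt 1 y v)| ≤
        |(s * δ / 2 - s * modDt 1 x v) - (s * δ / 2 - s * modDt 1 y v)| :=
      (abs_max_sub_max_le_abs _ _ _).trans_eq' (by rw [max_comm _ 0, max_comm _ 0])
    refine h10.trans ?_
    have h11 : (s * δ / 2 - s * modDt 1 x v) - (s * δ / 2 - s * modDt 1 y v) =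
        -(s * (modDt 1 x v - modDt 1 y v)) := by ring
    rw [h11, abs_neg, abs_mul, abs_of_pos hs]
    have h12 := modDt_one_lip x y v
    simp only at h5
    nlinarith
  · have h1 : IsClosed (ψ '' {u | 0 < ‖u‖ ∧ ‖u‖ ≤ 3 * δ / 4}) := P.closed _ (by linarith)
    have h2 : p ∈ (ψ '' {u | 0 < ‖u‖ ∧ ‖u‖ ≤ 3 * δ / 4})ᶜ := by
      rintro ⟨a, ⟨ha, ha'⟩, h⟩
      exact hp ⟨a, ⟨ha, by linarith⟩, h⟩
    have h3 := h1.isOpen_compl.mem_nhds h2
    have h4 : ∀ᶠ q in 𝓝 (p, p), q.1 ∈ (ψ '' {u | 0 < ‖u‖ ∧ ‖u‖ ≤ 3 * δ / 4})ᶜ ∧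
        q.2 ∈ (ψ '' {u | 0 < ‖u‖ ∧ ‖u‖ ≤ 3 * δ / 4})ᶜ := by
      rw [nhds_prod_eq]
      exact (Filter.prod_mem_prod h3 h3)
    have h5 : ∀ w ∈ (ψ '' {u | 0 < ‖u‖ ∧ ‖u‖ ≤ 3 * δ / 4})ᶜ, pkTent ψ s δ v w = 0 := by
      intro w hw
      by_cases hw2 : w ∈ ψ '' {a | 0 < ‖a‖ ∧ ‖a‖ < δ}
      · obtain ⟨a, ⟨ha, ha'⟩, rfl⟩ := hw2
        rw [P.tent_apply v ha ha']
        apply max_eq_left
        have h6 : 3 * δ / 4 < ‖a‖ := by
          by_contra hcon
          exact hw ⟨a, ⟨ha, not_lt.1 hcon⟩, rfl⟩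
        have h7 := le_modDt_one a v
        have h8 : δ / 2 ≤ modDt 1 a v := by linarith
        nlinarith
      · exact pkTent_of_not hw2
    filter_upwards [h4] with q hq
    rw [h5 _ hq.1, h5 _ hq.2]
    rw [sub_self, abs_zero]
    exact mul_nonneg (by linarith) dist_nonneg

theorem PkChart.dist_eq (P : PkChart W ψ s δ) (hW : LocLipProp W) {u v : E4} (hu : 0 < ‖u‖)
    (hu' : ‖u‖ < δ / 4) (hv : 0 < ‖v‖) (hv' : ‖v‖ < δ / 4) :
    dist (ψ u) (ψ v) = s * modDt 1 u v := by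
  have hs := P.s_pos
  have hδ := P.δ_pos
  apply le_antisymm (P.dist_le hu (by linarith) hv (by linarith))
  have h1 := P.tent_lip hW hv' (ψ v) (ψ u)
  rw [P.tent_apply v hv (by linarith), P.tent_apply v hu (by linarith), modDt_self, dist_comm,
    mul_zero, sub_zero] at h1
  have h2 := modDt_one_le_add u v
  have h3 : 0 ≤ s * δ / 2 - s * modDt 1 u v := by nlinarith
  rw [max_eq_right h3, max_eq_right (by positivity)] at h1
  have h4 := (abs_le.1 h1).2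
  linarith

theorem PkChart.le_dist (P : PkChart W ψ s δ) (hW : LocLipProp W) {v : E4} (hv : 0 < ‖v‖)
    (hv' : ‖v‖ < δ / 4) {w : W} (hw : w ∉ ψ '' {a | 0 < ‖a‖ ∧ ‖a‖ < δ / 4}) :
    s * (δ / 4 - ‖v‖) ≤ dist w (ψ v) := by
  have hs := P.s_pos
  have hδ := P.δ_pos
  have h1 := P.tent_lip hW hv' (ψ v) w
  rw [P.tent_apply v hv (by linarith), modDt_self, mul_zero, sub_zero,
    max_eq_right (by positivity), dist_comm] at h1
  have h2 := (abs_le.1 h1).2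
  by_cases hw2 : w ∈ ψ '' {a | 0 < ‖a‖ ∧ ‖a‖ < δ}
  · obtain ⟨a, ⟨ha, ha'⟩, rfl⟩ := hw2
    have h3 : δ / 4 ≤ ‖a‖ := by
      by_contra hcon
      exact hw ⟨a, ⟨ha, not_le.1 hcon⟩, rfl⟩
    rw [P.tent_apply v ha ha'] at h2
    have h4 := le_modDt_one a v
    rcases le_total 0 (s * δ / 2 - s * modDt 1 a v) with h5 | h5
    · rw [max_eq_right h5] at h2
      nlinarith
    · rw [max_eq_left h5] at h2
      nlinarith
  · rw [pkTent_of_not hw2] at h2
    nlinarith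

end

/-- The limit point in the completion. -/
theorem exists_pk {W X : Type} [MetricSpace W] [MetricSpace X] [CompleteSpace X] {e : W → X}
    (he : Isometry e) (hd : DenseRange e) (hW : LocLipProp W) {ψ : E4 → W} {s δ : ℝ}
    (P : PkChart W ψ s δ) :
    ∃ p : X, p ∈ badSet X ∧
      (∀ u, 0 < ‖u‖ → ‖u‖ < δ / 4 → dist p (e (ψ u)) = s * ‖u‖) ∧
      ∀ w, w ∉ ψ '' {a | 0 < ‖a‖ ∧ ‖a‖ < δ / 4} → s * (δ / 4) ≤ dist p (e w) := by
  have hs := P.s_pos
  have hδ := P.δ_pos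
  -- the sequence
  let v : ℕ → E4 := fun n => (δ / 8 * (1 / ((n : ℝ) + 1))) • bv 0
  have hb : ‖bv 0‖ = 1 := by simp [bv]
  have hvn : ∀ n, ‖v n‖ = δ / 8 * (1 / ((n : ℝ) + 1)) := by
    intro n
    simp only [v]
    rw [norm_smul, hb, mul_one, Real.norm_eq_abs, abs_of_pos (by positivity)]
  have hv0 : ∀ n, 0 < ‖v n‖ := by intro n; rw [hvn]; positivity
  have hv1 : ∀ n, ‖v n‖ < δ / 4 := by
    intro n
    rw [hvn]
    have h1 : 1 / ((n : ℝ) + 1) ≤ 1 := by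
      rw [div_le_one (by positivity)]
      linarith [(Nat.cast_nonneg n : (0 : ℝ) ≤ n)]
    nlinarith
  have hvt : Tendsto (fun n => ‖v n‖) atTop (𝓝 0) := by
    have h1 : Tendsto (fun n : ℕ => δ / 8 * (1 / ((n : ℝ) + 1))) atTop (𝓝 (δ / 8 * 0)) :=
      tendsto_one_div_add_atTop_nhds_zero_nat.const_mul _
    rw [mul_zero] at h1
    exact h1.congr fun n => (hvn n).symm
  have hvt' : Tendsto v atTop (𝓝 0) := tendsto_zero_iff_norm_tendsto_zero.2 hvt
  have hcauchy : CauchySeq (fun n => e (ψ (v n))) := by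
    rw [Metric.cauchySeq_iff']
    intro ε hε
    have h1 : ∀ᶠ n in atTop, ‖v n‖ < ε / (2 * s) := hvt.eventually (gt_mem_nhds (by positivity))
    obtain ⟨N, hN⟩ := eventually_atTop.1 h1
    refine ⟨N, fun n hn => ?_⟩
    rw [he.dist_eq, P.dist_eq hW (hv0 n) (hv1 n) (hv0 N) (hv1 N)]
    have h2 := modDt_one_le_add (v n) (v N)
    have h3 := hN n hn
    have h4 := hN N le_rfl
    have h5 : s * modDt 1 (v n) (v N) < s * (ε / (2 * s) + ε / (2 * s)) := by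
      apply mul_lt_mul_of_pos_left _ hs
      linarith
    refine h5.trans_le (le_of_eq ?_)
    field_simp
    ring
  obtain ⟨p, hp⟩ := cauchySeq_tendsto_of_complete hcauchy
  have hpd : ∀ u, 0 < ‖u‖ → ‖u‖ < δ / 4 → dist p (e (ψ u)) = s * ‖u‖ := by
    intro u hu hu'
    have h1 : Tendsto (fun n => dist (e (ψ (v n))) (e (ψ u))) atTop (𝓝 (dist p (e (ψ u)))) :=
      hp.dist tendsto_const_nhds
    have h2 : Tendsto (fun n => s * modDt 1 (v n) u) atTop (𝓝 (s * ‖u‖)) := by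
      apply Tendsto.const_mul
      have h3 : Tendsto (fun n => modDt 1 (v n) u - ‖u‖) atTop (𝓝 0) := by
        apply squeeze_zero_norm _ hvt
        intro n
        have h4 := modDt_one_lip (v n) 0 u
        rw [modDt_zero_left, sub_zero] at h4
        exact h4
      have h5 := h3.add_const ‖u‖
      simpa using h5
    refine tendsto_nhds_unique h1 (h2.congr fun n => ?_)
    rw [he.dist_eq, P.dist_eq hW (hv0 n) (hv1 n) hu hu']
  have hpw : ∀ w, w ∉ ψ '' {a | 0 < ‖a‖ ∧ ‖a‖ < δ / 4} → s * (δ / 4) ≤ dist p (e w) := by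
    intro w hw
    have h1 : Tendsto (fun n => dist (e (ψ (v n))) (e w)) atTop (𝓝 (dist p (e w))) :=
      hp.dist tendsto_const_nhds
    have h2 : Tendsto (fun n => s * (δ / 4 - ‖v n‖)) atTop (𝓝 (s * (δ / 4))) := by
      have := (hvt.const_sub (δ / 4)).const_mul s
      simpa using this
    refine le_of_tendsto_of_tendsto' h2 h1 fun n => ?_
    rw [he.dist_eq, dist_comm]
    exact P.le_dist hW (hv0 n) (hv1 n) hw
  refine ⟨p, ?_, hpd, hpw⟩
  apply mem_badSet_of_coords p (R := 1) (Or.inr rfl)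
  intro η hη
  refine ⟨s * (δ / 4) / 4, by positivity, fun r hr hr' => ?_⟩
  classical
  -- coordinates
  let A : Set X := {a | ∃ u, (0 < ‖u‖ ∧ ‖u‖ < δ / 4) ∧ e (ψ u) = a}
  let c : X → E4 := fun a =>
    if h : ∃ u, (0 < ‖u‖ ∧ ‖u‖ < δ / 4) ∧ e (ψ u) = a then s • h.choose else 0
  have hc : ∀ u, 0 < ‖u‖ → ‖u‖ < δ / 4 → c (e (ψ u)) = s • u ∨ c (e (ψ u)) = -(s • u) := by
    intro u hu hu'
    have h : ∃ u', (0 < ‖u'‖ ∧ ‖u'‖ < δ / 4) ∧ e (ψ u') = e (ψ u) := ⟨u, ⟨hu, hu'⟩, rfl⟩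
    have h0 : c (e (ψ u)) = s • h.choose := dif_pos h
    have hch := h.choose_spec
    rw [h0]
    generalize h.choose = b at hch ⊢
    obtain ⟨⟨h1, h2⟩, h3⟩ := hch
    rcases (P.inj b u h1 (by linarith) hu (by linarith)).1 (he.injective h3) with h4 | h4
    · left; rw [h4]
    · right; rw [h4, smul_neg, neg_neg]
  have hc2 : ∀ u v, 0 < ‖u‖ → ‖u‖ < δ / 4 → modDt 1 (c (e (ψ u))) v = modDt 1 (s • u) v := by
    intro u v hu hu'
    rcases hc u hu hu' with h | h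
    · rw [h]
    · rw [h, modDt_neg_left]
  have hsmall : ∀ η' > 0, ∃ n, s * ‖v n‖ ≤ η' := by
    intro η' hη'
    have h1 : ∀ᶠ n in atTop, ‖v n‖ < η' / s := hvt.eventually (gt_mem_nhds (by positivity))
    obtain ⟨n, hn⟩ := h1.exists
    refine ⟨n, ?_⟩
    rw [lt_div_iff₀ hs] at hn
    linarith
  refine ⟨A, c, ?_, ?_, ?_, ?_⟩
  · intro a ha
    obtain ⟨w, hw⟩ := hd.exists_dist_lt a (ε := min (η * r) r) (by positivity)
    have h1 : dist p (e w) < 2 * r := by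
      have h2 := dist_triangle p a (e w)
      rw [dist_comm p a] at h2
      have h3 := hw.trans_le (min_le_right _ _)
      linarith
    by_cases hw2 : w ∈ ψ '' {a | 0 < ‖a‖ ∧ ‖a‖ < δ / 4}
    · obtain ⟨u, hu, rfl⟩ := hw2
      exact ⟨e (ψ u), ⟨u, hu, rfl⟩, (hw.trans_le (min_le_left _ _)).le⟩
    · exfalso
      have h2 := hpw w hw2
      linarith
  · rintro a ⟨u, hu, rfl⟩ b ⟨u', hu', rfl⟩
    rw [hc2 u _ hu.1 hu.2, modDt_comm, hc2 u' _ hu'.1 hu'.2, modDt_comm, modDt_smul hs.le,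
      he.dist_eq, P.dist_eq hW hu.1 hu.2 hu'.1 hu'.2, sub_self, abs_zero]
    positivity
  · obtain ⟨n, hn⟩ := hsmall (η * r) (by positivity)
    refine ⟨e (ψ (v n)), ⟨v n, ⟨hv0 n, hv1 n⟩, rfl⟩, ?_, ?_⟩
    · rw [hpd _ (hv0 n) (hv1 n)]
      exact hn
    · rcases hc (v n) (hv0 n) (hv1 n) with h | h
      · rw [h, norm_smul, Real.norm_eq_abs, abs_of_pos hs]
        exact hn
      · rw [h, norm_neg, norm_smul, Real.norm_eq_abs, abs_of_pos hs]
        exact hn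
  · intro u hu
    by_cases hu0 : u = 0
    · obtain ⟨n, hn⟩ := hsmall (η * r) (by positivity)
      refine ⟨e (ψ (v n)), ⟨v n, ⟨hv0 n, hv1 n⟩, rfl⟩, ?_⟩
      rw [hu0, modDt_comm, hc2 _ _ (hv0 n) (hv1 n), modDt_comm, modDt_zero_left, norm_smul,
        Real.norm_eq_abs, abs_of_pos hs]
      exact hn
    · have h1 : ‖s⁻¹ • u‖ = s⁻¹ * ‖u‖ := by
        rw [norm_smul, norm_inv, Real.norm_eq_abs, abs_of_pos hs]
      have h2 : 0 < ‖s⁻¹ • u‖ := by
        rw [h1]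
        have := norm_pos_iff.2 hu0
        positivity
      have h3 : ‖s⁻¹ • u‖ < δ / 4 := by
        rw [h1, inv_mul_lt_iff₀ hs]
        linarith
      refine ⟨e (ψ (s⁻¹ • u)), ⟨s⁻¹ • u, ⟨h2, h3⟩, rfl⟩, ?_⟩
      rw [modDt_comm, hc2 _ _ h2 h3, smul_smul, mul_inv_cancel₀ hs.ne', one_smul, modDt_self]
      positivity

end Pool.Agent.W_MP_654ec6_h2
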