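import Pool.Agent.W_MP_654ec6_h2.ConeX

/-!
# Part G, ConeFin: the vertex `x` belongs to the bad set and is the limit of the blocks
-/

open scoped RealInnerProductSpace Topology
open Filter InnerProductGeometry

namespace Pool.Agent.W_MP_654ec6_h2

open Pool.Agent.W_MP_654ec6

section

variable {R : ℝ} {ρ : ℕ → ℝ} {C : ℝ} {W : Type} [MetricSpace W] {ψ : ℕ → E4 → W} {U : ℕ → Set W}

/-- An interior point of any patch in terms of the patch `0`. -/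
theorem psi_eq_ca (D : AmbData R ⊤ ρ C ψ U) (hA : AmbFun R) {j : ℕ} {a : E4}
    (ha : a ∈ VA ⊤ ρ j) (hint : GG ⊤ (pX ⊤ j a) < pY ⊤ j a) :
    ψ j a = ψ 0 (ca (pX ⊤ j a) (pY ⊤ j a) (dir3 a)) := by
  have h1 := norm_dir3 (interior_data hA hint).1
  have h2 : ca (pX ⊤ j a) (pY ⊤ j a) (dir3 a) ∈ VA ⊤ ρ 0 :=
    ca_mem_VA hA hint h1 (fun k hk => ha.2.1 k hk le_top)
  rw [D.same j 0 le_top le_top a ha _ h2]
  refine ⟨?_, Or.inl ⟨?_, ?_⟩⟩
  · rw [pY_ca hA hint h1]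
  · rw [pX_ca hA hint h1]
  · rw [dir3_ca hA hint h1]

/-- Points with small model norm are close to admissible tuples. -/
theorem cover_w (D : AmbData R ⊤ ρ C ψ U) (hA : AmbFun R) {κ ε : ℝ} (hκ : 0 < κ)
    (hκ1 : κ ≤ 1 / 8) (hε : 0 < ε) (hεκ : ε ≤ κ) :
    ∃ r₀ > (0 : ℝ), ∀ r, 0 < r → r < r₀ → ∀ w : W, ‖thW ρ ψ U ε w‖ < 2 * r →
      ∃ (X Y : ℝ) (ξ : E3), ‖ξ‖ = 1 ∧ |X| ≤ 3 * r ∧ 8 * κ * r ≤ Y ∧ Y ≤ 3 * r ∧
        dist w (ψ 0 (ca X (FF ⊤ 0 + Y) ξ)) ≤ 10 * κ * r := by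
  obtain ⟨η, hη, H⟩ := hA.FF_small ε hε
  obtain ⟨η', hη', H'⟩ := hA.GG_small ε hε
  have hC := D.C_pos
  refine ⟨min (min (η / 3) (η' / 3)) (min κ (κ / C)), by positivity, ?_⟩
  intro r hr hrr w hw
  have hr1 : r < η / 3 := hrr.trans_le ((min_le_left _ _).trans (min_le_left _ _))
  have hr2 : r < η' / 3 := hrr.trans_le ((min_le_left _ _).trans (min_le_right _ _))
  have hr3 : r < κ := hrr.trans_le ((min_le_right _ _).trans (min_le_left _ _))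
  have hr4 : C * r < κ := by
    have := hrr.trans_le ((min_le_right _ _).trans (min_le_right _ _))
    rwa [lt_div_iff₀ hC, mul_comm] at this
  have hκr : 0 < κ * r := by positivity
  -- blocks
  have hblk : ∀ (k : ℕ) (w : W), 1 ≤ k → w ∈ U k → zz k ≤ 3 * r →
      ∃ (X Y : ℝ) (ξ : E3), ‖ξ‖ = 1 ∧ |X| ≤ 3 * r ∧ 8 * κ * r ≤ Y ∧ Y ≤ 3 * r ∧
        dist w (ψ 0 (ca X (FF ⊤ 0 + Y) ξ)) ≤ 9 * κ * r := by
    intro k w hk hwk hzk
    have hz := zz_pos' k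
    have hρ := D.ρ_le k hk
    have h1 := H (zz k) 0 (by rw [abs_of_pos hz]; linarith) (by rw [abs_zero]; exact hη.le)
    rw [sub_zero, abs_of_pos hz] at h1
    have h2 := le_abs_self (FF ⊤ (zz k) - FF ⊤ 0)
    have h3 : ε * zz k ≤ κ * (3 * r) := mul_le_mul hεκ hzk hz.le hκ.le
    have h4 : zz k ^ 2 ≤ (3 * r) ^ 2 := pow_le_pow_left₀ hz.le hzk 2
    have h5 : r * r ≤ κ * r := mul_le_mul_of_nonneg_right hr3.le hr.le
    have h6 := blk_up D hA hk hwk (s := 8 * κ * r) (by nlinarith)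
    have h7 : C * ρ k ≤ κ * r := by
      have h8 : C * ρ k ≤ C * (r * r) := mul_le_mul_of_nonneg_left (by nlinarith) hC.le
      have h9 : C * (r * r) ≤ κ * r := by
        have := mul_le_mul_of_nonneg_right hr4.le hr.le
        linarith
      linarith
    refine ⟨zz k, 8 * κ * r, xi0, norm_xi0, ?_, le_rfl, ?_, ?_⟩
    · rw [abs_of_pos hz]; exact hzk
    · nlinarith
    · linarith
  -- interior points
  have hintr : ∀ (j : ℕ) (a : E4), a ∈ VA ⊤ ρ j → GG ⊤ (pX ⊤ j a) < pY ⊤ j a →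
      |pX ⊤ j a| < 2 * r → thM ε j a < 2 * r →
      ∃ (X Y : ℝ) (ξ : E3), ‖ξ‖ = 1 ∧ |X| ≤ 3 * r ∧ 8 * κ * r ≤ Y ∧ Y ≤ 3 * r ∧
        dist (ψ j a) (ψ 0 (ca X (FF ⊤ 0 + Y) ξ)) ≤ 9 * κ * r := by
    intro j a ha hint hX hM
    rw [psi_eq_ca D hA ha hint]
    have hξ := norm_dir3 (interior_data hA hint).1
    have hv : ∀ k : ℕ, 1 ≤ k → ρ k < vd ⊤ k (pX ⊤ j a) (pY ⊤ j a) := fun k hk =>
      ha.2.1 k hk le_top
    have hM' : pY ⊤ j a - FF ⊤ (pX ⊤ j a) - ε * |pX ⊤ j a| < 2 * r :=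
      (le_max_right _ _).trans_lt hM
    have h1 := H (pX ⊤ j a) 0 (by linarith) (by rw [abs_zero]; exact hη.le)
    rw [sub_zero] at h1
    have h2 := le_abs_self (FF ⊤ (pX ⊤ j a) - FF ⊤ 0)
    have h3 : ε * |pX ⊤ j a| ≤ 1 / 8 * (2 * r) :=
      mul_le_mul (hεκ.trans hκ1) hX.le (abs_nonneg _) (by norm_num)
    generalize pX ⊤ j a = X at *
    generalize pY ⊤ j a = Y at *
    generalize dir3 a = ξ at *
    by_cases hY : 8 * κ * r ≤ Y - FF ⊤ 0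
    · refine ⟨X, Y - FF ⊤ 0, ξ, hξ, by linarith, hY, by linarith, ?_⟩
      have e : FF ⊤ 0 + (Y - FF ⊤ 0) = Y := by ring
      rw [e, dist_self]
      positivity
    · push Not at hY
      rcases amb_up D hA hξ hint hv (s := 8 * κ * r) (by linarith) with h | ⟨k, hk, hwk, hXk⟩
      · refine ⟨X, 8 * κ * r, ξ, hξ, by linarith, le_rfl, by nlinarith, by linarith⟩
      · apply hblk k _ hk hwk
        have h4 := rho_lt_zz D hk
        have h5 := (abs_le.1 hXk).1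
        linarith
  by_cases hn : ∃ p : ℕ × E4, p.2 ∈ VA ⊤ ρ p.1 ∧ ψ p.1 p.2 = w
  · obtain ⟨⟨j, a⟩, ha, rfl⟩ := hn
    simp only at ha hw ⊢
    have hth : ‖th ε j a‖ < 2 * r := by
      rcases thW_amb D hA ε ha with h | h
      · rwa [h] at hw
      · rwa [h, norm_neg] at hw
    have hX : |pX ⊤ j a| < 2 * r := (abs_le_norm_cv _ _).trans_lt hth
    have hM0 := thM_nonneg ε j a
    by_cases hint : GG ⊤ (pX ⊤ j a) < pY ⊤ j a
    · have hξ := norm_dir3 (interior_data hA hint).1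
      have hM : thM ε j a < 2 * r := by
        refine lt_of_le_of_lt ?_ hth
        unfold th
        have h1 := norm_cv_sq (pX ⊤ j a) (thM ε j a • dir3 a)
        rw [norm_smul, hξ, mul_one, Real.norm_eq_abs, abs_of_nonneg hM0] at h1
        apply le_of_sq_le_sq _ (norm_nonneg _)
        rw [h1]
        nlinarith [sq_nonneg (pX ⊤ j a)]
      obtain ⟨X, Y, ξ, k1, k2, k3, k4, k5⟩ := hintr j a ha hint hX hM
      exact ⟨X, Y, ξ, k1, k2, k3, k4, by linarith⟩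
    · have hV : n3 a = 0 ∧ opEdge ⊤ j (pX ⊤ j a) := by
        rcases ha.1 with h | h
        · exact absurd h hint
        · exact h
      have hM : thM ε j a < 2 * r := by
        have h1 := H' (pX ⊤ j a) (by linarith)
        have h2 := hA.edge_Y j a hV.1 hV.2
        unfold thM
        rw [h2]
        have h3 : 0 ≤ ε * |pX ⊤ j a| := by positivity
        apply max_lt (by linarith)
        linarith
      -- approximate by interior points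
      have hu := D.upper j le_top a ha 1 one_pos
      have hc : Tendsto (fun v : E4 => ((v, a) : E4 × E4)) (𝓝 a) (𝓝 (a, a)) :=
        (Continuous.prodMk continuous_id continuous_const).tendsto a
      have hu2 := hc.eventually hu
      have hB : BC R ⊤ j a = 1 := by
        unfold BC
        rw [if_pos hV.1]
      have hu3 : ∀ᶠ v in 𝓝 a, dist (ψ j v) (ψ j a) ≤ 2 * ‖v - a‖ := by
        filter_upwards [hu2] with v hv
        change dist (ψ j v) (ψ j a) ≤ (1 + 1) * Real.sqrt (qf (gC R ⊤ j a) (v - a)) at hv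
        rw [qf_gC'] at hv
        unfold QB at hv
        rw [hB, sub_self, zero_mul, add_zero, Real.sqrt_sq (norm_nonneg _)] at hv
        linarith
      have hu4 : ∀ᶠ v in 𝓝 a, ‖v - a‖ < κ * r / 2 := by
        have hc2 : Continuous (fun v : E4 => ‖v - a‖) := by fun_prop
        apply (hc2.tendsto a).eventually (gt_mem_nhds _)
        rw [sub_self, norm_zero]
        positivity
      have hu5 : ∀ᶠ v in 𝓝 a, |pX ⊤ j v| < 2 * r :=
        ((continuous_pX ⊤ j).abs.tendsto a).eventually (gt_mem_nhds hX)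
      have hu6 : ∀ᶠ v in 𝓝 a, thM ε j v < 2 * r :=
        ((continuous_thM hA ε j).tendsto a).eventually (gt_mem_nhds hM)
      have hu7 : ∀ᶠ v in 𝓝 a, v ∈ VA ⊤ ρ j := (D.isOpen_VA j le_top).mem_nhds ha
      obtain ⟨v, ⟨q3, q4, q5, q6, q7⟩, hint'⟩ := hA.near_edge j a hV.1 hV.2 _
        (hu3.and (hu4.and (hu5.and (hu6.and hu7))))
      obtain ⟨X, Y, ξ, k1, k2, k3, k4, k5⟩ := hintr j v q7 hint' q5 q6
      refine ⟨X, Y, ξ, k1, k2, k3, k4, ?_⟩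
      have := dist_triangle_left (ψ j a) (ψ 0 (ca X (FF ⊤ 0 + Y) ξ)) (ψ j v)
      linarith
  · have hk : ∃ k : ℕ, 1 ≤ k ∧ w ∈ U k := by
      rcases D.cover w with ⟨j, _, a, ha, hw⟩ | ⟨k, _, hk, hw⟩
      · exact absurd ⟨(j, a), ha, hw⟩ hn
      · exact ⟨k, hk rfl, hw⟩
    obtain ⟨k, hk, hwk⟩ := hk
    rw [thW_blk D ε hk hwk hn, norm_cv_zero, abs_of_pos (zz_pos' k)] at hw
    obtain ⟨X, Y, ξ, k1, k2, k3, k4, k5⟩ := hblk k w hk hwk (by linarith)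
    exact ⟨X, Y, ξ, k1, k2, k3, k4, by linarith⟩

/-- Every small `r` is comparable to some `zz m`. -/
theorem exists_scale {r : ℝ} (hr : 0 < r) (K : ℕ) (hrK : r < zz (K + 3) / 8) :
    ∃ m : ℕ, K ≤ m ∧ 4 * r ≤ zz m ∧ zz m ≤ 8 * r := by
  have hex : ∃ m : ℕ, zz m < 4 * r := exists_pow_lt_of_lt_one (by linarith) (by norm_num)
  classical
  let m := Nat.find hex
  have h1 : zz m < 4 * r := Nat.find_spec hex
  have h2 : ∀ l, l < m → 4 * r ≤ zz l := fun l hl => not_lt.1 (Nat.find_min hex hl)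
  have h3 : K + 3 < m := by
    by_contra hcon
    push Not at hcon
    have h4 := zz_anti' hcon
    have h5 := zz_pos' (K + 3)
    have h6 : r < zz (K + 3) / 8 := hrK
    linarith
  refine ⟨m - 1, by omega, h2 _ (by omega), ?_⟩
  have h4 : zz m = zz (m - 1) / 2 := by
    rw [← zz_succ']
    congr 1
    omega
  linarith

/-- The vertex `x` has coordinates as in the model cone. -/
theorem coneCoords_x (D : AmbData R ⊤ ρ C ψ U) (hA : AmbFun R) {X : Type} [MetricSpace X]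
    {e : W → X} (he : Isometry e) (hd : DenseRange e) {x : X}
    (hx : ∀ s, 0 < s → dist x (e (ψ 0 (ca 0 (FF ⊤ 0 + s) xi0))) ≤ s) : ConeCoords X x R := by
  have hR : ROk R := Or.inl ⟨D.R_pos, D.R_le.trans (by norm_num)⟩
  intro δ hδ
  set κ : ℝ := min (1 / 100) (δ / 100) with hκdef
  have hκ : 0 < κ := by positivity
  have hκ1 : κ ≤ 1 / 100 := min_le_left _ _
  have hκ2 : κ ≤ δ / 100 := min_le_right _ _
  obtain ⟨ε, hε, hε1, hεκ, K₀, HL⟩ := lower_main D hA hκ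
  obtain ⟨η, hη, H⟩ := hA.FF_small ε hε
  obtain ⟨r₁, hr₁, HT⟩ := tuple_dist D hA hκ hε hεκ (fun m hm p q => (HL m hm p q).1)
  obtain ⟨r₂, hr₂, HC⟩ := cover_w D hA hκ (by linarith) hε hεκ
  obtain ⟨r₃, hr₃, HR⟩ := region D hA (δ := κ) hκ
  refine ⟨min (min r₁ r₂) (min r₃ (zz (K₀ + 3) / 8)), by have := zz_pos' (K₀ + 3); positivity, ?_⟩
  intro r hr hrr
  have hrr1 : r < r₁ := hrr.trans_le ((min_le_left _ _).trans (min_le_left _ _))
  have hrr2 : r < r₂ := hrr.trans_le ((min_le_left _ _).trans (min_le_right _ _))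
  have hrr3 : r < r₃ := hrr.trans_le ((min_le_right _ _).trans (min_le_left _ _))
  have hrr4 : r < zz (K₀ + 3) / 8 := hrr.trans_le ((min_le_right _ _).trans (min_le_right _ _))
  obtain ⟨m, hm, hm1, hm2⟩ := exists_scale hr K₀ hrr4
  have hκr : 0 < κ * r := by positivity
  have hδr : 100 * (κ * r) ≤ δ * r := by nlinarith
  have HTr := HT r hr hrr1 m hm hm1 hm2
  -- tuples
  let Adm : ℝ → ℝ → E3 → Prop := fun X₁ Y₁ ξ => |X₁| ≤ 3 * r ∧ 8 * κ * r ≤ Y₁ ∧ Y₁ ≤ 3 * r ∧ ‖ξ‖ = 1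
  have hT : ∀ X₁ Y₁ ξ X₂ Y₂ ξ', Adm X₁ Y₁ ξ → Adm X₂ Y₂ ξ' →
      |dist (e (ψ 0 (ca X₁ (FF ⊤ 0 + Y₁) ξ))) (e (ψ 0 (ca X₂ (FF ⊤ 0 + Y₂) ξ'))) -
        modDt R (cv X₁ (Y₁ • ξ)) (cv X₂ (Y₂ • ξ'))| ≤ 32 * (κ * r) := by
    intro X₁ Y₁ ξ X₂ Y₂ ξ' h1 h2
    rw [he.dist_eq]
    have := HTr X₁ X₂ Y₁ Y₂ ξ ξ' h1.1 h2.1 h1.2.1 h1.2.2.1 h2.2.1 h2.2.2.1 h1.2.2.2 h2.2.2.2
    linarith
  classical
  let A : Set X := {a | ∃ t : ℝ × ℝ × E3, Adm t.1 t.2.1 t.2.2 ∧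
    e (ψ 0 (ca t.1 (FF ⊤ 0 + t.2.1) t.2.2)) = a}
  let c : X → E4 := fun a => if h : ∃ t : ℝ × ℝ × E3, Adm t.1 t.2.1 t.2.2 ∧
    e (ψ 0 (ca t.1 (FF ⊤ 0 + t.2.1) t.2.2)) = a then
      cv h.choose.1 (h.choose.2.1 • h.choose.2.2) else 0
  have hc : ∀ a ∈ A, ∃ X₁ Y₁ ξ, Adm X₁ Y₁ ξ ∧ e (ψ 0 (ca X₁ (FF ⊤ 0 + Y₁) ξ)) = a ∧
      c a = cv X₁ (Y₁ • ξ) := by
    intro a ha
    have ha' : ∃ t : ℝ × ℝ × E3, Adm t.1 t.2.1 t.2.2 ∧
      e (ψ 0 (ca t.1 (FF ⊤ 0 + t.2.1) t.2.2)) = a := ha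
    have e1 : c a = cv ha'.choose.1 (ha'.choose.2.1 • ha'.choose.2.2) := dif_pos ha'
    exact ⟨_, _, _, ha'.choose_spec.1, ha'.choose_spec.2, e1⟩
  have hA1 : ∀ X₁ Y₁ ξ, Adm X₁ Y₁ ξ → e (ψ 0 (ca X₁ (FF ⊤ 0 + Y₁) ξ)) ∈ A :=
    fun X₁ Y₁ ξ h => ⟨(X₁, Y₁, ξ), h, rfl⟩
  have hcc : ∀ X₁ Y₁ ξ, Adm X₁ Y₁ ξ →
      modDt R (c (e (ψ 0 (ca X₁ (FF ⊤ 0 + Y₁) ξ)))) (cv X₁ (Y₁ • ξ)) ≤ 32 * (κ * r) := by
    intro X₁ Y₁ ξ h
    obtain ⟨X₂, Y₂, ξ', h2, h3, h4⟩ := hc _ (hA1 X₁ Y₁ ξ h)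
    rw [h4]
    have h5 := hT X₂ Y₂ ξ' X₁ Y₁ ξ h2 h
    rw [h3, dist_self, zero_sub, abs_neg, abs_of_nonneg (modDt_nonneg _ _ _)] at h5
    exact h5
  refine ⟨A, c, ?_, ?_, ?_, ?_⟩
  · intro a ha
    obtain ⟨w, hw⟩ := hd.exists_dist_lt a (ε := κ * r) hκr
    -- the norm of `thW w`
    have hwx : dist w (ψ 0 (ca 0 (FF ⊤ 0 + κ * r) xi0)) ≤ r + 2 * (κ * r) := by
      rw [← he.dist_eq]
      have h1 := hx (κ * r) hκr
      have h2 := dist_triangle4 (e w) a x (e (ψ 0 (ca 0 (FF ⊤ 0 + κ * r) xi0)))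
      rw [dist_comm (e w) a] at h2
      linarith
    have hq := (HL m hm w (ψ 0 (ca 0 (FF ⊤ 0 + κ * r) xi0))).2
    obtain ⟨g1, g2⟩ := HR r hr hrr3 0 (FF ⊤ 0 + κ * r) (by rw [abs_zero]; positivity) (by linarith)
    obtain ⟨u, hu, hu1, hu2⟩ := thW_ca (U := U) D hA hε H norm_xi0 (X := 0) (Y := κ * r)
      (by rw [abs_zero]; exact hη.le) hκr.le g1 g2
    rw [abs_zero, zero_add] at hu2
    have hun : ‖thW ρ ψ U ε (ψ 0 (ca 0 (FF ⊤ 0 + κ * r) xi0))‖ ≤ κ * r := by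
      rcases hu with h | h
      · rw [h]; exact hu2
      · rw [h, norm_neg]; exact hu2
    have hmin : min ‖thW ρ ψ U ε (ψ 0 (ca 0 (FF ⊤ 0 + κ * r) xi0))‖ (4 * zz m) ≤ κ * r :=
      (min_le_left _ _).trans hun
    have h3 := (abs_le.1 hq).2
    have h4 : κ * dist w (ψ 0 (ca 0 (FF ⊤ 0 + κ * r) xi0)) ≤ κ * (r + 2 * (κ * r)) :=
      mul_le_mul_of_nonneg_left hwx hκ.le
    have h5 : κ * zz m ≤ κ * (8 * r) := mul_le_mul_of_nonneg_left hm2 hκ.le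
    have h6 : κ * (κ * r) ≤ 1 / 100 * (κ * r) := mul_le_mul_of_nonneg_right hκ1 hκr.le
    have h7 : κ * r ≤ 1 / 100 * r := mul_le_mul_of_nonneg_right hκ1 hr.le
    have h8 : min ‖thW ρ ψ U ε w‖ (4 * zz m) < 2 * r := by linarith
    have h9 : ‖thW ρ ψ U ε w‖ < 2 * r := by
      rcases min_lt_iff.1 h8 with h | h
      · exact h
      · exfalso; linarith
    obtain ⟨X₁, Y₁, ξ, k1, k2, k3, k4, k5⟩ := HC r hr hrr2 w h9
    refine ⟨e (ψ 0 (ca X₁ (FF ⊤ 0 + Y₁) ξ)), hA1 _ _ _ ⟨k2, k3, k4, k1⟩, ?_⟩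
    have h10 := dist_triangle a (e w) (e (ψ 0 (ca X₁ (FF ⊤ 0 + Y₁) ξ)))
    rw [he.dist_eq w] at h10
    linarith
  · intro a ha b hb
    obtain ⟨X₁, Y₁, ξ, h1, h2, h3⟩ := hc a ha
    obtain ⟨X₂, Y₂, ξ', h1', h2', h3'⟩ := hc b hb
    rw [h3, h3', ← h2, ← h2']
    have := hT X₁ Y₁ ξ X₂ Y₂ ξ' h1 h1'
    linarith
  · have hadm : Adm 0 (8 * κ * r) xi0 := by
      refine ⟨by rw [abs_zero]; positivity, le_rfl, ?_, norm_xi0⟩
      nlinarith
    refine ⟨e (ψ 0 (ca 0 (FF ⊤ 0 + 8 * κ * r) xi0)), hA1 _ _ _ hadm, ?_, ?_⟩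
    · have := hx (8 * κ * r) (by positivity)
      linarith
    · have h1 := hcc _ _ _ hadm
      have h2 := abs_norm_sub_le_modDt R (c (e (ψ 0 (ca 0 (FF ⊤ 0 + 8 * κ * r) xi0))))
        (cv 0 ((8 * κ * r) • xi0))
      have h3 := (abs_le.1 (h2.trans h1)).2
      have h4 := norm_cv_le 0 ((8 * κ * r) • xi0)
      rw [abs_zero, zero_add, norm_smul, norm_xi0, mul_one, Real.norm_eq_abs,
        abs_of_pos (by positivity)] at h4
      linarith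
  · intro u hu
    -- the tuple of `u`
    have hdir : ∃ ξ : E3, ‖ξ‖ = 1 ∧ tl u = ‖tl u‖ • ξ := by
      by_cases h : tl u = 0
      · exact ⟨xi0, norm_xi0, by rw [h]; simp⟩
      · exact ⟨dir3 u, norm_dir3 h, (norm_smul_dir3 u).symm⟩
    obtain ⟨ξ, hξ, hξu⟩ := hdir
    have hsplit := norm_sq_split u
    have hu0 : |u 0| ≤ ‖u‖ := abs_le_of_sq_le_sq (by nlinarith [sq_nonneg ‖tl u‖]) (norm_nonneg _)
    have hut : ‖tl u‖ ≤ ‖u‖ := by
      apply le_of_sq_le_sq _ (norm_nonneg _)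
      nlinarith [sq_nonneg (u 0)]
    have hκr3 : 8 * κ * r ≤ 3 * r := by nlinarith
    have hadm : Adm (u 0) (max ‖tl u‖ (8 * κ * r)) ξ :=
      ⟨by linarith, le_max_right _ _, max_le (by linarith) hκr3, hξ⟩
    refine ⟨_, hA1 _ _ _ hadm, ?_⟩
    have h1 := hcc _ _ _ hadm
    have h2 : modDt R u (cv (u 0) (max ‖tl u‖ (8 * κ * r) • ξ)) ≤ 8 * (κ * r) := by
      refine (modDt_le_norm_sub hR _ _).trans ?_
      have h3 : u = cv (u 0) (‖tl u‖ • ξ) := by rw [← hξu]; exact (cv_tl u).symm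
      have h4 : ‖u - cv (u 0) (max ‖tl u‖ (8 * κ * r) • ξ)‖ =
          ‖cv (u 0) (‖tl u‖ • ξ) - cv (u 0) (max ‖tl u‖ (8 * κ * r) • ξ)‖ := by
        rw [← h3]
      rw [h4, cv_sub, sub_self, ← sub_smul]
      refine (norm_cv_le _ _).trans ?_
      rw [abs_zero, zero_add, norm_smul, hξ, mul_one, Real.norm_eq_abs, abs_sub_comm,
        abs_of_nonneg (by linarith [le_max_left ‖tl u‖ (8 * κ * r)])]
      rcases le_total ‖tl u‖ (8 * κ * r) with h | h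
      · rw [max_eq_right h]
        have := norm_nonneg (tl u)
        linarith
      · rw [max_eq_left h, sub_self]
        positivity
    have h3 := modDt_triangle hR u (cv (u 0) (max ‖tl u‖ (8 * κ * r) • ξ))
      (c (e (ψ 0 (ca (u 0) (FF ⊤ 0 + max ‖tl u‖ (8 * κ * r)) ξ))))
    rw [modDt_comm R (cv (u 0) (max ‖tl u‖ (8 * κ * r) • ξ))] at h3
    linarith

/-- The limit of the blocks. -/
theorem blk_tendsto (D : AmbData R ⊤ ρ C ψ U) (hA : AmbFun R) {X : Type} [MetricSpace X]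
    {e : W → X} (he : Isometry e) {x : X}
    (hx : ∀ s, 0 < s → dist x (e (ψ 0 (ca 0 (FF ⊤ 0 + s) xi0))) ≤ s) {δ : ℝ} (hδ : 0 < δ) :
    ∃ k₀ : ℕ, ∀ k, k₀ ≤ k → ∀ w ∈ U k, dist x (e w) ≤ δ := by
  have hR : ROk R := Or.inl ⟨D.R_pos, D.R_le.trans (by norm_num)⟩
  have hC := D.C_pos
  obtain ⟨r₁, hr₁, HU⟩ := dist_le_modD D hA (δ := 1) one_pos
  obtain ⟨η, hη, H⟩ := hA.FF_small (1 / 4) (by norm_num)
  set τ : ℝ := min (min r₁ η) (min (δ / (C + 10)) 1) with hτdef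
  have hτ : 0 < τ := by positivity
  have hτ1 : τ ≤ r₁ := (min_le_left _ _).trans (min_le_left _ _)
  have hτ2 : τ ≤ η := (min_le_left _ _).trans (min_le_right _ _)
  have hτ3 : τ * (C + 10) ≤ δ := by
    have h : τ ≤ δ / (C + 10) := (min_le_right _ _).trans (min_le_left _ _)
    rwa [le_div_iff₀ (by positivity)] at h
  obtain ⟨K, hK⟩ : ∃ K : ℕ, zz K < τ :=
    exists_pow_lt_of_lt_one hτ (show (1 / 2 : ℝ) < 1 by norm_num)
  refine ⟨K + 1, ?_⟩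
  intro k hk w hw
  have hk1 : 1 ≤ k := by omega
  have hz := zz_pos' k
  have hzτ : zz k < τ := (zz_anti' (by omega)).trans_lt hK
  have hρ0 := D.ρ_pos k
  have hρ := rho_lt_zz D hk1
  have h1 := H (zz k) 0 (by rw [abs_of_pos hz]; linarith) (by rw [abs_zero]; exact hη.le)
  rw [sub_zero, abs_of_pos hz] at h1
  have h2 := le_abs_self (FF ⊤ (zz k) - FF ⊤ 0)
  have h3 := blk_up D hA hk1 hw (s := zz k) (by linarith)
  have h4 := HU (zz k) hz (by linarith) (zz k) 0 (FF ⊤ 0 + zz k) (FF ⊤ 0 + zz k) xi0 xi0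
    (by rw [abs_of_pos hz]; linarith) (by rw [abs_zero]; positivity) (by linarith) (by linarith)
    norm_xi0 norm_xi0
  have h5 : modD R (cv (zz k) ((FF ⊤ 0 + zz k - FF ⊤ 0) • xi0))
      (cv 0 ((FF ⊤ 0 + zz k - FF ⊤ 0) • xi0)) ≤ zz k := by
    refine (modD_le_norm_sub hR.pos.le hR.le_one _ _).trans ?_
    rw [cv_sub, sub_self, sub_zero, norm_cv_zero, abs_of_pos hz]
  have h6 := hx (zz k) hz
  have h7 : C * ρ k ≤ C * zz k := mul_le_mul_of_nonneg_left (by linarith) hC.le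
  have h8 := dist_triangle w (ψ 0 (ca (zz k) (FF ⊤ 0 + zz k) xi0)) (ψ 0 (ca 0 (FF ⊤ 0 + zz k) xi0))
  have h9 := dist_triangle x (e (ψ 0 (ca 0 (FF ⊤ 0 + zz k) xi0))) (e w)
  rw [he.dist_eq, dist_comm _ w] at h9
  have h10 : C * zz k ≤ C * τ := mul_le_mul_of_nonneg_left hzτ.le hC.le
  linarith

/-- The vertex `x` in a complete space in which `W` is dense. -/
theorem exists_x (D : AmbData R ⊤ ρ C ψ U) (hA : AmbFun R) {X : Type} [MetricSpace X]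
    [CompleteSpace X] {e : W → X} (he : Isometry e) (hd : DenseRange e) :
    ∃ x : X, x ∈ badSet X ∧ ∀ δ > (0 : ℝ), ∃ k₀ : ℕ, ∀ k, k₀ ≤ k → ∀ w ∈ U k,
      dist x (e w) ≤ δ := by
  have hR : ROk R := Or.inl ⟨D.R_pos, D.R_le.trans (by norm_num)⟩
  obtain ⟨x, hx⟩ := exists_lim D hA he
  exact ⟨x, mem_badSet_of_coords x hR (coneCoords_x D hA he hd hx), fun δ hδ =>
    blk_tendsto D hA he hx hδ⟩

end

end Pool.Agent.W_MP_654ec6_h2
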