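import Pool.Agent.W_MP_654ec6.Stmt

/-!
# Part G, Lim: pointed Gromov-Hausdorff convergence from almost isometries; the final argument

`pgh_of_maps`: maps `Θ n : W → M n`, `Φ n : M n → W` which are `(1 + ε n)`-Lipschitz up to `ε n` and
inverse to each other up to `ε n`, `W` dense in `X`, give pointed Gromov-Hausdorff convergence
`M n → X`. `notDiscrete_of`: the final argument.
-/

open Filter Topology

namespace Pool.Agent.W_MP_654ec6_h2

open Pool.Agent.W_MP_654ec6

theorem pgh_of_maps {X W : Type} [MetricSpace X] [MetricSpace W] {e : W → X} (he : Isometry e)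
    (hd : DenseRange e) (M : ℕ → Type) [∀ n, MetricSpace (M n)] (Θ : ∀ n, W → M n)
    (Φ : ∀ n, M n → W) (w₀ : W) (p : ∀ n, M n) (hp : ∀ n, Φ n (p n) = w₀) (ε : ℕ → ℝ)
    (hε : Tendsto ε atTop (𝓝 0))
    (h1 : ∀ n a b, dist (Θ n a) (Θ n b) ≤ (1 + ε n) * dist a b + ε n)
    (h2 : ∀ n a b, dist (Φ n a) (Φ n b) ≤ (1 + ε n) * dist a b + ε n)
    (h3 : ∀ n a, dist (Φ n (Θ n a)) a ≤ ε n) (h4 : ∀ n m, dist (Θ n (Φ n m)) m ≤ ε n) :
    PGH (fun n => (dist : M n → M n → ℝ)) p (dist : X → X → ℝ) (e w₀) := by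
  intro r hr η hη
  -- a bound for `ε n`
  have hpos : 0 < η / (8 * r + 16) := by positivity
  have hev : ∀ᶠ n in atTop, ε n < min (η / (8 * r + 16)) 1 :=
    hε.eventually (gt_mem_nhds (lt_min hpos one_pos))
  obtain ⟨n₀, hn₀⟩ := eventually_atTop.1 hev
  refine ⟨n₀, fun n hn => ?_⟩
  have hεn := hn₀ n hn
  have hε0 : 0 ≤ ε n := dist_nonneg.trans (h3 n w₀)
  have hε1 : ε n ≤ 1 := (hεn.trans_le (min_le_right _ _)).le
  have hε2 : ε n * (8 * r + 16) < η := by
    have := hεn.trans_le (min_le_left _ _)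
    rwa [lt_div_iff₀ (by positivity)] at this
  refine ⟨fun a => e (Φ n a), by simp only [hp], ?_, ?_⟩
  · intro a b ha hb
    simp only at ha hb ⊢
    rw [he.dist_eq]
    have hab : dist a b < 2 * r := by
      have := dist_triangle_right a b (p n)
      linarith
    have k1 := h2 n a b
    have k2 := h1 n (Φ n a) (Φ n b)
    have k3 := h4 n a
    have k4 := h4 n b
    have k5 := dist_triangle4 a (Θ n (Φ n a)) (Θ n (Φ n b)) b
    rw [dist_comm a (Θ n (Φ n a))] at k5
    have hd0 : 0 ≤ dist a b := dist_nonneg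
    have hd1 : 0 ≤ dist (Φ n a) (Φ n b) := dist_nonneg
    have m1 : ε n * dist a b ≤ ε n * (2 * r) := mul_le_mul_of_nonneg_left hab.le hε0
    have m2 : dist (Φ n a) (Φ n b) ≤ 4 * r + 1 := by nlinarith
    have m3 : ε n * dist (Φ n a) (Φ n b) ≤ ε n * (4 * r + 1) := mul_le_mul_of_nonneg_left m2 hε0
    rw [abs_lt]
    constructor <;> nlinarith
  · intro z hz
    obtain ⟨w, hw⟩ := hd.exists_dist_lt z (ε := η / 4) (by positivity)
    refine ⟨Θ n w, ?_, ?_⟩
    · simp only
      have k1 := h1 n w w₀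
      have k2 := h4 n (p n)
      rw [hp] at k2
      have k3 := dist_triangle (Θ n w) (Θ n w₀) (p n)
      have k4 : dist w w₀ = dist (e w) (e w₀) := (he.dist_eq _ _).symm
      have k5 := dist_triangle_left (e w) (e w₀) z
      have k6 : dist w w₀ < r - η + η / 4 := by
        rw [k4]
        have := dist_comm z (e w)
        linarith
      have k7 : 0 ≤ dist w w₀ := dist_nonneg
      have m1 : ε n * dist w w₀ ≤ ε n * r := mul_le_mul_of_nonneg_left (by linarith) hε0
      nlinarith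
    · simp only
      have k1 := dist_triangle z (e w) (e (Φ n (Θ n w)))
      have k2 : dist (e w) (e (Φ n (Θ n w))) ≤ ε n := by
        rw [he.dist_eq, dist_comm]
        exact h3 n w
      nlinarith

/-- The final argument. -/
theorem notDiscrete_of {X : Type} [MetricSpace X] (hX : IsRicciLimit4 X) {x : X}
    (hx : x ∈ badSet X) (p : ℕ → X) (hp : ∀ k, p k ∈ badSet X)
    (hsep : ∀ k, ∃ δ > (0 : ℝ), ∀ l, l ≠ k → δ ≤ dist (p k) (p l))
    (hlim : Tendsto p atTop (𝓝 x)) : NotDiscrete := by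
  refine ⟨X, inferInstance, hX, x, hx, ?_⟩
  intro U hU
  obtain ⟨k, hk⟩ := eventually_atTop.1 (hlim.eventually hU)
  refine ⟨p k, hk k le_rfl, ?_, hp k⟩
  intro h
  obtain ⟨δ, hδ, hsep'⟩ := hsep k
  obtain ⟨l, hl⟩ := eventually_atTop.1 (hlim.eventually (Metric.ball_mem_nhds x hδ))
  have h1 := hl (max l (k + 1)) (le_max_left _ _)
  have h2 := hsep' (max l (k + 1)) (by
    have := le_max_right l (k + 1)
    omega)
  rw [dist_comm] at h1
  rw [h] at h2
  linarith

end Pool.Agent.W_MP_654ec6_h2
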