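import Pool.Agent.W_MP_654ec6.F.Pre

/-!
# Part G1: labels adapted to the two parts of a glued space
-/

open scoped ContDiff Topology
open Filter Real

namespace Pool.Agent.W_MP_654ec6_h2

open Pool.Agent.W_MP_654ec6 PreP

/-- A covered point of the first part has a label in a patch of `P`. -/
theorem glue_inl_cover {P Q : PreP} (G : GlueData P Q) {i : (glue P Q G).ι} {a : E4}
    (ha : a ∈ (glue P Q G).V i) {x : P.Pt} (h : (glue P Q G).ψ i a = Sum.inl x) :
    ∃ i', ∃ b ∈ P.V i', P.ψ i' b = x := by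
  rcases i with i | j
  · exact ⟨i, a, ha, Sum.inl_injective h⟩
  · have h' : glueMap G (Q.ψ j a) = Sum.inl x := h
    by_cases h0 : 0 < G.rQ (Q.ψ j a)
    · obtain ⟨i', θ, m1, m2, m3⟩ := Pre_local G ha h0
      refine ⟨i', θ a, m1, ?_⟩
      have := m3.self_of_nhds
      rw [h'] at this
      exact (Sum.inl_injective this).symm
    · rw [glueMap_of_le G (not_lt.1 h0)] at h'
      cases h'

/-- A covered point of the second part has a label in a patch of `Q`, outside the collar. -/
theorem glue_inr_cover {P Q : PreP} (G : GlueData P Q) {i : (glue P Q G).ι} {a : E4}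
    (ha : a ∈ (glue P Q G).V i) {x : Q.Pt} (h : (glue P Q G).ψ i a = Sum.inr x) :
    ∃ j, ∃ b ∈ Q.V j, Q.ψ j b = x ∧ i = Sum.inr j ∧ a = b ∧ G.rQ x ≤ 0 := by
  rcases i with i | j
  · cases h
  · have h' : glueMap G (Q.ψ j a) = Sum.inr x := h
    by_cases h0 : 0 < G.rQ (Q.ψ j a)
    · obtain ⟨d, hd, u, hu, e1, e2, e3⟩ := Pre_glueMap_pos G ha h0
      rw [e3] at h'
      cases h'
    · rw [glueMap_of_le G (not_lt.1 h0)] at h'
      have h1 := Sum.inr_injective h'
      exact ⟨j, a, ha, h1, rfl, rfl, by rw [← h1]; exact not_lt.1 h0⟩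

end Pool.Agent.W_MP_654ec6_h2
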