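import Pool.Agent.W_MP_654ec6_h2.Zones
import Pool.Agent.W_MP_654ec6_h2.Cover
import Pool.Agent.W_MP_654ec6.C.CompareC
import Pool.Agent.W_MP_654ec6.B.Topo

/-!
# Part G1: near a point which is not good all points are in one zone

Take a label `(i, a)` of `p` adapted to the host (see `glue_inl_cover`, `glue_inr_cover` in
`W_MP_654ec6_h2/Cover.lean`), and use `map_nhds`: it suffices that `sph (ψ i x)` is in the zone for `x`
near `a`.
* ambient label: `nrmTau (TauPt.mk (repA x)) = (pX x, pY x, _)`; `|pX|, pY` are continuous; not good means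
`|pX| ≤ 9/8 zz n` and `pY ≤ FF + 2 zz n`.
* host `inl (inr ⟨k, _⟩)`, `k ≥ n` (and `k ≤ N`): a label of the block `k`; near it the host is `inl (inr ⟨k, _⟩)` or
`inl (inl (collE ..))`, over a point at distance `≤ zz k/8` of the vertex `k` (`CollOK.near`), in `zoneXY n`.
* host `inl (inr ⟨k, _⟩)`, `1 ≤ k < n`, not good: `aSq ≤ thr²` or in the bolt: the collar function `bR` is
negative there (`rBlk_EF_le`; a point of D has `aSq` larger than `thr²`), hence near `p`; so near `p` the host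
is `inl (inr ⟨k, _⟩)`; and `aSq < (2 thr)²` near `p` by continuity (`aSq` along `blkPsi`; for a label of the
bolt patches: if `ehR > a` it is `blkPsi 2 v` with `‖v‖ = ehR`, `aSq_F`).
* host `inr _` (`N = n`): a label of the middle block; near it the host is `inr _` or an ambient point
`TauPt.mk (repA K.R n n u)` with `‖u‖ < 2 ρ 0`, in `zoneXY n` (`F/MidFacts`).
-/

open scoped ContDiff Topology
open Filter Real

namespace Pool.Agent.W_MP_654ec6_h2

open Pool.Agent.W_MP_654ec6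

section

variable (K : Core) {N : ℕ∞} (hN : 2 ≤ N)

/-- It is enough to look at one label of the point. -/
theorem Bad_of_label {p : (sp K N hN).Pt} {i : (spP K N hN).ι} {a : E4}
    (ha : a ∈ (spP K N hN).V i) (hp : (spP K N hN).ψ i a = p.1) {Z : Set Host}
    (h : ∀ᶠ x in 𝓝 a, x ∈ (spP K N hN).V i → hostOf K N hN ((spP K N hN).ψ i x) ∈ Z) :
    ∀ᶠ q in 𝓝 p, sph K N hN q ∈ Z := by
  have h1 : (sp K N hN).ψ i a = p :=
    Subtype.ext ((PreP.Pre_cpsi_val (spP K N hN) (spBase K N hN) ha).trans hp)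
  have h3 := (sp K N hN).map_nhds (i := i) ha
  rw [h1] at h3
  rw [← h3, Filter.eventually_map]
  filter_upwards [h, ((spP K N hN).isOpen_V i).mem_nhds ha] with x hx hxV
  have h2 : ((sp K N hN).ψ i x).1 = (spP K N hN).ψ i x :=
    PreP.Pre_cpsi_val (spP K N hN) (spBase K N hN) hxV
  unfold sph
  rw [h2]
  exact hx hxV

/-- Ambient labels. -/
theorem Bad_C {n j : ℕ} {a : E4}
    (hbad : hostOf K N hN ((spP K N hN).ψ (ixC K N hN j) a) ∉ hGood K n) :
    ∀ᶠ x in 𝓝 a, hostOf K N hN ((spP K N hN).ψ (ixC K N hN j) x) ∈ hZX n := by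
  have h1 : ¬ goodXY n |pX N j a| (pY N j a) := hbad
  unfold goodXY at h1
  rw [not_or, not_lt, not_lt] at h1
  have hz := zz_pos n
  have c1 : ∀ᶠ x in 𝓝 a, |pX N j x| < 5 / 4 * zz n :=
    (continuous_pX (N := N) (j := j)).abs.continuousAt.eventually_lt_const (by linarith)
  have c2 : ∀ᶠ x in 𝓝 a, pY N j x < FF ⊤ (zz n) + 3 * zz n :=
    (continuous_pY (N := N) (j := j)).continuousAt.eventually_lt_const (by linarith)
  filter_upwards [c1, c2] with x x1 x2
  exact (⟨x1, x2⟩ : zoneXY n |pX N j x| (pY N j x))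

/-- Labels of the middle block. -/
theorem Bad_X {n : ℕ} (hN : 2 ≤ (n : ℕ∞)) (i : EHI) {x : E4}
    (hx : x ∈ (spP K n hN).V (ixX K n hN i)) :
    hostOf K n hN ((spP K n hN).ψ (ixX K n hN i) x) ∈ hZX n := by
  by_cases h0 : 0 < (midGlue K n hN).rQ (((ehP (midEHD K n)).restr ((n : ℕ∞) ≠ ⊤)).ψ i x)
  · obtain ⟨d, hd, u, hu, e1, h1, e2⟩ := PreP.Pre_glueMap_pos (midGlue K n hN) hx h0
    obtain rfl : d = EHI.F := hd
    have e3 : (spP K n hN).ψ (ixX K n hN i) x =
        Sum.inl (Sum.inl (TauPt.mk (repA K.R n n u))) := e2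
    rw [e3]
    have h2 : ‖u‖ < 2 * spRad K n 0 := hu.2.2
    have h3 := Mid_small K.R_pos (Sp2_R K) (spRad_ok K n)
    have hz := zz_pos n
    have h4 := Mid_norm u
    have hn3 : 0 ≤ n3 u := Real.sqrt_nonneg _
    have h5 : |u 0| ≤ ‖u‖ := abs_le_of_sq_le_sq (by nlinarith) (norm_nonneg u)
    have h6 : n3 u ≤ ‖u‖ := by nlinarith [norm_nonneg u, sq_nonneg (u 0)]
    have h7 : |pX (n : ℕ∞) n u| < 5 / 4 * zz n := by
      rw [Mid_pX]
      linarith
    have h8 : pY (n : ℕ∞) n u < FF ⊤ (zz n) + 3 * zz n := by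
      rw [Mid_pY]
      have h9 : midY (n : ℕ∞) = FF ⊤ (zz n) := compareC_FF_zz (Sp2_n hN) le_rfl
      rw [h9]
      linarith
    exact (⟨h7, h8⟩ : zoneXY n |pX (n : ℕ∞) n u| (pY (n : ℕ∞) n u))
  · have e3 : (spP K n hN).ψ (ixX K n hN i) x =
        Sum.inr (((ehP (midEHD K n)).restr ((n : ℕ∞) ≠ ⊤)).ψ i x) :=
      PreP.glueMap_of_le (midGlue K n hN) (not_lt.1 h0)
    rw [e3]
    exact trivial

/-- Labels of the block `k ≥ n`. -/
theorem Bad_Q {n k : ℕ} (hn : 1 ≤ n) (hNn : N = (n : ℕ∞) ∨ N = ⊤) (hk : n ≤ k)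
    (i : (bP (spBlk K N k) (N ≠ ⊤)).ι) {x : E4}
    (hx : x ∈ (spP K N hN).V (Sum.inl (Sum.inr ⟨k, i⟩))) :
    hostOf K N hN ((spP K N hN).ψ (Sum.inl (Sum.inr ⟨k, i⟩)) x) ∈ hZX n := by
  have hkk : 1 ≤ k ∧ (k : ℕ∞) ≤ N := hx.1
  by_cases h0 : 0 < (spFam K N hN).glueData.rQ ((spFam K N hN).S.ψ ⟨k, i⟩ x)
  · obtain ⟨⟨k', d⟩, hd, u, hu, e1, h1, e2⟩ :=
      PreP.Pre_glueMap_pos (spFam K N hN).glueData (j := ⟨k, i⟩) hx h0
    have e4 : k' = k := congrArg Sigma.fst e1
    subst e4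
    obtain rfl : d = (Sum.inl (0 : Fin 3)) := hd
    have e3 : (spP K N hN).ψ (Sum.inl (Sum.inr ⟨k', i⟩)) x =
        Sum.inl (Sum.inl (collE (spAmb K N hN) k' (spB K N k') u)) := congrArg Sum.inl e2
    rw [e3]
    have hC := (spFam K N hN).coll k' hkk.1 hkk.2
    have h2 := hC.near ((spFam K N hN).mem_coll hkk.1 hkk.2 hu.2 h1)
    have hz := zz_pos k'
    have hz2 : zz k' ≤ zz n := zz_anti hk
    have hF : FF N (zz k') ≤ FF ⊤ (zz n) := by
      rcases hNn with rfl | rfl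
      · have h3 : k' = n := le_antisymm (by exact_mod_cast hkk.2) hk
        rw [h3]
        exact (compareC_FF_zz hn le_rfl).le
      · exact FF_mono ⊤ hz.le hz2
    obtain ⟨X, hX⟩ : ∃ X, X = qX N k' (spB K N k').Φ (spB K N k').s (spB K N k').tstar u := ⟨_, rfl⟩
    obtain ⟨Y, hY⟩ : ∃ Y, Y = qY N k' (spB K N k').Φ (spB K N k').s (spB K N k').tstar u := ⟨_, rfl⟩
    have h2' : (X - zz k') ^ 2 + (Y - FF N (zz k')) ^ 2 ≤ (zz k' / 8) ^ 2 := by
      rw [hX, hY]
      exact h2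
    have h5 : |X - zz k'| ≤ zz k' / 8 :=
      abs_le_of_sq_le_sq (by nlinarith [sq_nonneg (Y - FF N (zz k'))]) (by linarith)
    have h6 : |Y - FF N (zz k')| ≤ zz k' / 8 :=
      abs_le_of_sq_le_sq (by nlinarith [sq_nonneg (X - zz k')]) (by linarith)
    rw [abs_le] at h5 h6
    have h7 : zoneXY n |X| Y := by
      constructor
      · rw [abs_lt]
        constructor <;> linarith
      · linarith
    rw [hX, hY] at h7
    exact h7
  · have e3 : (spP K N hN).ψ (Sum.inl (Sum.inr ⟨k, i⟩)) x =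
        Sum.inl (Sum.inr ((spFam K N hN).S.ψ ⟨k, i⟩ x)) :=
      congrArg Sum.inl (PreP.glueMap_of_le (spFam K N hN).glueData (not_lt.1 h0))
    rw [e3]
    exact hk

/-- In the patch `D` the function `aSq` is not small. -/
theorem Bad_aSq_D (P : BlkPar) {u : E4} (hu : u ∈ VD P) :
    sin (P.K.t0 / 2) ^ 2 ≤ aSq (blkPsi P 0 u) := by
  obtain ⟨s1, s2, s3, s4⟩ := sin_half P
  have s5 := P.K.sin_t0.2
  rw [aSq_D P hu]
  obtain ⟨h1, -⟩ := mem_VD P hu
  have h2 : sq2 u / ‖u‖ ^ 2 ≤ 1 := by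
    rw [div_le_one (by positivity), ← sq12]
    linarith [sq1_nonneg u]
  have h3 : 0 ≤ sq2 u / ‖u‖ ^ 2 := div_nonneg (sq2_nonneg u) (by positivity)
  have h4 : sin (P.K.t0 / 2) < qt P.K ‖u‖ := by
    have h5 := qt_strictMono P.K (by linarith [P.K.isCore.t0_pos]) hu.1
    rwa [qt_of_le P.K (by linarith [P.K.isCore.t0_pos])] at h5
  have h5 : max 0 (1 - qt P.K ‖u‖ ^ 2) ≤ 1 - sin (P.K.t0 / 2) ^ 2 :=
    max_le (by nlinarith) (by nlinarith)
  have h6 : 0 ≤ max 0 (1 - qt P.K ‖u‖ ^ 2) := le_max_left _ _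
  have h7 : max 0 (1 - qt P.K ‖u‖ ^ 2) * (sq2 u / ‖u‖ ^ 2) ≤ 1 - sin (P.K.t0 / 2) ^ 2 := by
    nlinarith
  linarith

theorem Bad_thr_pos (n k : ℕ) : 0 < thr K n k := by
  unfold thr
  have h := spA_pos K (ENat.natCast_ne_top n) k
  positivity

theorem Bad_spA_le (n k : ℕ) : spA K n k ≤ thr K n k := by
  unfold thr
  have h := spA_pos K (ENat.natCast_ne_top n) k
  have h1 : (1 : ℝ) ≤ 2 ^ n := one_le_pow₀ (by norm_num)
  nlinarith

/-- The host of a label of the patches `E, F` of a block. -/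
theorem Bad_B_host {k : ℕ} {i : Fin 3} (hi : i ≠ 0) {x : E4}
    (hx : x ∈ (spP K N hN).V (ixB K N hN k i)) :
    hostOf K N hN ((spP K N hN).ψ (ixB K N hN k i) x) =
      Sum.inl (Sum.inr ⟨k, Sum.inl (blkPsi (spBlk K N k) i x)⟩) := by
  have hx' : x ∈ blkV (spBlk K N k) i := hx.2
  have h1 := rBlk_EF_le (spBlk K N k) hi hx'
  have hρ := (spBlk K N k).ρ_pos
  have h0 : (spFam K N hN).glueData.rQ ((spFam K N hN).S.ψ ⟨k, Sum.inl i⟩ x) ≤ 0 := by
    change max (rBlk (spBlk K N k) (blkPsi (spBlk K N k) i x)) (-((spBlk K N k).ρ / 4)) ≤ 0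
    rw [max_eq_right (by linarith)]
    linarith
  have e3 : (spP K N hN).ψ (ixB K N hN k i) x =
      Sum.inl (Sum.inr ((spFam K N hN).S.ψ ⟨k, Sum.inl i⟩ x)) :=
    congrArg Sum.inl (PreP.glueMap_of_le (spFam K N hN).glueData h0)
  rw [e3]
  rfl

/-- The host of a label of the bolt patches of a block. -/
theorem Bad_E_host {k : ℕ} (i : EHI) {x : E4} (hx : x ∈ (spP K N hN).V (ixE K N hN k i)) :
    hostOf K N hN ((spP K N hN).ψ (ixE K N hN k i) x) =
      Sum.inl (Sum.inr ⟨k, PreP.glueMap (bGlue (spBlk K N k) (N ≠ ⊤))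
        (((ehP (blkEHD (spBlk K N k))).restr (N ≠ ⊤)).ψ i x)⟩) := by
  have h1 := Sp1_bR_bolt (spBlk K N k) (N ≠ ⊤) i (q := x) hx.2
  have hρ := (spBlk K N k).ρ_pos
  have h0 : (spFam K N hN).glueData.rQ ((spFam K N hN).S.ψ ⟨k, Sum.inr i⟩ x) ≤ 0 := by
    change bR (spBlk K N k) (N ≠ ⊤) (PreP.glueMap (bGlue (spBlk K N k) (N ≠ ⊤))
        (((ehP (blkEHD (spBlk K N k))).restr (N ≠ ⊤)).ψ i x)) ≤ 0
    rw [h1]
    linarith
  have e3 : (spP K N hN).ψ (ixE K N hN k i) x =
      Sum.inl (Sum.inr ((spFam K N hN).S.ψ ⟨k, Sum.inr i⟩ x)) :=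
    congrArg Sum.inl (PreP.glueMap_of_le (spFam K N hN).glueData h0)
  rw [e3]
  rfl

end

theorem side_bad (K : Core) {n : ℕ} (hL : Large K n) {N : ℕ∞} (hN : 2 ≤ N)
    (hNn : N = (n : ℕ∞) ∨ N = ⊤) {p : (sp K N hN).Pt} (hp : sph K N hN p ∉ hGood K n) :
    (∀ᶠ q in 𝓝 p, sph K N hN q ∈ hZX n) ∨
      ∃ k : ℕ, 1 ≤ k ∧ k < n ∧ ∀ᶠ q in 𝓝 p, sph K N hN q ∈ hZB K n k := by
  have hn : 1 ≤ n := by
    have := hL.two_le
    omega
  obtain ⟨i, a, ha, hpa⟩ := p.2
  have hp' : hostOf K N hN p.1 ∉ hGood K n := hp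
  obtain ⟨pt, hpt⟩ : ∃ pt : (spP K N hN).Pt, pt = p.1 := ⟨_, rfl⟩
  rw [← hpt] at hpa hp'
  rcases pt with y | w
  · -- a point of `spP1`
    obtain ⟨i1, a1, ha1, hpa1⟩ := glue_inl_cover (midGlue K N hN) ha hpa
    rcases y with τ | ⟨k, w⟩
    · -- an ambient point
      left
      obtain ⟨j, b, hb, hjb⟩ := glue_inl_cover (spFam K N hN).glueData ha1 hpa1
      have e1 : (spP K N hN).ψ (ixC K N hN j) b = Sum.inl (Sum.inl τ) :=
        congrArg (fun t : TauPt => (Sum.inl (Sum.inl t) : (spP K N hN).Pt)) hjb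
      refine Bad_of_label K hN (i := ixC K N hN j) hb (e1.trans hpt) ?_
      have e2 : hostOf K N hN ((spP K N hN).ψ (ixC K N hN j) b) =
          hostOf K N hN (Sum.inl (Sum.inl τ)) := congrArg (hostOf K N hN) e1
      have hp2 : hostOf K N hN ((spP K N hN).ψ (ixC K N hN j) b) ∉ hGood K n := by
        rw [e2]
        exact hp'
      filter_upwards [Bad_C K hN hp2] with x hx _ using hx
    · -- a point of a block
      obtain ⟨⟨k', j⟩, b, hb, hjb, -, -, hr⟩ :=
        glue_inr_cover (spFam K N hN).glueData ha1 hpa1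
      have e4 : k' = k := congrArg Sigma.fst hjb
      subst e4
      have e5 : (bP (spBlk K N k') (N ≠ ⊤)).ψ j b = w := eq_of_heq (Sigma.mk.inj hjb).2
      have hkk : 1 ≤ k' ∧ (k' : ℕ∞) ≤ N := hb.1
      -- all labels with this value of the block are labels of the point
      have key : ∀ (j' : (bP (spBlk K N k') (N ≠ ⊤)).ι) (c : E4),
          (bP (spBlk K N k') (N ≠ ⊤)).ψ j' c = w →
          (spP K N hN).ψ (Sum.inl (Sum.inr ⟨k', j'⟩)) c = Sum.inl (Sum.inr ⟨k', w⟩) := by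
        intro j' c hc
        have e6 : (spFam K N hN).S.ψ ⟨k', j'⟩ c = ⟨k', w⟩ := congrArg (Sigma.mk k') hc
        have e7 : PreP.glueMap (spFam K N hN).glueData ((spFam K N hN).S.ψ ⟨k', j'⟩ c) =
            Sum.inr ⟨k', w⟩ := by
          rw [e6]
          exact PreP.glueMap_of_le (spFam K N hN).glueData hr
        exact congrArg Sum.inl e7
      by_cases hkn : n ≤ k'
      · left
        refine Bad_of_label K hN (i := Sum.inl (Sum.inr ⟨k', j⟩)) (a := b) hb
          ((key j b e5).trans hpt) ?_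
        exact Eventually.of_forall fun x hx => Bad_Q K hN hn hNn hkn j hx
      · have hkn' : k' < n := not_le.1 hkn
        right
        refine ⟨k', hkk.1, hkn', ?_⟩
        have hthr := Bad_thr_pos K n k'
        rcases w with w | w
        · -- in the block
          obtain ⟨i', c, hc, hic⟩ := glue_inl_cover (bGlue (spBlk K N k') (N ≠ ⊤)) hb.2 e5
          have h1 : ¬ ((1 ≤ k' ∧ k' < n) ∧ thr K n k' ^ 2 < aSq w) := hp'
          have h2 : aSq w ≤ thr K n k' ^ 2 := by
            by_contra h3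
            exact h1 ⟨⟨hkk.1, hkn'⟩, not_le.1 h3⟩
          have hc' : c ∈ blkV (spBlk K N k') i' := hc
          have hic' : blkPsi (spBlk K N k') i' c = w := hic
          have hi' : i' ≠ (0 : Fin 3) := by
            rintro rfl
            have h3 := Bad_aSq_D (spBlk K N k') hc'
            rw [hic'] at h3
            have h4 := hL.thr_le k'
            have h5 := K.A0_lt
            have h6 : thr K n k' < sin (K.t0 / 2) := by linarith [K.A0_pos]
            have h7 : thr K n k' ^ 2 < sin (K.t0 / 2) ^ 2 :=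
              pow_lt_pow_left₀ h6 hthr.le two_ne_zero
            have h8 : sin (K.t0 / 2) ^ 2 ≤ aSq w := h3
            linarith
          have e6 : (spP K N hN).ψ (ixB K N hN k' i') c = Sum.inl (Sum.inr ⟨k', Sum.inl w⟩) :=
            key (Sum.inl i') c (congrArg Sum.inl hic)
          refine Bad_of_label K hN (i := ixB K N hN k' i') (a := c) ⟨hkk, hc⟩ (e6.trans hpt) ?_
          have h3 : ∀ᶠ x in 𝓝 c, aSq (blkPsi (spBlk K N k') i' x) < (2 * thr K n k') ^ 2 := by
            have h4 : ContinuousAt (fun x => aSq (blkPsi (spBlk K N k') i' x)) c :=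
              Sp1_mk_cont Sp1_aSq_cont (continuousAt_blkRep (spBlk K N k') i' hc')
            have h5 : aSq w < (2 * thr K n k') ^ 2 := by nlinarith
            exact h4.eventually_lt_const (lt_of_eq_of_lt (congrArg aSq hic') h5)
          filter_upwards [h3] with x hx hxV
          rw [Bad_B_host K hN hi' hxV]
          exact (⟨rfl, hx⟩ : k' = k' ∧ aSq (blkPsi (spBlk K N k') i' x) < (2 * thr K n k') ^ 2)
        · -- in the bolt
          obtain ⟨j', c, hc, hjc, rfl, rfl, hr'⟩ :=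
            glue_inr_cover (bGlue (spBlk K N k') (N ≠ ⊤)) hb.2 e5
          have hNt : N ≠ ⊤ := hc.1
          obtain rfl : N = (n : ℕ∞) := by
            rcases hNn with h | h
            · exact h
            · exact absurd h hNt
          have hr2 : ehR w - spA K n k' ≤ 0 := hr'
          have hjc' : WPt.mk ehm (ehs (spA K n k') j' b) = w := hjc
          refine Bad_of_label K hN (i := ixE K n hN k' j') (a := b) ⟨hkk, hc⟩
            ((key (Sum.inr j') b e5).trans hpt) ?_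
          have h3 : ∀ᶠ x in 𝓝 b, ehR (WPt.mk ehm (ehs (spA K n k') j' x)) < 2 * thr K n k' := by
            have h5 : ehR w < 2 * thr K n k' := by linarith [Bad_spA_le K n k']
            exact (continuous_ehR (spA K n k') j').continuousAt.eventually_lt_const
              (lt_of_eq_of_lt (congrArg ehR hjc') h5)
          filter_upwards [h3] with x hx hxV
          rw [Bad_E_host K hN j' hxV]
          by_cases h0 : 0 < (bGlue (spBlk K n k') ((n : ℕ∞) ≠ ⊤)).rQ
              (((ehP (blkEHD (spBlk K n k'))).restr ((n : ℕ∞) ≠ ⊤)).ψ j' x)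
          · obtain ⟨d, hd, u, hu, e7, h1, e8⟩ :=
              PreP.Pre_glueMap_pos (bGlue (spBlk K n k') ((n : ℕ∞) ≠ ⊤)) hxV.2 h0
            obtain rfl : d = EHI.F := hd
            rw [e8]
            have h4 : WPt.mk ehm (ehs (spA K n k') EHI.F u) =
                WPt.mk ehm (ehs (spA K n k') j' x) := e7
            have h5 : ‖u‖ < 2 * thr K n k' := by
              rw [← h4, ehR_F] at hx
              exact hx
            have h6 : aSq (blkPsi (spBlk K n k') 2 u) < (2 * thr K n k') ^ 2 := by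
              have hu' : u ∈ VF (spBlk K n k') := hu.2
              rw [aSq_F (spBlk K n k') hu']
              exact pow_lt_pow_left₀ h5 (norm_nonneg u) two_ne_zero
            exact (⟨rfl, h6⟩ : k' = k' ∧
              aSq (blkPsi (spBlk K n k') 2 u) < (2 * thr K n k') ^ 2)
          · rw [PreP.glueMap_of_le _ (not_lt.1 h0)]
            exact (rfl : k' = k')
  · -- a point of the middle block
    left
    obtain ⟨j, b, hb, hjb, rfl, rfl, hr⟩ := glue_inr_cover (midGlue K N hN) ha hpa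
    have hNt : N ≠ ⊤ := hb.1
    obtain rfl : N = (n : ℕ∞) := by
      rcases hNn with h | h
      · exact h
      · exact absurd h hNt
    exact Bad_of_label K hN (i := ixX K n hN j) (a := a) ha (hpa.trans hpt)
      (Eventually.of_forall fun x hx => Bad_X K hN j hx)

end Pool.Agent.W_MP_654ec6_h2
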