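import Pool.Agent.W_MP_654ec6.B.Clamp
import Pool.Agent.W_MP_654ec6.B.LipIff

/-!
# Part G1: comparison maps, abstract part

`comp2`: a map `Θ` which is infinitesimally `K`-Lipschitz except near points which are mapped into
one big ball or into one of finitely many tiny balls. `oneSide`: the application to two patchworks
with a common host set.
-/

open scoped ContDiff Topology
open Filter

namespace Pool.Agent.W_MP_654ec6_h2

open Pool.Agent.W_MP_654ec6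

/-- There is a radius between `r` and `2 r` which is not close to any of the numbers `d j`. -/
theorem exists_radius (n : ℕ) (d : Fin n → ℝ) {r T : ℝ} (hT : 0 < T) (hr : 2 * n * T ≤ r) :
    ∃ ρ : ℝ, r ≤ ρ ∧ ρ ≤ 2 * r ∧ ∀ j, T ≤ |d j - ρ| := by
  by_contra hcon
  push Not at hcon
  have h1 : ∀ i : Fin (n + 1), ∃ j, |d j - (r + 2 * T * i)| < T := by
    intro i
    have hi : (i : ℝ) ≤ n := by
      have := i.2
      exact_mod_cast Nat.lt_succ_iff.1 this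
    have hi0 : (0 : ℝ) ≤ (i : ℝ) := Nat.cast_nonneg _
    refine hcon (r + 2 * T * i) (by nlinarith) (by nlinarith)
  choose f hf using h1
  obtain ⟨i, i', hne, hii⟩ := Fintype.exists_ne_map_eq_of_card_lt f (by simp)
  have h2 := hf i
  have h3 := hf i'
  rw [← hii] at h3
  have h4 : |2 * T * (i : ℝ) - 2 * T * (i' : ℝ)| < 2 * T := by
    have h5 : 2 * T * (i : ℝ) - 2 * T * (i' : ℝ) =
        (d (f i) - (r + 2 * T * i')) - (d (f i) - (r + 2 * T * i)) := by ring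
    rw [h5]
    have := abs_sub (d (f i) - (r + 2 * T * i')) (d (f i) - (r + 2 * T * i))
    linarith
  have h6 : |2 * T * (i : ℝ) - 2 * T * (i' : ℝ)| = 2 * T * |(i : ℝ) - (i' : ℝ)| := by
    rw [← mul_sub, abs_mul, abs_of_pos (by positivity)]
  have h7 : (1 : ℝ) ≤ |(i : ℝ) - (i' : ℝ)| := by
    have h8 : ((i : ℕ) : ℤ) - ((i' : ℕ) : ℤ) ≠ 0 := by
      intro h
      apply hne
      apply Fin.ext
      omega
    have h9 : (1 : ℤ) ≤ |((i : ℕ) : ℤ) - ((i' : ℕ) : ℤ)| := Int.one_le_abs h8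
    exact_mod_cast h9
  rw [h6] at h4
  nlinarith

theorem comp2 {X Y : Type} [MetricSpace X] [MetricSpace Y] (hX : LocLipProp X) (Θ : X → Y)
    (n : ℕ) (c₀ : Y) {r₀ τ ε : ℝ} (hr₀ : 0 < r₀) (c : Fin n → Y) (hτ : 0 < τ) (hε : 0 < ε)
    (h1 : ∀ i j, i ≠ j → τ + (1 + ε) * τ / ε ≤ dist (c i) (c j))
    (h2 : 2 * n * (τ + (1 + ε) * τ / ε) ≤ r₀) {K : ℝ} (hK : 0 ≤ K)
    (h : ∀ p : X, (∀ δ > (0 : ℝ), ∀ᶠ q in 𝓝 (p, p),
        dist (Θ q.1) (Θ q.2) ≤ (K + δ) * dist q.1 q.2) ∨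
      (∀ᶠ q in 𝓝 p, dist (Θ q) c₀ < r₀) ∨ ∃ j, ∀ᶠ q in 𝓝 p, dist (Θ q) (c j) < τ) (p q : X) :
    dist (Θ p) (Θ q) ≤ K * (1 + ε) ^ (n + 1) * dist p q +
      2 * (1 + ε) ^ (n + 1) * (2 * r₀ + n * τ) := by
  set T := τ + (1 + ε) * τ / ε with hT
  have hT0 : 0 < T := by positivity
  have hτT : τ < T := by
    have : 0 < (1 + ε) * τ / ε := by positivity
    linarith
  obtain ⟨ρ, hρ1, hρ2, hρ3⟩ := exists_radius n (fun j => dist c₀ (c j)) hT0 h2
  classical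
  obtain ⟨S, hS⟩ : ∃ S : Finset (Fin n), S = Finset.univ.filter fun j => ρ + T ≤ dist c₀ (c j) :=
    ⟨_, rfl⟩
  have hmem : ∀ j, j ∈ S ↔ ρ + T ≤ dist c₀ (c j) := by
    intro j
    rw [hS]
    simp
  have hm : S.card ≤ n := by
    have := Finset.card_le_univ S
    simpa using this
  set e := S.equivFin with he
  set m := S.card with hm'
  have hρ0 : 0 < ρ := by linarith
  have key := compare hX Θ (m + 1) (Fin.cons c₀ fun i => c (e.symm i))
    (Fin.cons ρ fun _ => τ) (fun _ => ε) ?_ (fun _ => hε) ?_ hK ?_ p q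
  · have hprod : ∏ j : Fin (m + 1), (1 + ε) = (1 + ε) ^ (m + 1) := by simp
    have hsum : ∑ j : Fin (m + 1), (Fin.cons ρ (fun _ => τ) : Fin (m + 1) → ℝ) j = ρ + m * τ := by
      rw [Fin.sum_univ_succ]
      simp
    rw [hprod, hsum] at key
    have hpow : (1 + ε) ^ (m + 1) ≤ (1 + ε) ^ (n + 1) :=
      pow_le_pow_right₀ (by linarith) (by omega)
    have hmn : (m : ℝ) ≤ n := by exact_mod_cast hm
    have hd : 0 ≤ dist p q := dist_nonneg
    have e1 : K * (1 + ε) ^ (m + 1) * dist p q ≤ K * (1 + ε) ^ (n + 1) * dist p q := by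
      gcongr
    have e2 : 2 * (1 + ε) ^ (m + 1) * (ρ + m * τ) ≤ 2 * (1 + ε) ^ (n + 1) * (2 * r₀ + n * τ) := by
      gcongr
    linarith
  · intro j
    refine Fin.cases ?_ (fun i => ?_) j
    · simpa using hρ0
    · simpa using hτ
  · intro i j hij
    revert hij
    refine Fin.cases (fun hij => absurd hij (Fin.not_lt_zero _)) (fun j hij => ?_) j
    revert hij
    refine Fin.cases (fun _ => ?_) (fun i hij => ?_) i
    · simp only [Fin.cons_zero, Fin.cons_succ]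
      have := (hmem (e.symm j)).1 (e.symm j).2
      linarith
    · simp only [Fin.cons_succ]
      refine h1 _ _ ?_
      intro hne
      have h3 : e.symm i = e.symm j := Subtype.ext hne
      have h4 := e.symm.injective h3
      rw [h4] at hij
      exact lt_irrefl _ hij
  · intro p
    rcases h p with h3 | h3 | ⟨j, h3⟩
    · exact Or.inl h3
    · right
      refine ⟨0, ?_⟩
      filter_upwards [h3] with q hq
      simp only [Fin.cons_zero]
      linarith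
    · right
      by_cases hj : j ∈ S
      · refine ⟨(e ⟨j, hj⟩).succ, ?_⟩
        filter_upwards [h3] with q hq
        simp only [Fin.cons_succ, Equiv.symm_apply_apply]
        exact hq
      · refine ⟨0, ?_⟩
        have h4 : dist c₀ (c j) ≤ ρ - T := by
          have h5 := hρ3 j
          have h6 : ¬ (ρ + T ≤ dist c₀ (c j)) := fun h => hj ((hmem j).2 h)
          rcases le_abs.1 h5 with h7 | h7
          · exact absurd (by linarith) h6
          · linarith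
        filter_upwards [h3] with q hq
        simp only [Fin.cons_zero]
        have := dist_triangle (Θ q) (c j) c₀
        rw [dist_comm (c j) c₀] at this
        linarith

/-- Same labels: local Lipschitz bound. -/
theorem oneDir {P Q : Patchwork} {H : Type} {hP : P.Pt → H} {hQ : Q.Pt → H}
    (hQi : Function.Injective hQ) {Good : Set H} {Θ : P.Pt → Q.Pt}
    (hΘ : ∀ p, hP p ∈ Good → hQ (Θ p) = hP p) {K : ℝ} (hK : 0 ≤ K) {p : P.Pt}
    (compat : ∃ i j, ∃ a, a ∈ P.V i ∧ a ∈ Q.V j ∧ P.ψ i a = p ∧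
      (∀ᶠ x in 𝓝 a, hP (P.ψ i x) ∈ Good ∧ hQ (Q.ψ j x) = hP (P.ψ i x)) ∧
      ∀ v, Real.sqrt (qf (Q.g j a) v) ≤ K * Real.sqrt (qf (P.g i a) v)) {δ : ℝ} (hδ : 0 < δ) :
    ∀ᶠ q in 𝓝 (p, p), dist (Θ q.1) (Θ q.2) ≤ (K + δ) * dist q.1 q.2 := by
  obtain ⟨i, j, a, ha, ha', rfl, hev, hg⟩ := compat
  obtain ⟨ε, hε, hKε⟩ : ∃ ε > (0 : ℝ), (1 + ε) * K * (1 + ε) ≤ K + δ := by
    have hc : ContinuousAt (fun ε : ℝ => (1 + ε) * K * (1 + ε)) 0 := by fun_prop
    have h0 : (fun ε : ℝ => (1 + ε) * K * (1 + ε)) 0 < K + δ := by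
      simp only
      linarith
    obtain ⟨ε, hε, h1⟩ := Metric.eventually_nhds_iff.1 (hc.eventually_lt_const h0)
    refine ⟨ε / 2, by positivity, ?_⟩
    have := @h1 (ε / 2) (by rw [Real.dist_eq, sub_zero, abs_of_pos (by positivity)]; linarith)
    exact this.le
  have h1 := Q.dist_upper ha' hε
  have h2 := P.dist_lower ha hε
  have h3 : ∀ᶠ q in 𝓝 (a, a), (hP (P.ψ i q.1) ∈ Good ∧ hQ (Q.ψ j q.1) = hP (P.ψ i q.1)) ∧
      (hP (P.ψ i q.2) ∈ Good ∧ hQ (Q.ψ j q.2) = hP (P.ψ i q.2)) := by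
    have t1 : Tendsto (fun q : E4 × E4 => q.1) (𝓝 (a, a)) (𝓝 a) := continuous_fst.tendsto _
    have t2 : Tendsto (fun q : E4 × E4 => q.2) (𝓝 (a, a)) (𝓝 a) := continuous_snd.tendsto _
    exact (t1.eventually hev).and (t2.eventually hev)
  have hmap : 𝓝 (P.ψ i a, P.ψ i a) = Filter.map (Prod.map (P.ψ i) (P.ψ i)) (𝓝 (a, a)) := by
    rw [nhds_prod_eq, nhds_prod_eq, ← Filter.prod_map_map_eq', P.map_nhds ha]
  rw [hmap, Filter.eventually_map]
  filter_upwards [h1, h2, h3] with q q1 q2 q3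
  have e1 : Θ (P.ψ i q.1) = Q.ψ j q.1 := hQi (by rw [hΘ _ q3.1.1, q3.1.2])
  have e2 : Θ (P.ψ i q.2) = Q.ψ j q.2 := hQi (by rw [hΘ _ q3.2.1, q3.2.2])
  simp only [Prod.map]
  rw [e1, e2]
  have hg' := hg (q.1 - q.2)
  have hd : 0 ≤ dist (P.ψ i q.1) (P.ψ i q.2) := dist_nonneg
  calc dist (Q.ψ j q.1) (Q.ψ j q.2) ≤ (1 + ε) * Real.sqrt (qf (Q.g j a) (q.1 - q.2)) := q1
    _ ≤ (1 + ε) * (K * Real.sqrt (qf (P.g i a) (q.1 - q.2))) := by gcongr
    _ ≤ (1 + ε) * (K * ((1 + ε) * dist (P.ψ i q.1) (P.ψ i q.2))) := by gcongr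
    _ = (1 + ε) * K * (1 + ε) * dist (P.ψ i q.1) (P.ψ i q.2) := by ring
    _ ≤ (K + δ) * dist (P.ψ i q.1) (P.ψ i q.2) := mul_le_mul_of_nonneg_right hKε hd

/-- The conditions on the pair `(P, Q)` (the direction from `P` to `Q`). -/
structure Side {P Q : Patchwork} {H : Type} (hP : P.Pt → H) (hQ : Q.Pt → H) (Good ZX : Set H)
    (m : ℕ) (ZB : Fin m → Set H) (K : ℝ) : Prop where
  compat : ∀ p, hP p ∈ Good → ∃ i j, ∃ a, a ∈ P.V i ∧ a ∈ Q.V j ∧ P.ψ i a = p ∧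
    (∀ᶠ x in 𝓝 a, hP (P.ψ i x) ∈ Good ∧ hQ (Q.ψ j x) = hP (P.ψ i x)) ∧
      ∀ v, Real.sqrt (qf (Q.g j a) v) ≤ K * Real.sqrt (qf (P.g i a) v)
  bad : ∀ p, hP p ∉ Good → (∀ᶠ q in 𝓝 p, hP q ∈ ZX) ∨ ∃ j, ∀ᶠ q in 𝓝 p, hP q ∈ ZB j

open Classical in
/-- The comparison map. -/
noncomputable def cmpMap {P Q : Patchwork} {H : Type} (hP : P.Pt → H) (hQ : Q.Pt → H)
    (Good ZX : Set H) (m : ℕ) (ZB : Fin m → Set H) (cX : Q.Pt) (cB : Fin m → Q.Pt) (p : P.Pt) :
    Q.Pt :=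
  if hP p ∈ Good then (if h : ∃ q, hQ q = hP p then Classical.choose h else cX)
  else if hP p ∈ ZX then cX
  else if h : ∃ j, hP p ∈ ZB j then cB (Classical.choose h) else cX

section

variable {P Q : Patchwork} {H : Type} {hP : P.Pt → H} {hQ : Q.Pt → H} {Good ZX : Set H}
  {m : ℕ} {ZB : Fin m → Set H} {cX : Q.Pt} {cB : Fin m → Q.Pt} {K : ℝ}

theorem cmpMap_good (S : Side hP hQ Good ZX m ZB K) {p : P.Pt} (hp : hP p ∈ Good) :
    hQ (cmpMap hP hQ Good ZX m ZB cX cB p) = hP p := by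
  obtain ⟨i, j, a, ha, ha', rfl, hev, hg⟩ := S.compat p hp
  have h : ∃ q, hQ q = hP (P.ψ i a) := ⟨Q.ψ j a, hev.self_of_nhds.2⟩
  unfold cmpMap
  rw [if_pos hp, dif_pos h]
  exact Classical.choose_spec h

theorem cmpMap_X {p : P.Pt} (hp : hP p ∉ Good) (hz : hP p ∈ ZX) :
    cmpMap hP hQ Good ZX m ZB cX cB p = cX := by
  unfold cmpMap
  rw [if_neg hp, if_pos hz]

theorem cmpMap_B (hXB : ∀ j, Disjoint ZX (ZB j)) (hBB : ∀ i j, i ≠ j → Disjoint (ZB i) (ZB j))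
    {p : P.Pt} (hp : hP p ∉ Good) {j : Fin m} (hz : hP p ∈ ZB j) :
    cmpMap hP hQ Good ZX m ZB cX cB p = cB j := by
  have h1 : hP p ∉ ZX := fun h => Set.disjoint_left.1 (hXB j) h hz
  have h2 : ∃ j, hP p ∈ ZB j := ⟨j, hz⟩
  unfold cmpMap
  rw [if_neg hp, if_neg h1, dif_pos h2]
  have h3 := Classical.choose_spec h2
  by_contra hne
  have h4 : Classical.choose h2 ≠ j := fun h => hne (by rw [h])
  exact Set.disjoint_left.1 (hBB _ _ h4) h3 hz

/-- The comparison map is almost Lipschitz. -/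
theorem cmpMap_lip (S : Side hP hQ Good ZX m ZB K) (hQi : Function.Injective hQ)
    (hXB : ∀ j, Disjoint ZX (ZB j)) (hBB : ∀ i j, i ≠ j → Disjoint (ZB i) (ZB j)) (hK : 0 ≤ K)
    {r₀ τ ε : ℝ} (hr₀ : 0 < r₀) (hτ : 0 < τ) (hε : 0 < ε)
    (bX : ∀ q, hQ q ∈ ZX → dist q cX < r₀) (bB : ∀ j q, hQ q ∈ ZB j → dist q (cB j) < τ)
    (h1 : ∀ i j, i ≠ j → τ + (1 + ε) * τ / ε ≤ dist (cB i) (cB j))
    (h2 : 2 * m * (τ + (1 + ε) * τ / ε) ≤ r₀) (p q : P.Pt) :
    dist (cmpMap hP hQ Good ZX m ZB cX cB p) (cmpMap hP hQ Good ZX m ZB cX cB q) ≤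
      K * (1 + ε) ^ (m + 1) * dist p q + 2 * (1 + ε) ^ (m + 1) * (2 * r₀ + m * τ) := by
  refine comp2 P.locLipProp (cmpMap hP hQ Good ZX m ZB cX cB) m cX hr₀ cB hτ hε h1 h2 hK ?_ p q
  intro p
  by_cases hp : hP p ∈ Good
  · left
    intro δ hδ
    exact oneDir (Θ := cmpMap hP hQ Good ZX m ZB cX cB) hQi (fun p hp => cmpMap_good S hp) hK
      (S.compat p hp) hδ
  · right
    rcases S.bad p hp with h | ⟨j, h⟩
    · left
      filter_upwards [h] with q hq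
      by_cases hg : hP q ∈ Good
      · refine bX _ ?_
        rw [cmpMap_good S hg]
        exact hq
      · rw [cmpMap_X hg hq, dist_self]
        exact hr₀
    · right
      refine ⟨j, ?_⟩
      filter_upwards [h] with q hq
      by_cases hg : hP q ∈ Good
      · refine bB j _ ?_
        rw [cmpMap_good S hg]
        exact hq
      · rw [cmpMap_B hXB hBB hg hq, dist_self]
        exact hτ

/-- The two comparison maps are almost inverse to each other. -/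
theorem cmpMap_inv {cX' : P.Pt} {cB' : Fin m → P.Pt} {K' : ℝ}
    (S : Side hP hQ Good ZX m ZB K) (S' : Side hQ hP Good ZX m ZB K')
    (hPi : Function.Injective hP)
    (hXB : ∀ j, Disjoint ZX (ZB j)) (hBB : ∀ i j, i ≠ j → Disjoint (ZB i) (ZB j))
    (eX : hQ cX = hP cX') (gX : hQ cX ∈ Good) (eB : ∀ j, hQ (cB j) = hP (cB' j))
    (gB : ∀ j, hQ (cB j) ∈ Good) {r₀ τ : ℝ} (hr₀ : 0 < r₀) (hτr : τ ≤ r₀)
    (bX : ∀ q, hP q ∈ ZX → dist q cX' < r₀) (bB : ∀ j q, hP q ∈ ZB j → dist q (cB' j) < τ)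
    (p : P.Pt) :
    dist (cmpMap hQ hP Good ZX m ZB cX' cB' (cmpMap hP hQ Good ZX m ZB cX cB p)) p ≤ r₀ := by
  by_cases hp : hP p ∈ Good
  · have h1 := cmpMap_good (cX := cX) (cB := cB) S hp
    have h2 : hQ (cmpMap hP hQ Good ZX m ZB cX cB p) ∈ Good := by
      rw [h1]
      exact hp
    have h3 := cmpMap_good (cX := cX') (cB := cB') S' h2
    have h4 : cmpMap hQ hP Good ZX m ZB cX' cB' (cmpMap hP hQ Good ZX m ZB cX cB p) = p :=
      hPi (by rw [h3, h1])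
    rw [h4, dist_self]
    exact hr₀.le
  · rcases S.bad p hp with h | ⟨j, h⟩
    · have h0 := h.self_of_nhds
      rw [cmpMap_X hp h0]
      have h3 := cmpMap_good (cX := cX') (cB := cB') S' gX
      have h4 : cmpMap hQ hP Good ZX m ZB cX' cB' cX = cX' := hPi (by rw [h3, eX])
      rw [h4, dist_comm]
      exact (bX p h0).le
    · have h0 := h.self_of_nhds
      rw [cmpMap_B hXB hBB hp h0]
      have h3 := cmpMap_good (cX := cX') (cB := cB') S' (gB j)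
      have h4 : cmpMap hQ hP Good ZX m ZB cX' cB' (cB j) = cB' j := hPi (by rw [h3, eB])
      rw [h4, dist_comm]
      exact (bB j p h0).le.trans hτr

end

end Pool.Agent.W_MP_654ec6_h2
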