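import Pool.Agent.W_MP_654ec6.F.Sp2

/-!
# Part G1: the comparison of `Sp(n)` and `Sp(⊤)`: definitions

`Host`: the common host of the spaces `Sp(N)` (in the ambient part the vector `b ξ` is replaced by
the direction `ξ`). `sph K N hN : Sp(N) → Host` is injective. `hGood K n`: the points which exist in
both spaces; `hZX n`, `hZB K n k`: neighbourhoods of the parts which are collapsed (the part near the
middle vertex, and the bolts of the blocks `k < n`).
-/

open scoped ContDiff Topology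
open Filter Real

namespace Pool.Agent.W_MP_654ec6_h2

open Pool.Agent.W_MP_654ec6

/-- The common host. -/
abbrev Host : Type := (TauPt ⊕ (Σ _ : ℕ, WPt ![1, 2, 1] ⊕ WPt ehm)) ⊕ WPt ehm

/-- The direction of a vector of `ℝ³`. -/
noncomputable def nrm3 (v : Fin 3 → ℝ) : Fin 3 → ℝ := fun i =>
  v i / √(v 0 ^ 2 + v 1 ^ 2 + v 2 ^ 2)

theorem nrm3_neg (v : Fin 3 → ℝ) : nrm3 (-v) = -nrm3 v := by
  funext i
  unfold nrm3
  simp only [Pi.neg_apply, neg_sq, neg_div]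

/-- Normalisation of the points of the ambient part. -/
noncomputable def nrmTau : TauPt → TauPt :=
  Quotient.lift (fun p : ℝ × ℝ × (Fin 3 → ℝ) => TauPt.mk (p.1, p.2.1, nrm3 p.2.2)) (by
    rintro p q (rfl | rfl)
    · rfl
    · simp only [nrm3_neg]
      rw [TauPt.mk_eq]
      right
      rfl)

theorem nrmTau_mk (p : ℝ × ℝ × (Fin 3 → ℝ)) :
    nrmTau (TauPt.mk p) = TauPt.mk (p.1, p.2.1, nrm3 p.2.2) := rfl

/-- The normal form of an ambient label. -/
noncomputable def nA (N : ℕ∞) (j : ℕ) (u : E4) : ℝ × ℝ × (Fin 3 → ℝ) :=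
  (pX N j u, pY N j u, fun k : Fin 3 => u k.succ / n3 u)

theorem nrm3_smul {b : ℝ} (hb : 0 < b) (v : Fin 3 → ℝ) : nrm3 (fun i => b * v i) = nrm3 v := by
  funext i
  unfold nrm3
  have h : (b * v 0) ^ 2 + (b * v 1) ^ 2 + (b * v 2) ^ 2 =
      b ^ 2 * (v 0 ^ 2 + v 1 ^ 2 + v 2 ^ 2) := by ring
  simp only
  rw [h, Real.sqrt_mul (sq_nonneg b), Real.sqrt_sq hb.le, mul_div_mul_left _ _ hb.ne']

theorem nrm3_unit (u : E4) : nrm3 (fun k : Fin 3 => u k.succ / n3 u) = fun k => u k.succ / n3 u := by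
  funext i
  unfold nrm3
  simp only
  by_cases h : n3 u = 0
  · simp [h]
  · have h1 : (u (Fin.succ 0) / n3 u) ^ 2 + (u (Fin.succ 1) / n3 u) ^ 2 +
        (u (Fin.succ 2) / n3 u) ^ 2 = 1 := by
      have h2 : n3 u ^ 2 = u 1 ^ 2 + u 2 ^ 2 + u 3 ^ 2 := by
        unfold n3
        rw [Real.sq_sqrt (by positivity)]
      have h3 : u (Fin.succ 0) = u 1 := rfl
      have h4 : u (Fin.succ 1) = u 2 := rfl
      have h5 : u (Fin.succ 2) = u 3 := rfl
      rw [h3, h4, h5, div_pow, div_pow, div_pow, ← add_div, ← add_div, ← h2,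
        div_self (pow_ne_zero 2 h)]
    rw [h1, Real.sqrt_one, div_one]

theorem nrmTau_repA {R : ℝ} {N : ℕ∞} {j : ℕ} {u : E4}
    (h : n3 u ≠ 0 → 0 < bb R N (pX N j u) (pY N j u)) :
    nrmTau (TauPt.mk (repA R N j u)) = TauPt.mk (nA N j u) := by
  rw [nrmTau_mk]
  unfold repA nA
  simp only
  congr 3
  by_cases h0 : n3 u = 0
  · funext i
    unfold nrm3
    simp [h0]
  · rw [nrm3_smul (h h0), nrm3_unit]

theorem nrmTau_VA {R : ℝ} {N : ℕ∞} {ρ : ℕ → ℝ} (hR : 0 < R) (hN : 1 ≤ N) {j : ℕ} {u : E4}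
    (hu : u ∈ Pool.Agent.W_MP_654ec6.VA N ρ j) :
    nrmTau (TauPt.mk (repA R N j u)) = TauPt.mk (nA N j u) :=
  nrmTau_repA fun h0 => bb_pos hR hN (mem_VC_of_n3 hu.1 hu.2.1 h0)

/-- The host of a point of `spP K N`. -/
noncomputable def hostOf (K : Core) (N : ℕ∞) (hN : 2 ≤ N) (p : (spP K N hN).Pt) : Host :=
  Sum.map (Sum.map nrmTau id) id
    (p : (TauPt ⊕ (Σ _ : ℕ, WPt ![1, 2, 1] ⊕ WPt ehm)) ⊕ WPt ehm)

/-- The host of a point of `Sp(N)`. -/
noncomputable def sph (K : Core) (N : ℕ∞) (hN : 2 ≤ N) (p : (sp K N hN).Pt) : Host :=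
  hostOf K N hN p.1

/-- A condition on `|X|` and `Y`. -/
def tauProp (f : ℝ → ℝ → Prop) : TauPt → Prop :=
  Quotient.lift (fun p : ℝ × ℝ × (Fin 3 → ℝ) => f |p.1| p.2.1) (by
    rintro p q (rfl | rfl)
    · rfl
    · simp only [abs_neg])

theorem tauProp_mk (f : ℝ → ℝ → Prop) (p : ℝ × ℝ × (Fin 3 → ℝ)) :
    tauProp f (TauPt.mk p) ↔ f |p.1| p.2.1 := Iff.rfl

/-- The ambient points which exist in both spaces. -/
def goodXY (n : ℕ) (X Y : ℝ) : Prop := 9 / 8 * zz n < X ∨ FF ⊤ (zz n) + 2 * zz n < Y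

/-- A neighbourhood of the other ambient points. -/
def zoneXY (n : ℕ) (X Y : ℝ) : Prop := X < 5 / 4 * zz n ∧ Y < FF ⊤ (zz n) + 3 * zz n

/-- The radius of the part of the block `k < n` which is collapsed. -/
noncomputable def thr (K : Core) (n k : ℕ) : ℝ := 2 ^ n * spA K n k

/-- The points which exist in both spaces. -/
def hGood (K : Core) (n : ℕ) : Set Host := {h | match h with
  | Sum.inl (Sum.inl τ) => tauProp (goodXY n) τ
  | Sum.inl (Sum.inr ⟨k, Sum.inl w⟩) => (1 ≤ k ∧ k < n) ∧ thr K n k ^ 2 < aSq w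
  | Sum.inl (Sum.inr ⟨_, Sum.inr _⟩) => False
  | Sum.inr _ => False}

/-- The zone of the middle vertex. -/
def hZX (n : ℕ) : Set Host := {h | match h with
  | Sum.inl (Sum.inl τ) => tauProp (zoneXY n) τ
  | Sum.inl (Sum.inr ⟨k, _⟩) => n ≤ k
  | Sum.inr _ => True}

/-- The zone of the bolt of the block `k`, `1 ≤ k < n`. -/
def hZB (K : Core) (n k : ℕ) : Set Host := {h | match h with
  | Sum.inl (Sum.inl _) => False
  | Sum.inl (Sum.inr ⟨l, Sum.inl w⟩) => l = k ∧ aSq w < (2 * thr K n k) ^ 2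
  | Sum.inl (Sum.inr ⟨l, Sum.inr _⟩) => l = k
  | Sum.inr _ => False}

theorem hZX_disjoint (K : Core) {n k : ℕ} (hk : k < n) : Disjoint (hZX n) (hZB K n k) := by
  rw [Set.disjoint_left]
  rintro ((τ | ⟨l, (w | w)⟩) | w) h1 h2
  · exact h2
  · have h3 : n ≤ l := h1
    have h4 : l = k := h2.1
    omega
  · have h3 : n ≤ l := h1
    have h4 : l = k := h2
    omega
  · exact h2

theorem hZB_disjoint (K : Core) (n : ℕ) {k l : ℕ} (hkl : k ≠ l) :
    Disjoint (hZB K n k) (hZB K n l) := by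
  rw [Set.disjoint_left]
  rintro ((τ | ⟨l', (w | w)⟩) | w) h1 h2
  · exact h2
  · exact hkl (h1.1.symm.trans h2.1)
  · have h3 : l' = k := h1
    have h4 : l' = l := h2
    exact hkl (h3.symm.trans h4)
  · exact h2

/-- Good labels of the ambient part. -/
def GoodC (K : Core) (n j : ℕ) (u : E4) : Prop :=
  j < n ∧ u ∈ Pool.Agent.W_MP_654ec6.VA n (spRad K n) j ∧
    u ∈ Pool.Agent.W_MP_654ec6.VA ⊤ (spRad K ⊤) j ∧ goodXY n |pX ⊤ j u| (pY ⊤ j u)

/-- Good labels of the blocks. -/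
def GoodB (K : Core) (n k : ℕ) (i : Fin 3) (u : E4) : Prop :=
  (1 ≤ k ∧ k < n) ∧ u ∈ blkV (spBlk K n k) i ∧ u ∈ blkV (spBlk K ⊤ k) i ∧
    thr K n k ^ 2 < aSq (blkPsi (spBlk K n k) i u)

/-- `n` is large. -/
structure Large (K : Core) (n : ℕ) : Prop where
  two_le : 2 ≤ n
  thr_le : ∀ k, 2 * thr K n k ≤ K.A0 / 4

/-- The label of the centre of the zone of the middle vertex (in the patch `0`). -/
noncomputable def xlab (n : ℕ) : E4 :=
  mk4 (lc ⊤ 0 0 (FF ⊤ (zz n) + 5 / 2 * zz n)) (sc ⊤ 0 0 (FF ⊤ (zz n) + 5 / 2 * zz n)) ![1, 0, 0]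

/-- The centre of the zone of the middle vertex. -/
noncomputable def cXpt (K : Core) (N : ℕ∞) (hN : 2 ≤ N) (n : ℕ) : (sp K N hN).Pt :=
  (sp K N hN).ψ (ixC K N hN 0) (xlab n)

/-- The label of the centre of the zone of the bolt of the block `k` (in the patch `F`). -/
noncomputable def flab (K : Core) (n k : ℕ) : E4 := EuclideanSpace.single 0 (3 / 2 * thr K n k)

/-- The centre of the zone of the bolt of the block `k`. -/
noncomputable def cBpt (K : Core) (N : ℕ∞) (hN : 2 ≤ N) (n k : ℕ) : (sp K N hN).Pt :=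
  (sp K N hN).ψ (ixB K N hN k 2) (flab K n k)

end Pool.Agent.W_MP_654ec6_h2
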