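import Pool.Agent.W_MP_654ec6.C.CompareC
import Pool.Agent.W_MP_654ec6_h2.Zones

/-!
# Part G1: good labels of the ambient part
-/

open scoped ContDiff Topology
open Filter Real

namespace Pool.Agent.W_MP_654ec6_h2

open Pool.Agent.W_MP_654ec6

variable (K : Core) {n : ℕ}

theorem core_R8 : K.R ≤ 1 / 8 := by
  have := K.R_le
  linarith

theorem zz_lt_half {n k : ℕ} (h : n < k) : zz k ≤ zz n / 2 := by
  have h1 := zz_anti (show n + 1 ≤ k by omega)
  rwa [zz_succ] at h1

theorem spRad_mid (hn : 1 ≤ n) : spRad K n 0 ≤ zz n / 32 := by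
  have h := (spRad_ok K n).mid (ENat.natCast_ne_top n)
  rw [ENat.toNat_natCast] at h
  have hc := cc_le n n
  have hc0 := cc_nonneg n n
  have hR1 := core_R8 K
  have hR0 := K.R_pos
  have hz := zz_pos n
  have h5 : K.R * cc n n * zz n ≤ zz n := by
    have : K.R * cc n n ≤ 1 := by nlinarith
    nlinarith
  have h6 := (spRad_ok K n).pos 0
  linarith

/-- Outside the low part near the middle the conditions on the disks agree. -/
theorem outDisks_cmp (hn : 1 ≤ n) {X Y : ℝ} (h : goodXY n |X| Y) :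
    OutDisks n (spRad K n) X Y ↔ OutDisks ⊤ (spRad K ⊤) X Y := by
  have hz := zz_pos n
  have key : ∀ k : ℕ, 1 ≤ k → k ≤ n → (spRad K n k ^ 2 < (|X| - zz k) ^ 2 + (Y - FF n (zz k)) ^ 2 ↔
      spRad K ⊤ k ^ 2 < (|X| - zz k) ^ 2 + (Y - FF ⊤ (zz k)) ^ 2) := by
    intro k hk hkn
    rw [spRad_eq_top K hk, spRad_eq_top K hk, compareC_FF_zz hn hkn]
  constructor
  · rintro ⟨h1, -⟩
    refine ⟨fun k hk _ => ?_, fun h' => absurd rfl h'⟩
    by_cases hkn : k ≤ n
    · exact (key k hk hkn).1 (h1 k hk (by exact_mod_cast hkn))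
    · have h2 := zz_lt_half (not_le.1 hkn)
      have h3 := zz_pos k
      have h4 : spRad K ⊤ k ≤ zz k / 16 := by
        have := (spRad_ok K ⊤).le k hk
        linarith
      have h5 := (spRad_ok K ⊤).pos k
      rcases h with h | h
      · have h6 : spRad K ⊤ k < |X| - zz k := by linarith
        have h7 : spRad K ⊤ k ^ 2 < (|X| - zz k) ^ 2 := pow_lt_pow_left₀ h6 h5.le (by norm_num)
        nlinarith [sq_nonneg (Y - FF ⊤ (zz k))]
      · have h8 := FF_mono ⊤ h3.le (zz_anti (le_of_lt (not_le.1 hkn)))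
        have h6 : spRad K ⊤ k < Y - FF ⊤ (zz k) := by linarith
        have h7 : spRad K ⊤ k ^ 2 < (Y - FF ⊤ (zz k)) ^ 2 :=
          pow_lt_pow_left₀ h6 h5.le (by norm_num)
        nlinarith [sq_nonneg (|X| - zz k)]
  · rintro ⟨h1, -⟩
    refine ⟨fun k hk hkn => ?_, fun _ => ?_⟩
    · have hkn' : k ≤ n := by exact_mod_cast hkn
      exact (key k hk hkn').2 (h1 k hk le_top)
    · have h4 := spRad_mid K hn
      have h5 := (spRad_ok K n).pos 0
      have hm : midY n = FF ⊤ (zz n) := by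
        unfold midY
        rw [ENat.toNat_natCast, compareC_FF_zz hn le_rfl]
      rw [hm]
      rcases h with h | h
      · have h6 : spRad K n 0 < |X| := by linarith
        have h7 : spRad K n 0 ^ 2 < |X| ^ 2 := pow_lt_pow_left₀ h6 h5.le (by norm_num)
        rw [sq_abs] at h7
        nlinarith [sq_nonneg (Y - FF ⊤ (zz n))]
      · have h6 : spRad K n 0 < Y - FF ⊤ (zz n) := by linarith
        have h7 : spRad K n 0 ^ 2 < (Y - FF ⊤ (zz n)) ^ 2 :=
          pow_lt_pow_left₀ h6 h5.le (by norm_num)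
        nlinarith [sq_nonneg X]

/-- The strict interior of the polygons agree at good points. -/
theorem GG_cmp (hn : 1 ≤ n) {X Y : ℝ} (h : goodXY n |X| Y) : GG n X < Y ↔ GG ⊤ X < Y := by
  have hz := zz_pos n
  by_cases hX : zz n ≤ |X|
  · rw [GG_eq_top hn hX]
  · have h1 : FF ⊤ (zz n) + zz n ≤ Y := by
      rcases h with h | h
      · linarith
      · linarith
    obtain ⟨h2, h3, -⟩ := compareC_high hn (not_le.1 hX).le h1
    exact ⟨fun _ => h3, fun _ => h2⟩

/-- The data of a point of `VC` on the boundary: the edge has an index `< n`. -/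
theorem edge_lt (hn : 1 ≤ n) {N : ℕ∞} (hNn : N = (n : ℕ∞) ∨ N = ⊤) {j : ℕ} {u : E4}
    (hN1 : 1 ≤ N) (ho : opEdge N j (pX N j u)) (h0 : n3 u = 0)
    (hg : goodXY n |pX N j u| (pY N j u)) : j < n ∧ zz n ≤ |pX N j u| := by
  have hz := zz_pos n
  have hY : pY N j u = GG N (pX N j u) := by
    rw [pY_of_n3_zero N j h0, GG_eq_of_opEdge ho]
  obtain ⟨o1, o2, o3, o4⟩ := ho
  -- the low part
  have hlow : |pX N j u| ≤ zz n → pY N j u ≤ FF ⊤ (zz n) := by
    intro h
    rw [hY]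
    rcases hNn with rfl | rfl
    · rw [GG_mid hn h, compareC_FF_zz hn le_rfl]
    · exact GG_top_le hn h
  have hXn : zz n < |pX N j u| := by
    by_contra hcon
    have h1 := hlow (not_lt.1 hcon)
    rcases hg with h2 | h2
    · linarith [not_lt.1 hcon]
    · linarith
  refine ⟨?_, hXn.le⟩
  by_contra hj
  have hj' : n ≤ j := not_lt.1 hj
  have hj0 : j ≠ 0 := by omega
  have h2 : pX N j u < zz j := by
    rcases o4 with h | h
    · exact absurd h hj0
    · exact h
  have h3 := zz_anti hj'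
  have h4 : -zz n < pX N j u := by
    by_cases hjN : (j : ℕ∞) < N
    · have := o2 hjN
      have := zz_pos (j + 1)
      linarith
    · have := o3 hjN
      linarith
  have h5 : |pX N j u| < zz n := abs_lt.2 ⟨h4, by linarith⟩
  linarith

/-- A label in the patch `0` for an interior point. -/
noncomputable def lab0 (N : ℕ∞) (X Y : ℝ) (ξ : Fin 3 → ℝ) : E4 := mk4 (lc N 0 X Y) (sc N 0 X Y) ξ

theorem lab0_spec {N : ℕ∞} {X Y : ℝ} (h : GG N X < Y) {ξ : Fin 3 → ℝ}
    (hξ : ξ 0 ^ 2 + ξ 1 ^ 2 + ξ 2 ^ 2 = 1) : pX N 0 (lab0 N X Y ξ) = X ∧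
      pY N 0 (lab0 N X Y ξ) = Y ∧ n3 (lab0 N X Y ξ) ≠ 0 ∧
      (fun k : Fin 3 => (lab0 N X Y ξ) k.succ / n3 (lab0 N X Y ξ)) = ξ := by
  have hs : 0 < sc N 0 X Y := sc_pos (N := N) (j := 0) (by simp) h
  have h3 : n3 (lab0 N X Y ξ) = sc N 0 X Y := n3_mk4 _ hs.le hξ
  refine ⟨pX_mk4 N 0 hs.le hξ, pY_mk4 N 0 hs.le hξ, by rw [h3]; exact hs.ne', ?_⟩
  funext k
  rw [h3]
  fin_cases k <;> simp [lab0, mk4, hs.ne']

end Pool.Agent.W_MP_654ec6_h2
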