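import Pool.Agent.W_MP_654ec6_h2.Cover
import Pool.Agent.W_MP_654ec6_h2.Zones

/-!
# Part G1: labels of the points of `Sp(N)` according to their host; injectivity of `sph`
-/

open scoped ContDiff Topology
open Filter Real

namespace Pool.Agent.W_MP_654ec6_h2

open Pool.Agent.W_MP_654ec6 PreP

section

variable {K : Core} {N : ℕ∞} {hN : 2 ≤ N}

theorem one_le_of_two (hN : 2 ≤ N) : 1 ≤ N := le_trans (by norm_num) hN

/-- The value of `ψ` at a label. -/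
theorem sp_val {i : (spP K N hN).ι} {a : E4} (ha : a ∈ (spP K N hN).V i) :
    ((sp K N hN).ψ i a).1 = (spP K N hN).ψ i a :=
  PreP.Pre_cpsi_val (spP K N hN) (spBase K N hN) ha

theorem sph_label {i : (spP K N hN).ι} {a : E4} (ha : a ∈ (spP K N hN).V i) :
    sph K N hN ((sp K N hN).ψ i a) = hostOf K N hN ((spP K N hN).ψ i a) := by
  unfold sph
  rw [sp_val ha]

theorem sp_eq_of_val {i : (spP K N hN).ι} {a : E4} (ha : a ∈ (spP K N hN).V i)
    {p : (sp K N hN).Pt} (h : (spP K N hN).ψ i a = p.1) : (sp K N hN).ψ i a = p :=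
  Subtype.ext ((sp_val ha).trans h)

/-- Covered points of the ambient part. -/
theorem cover_C {p : (sp K N hN).Pt} {τ : TauPt}
    (h : p.1 = (Sum.inl (Sum.inl τ) : (spP K N hN).Pt)) :
    ∃ j, ∃ u ∈ Pool.Agent.W_MP_654ec6.VA N (spRad K N) j, TauPt.mk (repA K.R N j u) = τ ∧
      (sp K N hN).ψ (ixC K N hN j) u = p := by
  obtain ⟨i, a, ha, hp⟩ := p.2
  rw [h] at hp
  obtain ⟨i', b, hb, h2⟩ := glue_inl_cover (midGlue K N hN) ha hp
  obtain ⟨j, u, hu, h3⟩ := glue_inl_cover (spFam K N hN).glueData hb h2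
  refine ⟨j, u, hu, h3, sp_eq_of_val (i := ixC K N hN j) hu ?_⟩
  rw [h]
  exact congrArg (fun x => Sum.inl (Sum.inl x)) h3

/-- Covered points of the blocks (outside the collar). -/
theorem cover_Q {p : (sp K N hN).Pt} {k : ℕ} {x : (bP (spBlk K N k) (N ≠ ⊤)).Pt}
    (h : p.1 = (Sum.inl (Sum.inr ⟨k, x⟩) : (spP K N hN).Pt)) :
    (1 ≤ k ∧ (k : ℕ∞) ≤ N) ∧ bR (spBlk K N k) (N ≠ ⊤) x ≤ 0 ∧
    ∃ i, ∃ u ∈ (bP (spBlk K N k) (N ≠ ⊤)).V i, (bP (spBlk K N k) (N ≠ ⊤)).ψ i u = x ∧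
      (sp K N hN).ψ (Sum.inl (Sum.inr ⟨k, i⟩) : (spP K N hN).ι) u = p := by
  obtain ⟨i, a, ha, hp⟩ := p.2
  rw [h] at hp
  obtain ⟨i', b, hb, h2⟩ := glue_inl_cover (midGlue K N hN) ha hp
  obtain ⟨⟨k', d⟩, u, hu, h3, -, -, h4⟩ := glue_inr_cover (spFam K N hN).glueData hb h2
  have e1 : k' = k := congrArg Sigma.fst h3
  subst e1
  have e2 : (bP (spBlk K N k') (N ≠ ⊤)).ψ d u = x := eq_of_heq (Sigma.mk.inj h3).2
  refine ⟨hu.1, h4, d, u, hu.2, e2, ?_⟩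
  have hV : u ∈ (spP K N hN).V (Sum.inl (Sum.inr ⟨k', d⟩)) := hu
  refine sp_eq_of_val (i := Sum.inl (Sum.inr ⟨k', d⟩)) hV ?_
  rw [h]
  have h5 : glueMap (spFam K N hN).glueData ((spFam K N hN).S.ψ ⟨k', d⟩ u) =
      Sum.inr ((spFam K N hN).S.ψ ⟨k', d⟩ u) := by
    refine glueMap_of_le _ ?_
    change bR (spBlk K N k') (N ≠ ⊤) ((bP (spBlk K N k') (N ≠ ⊤)).ψ d u) ≤ 0
    rw [e2]
    exact h4
  have h6 : (spP K N hN).ψ (Sum.inl (Sum.inr ⟨k', d⟩)) u =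
      Sum.inl (glueMap (spFam K N hN).glueData ((spFam K N hN).S.ψ ⟨k', d⟩ u)) := rfl
  rw [h6, h5]
  exact congrArg (fun x => Sum.inl (Sum.inr x)) h3

/-- Covered points of the blocks outside the bolts. -/
theorem cover_B {p : (sp K N hN).Pt} {k : ℕ} {w : WPt ![1, 2, 1]}
    (h : p.1 = (Sum.inl (Sum.inr ⟨k, Sum.inl w⟩) : (spP K N hN).Pt)) :
    (1 ≤ k ∧ (k : ℕ∞) ≤ N) ∧ rBlk (spBlk K N k) w ≤ 0 ∧
    ∃ i, ∃ u ∈ blkV (spBlk K N k) i, blkPsi (spBlk K N k) i u = w ∧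
      (sp K N hN).ψ (ixB K N hN k i) u = p := by
  obtain ⟨hk, h1, i, u, hu, h2, h3⟩ := cover_Q h
  obtain ⟨i', u', hu', h4⟩ := glue_inl_cover (bGlue (spBlk K N k) (N ≠ ⊤)) hu h2
  have h5 : rBlk (spBlk K N k) w ≤ 0 := (le_max_left _ _).trans h1
  refine ⟨hk, h5, i', u', hu', h4, ?_⟩
  have hV : u' ∈ (spP K N hN).V (ixB K N hN k i') := ⟨hk, hu'⟩
  refine sp_eq_of_val (i := ixB K N hN k i') hV ?_
  rw [h]
  have h6 : glueMap (spFam K N hN).glueData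
      ((spFam K N hN).S.ψ ⟨k, (Sum.inl i' : Fin 3 ⊕ EHI)⟩ u') =
      Sum.inr ((spFam K N hN).S.ψ ⟨k, (Sum.inl i' : Fin 3 ⊕ EHI)⟩ u') := by
    refine glueMap_of_le _ ?_
    change bR (spBlk K N k) (N ≠ ⊤) (Sum.inl (blkPsi (spBlk K N k) i' u')) ≤ 0
    have h7 : blkPsi (spBlk K N k) i' u' = w := h4
    rw [h7]
    exact h1
  have h8 : (spP K N hN).ψ (ixB K N hN k i') u' = Sum.inl (glueMap (spFam K N hN).glueData
      ((spFam K N hN).S.ψ ⟨k, (Sum.inl i' : Fin 3 ⊕ EHI)⟩ u')) := rfl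
  rw [h8, h6]
  exact congrArg (fun x => (Sum.inl (Sum.inr ⟨k, Sum.inl x⟩) : (spP K N hN).Pt)) h4

/-- The host determines the point. -/
theorem sph_injective (K : Core) (N : ℕ∞) (hN : 2 ≤ N) : Function.Injective (sph K N hN) := by
  intro p q h
  apply Subtype.ext
  obtain ⟨x, hx⟩ : ∃ x : (TauPt ⊕ (Σ _ : ℕ, WPt ![1, 2, 1] ⊕ WPt ehm)) ⊕ WPt ehm, p.1 = x :=
    ⟨p.1, rfl⟩
  obtain ⟨y, hy⟩ : ∃ y : (TauPt ⊕ (Σ _ : ℕ, WPt ![1, 2, 1] ⊕ WPt ehm)) ⊕ WPt ehm, q.1 = y :=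
    ⟨q.1, rfl⟩
  have h' : (Sum.map (Sum.map nrmTau id) id x : Host) = Sum.map (Sum.map nrmTau id) id y := by
    rw [← hx, ← hy]
    exact h
  rw [hx, hy]
  rcases x with (τ | x) | x <;> rcases y with (τ' | y) | y
  · have h1 : nrmTau τ = nrmTau τ' := Sum.inl_injective (Sum.inl_injective h')
    obtain ⟨j, u, hu, e1, -⟩ := cover_C hx
    obtain ⟨j', u', hu', e1', -⟩ := cover_C hy
    rw [← e1, ← e1', nrmTau_VA K.R_pos (one_le_of_two hN) hu,
      nrmTau_VA K.R_pos (one_le_of_two hN) hu', TauPt.mk_eq] at h1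
    have h2 : τ = τ' := by
      rw [← e1, ← e1', TauPt.mk_eq]
      unfold nA at h1
      rcases h1 with h1 | h1
      · left
        have a1 := congrArg Prod.fst h1
        have a2 := congrArg (fun p : ℝ × ℝ × (Fin 3 → ℝ) => p.2.1) h1
        have a3 := congrArg (fun p : ℝ × ℝ × (Fin 3 → ℝ) => p.2.2) h1
        simp only at a1 a2 a3
        unfold repA
        rw [a1, a2]
        have a4 : ∀ k : Fin 3, u' k.succ / n3 u' = u k.succ / n3 u := fun k => congrFun a3 k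
        simp only [a4]
      · right
        have a1 := congrArg Prod.fst h1
        have a2 := congrArg (fun p : ℝ × ℝ × (Fin 3 → ℝ) => p.2.1) h1
        have a3 := congrArg (fun p : ℝ × ℝ × (Fin 3 → ℝ) => p.2.2) h1
        simp only at a1 a2 a3
        unfold repA
        rw [a1, a2, bb_neg]
        have a4 : ∀ k : Fin 3, u' k.succ / n3 u' = -(u k.succ / n3 u) := fun k => by
          have := congrFun a3 k
          simpa using this
        simp only [a4, mul_neg]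
        rfl
    rw [h2]
  · cases h'
  · cases h'
  · cases h'
  · have h1 := Sum.inl_injective h'
    have h2 : x = y := Sum.inr_injective h1
    rw [h2]
  · cases h'
  · cases h'
  · cases h'
  · have h1 : x = y := Sum.inr_injective h'
    rw [h1]

end

end Pool.Agent.W_MP_654ec6_h2
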