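import Pool.Agent.W_MP_654ec6_h2.CompatA
import Pool.Agent.W_MP_654ec6_h2.CompatB

/-!
# Part G1: good labels: covering, hosts, openness, comparison of the metrics
-/

open scoped ContDiff Topology
open Filter Real

namespace Pool.Agent.W_MP_654ec6_h2

open Pool.Agent.W_MP_654ec6 PreP

section

variable {K : Core} {n : ℕ} {N : ℕ∞} {hN : 2 ≤ N}

theorem coord_N (hNn : N = (n : ℕ∞) ∨ N = ⊤) {j : ℕ} (hj : j < n) (u : E4) :
    pX N j u = pX ⊤ j u ∧ pY N j u = pY ⊤ j u := by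
  rcases hNn with rfl | rfl
  · exact coord_eq_top hj u
  · exact ⟨rfl, rfl⟩

theorem nA_N (hNn : N = (n : ℕ∞) ∨ N = ⊤) {j : ℕ} (hj : j < n) (u : E4) :
    nA N j u = nA ⊤ j u := by
  unfold nA
  rw [(coord_N hNn hj u).1, (coord_N hNn hj u).2]

theorem GoodC.mem (hNn : N = (n : ℕ∞) ∨ N = ⊤) {j : ℕ} {u : E4} (h : GoodC K n j u) :
    u ∈ Pool.Agent.W_MP_654ec6.VA N (spRad K N) j := by
  rcases hNn with rfl | rfl
  · exact h.2.1
  · exact h.2.2.1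

theorem goodC_host (hNn : N = (n : ℕ∞) ∨ N = ⊤) {j : ℕ} {u : E4} (h : GoodC K n j u) :
    sph K N hN ((sp K N hN).ψ (ixC K N hN j) u) = Sum.inl (Sum.inl (TauPt.mk (nA ⊤ j u))) := by
  have hV : u ∈ (spP K N hN).V (ixC K N hN j) := h.mem hNn
  rw [sph_label hV, ← nA_N hNn h.1, ← nrmTau_VA K.R_pos (one_le_of_two hN) (h.mem hNn)]
  rfl

theorem goodC_good {j : ℕ} {u : E4} (h : GoodC K n j u) :
    (Sum.inl (Sum.inl (TauPt.mk (nA ⊤ j u))) : Host) ∈ hGood K n := h.2.2.2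

/-- Good points of the ambient part have good labels. -/
theorem cover_goodC (hn : 2 ≤ n) (hNn : N = (n : ℕ∞) ∨ N = ⊤) {p : (sp K N hN).Pt}
    (hp : sph K N hN p ∈ hGood K n) {τ : TauPt}
    (h : p.1 = (Sum.inl (Sum.inl τ) : (spP K N hN).Pt)) :
    ∃ j u, GoodC K n j u ∧ (sp K N hN).ψ (ixC K N hN j) u = p := by
  have hN1 := one_le_of_two hN
  have hn1 : 1 ≤ n := by omega
  obtain ⟨j, u, hu, e1, e2⟩ := cover_C h
  have hg : goodXY n |pX N j u| (pY N j u) := by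
    have h1 : sph K N hN p = Sum.inl (Sum.inl (nrmTau τ)) := by
      unfold sph hostOf
      rw [h]
      rfl
    rw [h1, ← e1, nrmTau_VA K.R_pos hN1 hu] at hp
    exact hp
  by_cases h0 : n3 u = 0
  · have ho : opEdge N j (pX N j u) := by
      rcases hu.2.1 with h1 | h1
      · exact absurd h0 (n3_pos hu.1 h1).ne'
      · exact h1.2
    obtain ⟨hj, hX⟩ := edge_lt hn1 hNn hN1 ho h0 hg
    refine ⟨j, u, ⟨hj, ?_⟩, e2⟩
    have hc := coord_eq_top hj u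
    rcases hNn with rfl | rfl
    · rw [hc.1] at hX
      rw [hc.1, hc.2] at hg
      refine ⟨hu, ⟨le_top, (VC_eq_top hn1 hj hX).1 hu.2.1, ?_⟩, hg⟩
      have h2 := (outDisks_cmp K hn1 (X := pX ⊤ j u) (Y := pY ⊤ j u) hg).1
      rw [← hc.1, ← hc.2] at h2 ⊢
      rw [hc.1, hc.2] at h2 ⊢
      refine h2 ?_
      have h3 := hu.2.2
      rwa [hc.1, hc.2] at h3
    · refine ⟨⟨by exact_mod_cast hj.le, (VC_eq_top hn1 hj hX).2 hu.2.1, ?_⟩, hu, hg⟩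
      rw [hc.1, hc.2]
      exact (outDisks_cmp K hn1 hg).2 hu.2.2
  · have hG := mem_VC_of_n3 hu.1 hu.2.1 h0
    have hGn : GG n (pX N j u) < pY N j u ∧ GG ⊤ (pX N j u) < pY N j u := by
      rcases hNn with rfl | rfl
      · exact ⟨hG, (GG_cmp hn1 hg).1 hG⟩
      · exact ⟨(GG_cmp hn1 hg).2 hG, hG⟩
    have hOn : OutDisks n (spRad K n) (pX N j u) (pY N j u) ∧
        OutDisks ⊤ (spRad K ⊤) (pX N j u) (pY N j u) := by
      rcases hNn with rfl | rfl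
      · exact ⟨hu.2.2, (outDisks_cmp K hn1 hg).1 hu.2.2⟩
      · exact ⟨(outDisks_cmp K hn1 hg).2 hu.2.2, hu.2.2⟩
    have hξ : (u (Fin.succ 0) / n3 u) ^ 2 + (u (Fin.succ 1) / n3 u) ^ 2 +
        (u (Fin.succ 2) / n3 u) ^ 2 = 1 := (mk4_eta h0).2
    obtain ⟨f1, f2, f3, f4⟩ := lab0_spec (N := ⊤) hGn.2 (ξ := fun k : Fin 3 => u k.succ / n3 u) hξ
    set u' := lab0 ⊤ (pX N j u) (pY N j u) (fun k : Fin 3 => u k.succ / n3 u) with hu'
    have hj0 : 0 < n := by omega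
    have hc := coord_eq_top hj0 u'
    have hgood : GoodC K n 0 u' := by
      refine ⟨hj0, ⟨by simp, ?_, ?_⟩, ⟨by simp, ?_, ?_⟩, ?_⟩
      · left
        rw [hc.1, hc.2, f1, f2]
        exact hGn.1
      · rw [hc.1, hc.2, f1, f2]
        exact hOn.1
      · left
        rw [f1, f2]
        exact hGn.2
      · rw [f1, f2]
        exact hOn.2
      · rw [f1, f2]
        exact hg
    refine ⟨0, u', hgood, ?_⟩
    have hV : u' ∈ (spP K N hN).V (ixC K N hN 0) := hgood.mem hNn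
    refine sp_eq_of_val hV ?_
    rw [h, ← e1]
    have hcN := coord_N hNn hj0 u'
    have h5 : repA K.R N 0 u' = repA K.R N j u := by
      unfold repA
      rw [hcN.1, hcN.2, f1, f2]
      have h6 : ∀ k : Fin 3, u' k.succ / n3 u' = u k.succ / n3 u := fun k => congrFun f4 k
      simp only [h6]
    change (Sum.inl (Sum.inl (TauPt.mk (repA K.R N 0 u'))) : (spP K N hN).Pt) = _
    rw [h5]

/-- The block data agree. -/
theorem blk_cmp {k : ℕ} (hk : 1 ≤ k) (hkn : k < n) : (spBlk K n k).B = (spBlk K ⊤ k).B ∧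
    (spBlk K n k).ρ = (spBlk K ⊤ k).ρ ∧ (spBlk K n k).K = (spBlk K ⊤ k).K := by
  refine ⟨spB_eq_top K hk hkn, ?_, rfl⟩
  change spRad K n k = spRad K ⊤ k
  rw [spRad_eq_top K hk, spRad_eq_top K hk]

theorem blkPsi_cmp (k : ℕ) (i : Fin 3) (u : E4) :
    blkPsi (spBlk K N k) i u = blkPsi (spBlk K ⊤ k) i u := rfl

theorem rBlk_cmp {k : ℕ} (hk : 1 ≤ k) (hkn : k < n) (w : WPt ![1, 2, 1]) :
    rBlk (spBlk K n k) w = rBlk (spBlk K ⊤ k) w := by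
  obtain ⟨h1, h2, h3⟩ := blk_cmp (K := K) hk hkn
  unfold rBlk
  rw [h1, h2]
  rfl

/-- The collar maps agree. -/
theorem collE_cmp (hn : 2 ≤ (n : ℕ∞)) {k : ℕ} (hk : 1 ≤ k) (hkn : k < n) {u : E4}
    (hu : ‖u‖ ∈ collT (spRad K ⊤ k) (spB K ⊤ k)) :
    collE (spAmb K n hn) k (spB K n k) u = collE (spAmb K ⊤ le_top) k (spB K ⊤ k) u := by
  have hn1 : 1 ≤ n := by omega
  have hC := spColl K ⊤ le_top hk le_top
  have hB := spB_eq_top K hk hkn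
  have e1 : uph n k (spB K ⊤ k).Φ u = uph ⊤ k (spB K ⊤ k).Φ u := by
    have a1 : aa n (k - 1) = aa ⊤ (k - 1) :=
      aa_eq_top (by exact_mod_cast (show k - 1 < n by omega))
    have a2 : aa n k = aa ⊤ k := aa_eq_top (by exact_mod_cast hkn)
    unfold uph
    rw [a1, a2]
  have e2 : qX n k (spB K ⊤ k).Φ (spB K ⊤ k).s (spB K ⊤ k).tstar u =
      qX ⊤ k (spB K ⊤ k).Φ (spB K ⊤ k).s (spB K ⊤ k).tstar u := by
    unfold qX
    rw [e1]
  have e3 : qY n k (spB K ⊤ k).Φ (spB K ⊤ k).s (spB K ⊤ k).tstar u =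
      qY ⊤ k (spB K ⊤ k).Φ (spB K ⊤ k).s (spB K ⊤ k).tstar u := by
    unfold qY
    rw [e1, compareC_FF_zz hn1 hkn.le]
  have hX : zz n ≤ |qX ⊤ k (spB K ⊤ k).Φ (spB K ⊤ k).s (spB K ⊤ k).tstar u| := by
    have h1 := hC.qX_ge hu
    have h2 := zz_lt_half hkn
    have h3 := zz_pos n
    have h4 : 7 / 8 * zz k ≤ qX ⊤ k (spB K ⊤ k).Φ (spB K ⊤ k).s (spB K ⊤ k).tstar u := h1
    rw [abs_of_pos (by linarith [zz_pos k])]
    linarith
  have hY : GG ⊤ (qX ⊤ k (spB K ⊤ k).Φ (spB K ⊤ k).s (spB K ⊤ k).tstar u) ≤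
      qY ⊤ k (spB K ⊤ k).Φ (spB K ⊤ k).s (spB K ⊤ k).tstar u := by
    obtain ⟨j, hj, -, h2⟩ := hC.dc.etale hu
    have h3 := h2.self_of_nhds
    have h4 := GG_le_pY hj h3.mem
    rw [h3.pX_eq, h3.pY_eq] at h4
    exact h4
  have e4 := bb_eq_top K.R_pos (core_R8 K) hn1 hX hY
  unfold collE
  rw [hB]
  change TauPt.mk (qX n k _ _ _ u, qY n k _ _ _ u, fun i : Fin 3 =>
    bb K.R n (qX n k _ _ _ u) (qY n k _ _ _ u) * (u i.succ / n3 u)) = TauPt.mk _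
  rw [e2, e3, e4]
  rfl

theorem GoodB.mem (hNn : N = (n : ℕ∞) ∨ N = ⊤) {k : ℕ} {i : Fin 3} {u : E4}
    (h : GoodB K n k i u) : u ∈ blkV (spBlk K N k) i := by
  rcases hNn with rfl | rfl
  · exact h.2.1
  · exact h.2.2.1

theorem lt_cast (hNn : N = (n : ℕ∞) ∨ N = ⊤) {k : ℕ} (hk : k < n) : (k : ℕ∞) ≤ N := by
  rcases hNn with rfl | rfl
  · exact_mod_cast hk.le
  · exact le_top

/-- The value of `ψ` at a label of a block. -/
theorem psiB_pos {k : ℕ} {u : E4} (hk : 1 ≤ k ∧ (k : ℕ∞) ≤ N) (hu : u ∈ VD (spBlk K N k))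
    (h : 0 < rBlk (spBlk K N k) (blkPsi (spBlk K N k) 0 u)) :
    (spP K N hN).ψ (ixB K N hN k 0) u =
      Sum.inl (Sum.inl (collE (spAmb K N hN) k (spB K N k) u)) := by
  have h1 : 0 < bR (spBlk K N k) (N ≠ ⊤) (Sum.inl (blkPsi (spBlk K N k) 0 u)) :=
    lt_max_of_lt_left h
  have h2 := glueMap_of_pos (spFam K N hN).glueData (d := ⟨k, Sum.inl (0 : Fin 3)⟩) rfl
    (u := u) ⟨hk, hu⟩ h1
  exact congrArg Sum.inl h2

theorem psiB_neg {k : ℕ} {i : Fin 3} {u : E4}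
    (h : rBlk (spBlk K N k) (blkPsi (spBlk K N k) i u) ≤ 0) :
    (spP K N hN).ψ (ixB K N hN k i) u =
      Sum.inl (Sum.inr ⟨k, Sum.inl (blkPsi (spBlk K N k) i u)⟩) := by
  have h1 : bR (spBlk K N k) (N ≠ ⊤) (Sum.inl (blkPsi (spBlk K N k) i u)) ≤ 0 :=
    max_le h (by
      have := spRad_pos K N k
      change -(spRad K N k / 4) ≤ 0
      linarith)
  have h2 : glueMap (spFam K N hN).glueData
      ((spFam K N hN).S.ψ ⟨k, (Sum.inl i : Fin 3 ⊕ EHI)⟩ u) = Sum.inr _ := glueMap_of_le _ h1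
  exact congrArg Sum.inl h2

theorem goodB_host (hn : 2 ≤ (n : ℕ∞)) {k : ℕ} {i : Fin 3} {u : E4} (h : GoodB K n k i u) :
    sph K n hn ((sp K n hn).ψ (ixB K n hn k i) u) =
        sph K ⊤ le_top ((sp K ⊤ le_top).ψ (ixB K ⊤ le_top k i) u) ∧
      sph K n hn ((sp K n hn).ψ (ixB K n hn k i) u) ∈ hGood K n := by
  obtain ⟨⟨hk, hkn⟩, hu1, hu2, ha⟩ := h
  have hkn' : (k : ℕ∞) ≤ (n : ℕ∞) := by exact_mod_cast hkn.le
  have hV1 : u ∈ (spP K n hn).V (ixB K n hn k i) := ⟨⟨hk, hkn'⟩, hu1⟩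
  have hV2 : u ∈ (spP K ⊤ le_top).V (ixB K ⊤ le_top k i) := ⟨⟨hk, le_top⟩, hu2⟩
  rw [sph_label hV1, sph_label hV2]
  by_cases hr : 0 < rBlk (spBlk K n k) (blkPsi (spBlk K n k) i u)
  · have hi : i = 0 := by
      by_contra hi
      have h1 := rBlk_EF_le (spBlk K n k) hi hu1
      have h2 := (spBlk K n k).ρ_pos
      linarith
    subst hi
    have hr' : 0 < rBlk (spBlk K ⊤ k) (blkPsi (spBlk K ⊤ k) 0 u) := by
      rw [← rBlk_cmp hk hkn]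
      exact hr
    rw [psiB_pos ⟨hk, hkn'⟩ hu1 hr, psiB_pos ⟨hk, le_top⟩ hu2 hr']
    have hcol : ‖u‖ ∈ collT (spRad K ⊤ k) (spB K ⊤ k) :=
      ⟨(rBlk_pos_D (spBlk K ⊤ k) hu2).1 hr', hu2.2⟩
    rw [collE_cmp hn hk hkn hcol]
    refine ⟨rfl, ?_⟩
    change tauProp (goodXY n) (nrmTau (collE (spAmb K ⊤ le_top) k (spB K ⊤ k) u))
    unfold collE
    rw [nrmTau_mk]
    left
    have h1 := (spColl K ⊤ le_top hk le_top).qX_ge hcol
    have h2 := zz_lt_half hkn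
    have h3 := zz_pos n
    have h4 : 7 / 8 * zz k ≤ qX ⊤ k (spB K ⊤ k).Φ (spB K ⊤ k).s (spB K ⊤ k).tstar u := h1
    change 9 / 8 * zz n < |qX ⊤ k (spB K ⊤ k).Φ (spB K ⊤ k).s (spB K ⊤ k).tstar u|
    rw [abs_of_pos (by linarith [zz_pos k])]
    linarith
  · have hr' : rBlk (spBlk K ⊤ k) (blkPsi (spBlk K ⊤ k) i u) ≤ 0 := by
      rw [← rBlk_cmp hk hkn]
      exact not_lt.1 hr
    rw [psiB_neg (not_lt.1 hr), psiB_neg hr']
    exact ⟨rfl, ⟨hk, hkn⟩, ha⟩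

theorem goodB_host' (hn : 2 ≤ (n : ℕ∞)) (hNn : N = (n : ℕ∞) ∨ N = ⊤) {k : ℕ} {i : Fin 3} {u : E4}
    (h : GoodB K n k i u) : sph K N hN ((sp K N hN).ψ (ixB K N hN k i) u) =
        sph K n hn ((sp K n hn).ψ (ixB K n hn k i) u) := by
  rcases hNn with rfl | rfl
  · rfl
  · exact (goodB_host hn h).1.symm

theorem thr_ge (K : Core) (n k : ℕ) : spA K n k ≤ thr K n k := by
  have h1 : (1 : ℝ) ≤ 2 ^ n := one_le_pow₀ (by norm_num)
  have h2 := spA_nonneg K n k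
  unfold thr
  nlinarith

theorem thr_pos (K : Core) (n k : ℕ) : 0 < thr K n k := by
  have h2 := spA_pos K (ENat.natCast_ne_top n) k
  unfold thr
  positivity

/-- The domains of the patches of the blocks agree at good points. -/
theorem blkV_cmp (hNn : N = (n : ℕ∞) ∨ N = ⊤) {k : ℕ} (hk : 1 ≤ k) (hkn : k < n) {i : Fin 3}
    {u : E4} (hu : u ∈ blkV (spBlk K N k) i)
    (ha : thr K n k ^ 2 < aSq (blkPsi (spBlk K N k) i u)) :
    u ∈ blkV (spBlk K n k) i ∧ u ∈ blkV (spBlk K ⊤ k) i := by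
  obtain ⟨h1, h2, -⟩ := blk_cmp (K := K) hk hkn
  fin_cases i
  · have e : VD (spBlk K n k) = VD (spBlk K ⊤ k) := by
      unfold VD
      rw [h1, h2]
      rfl
    have hu' : u ∈ VD (spBlk K N k) := hu
    change u ∈ VD (spBlk K n k) ∧ u ∈ VD (spBlk K ⊤ k)
    rcases hNn with rfl | rfl
    · exact ⟨hu', e ▸ hu'⟩
    · exact ⟨e.symm ▸ hu', hu'⟩
  · exact ⟨hu, hu⟩
  · have hu' : u ∈ VF (spBlk K N k) := hu
    have h3 : aSq (blkPsi (spBlk K N k) 2 u) = ‖u‖ ^ 2 := aSq_F _ hu'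
    have h4 : thr K n k ^ 2 < ‖u‖ ^ 2 := by
      rw [← h3]
      exact ha
    have h5 : thr K n k < ‖u‖ := lt_of_pow_lt_pow_left₀ 2 (norm_nonneg _) h4
    have h6 := thr_ge K n k
    have h7 := thr_pos K n k
    refine ⟨⟨?_, hu'.2⟩, ⟨?_, hu'.2⟩⟩
    · change spA K n k < ‖u‖
      linarith
    · change spA K ⊤ k < ‖u‖
      rw [spA_top]
      linarith

/-- Good points of the blocks have good labels. -/
theorem cover_goodB (hNn : N = (n : ℕ∞) ∨ N = ⊤) {p : (sp K N hN).Pt}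
    (hp : sph K N hN p ∈ hGood K n) {k : ℕ} {x : (bP (spBlk K N k) (N ≠ ⊤)).Pt}
    (h : p.1 = (Sum.inl (Sum.inr ⟨k, x⟩) : (spP K N hN).Pt)) :
    ∃ i u, GoodB K n k i u ∧ (sp K N hN).ψ (ixB K N hN k i) u = p := by
  have h1 : sph K N hN p = Sum.inl (Sum.inr ⟨k, x⟩) := by
    unfold sph hostOf
    rw [h]
    rfl
  rw [h1] at hp
  obtain ⟨y, hy⟩ : ∃ y : WPt ![1, 2, 1] ⊕ WPt ehm, x = y := ⟨x, rfl⟩
  rcases y with w | w
  · rw [hy] at hp h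
    obtain ⟨⟨hk, hkn⟩, ha⟩ : (1 ≤ k ∧ k < n) ∧ thr K n k ^ 2 < aSq w := hp
    obtain ⟨-, -, i, u, hu, e1, e2⟩ := cover_B h
    have ha' : thr K n k ^ 2 < aSq (blkPsi (spBlk K N k) i u) := by
      rw [e1]
      exact ha
    obtain ⟨h2, h3⟩ := blkV_cmp hNn hk hkn hu ha'
    exact ⟨i, u, ⟨⟨hk, hkn⟩, h2, h3, ha'⟩, e2⟩
  · rw [hy] at hp
    exact hp.elim

end

end Pool.Agent.W_MP_654ec6_h2
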