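import Pool.Agent.W_MP_654ec6.F.CoreEH

/-!
# Part G1: the metrics of the patch F with and without bolt

`u2Z U W` at `u`, `A = ‖u‖`, is `dA²/U + A² (σ₁² + σ₂²) + A² W σ₃²`; `K.U a A = K.U 0 A - χ a⁴/A⁴`, and
`K.U 0 A = 1 - v ≥ 3/4`, `K.W 0 A ≥ 3/4` for `0 < A < sin t0`; for `A > 2^n a` the difference is `≤ 2^(-4 n)`.
-/

open scoped ContDiff Topology
open Filter Real

namespace Pool.Agent.W_MP_654ec6_h2

open Pool.Agent.W_MP_654ec6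

/-- The algebra of the comparison. -/
theorem gF_cmp_alg {N p q x y x' y' z : ℝ} (hp : 0 ≤ p) (hq : 0 ≤ q) (hpq : p + q ≤ N)
    (hz : 0 ≤ z) (hx : x ≤ (1 + z) ^ 2 * x') (hy : y ≤ (1 + z) ^ 2 * y') :
    √(N + (x - 1) * p + (y - 1) * q) ≤ (1 + z) * √(N + (x' - 1) * p + (y' - 1) * q) := by
  have h1 : 0 ≤ 1 + z := by linarith
  have h2 : (1 + z) * √(N + (x' - 1) * p + (y' - 1) * q) =
      √((1 + z) ^ 2 * (N + (x' - 1) * p + (y' - 1) * q)) := by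
    rw [Real.sqrt_mul (sq_nonneg _), Real.sqrt_sq h1]
  rw [h2]
  apply Real.sqrt_le_sqrt
  have h3 := mul_le_mul_of_nonneg_right hx hp
  have h4 := mul_le_mul_of_nonneg_right hy hq
  have h5 : 1 * (N - p - q) ≤ (1 + z) ^ 2 * (N - p - q) := by
    apply mul_le_mul_of_nonneg_right _ (by linarith)
    nlinarith
  nlinarith

/-- The difference of the coefficients is small. -/
theorem gF_cmp_small {A₀ A a z : ℝ} (hA : 0 < A) (ha : 0 ≤ a) (hz : 0 ≤ z) (hz' : z ≤ 1 / 4)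
    (haA : a ≤ z * A) :
    0 ≤ ehChi A₀ A * a ^ 4 / A ^ 4 ∧ ehChi A₀ A * a ^ 4 / A ^ 4 ≤ z / 4 := by
  have hc0 : 0 ≤ ehChi A₀ A := by
    unfold ehChi
    linarith [Real.smoothTransition.le_one (4 * A / A₀ - 2)]
  have hc1 : ehChi A₀ A ≤ 1 := by
    unfold ehChi
    linarith [Real.smoothTransition.nonneg (4 * A / A₀ - 2)]
  have hA4 : 0 < A ^ 4 := pow_pos hA 4
  have h1 : a ^ 4 ≤ (z * A) ^ 4 := pow_le_pow_left₀ ha haA 4
  refine ⟨by positivity, ?_⟩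
  rw [div_le_iff₀ hA4]
  have h2 : ehChi A₀ A * a ^ 4 ≤ 1 * a ^ 4 := mul_le_mul_of_nonneg_right hc1 (by positivity)
  have h3 : (z * A) ^ 4 = z ^ 4 * A ^ 4 := by ring
  have h4 : z ^ 4 ≤ z / 4 := by
    have h5 : z ^ 3 ≤ (1 / 4) ^ 3 := pow_le_pow_left₀ hz hz' 3
    nlinarith
  have h6 := mul_le_mul_of_nonneg_right h4 hA4.le
  linarith

theorem gF_cmp_ratio {x d z : ℝ} (hx : 3 / 4 ≤ x) (hd : 0 ≤ d) (hd' : d ≤ z / 4) (hz : 0 ≤ z)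
    (hz' : z ≤ 1 / 4) : x ≤ (1 + z) ^ 2 * (x - d) := by
  have h1 : (1 + z) ^ 2 ≤ 2 := by nlinarith
  have h2 : (1 + z) ^ 2 * d ≤ 2 * d := mul_le_mul_of_nonneg_right h1 hd
  have h3 : 2 * z * (3 / 4) ≤ 2 * z * x := mul_le_mul_of_nonneg_left hx (by linarith)
  have h4 : 0 ≤ z ^ 2 * x := by positivity
  nlinarith

theorem gF_cmp (K : Core) {n : ℕ} (hn : 2 ≤ n) {a : ℝ} (ha : 0 ≤ a) {u : E4}
    (hu : 2 ^ n * a < ‖u‖) (hu' : ‖u‖ < sin K.t0) (v : E4) :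
    √(qf (gF K a u) v) ≤ (1 + zz n) * √(qf (gF K 0 u) v) ∧
      √(qf (gF K 0 u) v) ≤ (1 + zz n) * √(qf (gF K a u) v) := by
  have hn4 : zz n ≤ 1 / 4 := by
    have : zz n ≤ (1 / 2) ^ 2 := pow_le_pow_of_le_one (by norm_num) (by norm_num) hn
    linarith
  have hz0 : 0 < zz n := by unfold zz; positivity
  have hA : 0 < ‖u‖ := lt_of_le_of_lt (by positivity) hu
  have haA : a ≤ zz n * ‖u‖ := by
    have h1 : zz n * (2 ^ n * a) ≤ zz n * ‖u‖ := mul_le_mul_of_nonneg_left hu.le hz0.le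
    have h2 : zz n * (2 ^ n * a) = a := by
      unfold zz
      rw [← mul_assoc, ← mul_pow]
      norm_num
    linarith
  obtain ⟨hd0, hd1⟩ := gF_cmp_small (A₀ := K.A0) hA ha hz0.le hn4 haA
  have hv1 := (K.v_le hA hu').1
  have hv0 := K.v_nonneg ‖u‖
  have hU0 : K.U 0 ‖u‖ = 1 - K.v ‖u‖ := by
    unfold Core.U
    ring
  have hW0 : K.W 0 ‖u‖ = (1 - K.v ‖u‖) / (1 - 3 / 4 * K.v ‖u‖) := by
    unfold Core.W
    ring
  have hUa : K.U a ‖u‖ = K.U 0 ‖u‖ - ehChi K.A0 ‖u‖ * a ^ 4 / ‖u‖ ^ 4 := by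
    rw [hU0]
    rfl
  have hWa : K.W a ‖u‖ = K.W 0 ‖u‖ - ehChi K.A0 ‖u‖ * a ^ 4 / ‖u‖ ^ 4 := by
    rw [hW0]
    rfl
  have hx : 3 / 4 ≤ K.U 0 ‖u‖ := by rw [hU0]; linarith
  have hw : 3 / 4 ≤ K.W 0 ‖u‖ := by
    rw [hW0, le_div_iff₀ (by linarith)]
    linarith
  have hrU := gF_cmp_ratio hx hd0 hd1 hz0.le hn4
  have hrW := gF_cmp_ratio hw hd0 hd1 hz0.le hn4
  rw [← hUa] at hrU
  rw [← hWa] at hrW
  have hUa0 : 0 < K.U a ‖u‖ := by rw [hUa]; linarith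
  have hone : (1 : ℝ) ≤ (1 + zz n) ^ 2 := by nlinarith
  have hdot := dot_le u v
  rw [nsq_eq_norm u] at hdot
  have hA2 : 0 < ‖u‖ ^ 2 := pow_pos hA 2
  have hpq : dotu u v ^ 2 / ‖u‖ ^ 2 + dotj u v ^ 2 / ‖u‖ ^ 2 ≤ nsq v := by
    rw [← add_div, div_le_iff₀ hA2]
    linarith
  have key : ∀ b : ℝ, qf (gF K b u) v = nsq v + (1 / K.U b ‖u‖ - 1) * (dotu u v ^ 2 / ‖u‖ ^ 2) +
      (K.W b ‖u‖ - 1) * (dotj u v ^ 2 / ‖u‖ ^ 2) := by
    intro b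
    unfold gF
    rw [qf_u2Z]
    ring
  rw [key a, key 0]
  constructor
  · refine gF_cmp_alg (by positivity) (by positivity) hpq hz0.le ?_ ?_
    · have hU00 : 0 < K.U 0 ‖u‖ := by linarith
      rw [mul_one_div, div_le_div_iff₀ hUa0 hU00, one_mul]
      exact hrU
    · have h1 : K.W a ‖u‖ ≤ K.W 0 ‖u‖ := by rw [hWa]; linarith
      have h2 := mul_le_mul_of_nonneg_right hone (show 0 ≤ K.W 0 ‖u‖ by linarith)
      linarith
  · refine gF_cmp_alg (by positivity) (by positivity) hpq hz0.le ?_ hrW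
    have h1 : K.U a ‖u‖ ≤ K.U 0 ‖u‖ := by rw [hUa]; linarith
    have h2 : 1 / K.U 0 ‖u‖ ≤ 1 / K.U a ‖u‖ := one_div_le_one_div_of_le hUa0 h1
    have h3 := mul_le_mul_of_nonneg_right hone (show 0 ≤ 1 / K.U a ‖u‖ by positivity)
    linarith

end Pool.Agent.W_MP_654ec6_h2
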