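import Pool.Agent.W_MP_654ec6_h2.CompatC
import Pool.Agent.W_MP_654ec6_h2.FCmp

/-!
# Part G1: the compatibility of `Sp(n)` and `Sp(⊤)` at good points
-/

open scoped ContDiff Topology
open Filter Real

namespace Pool.Agent.W_MP_654ec6_h2

open Pool.Agent.W_MP_654ec6 PreP

section

variable {K : Core} {n : ℕ}

/-- The two metrics of a good label. -/
theorem goodC_met (hn : 2 ≤ n) {j : ℕ} {u : E4} (h : GoodC K n j u) (v : E4) :
    √(qf (gC K.R n j u) v) ≤ (1 + zz n) * √(qf (gC K.R ⊤ j u) v) ∧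
      √(qf (gC K.R ⊤ j u) v) ≤ (1 + zz n) * √(qf (gC K.R n j u) v) := by
  have hn1 : 1 ≤ n := by omega
  have hz := zz_pos n
  by_cases hX : zz n ≤ |pX ⊤ j u|
  · rw [gC_eq_top K.R_pos (core_R8 K) hn1 h.1 h.2.2.1.2.1 hX]
    have h0 := Real.sqrt_nonneg (qf (gC K.R ⊤ j u) v)
    constructor <;> nlinarith
  · have hY : FF ⊤ (zz n) + zz n ≤ pY ⊤ j u := by
      rcases h.2.2.2 with h1 | h1
      · linarith [not_le.1 hX]
      · linarith
    obtain ⟨h1, h2⟩ := gC_compare K.R_pos (core_R8 K) hn1 h.1 (not_le.1 hX).le hY v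
    have hc : cc ⊤ n ≤ zz n := by
      have h3 := cc_le' ⊤ n
      have h4 : ((1 : ℝ) / 2) ^ (n ^ 2) ≤ (1 / 2) ^ n :=
        pow_le_pow_of_le_one (by norm_num) (by norm_num) (by nlinarith)
      have h5 : zz n = (1 / 2) ^ n := rfl
      rw [h5]
      have h6 : (0 : ℝ) < (1 / 2) ^ n := by positivity
      linarith
    have hc0 := cc_nonneg ⊤ n
    have key : ∀ x y : ℝ, x ≤ (1 + cc ⊤ n) ^ 2 * y → √x ≤ (1 + zz n) * √y := by
      intro x y hxy
      have h3 : √x ≤ √((1 + cc ⊤ n) ^ 2 * y) := Real.sqrt_le_sqrt hxy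
      rw [Real.sqrt_mul (by positivity), Real.sqrt_sq (by positivity)] at h3
      have h4 : (1 + cc ⊤ n) * √y ≤ (1 + zz n) * √y :=
        mul_le_mul_of_nonneg_right (by linarith) (Real.sqrt_nonneg y)
      linarith
    exact ⟨key _ _ h1, key _ _ h2⟩

theorem sqrt_smul_le {a b c : ℝ} {m m' : Matrix (Fin 4) (Fin 4) ℝ} {v : E4} (hc : 0 ≤ c)
    (h : √(qf m v) ≤ a * √(qf m' v)) (hb : b = c) :
    √(b * qf m v) ≤ a * √(c * qf m' v) := by
  rw [hb, Real.sqrt_mul hc, Real.sqrt_mul hc]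
  have := mul_le_mul_of_nonneg_left h (Real.sqrt_nonneg c)
  nlinarith

theorem goodB_met (hn : 2 ≤ n) {k : ℕ} {i : Fin 3} {u : E4} (h : GoodB K n k i u) (v : E4) :
    √(qf (smulMet ((spB K n k).s ^ 2) (blkG (spBlk K n k) i) u) v) ≤
        (1 + zz n) * √(qf (smulMet ((spB K ⊤ k).s ^ 2) (blkG (spBlk K ⊤ k) i) u) v) ∧
      √(qf (smulMet ((spB K ⊤ k).s ^ 2) (blkG (spBlk K ⊤ k) i) u) v) ≤
        (1 + zz n) * √(qf (smulMet ((spB K n k).s ^ 2) (blkG (spBlk K n k) i) u) v) := by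
  have hB := spB_eq_top K h.1.1 h.1.2
  have hz := zz_pos n
  have hs := sq_nonneg (spB K ⊤ k).s
  rw [qf_smulMet, qf_smulMet, hB]
  have key : √(qf (blkG (spBlk K n k) i u) v) ≤ (1 + zz n) * √(qf (blkG (spBlk K ⊤ k) i u) v) ∧
      √(qf (blkG (spBlk K ⊤ k) i u) v) ≤ (1 + zz n) * √(qf (blkG (spBlk K n k) i u) v) := by
    have triv : ∀ x : ℝ, √x ≤ (1 + zz n) * √x := fun x => by
      have := Real.sqrt_nonneg x
      nlinarith
    obtain ⟨⟨hk, hkn⟩, hu1, hu2, ha⟩ := h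
    fin_cases i
    · have e : blkG (spBlk K n k) 0 = blkG (spBlk K ⊤ k) 0 := by
        change gD K (spB K n k) = gD K (spB K ⊤ k)
        rw [hB]
      change √(qf (blkG (spBlk K n k) 0 u) v) ≤ (1 + zz n) * √(qf (blkG (spBlk K ⊤ k) 0 u) v) ∧
        √(qf (blkG (spBlk K ⊤ k) 0 u) v) ≤ (1 + zz n) * √(qf (blkG (spBlk K n k) 0 u) v)
      rw [e]
      exact ⟨triv _, triv _⟩
    · exact ⟨triv _, triv _⟩
    · have hu' : u ∈ VF (spBlk K n k) := hu1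
      have h3 : aSq (blkPsi (spBlk K n k) 2 u) = ‖u‖ ^ 2 := aSq_F _ hu'
      have h4 : thr K n k ^ 2 < ‖u‖ ^ 2 := by
        rw [← h3]
        exact ha
      have h5 : thr K n k < ‖u‖ := lt_of_pow_lt_pow_left₀ 2 (norm_nonneg _) h4
      have h6 := gF_cmp K hn (spA_nonneg K n k) h5 hu'.2 v
      change √(qf (gF K (spA K n k) u) v) ≤ (1 + zz n) * √(qf (gF K (spA K ⊤ k) u) v) ∧
        √(qf (gF K (spA K ⊤ k) u) v) ≤ (1 + zz n) * √(qf (gF K (spA K n k) u) v)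
      rw [spA_top]
      exact h6
  exact ⟨sqrt_smul_le hs key.1 rfl, sqrt_smul_le hs key.2 rfl⟩

theorem goodC_open {j : ℕ} {u : E4} (h : GoodC K n j u) (hn : 1 ≤ n) :
    ∀ᶠ x in 𝓝 u, GoodC K n j x := by
  have h1 : ∀ᶠ x in 𝓝 u, x ∈ Pool.Agent.W_MP_654ec6.VA n (spRad K n) j :=
    (isOpen_VA (by exact_mod_cast hn) (spRad_ok K n) j).mem_nhds h.2.1
  have h2 : ∀ᶠ x in 𝓝 u, x ∈ Pool.Agent.W_MP_654ec6.VA ⊤ (spRad K ⊤) j :=
    (isOpen_VA le_top (spRad_ok K ⊤) j).mem_nhds h.2.2.1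
  have h3 : ∀ᶠ x in 𝓝 u, goodXY n |pX ⊤ j x| (pY ⊤ j x) := by
    rcases h.2.2.2 with h3 | h3
    · have h4 := (continuous_pX (N := ⊤) (j := j)).abs.continuousAt.eventually_const_lt h3
      filter_upwards [h4] with x hx
      exact Or.inl hx
    · have h4 := (continuous_pY (N := ⊤) (j := j)).continuousAt.eventually_const_lt h3
      filter_upwards [h4] with x hx
      exact Or.inr hx
  filter_upwards [h1, h2, h3] with x a1 a2 a3
  exact ⟨h.1, a1, a2, a3⟩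

theorem goodB_open {k : ℕ} {i : Fin 3} {u : E4} (h : GoodB K n k i u) :
    ∀ᶠ x in 𝓝 u, GoodB K n k i x := by
  have h1 := (blkIsOpen (spBlk K n k) i).mem_nhds h.2.1
  have h2 := (blkIsOpen (spBlk K ⊤ k) i).mem_nhds h.2.2.1
  have h3 : ContinuousAt (fun x => aSq (blkPsi (spBlk K n k) i x)) u :=
    Sp1_mk_cont Sp1_aSq_cont (continuousAt_blkRep (spBlk K n k) i h.2.1)
  filter_upwards [h1, h2, h3.eventually_const_lt h.2.2.2] with x a1 a2 a3
  exact ⟨h.1, a1, a2, a3⟩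

/-- Points with a good host have good labels. -/
theorem cover_good (hn : 2 ≤ n) {N : ℕ∞} {hN : 2 ≤ N} (hNn : N = (n : ℕ∞) ∨ N = ⊤)
    {p : (sp K N hN).Pt} (hp : sph K N hN p ∈ hGood K n) :
    (∃ j u, GoodC K n j u ∧ (sp K N hN).ψ (ixC K N hN j) u = p) ∨
      ∃ k i u, GoodB K n k i u ∧ (sp K N hN).ψ (ixB K N hN k i) u = p := by
  obtain ⟨x, hx⟩ : ∃ x : (TauPt ⊕ (Σ _ : ℕ, WPt ![1, 2, 1] ⊕ WPt ehm)) ⊕ WPt ehm, p.1 = x :=
    ⟨p.1, rfl⟩
  rcases x with (τ | ⟨k, x⟩) | x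
  · exact Or.inl (cover_goodC hn hNn hp hx)
  · obtain ⟨i, u, h1, h2⟩ := cover_goodB hNn hp hx
    exact Or.inr ⟨k, i, u, h1, h2⟩
  · exfalso
    have h1 : sph K N hN p = Sum.inr x := by
      unfold sph hostOf
      rw [hx]
      rfl
    rw [h1] at hp
    exact hp

/-- Compatibility, from `Sp(N)` to `Sp(N')`, `N, N' ∈ {n, ⊤}`. -/
theorem side_compat (hn : 2 ≤ n) {N N' : ℕ∞} {hN : 2 ≤ N} {hN' : 2 ≤ N'}
    (hNn : N = (n : ℕ∞) ∨ N = ⊤) (hNn' : N' = (n : ℕ∞) ∨ N' = ⊤) (hne : N ≠ N')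
    (p : (sp K N hN).Pt) (hp : sph K N hN p ∈ hGood K n) :
    ∃ i j, ∃ a, a ∈ (sp K N hN).V i ∧ a ∈ (sp K N' hN').V j ∧ (sp K N hN).ψ i a = p ∧
      (∀ᶠ x in 𝓝 a, sph K N hN ((sp K N hN).ψ i x) ∈ hGood K n ∧
        sph K N' hN' ((sp K N' hN').ψ j x) = sph K N hN ((sp K N hN).ψ i x)) ∧
      ∀ v, √(qf ((sp K N' hN').g j a) v) ≤ (1 + zz n) * √(qf ((sp K N hN).g i a) v) := by
  have hn' : 2 ≤ (n : ℕ∞) := by exact_mod_cast hn
  rcases cover_good hn hNn hp with ⟨j, u, h, e⟩ | ⟨k, i, u, h, e⟩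
  · refine ⟨ixC K N hN j, ixC K N' hN' j, u, h.mem hNn, h.mem hNn', e, ?_, ?_⟩
    · filter_upwards [goodC_open h (by omega)] with x hx
      rw [goodC_host hNn hx, goodC_host hNn' hx]
      exact ⟨goodC_good hx, rfl⟩
    · intro v
      have h1 := goodC_met hn h v
      change √(qf (gC K.R N' j u) v) ≤ (1 + zz n) * √(qf (gC K.R N j u) v)
      rcases hNn with rfl | rfl <;> rcases hNn' with rfl | rfl
      · exact absurd rfl hne
      · exact h1.2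
      · exact h1.1
      · exact absurd rfl hne
  · have hk := h.1.1
    refine ⟨ixB K N hN k i, ixB K N' hN' k i, u, ⟨⟨hk, lt_cast hNn h.1.2⟩, h.mem hNn⟩,
      ⟨⟨hk, lt_cast hNn' h.1.2⟩, h.mem hNn'⟩, e, ?_, ?_⟩
    · filter_upwards [goodB_open h] with x hx
      rw [goodB_host' hn' hNn hx, goodB_host' hn' hNn' hx]
      exact ⟨(goodB_host hn' hx).2, rfl⟩
    · intro v
      have h1 := goodB_met hn h v
      change √(qf (smulMet ((spB K N' k).s ^ 2) (blkG (spBlk K N' k) i) u) v) ≤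
        (1 + zz n) * √(qf (smulMet ((spB K N k).s ^ 2) (blkG (spBlk K N k) i) u) v)
      rcases hNn with rfl | rfl <;> rcases hNn' with rfl | rfl
      · exact absurd rfl hne
      · exact h1.2
      · exact h1.1
      · exact absurd rfl hne

end

end Pool.Agent.W_MP_654ec6_h2
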