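import Pool.Agent.W_MP_654ec6_h2.CrossZ

/-!
# Part G, Cone: tangent cones from coordinates

If for every `δ > 0` and every small `r` a `δ r`-dense part `A` of the ball `B(x, r)` has coordinates
`c : A → ℝ⁴` in which the distance is the model distance `modDt R` up to `δ r`, and the coordinates
fill the ball of radius `r` up to `δ r`, then the cross-section `ZR R` is the cross-section of a tangent
cone at `x`.
-/

open scoped RealInnerProductSpace
open Filter Topology

namespace Pool.Agent.W_MP_654ec6_h2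

open Pool.Agent.W_MP_654ec6

/-- The coordinates hypothesis. -/
def ConeCoords (X : Type) [MetricSpace X] (x : X) (R : ℝ) : Prop :=
  ∀ δ > (0 : ℝ), ∃ r₀ > (0 : ℝ), ∀ r, 0 < r → r < r₀ → ∃ (A : Set X) (c : X → E4),
    (∀ a, dist a x < r → ∃ b ∈ A, dist a b ≤ δ * r) ∧
    (∀ a ∈ A, ∀ b ∈ A, |dist a b - modDt R (c a) (c b)| ≤ δ * r) ∧
    (∃ b ∈ A, dist x b ≤ δ * r ∧ ‖c b‖ ≤ δ * r) ∧
    ∀ u : E4, ‖u‖ < r → ∃ b ∈ A, modDt R u (c b) ≤ δ * r

theorem isCrossSection_of_coords {X : Type} [MetricSpace X] (x : X) (R : Subtype ROk)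
    (h : ConeCoords X x R.1) : IsCrossSection X x (ZR R) := by
  refine ⟨inferInstance, dist_ZR_le R, fun n => 1 / ((n : ℝ) + 1), fun n => by positivity,
    tendsto_one_div_add_atTop_nhds_zero_nat, toZ R (dirn 0), ?_⟩
  have hy : toK R 0 = (toZ R (dirn 0), (0 : NNReal)) := by
    unfold toK
    rw [nnnorm_zero]
  intro r hr ε hε
  have hK : 0 < r + 1 := by linarith
  have hδ : 0 < ε / (8 * (r + 1)) := by positivity
  obtain ⟨r₀, hr₀, H⟩ := h _ hδ
  obtain ⟨n₀, hn₀⟩ := exists_nat_gt ((r + 1) / r₀)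
  refine ⟨n₀, fun n hn => ?_⟩
  have hs : (0 : ℝ) < 1 / ((n : ℝ) + 1) := by positivity
  have hρ : (r + 1) * (1 / ((n : ℝ) + 1)) < r₀ := by
    have h1 : (n₀ : ℝ) ≤ n := by exact_mod_cast hn
    have h2 : (r + 1) / r₀ < (n : ℝ) + 1 := by linarith
    rw [div_lt_iff₀ hr₀] at h2
    rw [mul_one_div, div_lt_iff₀ (by positivity)]
    linarith
  set s : ℝ := 1 / ((n : ℝ) + 1) with hs_def
  obtain ⟨A, c, h1, h2, ⟨b₀, hb₀A, hb₀x, hb₀c⟩, h4⟩ := H _ (mul_pos hK hs) hρ
  have hη : ε / (8 * (r + 1)) * ((r + 1) * s) = ε / 8 * s := by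
    field_simp
  rw [hη] at h1 h2 hb₀x hb₀c h4
  have hT := @modDt_triangle R.1 R.2
  -- coordinates of all points
  classical
  let bb : X → X := fun a =>
    if ha : dist a x < (r + 1) * s then (h1 a ha).choose else x
  have hbb : ∀ a, dist a x < (r + 1) * s → bb a ∈ A ∧ dist a (bb a) ≤ ε / 8 * s := by
    intro a ha
    have : bb a = (h1 a ha).choose := dif_pos ha
    rw [this]
    exact (h1 a ha).choose_spec
  let c' : X → E4 := fun a => if a = x then 0 else c (bb a)
  have hc' : ∀ a, dist a x < (r + 1) * s →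
      ∃ b ∈ A, dist a b ≤ ε / 8 * s ∧ modDt R.1 (c' a) (c b) ≤ ε / 8 * s := by
    intro a ha
    by_cases hax : a = x
    · refine ⟨b₀, hb₀A, by rw [hax]; exact hb₀x, ?_⟩
      have : c' a = 0 := if_pos hax
      rw [this, modDt_zero_left]
      exact hb₀c
    · refine ⟨bb a, (hbb a ha).1, (hbb a ha).2, ?_⟩
      have : c' a = c (bb a) := if_neg hax
      rw [this, modDt_self]
      positivity
  have hlt : r * s < (r + 1) * s := by linarith
  have hmain : ∀ a b, dist a x < (r + 1) * s → dist b x < (r + 1) * s →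
      |modDt R.1 (c' a) (c' b) - dist a b| ≤ 5 * (ε / 8 * s) := by
    intro a b ha hb
    obtain ⟨a', ha'A, ha'1, ha'2⟩ := hc' a ha
    obtain ⟨b', hb'A, hb'1, hb'2⟩ := hc' b hb
    have k1 := abs_le.1 (h2 a' ha'A b' hb'A)
    have k2 := dist_triangle4 a a' b' b
    have k3 := dist_triangle4 a' a b b'
    have k4 := hT (c' a) (c a') (c' b)
    have k5 := hT (c a') (c b') (c' b)
    have k6 := hT (c a') (c' a) (c b')
    have k7 := hT (c' a) (c' b) (c b')
    rw [modDt_comm R.1 (c b') (c' b)] at k5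
    rw [modDt_comm R.1 (c a') (c' a)] at k6
    rw [dist_comm b' b] at k2
    rw [dist_comm a' a] at k3
    rw [abs_le]
    constructor <;> linarith
  refine ⟨fun a => toK R (s⁻¹ • c' a), ?_, ?_, ?_⟩
  · simp only
    have : c' x = 0 := if_pos rfl
    rw [this, smul_zero, hy]
  · intro a b ha hb
    simp only at ha hb ⊢
    rw [div_lt_iff₀ hs] at ha hb
    have hm := hmain a b (ha.trans hlt) (hb.trans hlt)
    rw [coneDist_toK, modDt_smul (inv_nonneg.2 hs.le)]
    have e : s⁻¹ * modDt R.1 (c' a) (c' b) - dist a b / s =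
        (modDt R.1 (c' a) (c' b) - dist a b) / s := by
      field_simp
    rw [e, abs_div, abs_of_pos hs, div_lt_iff₀ hs]
    have : 0 < ε * s := by positivity
    linarith
  · intro z hz
    obtain ⟨u, -, hu⟩ := exists_coneDist R z
    rw [← hy, hu, modDt_comm, modDt_zero_left] at hz
    have hsu : ‖s • u‖ = s * ‖u‖ := by rw [norm_smul, Real.norm_eq_abs, abs_of_pos hs]
    have hzs : s * ‖u‖ < s * (r - ε) := mul_lt_mul_of_pos_left hz hs
    have hes : 0 < ε * s := mul_pos hε hs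
    obtain ⟨b, hbA, hb⟩ := h4 (s • u) (by rw [hsu]; linarith)
    have k1 := abs_le.1 (h2 b₀ hb₀A b hbA)
    have k2 := hT (c b₀) 0 (c b)
    rw [modDt_comm R.1 (c b₀) 0, modDt_zero_left, modDt_zero_left] at k2
    have k3 := (abs_le.1 ((abs_norm_sub_le_modDt R.1 (s • u) (c b)).trans hb)).1
    rw [hsu] at k3
    have k4 := dist_triangle x b₀ b
    have hbx : dist b x < r * s := by
      rw [dist_comm]
      linarith
    obtain ⟨b', hb'A, hb'1, hb'2⟩ := hc' b (hbx.trans hlt)
    have k5 := abs_le.1 (h2 b hbA b' hb'A)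
    have k6 := hT (s • u) (c b) (c' b)
    have k7 := hT (c b) (c b') (c' b)
    rw [modDt_comm R.1 (c b') (c' b)] at k7
    refine ⟨b, ?_, ?_⟩
    · simp only
      rwa [div_lt_iff₀ hs]
    · simp only
      rw [hu]
      have e : u = s⁻¹ • (s • u) := by rw [smul_smul, inv_mul_cancel₀ hs.ne', one_smul]
      rw [e, modDt_smul (inv_nonneg.2 hs.le), inv_mul_lt_iff₀ hs]
      linarith

theorem mem_badSet_of_coords {X : Type} [MetricSpace X] (x : X) {R : ℝ} (hR : ROk R)
    (h : ConeCoords X x R) : x ∈ badSet X :=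
  ⟨ZR ⟨R, hR⟩, inferInstance, isCrossSection_of_coords x ⟨R, hR⟩ h, isEmpty_ZR ⟨R, hR⟩⟩

end Pool.Agent.W_MP_654ec6_h2
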