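import Pool.Agent.W_MP_654ec6_h2.ThetaLip
import Pool.Agent.W_MP_654ec6_h2.Pk

/-!
# Part G, Upper: upper bounds of distances along paths in the ambient part
-/

open scoped RealInnerProductSpace Topology
open Filter InnerProductGeometry

namespace Pool.Agent.W_MP_654ec6_h2

open Pool.Agent.W_MP_654ec6

/-- The model vector of an ambient point. -/
noncomputable def mc (j : ℕ) (u : E4) : E4 := cv (pX ⊤ j u) ((pY ⊤ j u - FF ⊤ 0) • dir3 u)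

/-- The point of the patch `0` which represents `(X, Y, ξ)`. -/
noncomputable def ca (X Y : ℝ) (ξ : E3) : E4 := cv (lc ⊤ 0 X Y) (sc ⊤ 0 X Y • ξ)

theorem pX_lc_sc (N : ℕ∞) (j : ℕ) (X Y : ℝ) :
    OX N j + (lc N j X Y - aa N j * sc N j X Y) / oj N j = X := by
  unfold lc sc
  have h1 := oj_pos N j
  have h2 := oj_sq N j
  have h3 : 0 < 1 + aa N j ^ 2 := by positivity
  have e : OX N j + ((X - OX N j + aa N j * (Y - OY N j)) / oj N j -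
      aa N j * ((Y - OY N j - aa N j * (X - OX N j)) / oj N j)) / oj N j =
      OX N j + (X - OX N j) * (1 + aa N j ^ 2) / oj N j ^ 2 := by
    field_simp
    ring
  rw [e, h2]
  field_simp
  ring

theorem pY_lc_sc (N : ℕ∞) (j : ℕ) (X Y : ℝ) :
    OY N j + (aa N j * lc N j X Y + sc N j X Y) / oj N j = Y := by
  unfold lc sc
  have h1 := oj_pos N j
  have h2 := oj_sq N j
  have h3 : 0 < 1 + aa N j ^ 2 := by positivity
  have e : OY N j + (aa N j * ((X - OX N j + aa N j * (Y - OY N j)) / oj N j) +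
      (Y - OY N j - aa N j * (X - OX N j)) / oj N j) / oj N j =
      OY N j + (Y - OY N j) * (1 + aa N j ^ 2) / oj N j ^ 2 := by
    field_simp
    ring
  rw [e, h2]
  field_simp
  ring

section

variable {R : ℝ} (hA : AmbFun R)

include hA

omit hA in
theorem tl_ca {X Y : ℝ} {ξ : E3} : tl (ca X Y ξ) = sc ⊤ 0 X Y • ξ := tl_cv _ _

theorem norm_tl_ca {X Y : ℝ} {ξ : E3} (h : GG ⊤ X < Y) (hξ : ‖ξ‖ = 1) :
    ‖tl (ca X Y ξ)‖ = sc ⊤ 0 X Y := by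
  rw [tl_ca, norm_smul, hξ, mul_one, Real.norm_eq_abs, abs_of_pos (hA.sc_pos 0 X Y h)]

theorem pX_ca {X Y : ℝ} {ξ : E3} (h : GG ⊤ X < Y) (hξ : ‖ξ‖ = 1) : pX ⊤ 0 (ca X Y ξ) = X := by
  unfold pX
  rw [n3_eq, norm_tl_ca hA h hξ]
  exact pX_lc_sc ⊤ 0 X Y

theorem pY_ca {X Y : ℝ} {ξ : E3} (h : GG ⊤ X < Y) (hξ : ‖ξ‖ = 1) : pY ⊤ 0 (ca X Y ξ) = Y := by
  unfold pY
  rw [n3_eq, norm_tl_ca hA h hξ]
  exact pY_lc_sc ⊤ 0 X Y

theorem dir3_ca {X Y : ℝ} {ξ : E3} (h : GG ⊤ X < Y) (hξ : ‖ξ‖ = 1) : dir3 (ca X Y ξ) = ξ := by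
  have h1 := hA.sc_pos 0 X Y h
  unfold dir3
  rw [norm_tl_ca hA h hξ, tl_ca, smul_smul, inv_mul_cancel₀ h1.ne', one_smul]

theorem mc_ca {X Y : ℝ} {ξ : E3} (h : GG ⊤ X < Y) (hξ : ‖ξ‖ = 1) :
    mc 0 (ca X Y ξ) = cv X ((Y - FF ⊤ 0) • ξ) := by
  unfold mc
  rw [pX_ca hA h hξ, pY_ca hA h hξ, dir3_ca hA h hξ]

theorem ca_of_interior {j : ℕ} {a : E4} (h : GG ⊤ (pX ⊤ j a) < pY ⊤ j a) :
    GG ⊤ (pX ⊤ 0 (ca (pX ⊤ j a) (pY ⊤ j a) (dir3 a))) <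
      pY ⊤ 0 (ca (pX ⊤ j a) (pY ⊤ j a) (dir3 a)) := by
  have h1 := norm_dir3 (interior_data hA h).1
  rw [pX_ca hA h h1, pY_ca hA h h1]
  exact h

theorem ca_mem_VA {ρ : ℕ → ℝ} {X Y : ℝ} {ξ : E3} (h : GG ⊤ X < Y) (hξ : ‖ξ‖ = 1)
    (hv : ∀ k : ℕ, 1 ≤ k → ρ k < vd ⊤ k X Y) : ca X Y ξ ∈ VA ⊤ ρ 0 := by
  refine ⟨?_, ?_, ?_⟩
  · left
    rw [pX_ca hA h hξ, pY_ca hA h hξ]
    exact h
  · intro k hk _
    rw [pX_ca hA h hξ, pY_ca hA h hξ]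
    exact hv k hk
  · intro h'
    exact absurd rfl h'

omit hA in
theorem angle_tendsto {a : E4} (ha : tl a ≠ 0) {κ : ℝ} (hκ : 0 < κ) :
    ∀ᶠ q in 𝓝 (a, a), angle (dir3 q.1) (dir3 q.2) < κ := by
  obtain ⟨κ₁, hκ₁, H⟩ := angle_sq_le one_pos
  have t4 : ∀ᶠ q in 𝓝 (a, a), tl q.1 ≠ 0 ∧ tl q.2 ≠ 0 := by
    have c1 : Continuous (fun q : E4 × E4 => tl q.1) := continuous_tl.comp continuous_fst
    have c2 : Continuous (fun q : E4 × E4 => tl q.2) := continuous_tl.comp continuous_snd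
    exact (c1.continuousAt.eventually_ne ha).and (c2.continuousAt.eventually_ne ha)
  have t5 : ∀ᶠ q in 𝓝 (a, a), ‖dir3 q.1 - dir3 q.2‖ < min κ₁ (κ / 2) := by
    have c1 : ContinuousAt (fun q : E4 × E4 => dir3 q.1) (a, a) :=
      ContinuousAt.comp (f := fun q : E4 × E4 => q.1) (g := dir3) (continuousAt_dir3 ha)
        continuousAt_fst
    have c2 : ContinuousAt (fun q : E4 × E4 => dir3 q.2) (a, a) :=
      ContinuousAt.comp (f := fun q : E4 × E4 => q.2) (g := dir3) (continuousAt_dir3 ha)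
        continuousAt_snd
    have c3 := (c1.sub c2).norm
    have h0 : ‖dir3 a - dir3 a‖ < min κ₁ (κ / 2) := by
      rw [sub_self, norm_zero]
      positivity
    exact c3.tendsto.eventually (gt_mem_nhds h0)
  filter_upwards [t4, t5] with q q4 q5
  have h1 := H _ _ (norm_dir3 q4.1) (norm_dir3 q4.2) (q5.trans_le (min_le_left _ _))
  have h2 := q5.trans_le (min_le_right _ _)
  have h3 := norm_nonneg (dir3 q.1 - dir3 q.2)
  have h4 : angle (dir3 q.1) (dir3 q.2) ^ 2 < κ ^ 2 := by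
    have h5 : ‖dir3 q.1 - dir3 q.2‖ ^ 2 ≤ (κ / 2) ^ 2 := pow_le_pow_left₀ h3 h2.le 2
    have h6 : 0 < κ ^ 2 := pow_pos hκ 2
    linarith only [h1, h5, h6]
  exact lt_of_pow_lt_pow_left₀ 2 hκ.le h4

omit hA in
theorem ar_mc {b R Ma P φ n d c : ℝ} (hn : 0 ≤ n) (hd0 : 0 < d)
    (hP0 : 0 < P) (hb0 : 0 < b) (hb : b ≤ R * Ma) (hP : Ma ^ 2 ≤ (1 + d) * P) (k1 : n ≤ φ ^ 2)
    (k2 : φ ^ 2 * R ^ 2 ≤ (1 + d) * (2 * c)) : b ^ 2 * n ≤ (1 + d) ^ 2 * (2 * P * c) := by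
  have h1 : b ^ 2 ≤ R ^ 2 * Ma ^ 2 := by
    rw [← mul_pow]
    exact pow_le_pow_left₀ hb0.le hb 2
  have h2 : b ^ 2 ≤ R ^ 2 * ((1 + d) * P) :=
    h1.trans (mul_le_mul_of_nonneg_left hP (sq_nonneg R))
  have h3 : n * R ^ 2 ≤ (1 + d) * (2 * c) :=
    (mul_le_mul_of_nonneg_right k1 (sq_nonneg R)).trans k2
  calc b ^ 2 * n ≤ R ^ 2 * ((1 + d) * P) * n := mul_le_mul_of_nonneg_right h2 hn
    _ = (1 + d) * P * (n * R ^ 2) := by ring
    _ ≤ (1 + d) * P * ((1 + d) * (2 * c)) := mul_le_mul_of_nonneg_left h3 (by positivity)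
    _ = (1 + d) ^ 2 * (2 * P * c) := by ring

/-- The polar form is at most the model distance, infinitesimally. -/
theorem PB_le_mc (hR : 0 < R) (hR1 : R ≤ 1) {j : ℕ} {a : E4}
    (hint : GG ⊤ (pX ⊤ j a) < pY ⊤ j a) {δ : ℝ} (hδ : 0 < δ) :
    ∀ᶠ q in 𝓝 (a, a), PB (bb R ⊤ (pX ⊤ j a) (pY ⊤ j a)) q.1 q.2 ≤
      (1 + δ) * modD R (mc j q.1) (mc j q.2) ^ 2 := by
  obtain ⟨htl, hB, hBb⟩ := interior_data hA hint
  set b := bb R ⊤ (pX ⊤ j a) (pY ⊤ j a) with hb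
  have hbpos : 0 < b := hA.bb_pos _ _ hint
  set d : ℝ := min 1 (δ / 3) with hd
  have hd0 : 0 < d := by positivity
  have hd1 : d ≤ 1 := min_le_left _ _
  have hd2 : d ≤ δ / 3 := min_le_right _ _
  have hMa : 0 < pY ⊤ j a - FF ⊤ 0 := by
    have h1 := hA.FF_le_GG (pX ⊤ j a)
    have h2 := hA.FF_ge (pX ⊤ j a)
    linarith
  have hbM : b ≤ R * (pY ⊤ j a - FF ⊤ 0) := by
    refine (hA.bb_le _ _ hint).trans (mul_le_mul_of_nonneg_left ?_ hR.le)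
    have h2 := hA.FF_ge (pX ⊤ j a)
    linarith
  have cY1 : Continuous (fun q : E4 × E4 => pY ⊤ j q.1 - FF ⊤ 0) :=
    ((continuous_pY ⊤ j).comp continuous_fst).sub continuous_const
  have cY2 : Continuous (fun q : E4 × E4 => pY ⊤ j q.2 - FF ⊤ 0) :=
    ((continuous_pY ⊤ j).comp continuous_snd).sub continuous_const
  have t1 : ∀ᶠ q in 𝓝 (a, a), 0 < pY ⊤ j q.1 - FF ⊤ 0 ∧ 0 < pY ⊤ j q.2 - FF ⊤ 0 :=
    ((cY1.tendsto (a, a)).eventually (lt_mem_nhds hMa)).and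
      ((cY2.tendsto (a, a)).eventually (lt_mem_nhds hMa))
  have t2 : ∀ᶠ q in 𝓝 (a, a), (pY ⊤ j a - FF ⊤ 0) ^ 2 <
      (1 + d) * ((pY ⊤ j q.1 - FF ⊤ 0) * (pY ⊤ j q.2 - FF ⊤ 0)) := by
    have h1 : Continuous (fun q : E4 × E4 =>
        (1 + d) * ((pY ⊤ j q.1 - FF ⊤ 0) * (pY ⊤ j q.2 - FF ⊤ 0))) :=
      continuous_const.mul (cY1.mul cY2)
    apply (h1.tendsto (a, a)).eventually (lt_mem_nhds _)
    have : 0 < d * (pY ⊤ j a - FF ⊤ 0) ^ 2 := by positivity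
    simp only
    linarith only [this]
  have t4 : ∀ᶠ q in 𝓝 (a, a), tl q.1 ≠ 0 ∧ tl q.2 ≠ 0 := by
    have c1 : Continuous (fun q : E4 × E4 => tl q.1) := continuous_tl.comp continuous_fst
    have c2 : Continuous (fun q : E4 × E4 => tl q.2) := continuous_tl.comp continuous_snd
    exact (c1.continuousAt.eventually_ne htl).and (c2.continuousAt.eventually_ne htl)
  have t5 := angle_tendsto htl (κ := min 1 d) (by positivity)
  filter_upwards [t1, t2, t4, t5] with q q1 q2 q4 q5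
  have hn1 := norm_dir3 q4.1
  have hn2 := norm_dir3 q4.2
  have k2 := modD_cv_sq R (X₁ := pX ⊤ j q.1) (X₂ := pX ⊤ j q.2) q1.1.le q1.2.le hn1 hn2
  have k3 := norm_sub_le_angle hn1 hn2
  have hφ0 : 0 ≤ angle (dir3 q.1) (dir3 q.2) := angle_nonneg _ _
  have hφ1 : angle (dir3 q.1) (dir3 q.2) < 1 := q5.trans_le (min_le_left _ _)
  have hφ2 : angle (dir3 q.1) (dir3 q.2) < d := q5.trans_le (min_le_right _ _)
  have k4 : angle (dir3 q.1) (dir3 q.2) ^ 2 * R ^ 2 ≤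
      (1 + d) * (2 * (1 - Real.cos (R * angle (dir3 q.1) (dir3 q.2)))) := by
    set φ := angle (dir3 q.1) (dir3 q.2) with hφ
    have h1 : 0 ≤ R * φ := by positivity
    have h2 : R * φ ≤ 1 := mul_le_one₀ hR1 hφ0 hφ1.le
    have h2' : R * φ ≤ d := (mul_le_of_le_one_left hφ0 hR1).trans hφ2.le
    have h3 := Real.cos_bound (x := R * φ) (by rw [abs_of_nonneg h1]; exact h2)
    rw [abs_of_nonneg h1] at h3
    have h4 := (abs_le.1 h3).2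
    have h5 : (R * φ) ^ 4 ≤ d * (R * φ) ^ 2 := by
      have h6 : (R * φ) ^ 2 ≤ d := (pow_le_of_le_one h1 h2 two_ne_zero).trans h2'
      have h7 : (R * φ) ^ 4 = (R * φ) ^ 2 * (R * φ) ^ 2 := by ring
      rw [h7]
      exact mul_le_mul_of_nonneg_right h6 (sq_nonneg _)
    have h8 : (R * φ) ^ 2 * (1 - 5 / 48 * d) ≤ 2 * (1 - Real.cos (R * φ)) := by linarith
    have h9 : φ ^ 2 * R ^ 2 = (R * φ) ^ 2 := by ring
    rw [h9]
    have h10 : (R * φ) ^ 2 ≤ (1 + d) * ((R * φ) ^ 2 * (1 - 5 / 48 * d)) := by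
      have h11 : 0 ≤ (R * φ) ^ 2 := sq_nonneg _
      have h12 : 1 ≤ (1 + d) * (1 - 5 / 48 * d) := by
        have h13 : d * d ≤ d * 1 := mul_le_mul_of_nonneg_left hd1 hd0.le
        linarith only [h13, hd0]
      have h14 := mul_le_mul_of_nonneg_left h12 h11
      linarith only [h14]
    exact h10.trans (mul_le_mul_of_nonneg_left h8 (by positivity))
  have k5 := ar_mc (c := 1 - Real.cos (R * angle (dir3 q.1) (dir3 q.2)))
    (sq_nonneg ‖dir3 q.1 - dir3 q.2‖) hd0 (mul_pos q1.1 q1.2) hbpos hbM q2.le k3 k4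
  have hrot := rotation ⊤ j q.1 q.2
  unfold mc PB
  rw [k2, ← hrot]
  have e1 : pY ⊤ j q.1 - FF ⊤ 0 - (pY ⊤ j q.2 - FF ⊤ 0) = pY ⊤ j q.1 - pY ⊤ j q.2 := by ring
  rw [e1]
  have h1 : (1 + d) ^ 2 ≤ 1 + δ := by
    have h13 : d * d ≤ d * 1 := mul_le_mul_of_nonneg_left hd1 hd0.le
    linarith only [h13, hd2]
  set S := (pX ⊤ j q.1 - pX ⊤ j q.2) ^ 2 + (pY ⊤ j q.1 - pY ⊤ j q.2) ^ 2 with hS
  have hS0 : 0 ≤ S := by positivity
  set T := 2 * ((pY ⊤ j q.1 - FF ⊤ 0) * (pY ⊤ j q.2 - FF ⊤ 0)) *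
    (1 - Real.cos (R * angle (dir3 q.1) (dir3 q.2))) with hT
  have hT0 : 0 ≤ T := by
    have := Real.cos_le_one (R * angle (dir3 q.1) (dir3 q.2))
    have := mul_pos q1.1 q1.2
    apply mul_nonneg
    · linarith
    · linarith
  have h2 : (1 + d) ^ 2 * T ≤ (1 + δ) * T := mul_le_mul_of_nonneg_right h1 hT0
  have h3 : 0 ≤ δ * S := by positivity
  linarith

end

section

variable {R : ℝ} {ρ : ℕ → ℝ} {C : ℝ} {W : Type} [MetricSpace W] {ψ : ℕ → E4 → W} {U : ℕ → Set W}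

/-- Distances along paths in the interior of the ambient part. -/
theorem path_le (D : AmbData R ⊤ ρ C ψ U) (hA : AmbFun R) {γ : ℝ → E4}
    (hγ : ContinuousOn γ (Set.Icc 0 1))
    (hV : ∀ t ∈ Set.Icc (0 : ℝ) 1, γ t ∈ VA ⊤ ρ 0 ∧ GG ⊤ (pX ⊤ 0 (γ t)) < pY ⊤ 0 (γ t))
    {L : ℝ} (hL : 0 ≤ L) (h : ∀ t ∈ Set.Icc (0 : ℝ) 1, ∀ ε > (0 : ℝ),
      ∀ᶠ s in 𝓝[Set.Icc (0 : ℝ) 1] t,
        PB (bb R ⊤ (pX ⊤ 0 (γ t)) (pY ⊤ 0 (γ t))) (γ s) (γ t) ≤ ((L + ε) * |s - t|) ^ 2) :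
    dist (ψ 0 (γ 0)) (ψ 0 (γ 1)) ≤ L := by
  let g : ℝ → ℝ := fun t => dist (ψ 0 (γ 0)) (ψ 0 (γ t))
  have key := pk_real_lip (h := g) (L := L) ?_
  · have h0 : g 0 = 0 := dist_self _
    rw [h0, sub_zero] at key
    exact key
  intro t ht ε hε
  obtain ⟨hVA, hint⟩ := hV t ht
  obtain ⟨htl, hB, hBb⟩ := interior_data hA hint
  -- constants
  set ε' : ℝ := min (1 / 4) (ε / (8 * (L + 1))) with hε'
  have hε'0 : 0 < ε' := by positivity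
  have hε'1 : ε' ≤ 1 / 4 := min_le_left _ _
  have hε'2 : ε' * (8 * (L + 1)) ≤ ε := by
    have := min_le_right (1 / 4) (ε / (8 * (L + 1)))
    rw [← hε', le_div_iff₀ (by positivity)] at this
    exact this
  have h0top : ((0 : ℕ) : ℕ∞) ≤ ⊤ := le_top
  have u1 := D.upper 0 h0top (γ t) hVA ε' hε'0
  have u2 := polar_close htl hB hε'0
  rw [hBb] at u2
  have hc0 : Tendsto γ (𝓝[Set.Icc (0 : ℝ) 1] t) (𝓝 (γ t)) := hγ t ht
  have hc : Tendsto (fun s => (γ s, γ t)) (𝓝[Set.Icc (0 : ℝ) 1] t) (𝓝 (γ t, γ t)) :=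
    hc0.prodMk_nhds tendsto_const_nhds
  have v1 := hc.eventually (u1.and u2)
  have v2 := h t ht ε' hε'0
  filter_upwards [v1, v2] with s hs1 hs2
  obtain ⟨w1, w2⟩ := hs1
  change dist (ψ 0 (γ s)) (ψ 0 (γ t)) ≤
    (1 + ε') * Real.sqrt (qf (gC R ⊤ 0 (γ t)) (γ s - γ t)) at w1
  change |PB (bb R ⊤ (pX ⊤ 0 (γ t)) (pY ⊤ 0 (γ t))) (γ s) (γ t) -
    QB (BC R ⊤ 0 (γ t)) (γ t) (γ s - γ t)| ≤
      ε' * QB (BC R ⊤ 0 (γ t)) (γ t) (γ s - γ t) at w2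
  rw [qf_gC'] at w1
  have hQ0 : 0 ≤ QB (BC R ⊤ 0 (γ t)) (γ t) (γ s - γ t) := QB_nonneg hB.le
  have w3 := (abs_le.1 w2).1
  set Q := QB (BC R ⊤ 0 (γ t)) (γ t) (γ s - γ t) with hQ
  have w4 : (1 - ε') * Q ≤ ((L + ε') * |s - t|) ^ 2 := by linarith
  have w5 : Q ≤ ((1 + 2 * ε') * ((L + ε') * |s - t|)) ^ 2 := by
    have h1 : 1 ≤ (1 + 2 * ε') ^ 2 * (1 - ε') := by
      have e1 : (1 + 2 * ε') ^ 2 * (1 - ε') = 1 + ε' * (3 - 4 * ε' ^ 2) := by ring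
      have e2 : ε' ^ 2 ≤ (1 / 4) ^ 2 := pow_le_pow_left₀ hε'0.le hε'1 2
      have e3 : 0 ≤ ε' * (3 - 4 * ε' ^ 2) := mul_nonneg hε'0.le (by linarith)
      linarith
    have h2 : Q ≤ (1 + 2 * ε') ^ 2 * ((1 - ε') * Q) := by
      rw [← mul_assoc]
      exact (one_mul Q).symm.le.trans (mul_le_mul_of_nonneg_right h1 hQ0)
    rw [mul_pow]
    exact h2.trans (mul_le_mul_of_nonneg_left w4 (sq_nonneg _))
  have w6 : Real.sqrt Q ≤ (1 + 2 * ε') * ((L + ε') * |s - t|) :=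
    Real.sqrt_le_iff.2 ⟨by positivity, w5⟩
  have w7 : |g s - g t| ≤ dist (ψ 0 (γ s)) (ψ 0 (γ t)) := by
    simp only [g]
    rw [dist_comm (ψ 0 (γ 0)), dist_comm (ψ 0 (γ 0))]
    exact abs_dist_sub_le _ _ _
  refine w7.trans (w1.trans ?_)
  have w8 : (1 + ε') * Real.sqrt Q ≤ (1 + ε') * ((1 + 2 * ε') * ((L + ε') * |s - t|)) :=
    mul_le_mul_of_nonneg_left w6 (by positivity)
  refine w8.trans ?_
  have e1 : (1 + ε') * ((1 + 2 * ε') * ((L + ε') * |s - t|)) =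
      ((1 + ε') * (1 + 2 * ε') * (L + ε')) * |s - t| := by ring
  rw [e1]
  apply mul_le_mul_of_nonneg_right _ (abs_nonneg _)
  have h3 : ε' * ε' ≤ ε' * (1 / 4) := mul_le_mul_of_nonneg_left hε'1 hε'0.le
  have h1 : (1 + ε') * (1 + 2 * ε') ≤ 1 + 4 * ε' := by linarith only [h3, hε'0]
  have h2 : (1 + ε') * (1 + 2 * ε') * (L + ε') ≤ (1 + 4 * ε') * (L + ε') :=
    mul_le_mul_of_nonneg_right h1 (by positivity)
  have h4 : 0 ≤ ε' * L := mul_nonneg hε'0.le hL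
  linarith only [h2, h3, h4, hε'2, hε'0]

/-- Admissible points above the vertex `x`. -/
theorem region (D : AmbData R ⊤ ρ C ψ U) (hA : AmbFun R) {δ : ℝ} (hδ : 0 < δ) :
    ∃ r₀ > (0 : ℝ), ∀ r, 0 < r → r < r₀ → ∀ X Y : ℝ, |X| ≤ 10 * r → δ * r ≤ Y - FF ⊤ 0 →
      GG ⊤ X < Y ∧ ∀ k : ℕ, 1 ≤ k → ρ k < vd ⊤ k X Y := by
  obtain ⟨η₁, hη₁, H1⟩ := hA.FF_small (δ / 40) (by positivity)
  obtain ⟨η₂, hη₂, H2⟩ := hA.GG_small (δ / 40) (by positivity)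
  refine ⟨min (δ / 8) (min (η₁ / 12) (η₂ / 12)), by positivity, ?_⟩
  intro r hr hr0 X Y hX hY
  have hr1 : r < δ / 8 := hr0.trans_le (min_le_left _ _)
  have hr2 : r < η₁ / 12 := hr0.trans_le ((min_le_right _ _).trans (min_le_left _ _))
  have hr3 : r < η₂ / 12 := hr0.trans_le ((min_le_right _ _).trans (min_le_right _ _))
  have hδr : 0 < δ * r := by positivity
  refine ⟨?_, ?_⟩
  · have h1 := H1 X 0 (by linarith) (by rw [abs_zero]; exact hη₁.le)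
    rw [sub_zero] at h1
    have h2 := H2 X (by linarith)
    have h3 := le_abs_self (FF ⊤ X - FF ⊤ 0)
    have h4 : δ / 40 * |X| ≤ δ / 40 * (10 * r) := mul_le_mul_of_nonneg_left hX (by positivity)
    linarith
  · intro k hk
    by_contra hcon
    push Not at hcon
    unfold vd at hcon
    have hρ := D.ρ_le k hk
    have hρ0 := D.ρ_pos k
    have hz : 0 < zz k := by unfold zz; positivity
    have hz1 : zz k ≤ 1 := by
      unfold zz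
      exact pow_le_one₀ (by norm_num) (by norm_num)
    have h1 : (|X| - zz k) ^ 2 + (Y - FF ⊤ (zz k)) ^ 2 ≤ ρ k ^ 2 := by
      have h2 := Real.sqrt_nonneg ((|X| - zz k) ^ 2 + (Y - FF ⊤ (zz k)) ^ 2)
      have h3 := Real.sq_sqrt (show 0 ≤ (|X| - zz k) ^ 2 + (Y - FF ⊤ (zz k)) ^ 2 by positivity)
      rw [← h3]
      exact pow_le_pow_left₀ h2 hcon 2
    have h2 : |(|X| - zz k)| ≤ ρ k := abs_le_of_sq_le_sq (by linarith only [h1, sq_nonneg (Y - FF ⊤ (zz k))]) hρ0.le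
    have h3 : |Y - FF ⊤ (zz k)| ≤ ρ k := abs_le_of_sq_le_sq (by linarith only [h1, sq_nonneg (|X| - zz k)]) hρ0.le
    have h4 := (abs_le.1 h2).1
    have h5 := (abs_le.1 h3).2
    have h6 : zz k ^ 2 ≤ zz k := pow_le_of_le_one hz.le hz1 two_ne_zero
    have h7 : zz k ≤ 11 * r := by linarith
    have h8 := H1 (zz k) 0 (by rw [abs_of_pos hz]; linarith) (by rw [abs_zero]; exact hη₁.le)
    rw [sub_zero, abs_of_pos hz] at h8
    have h9 := le_abs_self (FF ⊤ (zz k) - FF ⊤ 0)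
    have h10 : δ / 40 * zz k ≤ δ / 40 * (11 * r) := mul_le_mul_of_nonneg_left h7 (by positivity)
    have h11 : zz k ^ 2 ≤ (11 * r) ^ 2 := pow_le_pow_left₀ hz.le h7 2
    have h12 : r * r ≤ r * (δ / 8) := mul_le_mul_of_nonneg_left hr1.le hr.le
    linarith only [hρ, h5, h8, h9, h10, h11, h12, hY, hδr]

theorem continuous_ca : Continuous (fun p : ℝ × ℝ × E3 => ca p.1 p.2.1 p.2.2) := by
  unfold ca cv lc sc
  fun_prop

/-- The distance of two ambient points is at most their model distance. -/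
theorem dist_le_modD (D : AmbData R ⊤ ρ C ψ U) (hA : AmbFun R) {δ : ℝ} (hδ : 0 < δ) :
    ∃ r₀ > (0 : ℝ), ∀ r, 0 < r → r < r₀ → ∀ (X X' Y Y' : ℝ) (ξ ξ' : E3), |X| ≤ 10 * r →
      |X'| ≤ 10 * r → δ * r ≤ Y - FF ⊤ 0 → δ * r ≤ Y' - FF ⊤ 0 → ‖ξ‖ = 1 → ‖ξ'‖ = 1 →
      dist (ψ 0 (ca X Y ξ)) (ψ 0 (ca X' Y' ξ')) ≤
        modD R (cv X ((Y - FF ⊤ 0) • ξ)) (cv X' ((Y' - FF ⊤ 0) • ξ')) := by
  obtain ⟨r₀, hr₀, H⟩ := region D hA (δ := δ / 2) (by positivity)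
  refine ⟨r₀, hr₀, ?_⟩
  intro r hr hr0 X X' Y Y' ξ ξ' hX hX' hY hY' hξ hξ'
  have hδr : 0 < δ * r := by positivity
  obtain ⟨y, Ξ, cy, cΞ, y0, y1, Ξ0, Ξ1, hyΞ, hgeod⟩ := exists_geod D.R_pos
    (D.R_le.trans (by norm_num)) X X' (y := Y - FF ⊤ 0) (y' := Y' - FF ⊤ 0) (by linarith)
    (by linarith) hξ hξ'
  set L := modD R (cv X ((Y - FF ⊤ 0) • ξ)) (cv X' ((Y' - FF ⊤ 0) • ξ')) with hL
  have hL0 : 0 ≤ L := modD_nonneg _ _ _
  let γ : ℝ → E4 := fun t => ca ((1 - t) * X + t * X') (y t + FF ⊤ 0) (Ξ t)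
  have hreg : ∀ t ∈ Set.Icc (0 : ℝ) 1, GG ⊤ ((1 - t) * X + t * X') < y t + FF ⊤ 0 ∧
      ∀ k : ℕ, 1 ≤ k → ρ k < vd ⊤ k ((1 - t) * X + t * X') (y t + FF ⊤ 0) := by
    intro t ht
    apply H r hr hr0
    · have h1 : |(1 - t) * X + t * X'| ≤ (1 - t) * |X| + t * |X'| := by
        refine (abs_add_le _ _).trans ?_
        rw [abs_mul, abs_mul, abs_of_nonneg ht.1, abs_of_nonneg (sub_nonneg.2 ht.2)]
      have h2 := mul_le_mul_of_nonneg_left hX (sub_nonneg.2 ht.2)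
      have h3 := mul_le_mul_of_nonneg_left hX' ht.1
      linarith
    · have h1 := (hyΞ t ht).2.1
      have h2 : δ * r ≤ min (Y - FF ⊤ 0) (Y' - FF ⊤ 0) := le_min hY hY'
      linarith
  have hγc : ContinuousOn γ (Set.Icc 0 1) := by
    have h1 : ContinuousOn (fun t : ℝ => (((1 - t) * X + t * X', y t + FF ⊤ 0, Ξ t) : ℝ × ℝ × E3))
        (Set.Icc 0 1) := by
      apply ContinuousOn.prodMk
      · fun_prop
      · exact (cy.add continuousOn_const).prodMk cΞ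
    have h2 := continuous_ca.comp_continuousOn h1
    exact h2
  have hγp : ∀ t ∈ Set.Icc (0 : ℝ) 1, pX ⊤ 0 (γ t) = (1 - t) * X + t * X' ∧
      pY ⊤ 0 (γ t) = y t + FF ⊤ 0 ∧ mc 0 (γ t) = cv ((1 - t) * X + t * X') (y t • Ξ t) := by
    intro t ht
    refine ⟨pX_ca hA (hreg t ht).1 (hyΞ t ht).1, pY_ca hA (hreg t ht).1 (hyΞ t ht).1, ?_⟩
    have := mc_ca hA (hreg t ht).1 (hyΞ t ht).1
    simp only [γ]
    rw [this, add_sub_cancel_right]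
  have hint : ∀ t ∈ Set.Icc (0 : ℝ) 1, GG ⊤ (pX ⊤ 0 (γ t)) < pY ⊤ 0 (γ t) := by
    intro t ht
    rw [(hγp t ht).1, (hγp t ht).2.1]
    exact (hreg t ht).1
  have key := path_le D hA hγc (fun t ht => ⟨ca_mem_VA hA (hreg t ht).1 (hyΞ t ht).1
    (hreg t ht).2, hint t ht⟩) hL0 ?_
  · have e0 : γ 0 = ca X Y ξ := by
      simp only [γ]
      rw [y0, Ξ0]
      congr 1 <;> ring
    have e1 : γ 1 = ca X' Y' ξ' := by
      simp only [γ]
      rw [y1, Ξ1]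
      congr 1 <;> ring
    rw [e0, e1] at key
    exact key
  · intro t ht ε hε
    have h1 := PB_le_mc hA D.R_pos (D.R_le.trans (by norm_num)) (hint t ht)
      (δ := ε / (L + 1)) (by positivity)
    have hc0 : Tendsto γ (𝓝[Set.Icc (0 : ℝ) 1] t) (𝓝 (γ t)) := hγc t ht
    have hc : Tendsto (fun s => (γ s, γ t)) (𝓝[Set.Icc (0 : ℝ) 1] t) (𝓝 (γ t, γ t)) :=
      hc0.prodMk_nhds tendsto_const_nhds
    have h2 := hc.eventually h1
    filter_upwards [h2, self_mem_nhdsWithin] with s hs hs'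
    refine hs.trans ?_
    rw [(hγp s hs').2.2, (hγp t ht).2.2, hgeod s hs' t ht, mul_pow, mul_pow]
    have h3 : (1 + ε / (L + 1)) * L ^ 2 ≤ (L + ε) ^ 2 := by
      have h4 : ε / (L + 1) * L ≤ ε := by
        rw [div_mul_eq_mul_div, div_le_iff₀ (by positivity)]
        exact mul_le_mul_of_nonneg_left (by linarith only) hε.le
      have h5 : ε / (L + 1) * L * L ≤ ε * L := mul_le_mul_of_nonneg_right h4 hL0
      linarith only [h5, sq_nonneg ε, mul_nonneg hε.le hL0]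
    have h4 : 0 ≤ |s - t| ^ 2 := sq_nonneg _
    calc (1 + ε / (L + 1)) * (|s - t| ^ 2 * L ^ 2) = ((1 + ε / (L + 1)) * L ^ 2) * |s - t| ^ 2 := by
          ring
      _ ≤ (L + ε) ^ 2 * |s - t| ^ 2 := mul_le_mul_of_nonneg_right h3 h4

/-- Vertical paths. -/
theorem dist_vert (D : AmbData R ⊤ ρ C ψ U) (hA : AmbFun R) {X Y Y' : ℝ} {ξ : E3} (hξ : ‖ξ‖ = 1)
    (hG : GG ⊤ X < Y) (hYY : Y ≤ Y') (hv : ∀ t ∈ Set.Icc Y Y', ∀ k : ℕ, 1 ≤ k → ρ k < vd ⊤ k X t) :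
    dist (ψ 0 (ca X Y ξ)) (ψ 0 (ca X Y' ξ)) ≤ Y' - Y := by
  let γ : ℝ → E4 := fun t => ca X ((1 - t) * Y + t * Y') ξ
  have hmem : ∀ t ∈ Set.Icc (0 : ℝ) 1, (1 - t) * Y + t * Y' ∈ Set.Icc Y Y' := by
    intro t ht
    constructor
    · linarith only [mul_nonneg ht.1 (sub_nonneg.2 hYY)]
    · linarith only [mul_nonneg (sub_nonneg.2 ht.2) (sub_nonneg.2 hYY)]
  have hGt : ∀ t ∈ Set.Icc (0 : ℝ) 1, GG ⊤ X < (1 - t) * Y + t * Y' := fun t ht =>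
    hG.trans_le (hmem t ht).1
  have hγc : Continuous γ := by
    have h1 : Continuous (fun t : ℝ => ((X, (1 - t) * Y + t * Y', ξ) : ℝ × ℝ × E3)) := by
      fun_prop
    have h2 := continuous_ca.comp h1
    exact h2
  have key := path_le D hA hγc.continuousOn (fun t ht => ⟨ca_mem_VA hA (hGt t ht) hξ
    (hv _ (hmem t ht)), by rw [pX_ca hA (hGt t ht) hξ, pY_ca hA (hGt t ht) hξ]; exact hGt t ht⟩)
    (sub_nonneg.2 hYY) ?_
  · have e0 : γ 0 = ca X Y ξ := by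
      simp only [γ]
      congr 1; ring
    have e1 : γ 1 = ca X Y' ξ := by
      simp only [γ]
      congr 1; ring
    rw [e0, e1] at key
    exact key
  · intro t ht ε hε
    filter_upwards [self_mem_nhdsWithin] with s hs
    have hrot := rotation ⊤ 0 (γ s) (γ t)
    unfold PB
    rw [← hrot, pX_ca hA (hGt s hs) hξ, pX_ca hA (hGt t ht) hξ, pY_ca hA (hGt s hs) hξ,
      pY_ca hA (hGt t ht) hξ, dir3_ca hA (hGt s hs) hξ, dir3_ca hA (hGt t ht) hξ]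
    have e : (1 - s) * Y + s * Y' - ((1 - t) * Y + t * Y') = (s - t) * (Y' - Y) := by ring
    rw [e, sub_self, sub_self, norm_zero, mul_pow, mul_pow, sq_abs]
    have h1 : (Y' - Y) ^ 2 ≤ (Y' - Y + ε) ^ 2 := by
      apply pow_le_pow_left₀ (by linarith)
      linarith
    linarith only [mul_le_mul_of_nonneg_left h1 (sq_nonneg (s - t))]

end

end Pool.Agent.W_MP_654ec6_h2
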