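import Pool.Agent.W_MP_654ec6_h2.Lower
import Pool.Agent.W_MP_654ec6_h2.Upper

/-!
# Part G, ConeX: the tangent cone at the vertex `x`
-/

open scoped RealInnerProductSpace Topology
open Filter InnerProductGeometry

namespace Pool.Agent.W_MP_654ec6_h2

open Pool.Agent.W_MP_654ec6

/-- A fixed unit vector. -/
noncomputable def xi0 : E3 := EuclideanSpace.single 0 1

theorem norm_xi0 : ‖xi0‖ = 1 := by simp [xi0]

section

variable {R : ℝ} {ρ : ℕ → ℝ} {C : ℝ} {W : Type} [MetricSpace W] {ψ : ℕ → E4 → W} {U : ℕ → Set W}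

theorem GG_zero (hA : AmbFun R) : GG ⊤ 0 = FF ⊤ 0 := by
  apply le_antisymm _ (hA.FF_le_GG 0)
  obtain ⟨η, hη, h⟩ := hA.GG_small 1 one_pos
  have := h 0 (by rw [abs_zero]; exact hη.le)
  rw [abs_zero, mul_zero] at this
  linarith

theorem rho_lt_zz (D : AmbData R ⊤ ρ C ψ U) {k : ℕ} (hk : 1 ≤ k) : ρ k ≤ zz k / 100 := by
  have h1 := D.ρ_le k hk
  have h2 := zz_pos' k
  have h3 := zz_le_one' k
  nlinarith

theorem lt_vd_of_abs {N : ℕ∞} {k : ℕ} {X Y s : ℝ} (h : s < |(|X| - zz k)|) : s < vd N k X Y := by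
  refine h.trans_le ?_
  unfold vd
  apply Real.le_sqrt_of_sq_le
  rw [sq_abs]
  nlinarith [sq_nonneg (Y - FF N (zz k))]

/-- The vertical line over `x` avoids the balls. -/
theorem vd_axis (D : AmbData R ⊤ ρ C ψ U) {k : ℕ} (hk : 1 ≤ k) (Y : ℝ) : ρ k < vd ⊤ k 0 Y := by
  apply lt_vd_of_abs
  have h1 := rho_lt_zz D hk
  have h2 := zz_pos' k
  rw [abs_zero, zero_sub, abs_neg, abs_of_pos h2]
  linarith

/-- The vertical line over `x_l` avoids the other balls. -/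
theorem vd_other (D : AmbData R ⊤ ρ C ψ U) {k l : ℕ} (hk : 1 ≤ k) (hkl : k ≠ l) (Y : ℝ) :
    ρ k < vd ⊤ k (zz l) Y := by
  apply lt_vd_of_abs
  have h1 := rho_lt_zz D hk
  have h2 := zz_pos' k
  have h3 := zz_pos' l
  rw [abs_of_pos h3]
  rcases lt_or_gt_of_ne hkl with h | h
  · have h4 := zz_anti' (show k + 1 ≤ l by omega)
    rw [zz_succ'] at h4
    rw [abs_sub_comm, abs_of_nonneg (by linarith)]
    linarith
  · have h4 := zz_anti' (show l + 1 ≤ k by omega)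
    rw [zz_succ'] at h4
    rw [abs_of_nonneg (by linarith)]
    linarith

/-- The limit point `x`. -/
theorem exists_lim (D : AmbData R ⊤ ρ C ψ U) (hA : AmbFun R) {X : Type} [MetricSpace X]
    [CompleteSpace X] {e : W → X} (he : Isometry e) :
    ∃ x : X, ∀ s, 0 < s → dist x (e (ψ 0 (ca 0 (FF ⊤ 0 + s) xi0))) ≤ s := by
  have hd : ∀ s t, 0 < s → s ≤ t →
      dist (ψ 0 (ca 0 (FF ⊤ 0 + s) xi0)) (ψ 0 (ca 0 (FF ⊤ 0 + t) xi0)) ≤ t - s := by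
    intro s t hs hst
    have h := dist_vert D hA (X := 0) (Y := FF ⊤ 0 + s) (Y' := FF ⊤ 0 + t) norm_xi0
      (by rw [GG_zero hA]; linarith) (by linarith) (fun u _ k hk => vd_axis D hk u)
    linarith
  let v : ℕ → X := fun n => e (ψ 0 (ca 0 (FF ⊤ 0 + 1 / ((n : ℝ) + 1)) xi0))
  have hv : ∀ n m : ℕ, n ≤ m → dist (v n) (v m) ≤ 1 / ((n : ℝ) + 1) := by
    intro n m hnm
    simp only [v]
    rw [he.dist_eq, dist_comm]
    have h1 : 1 / ((m : ℝ) + 1) ≤ 1 / ((n : ℝ) + 1) := by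
      apply one_div_le_one_div_of_le (by positivity)
      have : (n : ℝ) ≤ m := by exact_mod_cast hnm
      linarith
    have h2 := hd (1 / ((m : ℝ) + 1)) (1 / ((n : ℝ) + 1)) (by positivity) h1
    have h3 : 0 < 1 / ((m : ℝ) + 1) := by positivity
    linarith
  have hc : CauchySeq v := by
    apply cauchySeq_of_le_tendsto_0 (fun n : ℕ => 2 * (1 / ((n : ℝ) + 1)))
    · intro n m N hn hm
      have h1 := hv N n hn
      have h2 := hv N m hm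
      have h3 := dist_triangle_left (v n) (v m) (v N)
      linarith
    · have := (tendsto_one_div_add_atTop_nhds_zero_nat (𝕜 := ℝ)).const_mul 2
      simpa using this
  obtain ⟨x, hx⟩ := cauchySeq_tendsto_of_complete hc
  refine ⟨x, fun s hs => ?_⟩
  have h1 : Tendsto (fun n => dist (v n) (e (ψ 0 (ca 0 (FF ⊤ 0 + s) xi0)))) atTop
      (𝓝 (dist x (e (ψ 0 (ca 0 (FF ⊤ 0 + s) xi0))))) := hx.dist tendsto_const_nhds
  apply le_of_tendsto h1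
  have h2 : ∀ᶠ n : ℕ in atTop, 1 / ((n : ℝ) + 1) < s :=
    tendsto_one_div_add_atTop_nhds_zero_nat.eventually (gt_mem_nhds hs)
  filter_upwards [h2] with n hn
  simp only [v]
  rw [he.dist_eq]
  have h3 : 0 < 1 / ((n : ℝ) + 1) := by positivity
  have h4 := hd _ s h3 hn.le
  linarith

/-- The model vector of a tuple and of the comparison map are close. -/
theorem thW_ca (D : AmbData R ⊤ ρ C ψ U) (hA : AmbFun R) {ε η : ℝ} (hε : 0 < ε)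
    (H : ∀ X X' : ℝ, |X| ≤ η → |X'| ≤ η → |FF ⊤ X - FF ⊤ X'| ≤ ε * |X - X'|) {X Y : ℝ} {ξ : E3}
    (hξ : ‖ξ‖ = 1) (hX : |X| ≤ η) (hY : 0 ≤ Y) (hG : GG ⊤ X < FF ⊤ 0 + Y)
    (hv : ∀ k : ℕ, 1 ≤ k → ρ k < vd ⊤ k X (FF ⊤ 0 + Y)) :
    ∃ u : E4, (thW ρ ψ U ε (ψ 0 (ca X (FF ⊤ 0 + Y) ξ)) = u ∨
      thW ρ ψ U ε (ψ 0 (ca X (FF ⊤ 0 + Y) ξ)) = -u) ∧ ‖u - cv X (Y • ξ)‖ ≤ 2 * ε * |X| ∧
      ‖u‖ ≤ |X| + Y := by
  have hmem := ca_mem_VA hA hG hξ hv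
  refine ⟨th ε 0 (ca X (FF ⊤ 0 + Y) ξ), thW_amb D hA ε hmem, ?_⟩
  have e1 : th ε 0 (ca X (FF ⊤ 0 + Y) ξ) =
      cv X (max 0 (FF ⊤ 0 + Y - FF ⊤ X - ε * |X|) • ξ) := by
    unfold th thM
    rw [pX_ca hA hG hξ, pY_ca hA hG hξ, dir3_ca hA hG hξ]
  have h1 := H X 0 hX (by rw [abs_zero]; exact (abs_nonneg X).trans hX)
  rw [sub_zero] at h1
  have h2 := le_abs_self (FF ⊤ X - FF ⊤ 0)
  have h3 := hA.FF_ge X
  have h4 : 0 ≤ ε * |X| := by positivity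
  set z := FF ⊤ X - FF ⊤ 0 + ε * |X| with hz
  have hz0 : 0 ≤ z := by linarith
  have hz1 : z ≤ 2 * ε * |X| := by linarith
  have e2 : FF ⊤ 0 + Y - FF ⊤ X - ε * |X| = Y - z := by rw [hz]; ring
  rw [e1, e2]
  have hM0 : 0 ≤ max 0 (Y - z) := le_max_left _ _
  have hM1 : max 0 (Y - z) ≤ Y := max_le hY (by linarith)
  have hM2 : Y - z ≤ max 0 (Y - z) := le_max_right _ _
  constructor
  · rw [cv_sub, sub_self, ← sub_smul]
    refine (norm_cv_le _ _).trans ?_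
    rw [abs_zero, zero_add, norm_smul, hξ, mul_one, Real.norm_eq_abs, abs_sub_comm,
      abs_of_nonneg (by linarith)]
    linarith
  · refine (norm_cv_le _ _).trans ?_
    rw [norm_smul, hξ, mul_one, Real.norm_eq_abs, abs_of_nonneg hM0]
    linarith

/-- Distances of admissible tuples are model distances up to `32 κ r`. -/
theorem tuple_dist (D : AmbData R ⊤ ρ C ψ U) (hA : AmbFun R) {κ ε : ℝ} (hκ : 0 < κ)
    (hε : 0 < ε) (hεκ : ε ≤ κ) {K₀ : ℕ}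
    (HL : ∀ m : ℕ, K₀ ≤ m → ∀ p q : W,
      modDt R (fold (2 * zz m) (thW ρ ψ U ε p)) (fold (2 * zz m) (thW ρ ψ U ε q)) ≤
        (1 + κ) * dist p q + κ * zz m) :
    ∃ r₀ > (0 : ℝ), ∀ r, 0 < r → r < r₀ → ∀ m : ℕ, K₀ ≤ m → 4 * r ≤ zz m → zz m ≤ 8 * r →
      ∀ (X X' Y Y' : ℝ) (ξ ξ' : E3), |X| ≤ 3 * r →
      |X'| ≤ 3 * r → 8 * κ * r ≤ Y → Y ≤ 3 * r → 8 * κ * r ≤ Y' → Y' ≤ 3 * r → ‖ξ‖ = 1 →
      ‖ξ'‖ = 1 → |dist (ψ 0 (ca X (FF ⊤ 0 + Y) ξ)) (ψ 0 (ca X' (FF ⊤ 0 + Y') ξ')) -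
        modDt R (cv X (Y • ξ)) (cv X' (Y' • ξ'))| ≤ 32 * κ * r := by
  have hR : ROk R := Or.inl ⟨D.R_pos, D.R_le.trans (by norm_num)⟩
  obtain ⟨η, hη, H⟩ := hA.FF_small ε hε
  obtain ⟨r₁, hr₁, HR⟩ := region D hA (δ := 8 * κ) (by positivity)
  obtain ⟨r₂, hr₂, HU⟩ := dist_le_modD D hA (δ := 8 * κ) (by positivity)
  refine ⟨min (η / 3) (min r₁ r₂), by positivity, ?_⟩
  intro r hr hrr m hm hm1 hm2 X X' Y Y' ξ ξ' hX hX' hY1 hY2 hY1' hY2' hξ hξ'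
  have hrη : r < η / 3 := hrr.trans_le (min_le_left _ _)
  have hrr1 : r < r₁ := hrr.trans_le ((min_le_right _ _).trans (min_le_left _ _))
  have hrr2 : r < r₂ := hrr.trans_le ((min_le_right _ _).trans (min_le_right _ _))
  have hκr : 0 < κ * r := by positivity
  obtain ⟨g1, g2⟩ := HR r hr hrr1 X (FF ⊤ 0 + Y) (by linarith) (by linarith)
  obtain ⟨g1', g2'⟩ := HR r hr hrr1 X' (FF ⊤ 0 + Y') (by linarith) (by linarith)
  -- the upper bound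
  have hup : ∀ (X' : ℝ) (ξ' : E3), |X'| ≤ 3 * r → ‖ξ'‖ = 1 →
      dist (ψ 0 (ca X (FF ⊤ 0 + Y) ξ)) (ψ 0 (ca X' (FF ⊤ 0 + Y') ξ')) ≤
        modD R (cv X (Y • ξ)) (cv X' (Y' • ξ')) := by
    intro X' ξ' hX' hξ'
    have h := HU r hr hrr2 X X' (FF ⊤ 0 + Y) (FF ⊤ 0 + Y') ξ ξ' (by linarith) (by linarith)
      (by linarith) (by linarith) hξ hξ'
    rwa [add_sub_cancel_left, add_sub_cancel_left] at h
  have hup2 : dist (ψ 0 (ca X (FF ⊤ 0 + Y) ξ)) (ψ 0 (ca X' (FF ⊤ 0 + Y') ξ')) ≤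
      modDt R (cv X (Y • ξ)) (cv X' (Y' • ξ')) := by
    apply le_min (hup X' ξ' hX' hξ')
    have hX'' : |(-X')| ≤ 3 * r := by rw [abs_neg]; exact hX'
    have hξ'' : ‖-ξ'‖ = 1 := by rw [norm_neg]; exact hξ'
    have h1 := hup (-X') (-ξ') hX'' hξ''
    obtain ⟨g3, g4⟩ := HR r hr hrr1 (-X') (FF ⊤ 0 + Y') (by linarith) (by linarith)
    have h2 : ψ 0 (ca X' (FF ⊤ 0 + Y') ξ') = ψ 0 (ca (-X') (FF ⊤ 0 + Y') (-ξ')) := by
      rw [D.same 0 0 le_top le_top _ (ca_mem_VA hA g1' hξ' g2') _ (ca_mem_VA hA g3 hξ'' g4)]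
      refine ⟨?_, Or.inr ⟨?_, ?_⟩⟩
      · rw [pY_ca hA g1' hξ', pY_ca hA g3 hξ'']
      · rw [pX_ca hA g1' hξ', pX_ca hA g3 hξ'', neg_neg]
      · rw [dir3_ca hA g1' hξ', dir3_ca hA g3 hξ'', neg_neg]
    rw [h2, cv_neg, ← smul_neg]
    exact h1
  -- the lower bound
  obtain ⟨u, hu, hu1, hu2⟩ := thW_ca (U := U) D hA hε H hξ (by linarith) (by linarith) g1 g2
  obtain ⟨u', hu', hu1', hu2'⟩ := thW_ca (U := U) D hA hε H hξ' (by linarith) (by linarith) g1' g2'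
  have hL := HL m hm (ψ 0 (ca X (FF ⊤ 0 + Y) ξ)) (ψ 0 (ca X' (FF ⊤ 0 + Y') ξ'))
  have hfu : ‖u‖ ≤ 2 * zz m := by linarith
  have hfu' : ‖u'‖ ≤ 2 * zz m := by linarith
  have hL2 : modDt R u u' ≤ (1 + κ) * dist (ψ 0 (ca X (FF ⊤ 0 + Y) ξ))
      (ψ 0 (ca X' (FF ⊤ 0 + Y') ξ')) + κ * zz m := by
    have e : modDt R (fold (2 * zz m) (thW ρ ψ U ε (ψ 0 (ca X (FF ⊤ 0 + Y) ξ))))
        (fold (2 * zz m) (thW ρ ψ U ε (ψ 0 (ca X' (FF ⊤ 0 + Y') ξ')))) = modDt R u u' := by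
      rcases hu with h | h <;> rcases hu' with h' | h' <;> rw [h, h'] <;>
        simp only [fold_neg, modDt_neg_left, modDt_neg_right, fold_of_le hfu, fold_of_le hfu']
    rw [e] at hL
    exact hL
  have ht1 := modDt_triangle hR (cv X (Y • ξ)) u (cv X' (Y' • ξ'))
  have ht2 := modDt_triangle hR u u' (cv X' (Y' • ξ'))
  have ht3 := modDt_le_norm_sub hR (cv X (Y • ξ)) u
  have ht4 := modDt_le_norm_sub hR u' (cv X' (Y' • ξ'))
  rw [norm_sub_rev] at ht3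
  have hεX : ε * |X| ≤ κ * (3 * r) := mul_le_mul hεκ hX (abs_nonneg _) hκ.le
  have hεX' : ε * |X'| ≤ κ * (3 * r) := mul_le_mul hεκ hX' (abs_nonneg _) hκ.le
  -- the size of the distance
  have hsize : dist (ψ 0 (ca X (FF ⊤ 0 + Y) ξ)) (ψ 0 (ca X' (FF ⊤ 0 + Y') ξ')) ≤ 12 * r := by
    refine hup2.trans ?_
    have h1 := modDt_triangle hR (cv X (Y • ξ)) 0 (cv X' (Y' • ξ'))
    rw [modDt_comm R (cv X (Y • ξ)) 0, modDt_zero_left, modDt_zero_left] at h1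
    have h2 := norm_cv_le X (Y • ξ)
    have h3 := norm_cv_le X' (Y' • ξ')
    rw [norm_smul, hξ, mul_one, Real.norm_eq_abs, abs_of_nonneg (show 0 ≤ Y by linarith)] at h2
    rw [norm_smul, hξ', mul_one, Real.norm_eq_abs, abs_of_nonneg (show 0 ≤ Y' by linarith)] at h3
    linarith
  have hκd : κ * dist (ψ 0 (ca X (FF ⊤ 0 + Y) ξ)) (ψ 0 (ca X' (FF ⊤ 0 + Y') ξ')) ≤
      κ * (12 * r) := mul_le_mul_of_nonneg_left hsize hκ.le
  have hκz : κ * zz m ≤ κ * (8 * r) := mul_le_mul_of_nonneg_left hm2 hκ.le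
  rw [abs_le]
  constructor
  · linarith
  · linarith

/-- Every point of a block can be moved to the level `FF ⊤ 0 + s`. -/
theorem blk_up (D : AmbData R ⊤ ρ C ψ U) (hA : AmbFun R) {k : ℕ} (hk : 1 ≤ k) {w : W}
    (hw : w ∈ U k) {s : ℝ} (hs : FF ⊤ (zz k) + 5 / 4 * ρ k ≤ FF ⊤ 0 + s) :
    dist w (ψ 0 (ca (zz k) (FF ⊤ 0 + s) xi0)) ≤ C * ρ k + s := by
  have hρ := D.ρ_pos k
  have hz := zz_pos' k
  have hG : ∀ Y, FF ⊤ (zz k) + 5 / 4 * ρ k ≤ Y → GG ⊤ (zz k) < Y := by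
    intro Y hY
    rw [hA.GG_zz k hk]
    linarith
  have hv : ∀ Y, FF ⊤ (zz k) + 5 / 4 * ρ k ≤ Y → ∀ l : ℕ, 1 ≤ l → ρ l < vd ⊤ l (zz k) Y := by
    intro Y hY l hl
    by_cases hkl : l = k
    · rw [hkl]
      unfold vd
      apply Real.lt_sqrt_of_sq_lt
      rw [abs_of_pos hz, sub_self]
      nlinarith
    · exact vd_other D hl hkl Y
  have htop : ψ 0 (ca (zz k) (FF ⊤ (zz k) + 5 / 4 * ρ k) xi0) ∈ U k := by
    apply D.collar' 0 le_top _ (ca_mem_VA hA (hG _ le_rfl) norm_xi0 (hv _ le_rfl)) k hk le_top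
    rw [pX_ca hA (hG _ le_rfl) norm_xi0, pY_ca hA (hG _ le_rfl) norm_xi0]
    unfold vd
    rw [Real.sqrt_lt' (by positivity), abs_of_pos hz]
    nlinarith
  have h1 := D.diam k hk le_top w hw _ htop
  have h2 := dist_vert D hA (X := zz k) (Y := FF ⊤ (zz k) + 5 / 4 * ρ k) (Y' := FF ⊤ 0 + s)
    norm_xi0 (hG _ le_rfl) hs (fun t ht => hv t ht.1)
  have h3 := hA.FF_ge (zz k)
  have h4 := dist_triangle w (ψ 0 (ca (zz k) (FF ⊤ (zz k) + 5 / 4 * ρ k) xi0))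
    (ψ 0 (ca (zz k) (FF ⊤ 0 + s) xi0))
  linarith

/-- An interior ambient point can be moved up, or lies in a block. -/
theorem amb_up (D : AmbData R ⊤ ρ C ψ U) (hA : AmbFun R) {X Y : ℝ} {ξ : E3} (hξ : ‖ξ‖ = 1)
    (hG : GG ⊤ X < Y) (hv : ∀ k : ℕ, 1 ≤ k → ρ k < vd ⊤ k X Y) {s : ℝ} (hs : Y ≤ FF ⊤ 0 + s) :
    dist (ψ 0 (ca X Y ξ)) (ψ 0 (ca X (FF ⊤ 0 + s) ξ)) ≤ s ∨
      ∃ k : ℕ, 1 ≤ k ∧ ψ 0 (ca X Y ξ) ∈ U k ∧ |(|X| - zz k)| ≤ ρ k := by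
  by_cases h : ∀ t ∈ Set.Icc Y (FF ⊤ 0 + s), ∀ k : ℕ, 1 ≤ k → ρ k < vd ⊤ k X t
  · left
    have h1 := dist_vert D hA hξ hG hs h
    have h2 := hA.FF_le_GG X
    have h3 := hA.FF_ge X
    linarith
  · right
    push Not at h
    obtain ⟨t, ht, k, hk, hk2⟩ := h
    have hρ := D.ρ_pos k
    have hz := zz_pos' k
    have hsq : (|X| - zz k) ^ 2 + (t - FF ⊤ (zz k)) ^ 2 ≤ ρ k ^ 2 := by
      unfold vd at hk2
      have h2 := Real.sqrt_nonneg ((|X| - zz k) ^ 2 + (t - FF ⊤ (zz k)) ^ 2)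
      have h3 := Real.sq_sqrt (show 0 ≤ (|X| - zz k) ^ 2 + (t - FF ⊤ (zz k)) ^ 2 by positivity)
      rw [← h3]
      exact pow_le_pow_left₀ h2 hk2 2
    have h1 : |(|X| - zz k)| ≤ ρ k :=
      abs_le_of_sq_le_sq (by nlinarith [sq_nonneg (t - FF ⊤ (zz k))]) hρ.le
    have h2 : |t - FF ⊤ (zz k)| ≤ ρ k :=
      abs_le_of_sq_le_sq (by nlinarith [sq_nonneg (|X| - zz k)]) hρ.le
    refine ⟨k, hk, ?_, h1⟩
    apply D.collar' 0 le_top _ (ca_mem_VA hA hG hξ hv) k hk le_top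
    rw [pX_ca hA hG hξ, pY_ca hA hG hξ]
    unfold vd
    rw [Real.sqrt_lt' (by positivity)]
    -- bounds of `Y`
    have h3 : Y - FF ⊤ (zz k) ≤ ρ k := by
      have := (abs_le.1 h2).2
      linarith [ht.1]
    have h4 : -(ρ k / 10) ≤ Y - FF ⊤ (zz k) := by
      have h5 : GG ⊤ |X| = GG ⊤ X := by
        rcases abs_choice X with h | h <;> rw [h]
        exact hA.GG_even X
      have h6 := hA.GG_lip |X| (zz k)
      have h7 := (abs_le.1 h6).1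
      have h8 := hA.GG_zz k hk
      linarith
    have h5 : (Y - FF ⊤ (zz k)) ^ 2 ≤ ρ k ^ 2 := by
      apply sq_le_sq'
      · linarith
      · exact h3
    have h6 : (|X| - zz k) ^ 2 ≤ ρ k ^ 2 := by nlinarith [sq_nonneg (t - FF ⊤ (zz k))]
    nlinarith

end

end Pool.Agent.W_MP_654ec6_h2
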