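import Mathlib

set_option autoImplicit false

/-!
# `ℝP³` is not homeomorphic to the three-sphere

There is no continuous surjection `π` of the unit sphere `S` of `ℝ⁴` onto itself whose fibres are
the pairs `{u, -u}`. Such a map is a covering map; it has a section over the complement of each
point (which is homeomorphic to `ℝ³`), the two sections over the complements of two antipodal
points agree up to a sign on the connected intersection, so there is a global section `s`, and `S`
is the disjoint union of the nonempty closed sets `{s (π u) = u}` and `{s (π u) = -u}`.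
-/

namespace Pool.Agent.W_MP_654ec6_h2

open Metric Topology Set

/-- The unit sphere of `ℝ⁴`. -/
abbrev S3 : Type := sphere (0 : EuclideanSpace ℝ (Fin 4)) 1

theorem s3_norm (u : S3) : ‖(u : EuclideanSpace ℝ (Fin 4))‖ = 1 := by
  have := u.2
  rwa [mem_sphere_zero_iff_norm] at this

theorem s3_ne_neg (u : S3) : u ≠ -u := by
  intro h
  have h1 : (u : EuclideanSpace ℝ (Fin 4)) = -(u : EuclideanSpace ℝ (Fin 4)) := by
    have := congrArg (Subtype.val) h
    simpa using this
  have h2 : (u : EuclideanSpace ℝ (Fin 4)) = 0 := by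
    have h3 : (2 : ℝ) • (u : EuclideanSpace ℝ (Fin 4)) = 0 := by
      rw [two_smul]
      nth_rewrite 1 [h1]
      exact neg_add_cancel _
    exact (smul_eq_zero.1 h3).resolve_left two_ne_zero
  have h3 := s3_norm u
  rw [h2, norm_zero] at h3
  exact zero_ne_one h3

/-- The action of `{1, -1}` on the sphere. -/
noncomputable def s3Smul (g : ℤˣ) (u : S3) : S3 := if g = 1 then u else -u

theorem s3Smul_one (u : S3) : s3Smul 1 u = u := by
  simp [s3Smul]

theorem s3Smul_neg_one (u : S3) : s3Smul (-1) u = -u := by
  simp [s3Smul]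

/-- The action of `{1, -1}` on the sphere. -/
@[reducible] noncomputable def s3Action : MulAction ℤˣ S3 where
  smul := s3Smul
  one_smul := s3Smul_one
  mul_smul := by
    intro g h u
    change s3Smul (g * h) u = s3Smul g (s3Smul h u)
    rcases Int.units_eq_one_or g with rfl | rfl <;> rcases Int.units_eq_one_or h with rfl | rfl <;>
      simp [s3Smul]

theorem s3_covering (π : S3 → S3) (hc : Continuous π) (hs : Function.Surjective π)
    (hf : ∀ u v, π u = π v ↔ v = u ∨ v = -u) : IsCoveringMap π := by
  let _ : MulAction ℤˣ S3 := s3Action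
  have hq : IsQuotientMap π := hc.isClosedMap.isQuotientMap hc hs
  have h : IsQuotientCoveringMap π ℤˣ := by
    refine { toIsQuotientMap := hq, continuous_const_smul := ?_, apply_eq_iff_mem_orbit := ?_,
             disjoint := ?_ }
    · intro g
      change Continuous fun u => s3Smul g u
      rcases Int.units_eq_one_or g with rfl | rfl
      · simp only [s3Smul_one]
        exact continuous_id
      · simp only [s3Smul_neg_one]
        exact continuous_neg
    · intro u v
      rw [eq_comm, hf, MulAction.mem_orbit_iff]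
      constructor
      · rintro (h | h)
        · exact ⟨1, (s3Smul_one v).trans h.symm⟩
        · exact ⟨-1, (s3Smul_neg_one v).trans h.symm⟩
      · rintro ⟨g, hg⟩
        change s3Smul g v = u at hg
        rcases Int.units_eq_one_or g with rfl | rfl
        · left
          rw [← hg, s3Smul_one]
        · right
          rw [← hg, s3Smul_neg_one]
    · intro e
      refine ⟨ball e 1, ball_mem_nhds e one_pos, ?_⟩
      rintro g ⟨w, ⟨x, hx, hxw⟩, hw⟩
      rcases Int.units_eq_one_or g with rfl | rfl
      · rfl
      · exfalso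
        change s3Smul (-1) x = w at hxw
        rw [s3Smul_neg_one] at hxw
        rw [← hxw] at hw
        have h1 : dist x (-x) < 2 := by
          have := dist_triangle x e (-x)
          rw [mem_ball] at hx hw
          rw [dist_comm (-x) e] at hw
          linarith
        have h2 : dist x (-x) = 2 := by
          rw [Subtype.dist_eq, dist_eq_norm]
          have : (x : EuclideanSpace ℝ (Fin 4)) - ((-x : S3) : EuclideanSpace ℝ (Fin 4)) =
              (2 : ℝ) • (x : EuclideanSpace ℝ (Fin 4)) := by
            rw [two_smul]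
            simp
          rw [this, norm_smul, s3_norm]
          norm_num
        linarith
  exact h.isCoveringMap

/-- A section over the complement of a point. -/
theorem s3_section (π : S3 → S3) (hπ : IsCoveringMap π) (hs : Function.Surjective π) (v : S3) :
    ∃ s : S3 → S3, ContinuousOn s {v}ᶜ ∧ ∀ x ∈ ({v}ᶜ : Set S3), π (s x) = x := by
  set e := stereographic (s3_norm v) with he
  have hcont : Continuous e.symm := by
    rw [← continuousOn_univ]
    exact e.continuousOn_symm
  obtain ⟨e₀, he₀⟩ := hs (e.symm 0)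
  obtain ⟨F, ⟨-, hF⟩, -⟩ := hπ.existsUnique_continuousMap_lifts (⟨e.symm, hcont⟩ : C(_, S3)) 0 e₀ he₀
  have hsrc : e.source = {v}ᶜ := stereographic_source (s3_norm v)
  refine ⟨fun x => F (e x), ?_, ?_⟩
  · rw [← hsrc]
    exact F.continuous.comp_continuousOn e.continuousOn
  · intro x hx
    have h1 := congrFun hF (e x)
    change π (F (e x)) = e.symm (e x) at h1
    rw [h1]
    exact e.left_inv (by rw [hsrc]; exact hx)

/-- The complement of two antipodal points is connected. -/
theorem s3_preconnected_compl (v : S3) : IsPreconnected ({v}ᶜ ∩ {-v}ᶜ : Set S3) := by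
  set e := stereographic (s3_norm v) with he
  have hcont : Continuous e.symm := by
    rw [← continuousOn_univ]
    exact e.continuousOn_symm
  have hsrc : e.source = {v}ᶜ := stereographic_source (s3_norm v)
  have h0 : e (-v) = 0 := stereographic_apply_neg v
  have himg : ({v}ᶜ ∩ {-v}ᶜ : Set S3) = e.symm '' {0}ᶜ := by
    ext x
    constructor
    · rintro ⟨h1, h2⟩
      refine ⟨e x, ?_, e.left_inv (by rw [hsrc]; exact h1)⟩
      intro h3
      apply h2
      rw [mem_singleton_iff] at h3 ⊢
      rw [← h0] at h3
      have hv : -v ∈ e.source := by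
        rw [hsrc, mem_compl_iff, mem_singleton_iff]
        exact fun h => s3_ne_neg v h.symm
      exact e.injOn (by rw [hsrc]; exact h1) hv h3
    · rintro ⟨y, hy, rfl⟩
      have h1 : e.symm y ∈ e.source := e.map_target (by simp [he])
      refine ⟨by rw [← hsrc]; exact h1, ?_⟩
      intro h2
      rw [mem_singleton_iff] at h2
      apply hy
      rw [mem_singleton_iff, ← h0, ← h2]
      exact (e.right_inv (by simp [he])).symm
  rw [himg]
  have : Fact (Module.finrank ℝ (EuclideanSpace ℝ (Fin 4)) = 3 + 1) := ⟨by simp⟩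
  have hv0 : (v : EuclideanSpace ℝ (Fin 4)) ≠ 0 := by
    intro h
    have := s3_norm v
    rw [h, norm_zero] at this
    exact zero_ne_one this
  have hr : Module.finrank ℝ (ℝ ∙ (v : EuclideanSpace ℝ (Fin 4)))ᗮ = 3 :=
    Submodule.finrank_orthogonal_span_singleton hv0
  have hrank : 1 < Module.rank ℝ (ℝ ∙ (v : EuclideanSpace ℝ (Fin 4)))ᗮ := by
    rw [← Module.finrank_eq_rank, hr]
    norm_num
  exact (isConnected_compl_singleton_of_one_lt_rank hrank 0).isPreconnected.image _
    hcont.continuousOn

/-- There is no continuous surjection of the three-sphere onto itself whose fibres are the pairs of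
antipodal points. -/
theorem no_double_cover (π : S3 → S3) (hc : Continuous π) (hs : Function.Surjective π)
    (hf : ∀ u v, π u = π v ↔ v = u ∨ v = -u) : False := by
  have hcov := s3_covering π hc hs hf
  obtain ⟨v⟩ : Nonempty S3 := by
    refine ⟨⟨EuclideanSpace.single 0 1, ?_⟩⟩
    simp
  obtain ⟨s₁, hs₁, hs₁'⟩ := s3_section π hcov hs v
  obtain ⟨s₂, hs₂, hs₂'⟩ := s3_section π hcov hs (-v)
  -- a second section which agrees with the first one
  obtain ⟨s₃, hs₃, hs₃', hagree⟩ : ∃ s₃ : S3 → S3, ContinuousOn s₃ {-v}ᶜ ∧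
      (∀ x ∈ ({-v}ᶜ : Set S3), π (s₃ x) = x) ∧ ∀ x ∈ ({v}ᶜ ∩ {-v}ᶜ : Set S3), s₃ x = s₁ x := by
    have hW := s3_preconnected_compl v
    have hdich : ∀ x ∈ ({v}ᶜ ∩ {-v}ᶜ : Set S3), s₂ x = s₁ x ∨ s₂ x = -s₁ x := by
      rintro x ⟨h1, h2⟩
      have : π (s₁ x) = π (s₂ x) := by
        rw [hs₁' x h1, hs₂' x h2]
      exact (hf _ _).1 this
    have hc1 : ContinuousOn s₁ ({v}ᶜ ∩ {-v}ᶜ) := hs₁.mono inter_subset_left
    have hc2 : ContinuousOn s₂ ({v}ᶜ ∩ {-v}ᶜ) := hs₂.mono inter_subset_right
    -- the two relatively closed sets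
    have key : (∀ x ∈ ({v}ᶜ ∩ {-v}ᶜ : Set S3), s₂ x = s₁ x) ∨
        ∀ x ∈ ({v}ᶜ ∩ {-v}ᶜ : Set S3), s₂ x = -s₁ x := by
      by_contra hcon
      rw [not_or] at hcon
      obtain ⟨hA, hB⟩ := hcon
      push Not at hA hB
      obtain ⟨a, ha, ha'⟩ := hA
      obtain ⟨b, hb, hb'⟩ := hB
      -- use the preconnectedness of the image under the continuous map to the reals
      have hg : ContinuousOn (fun x => dist (s₂ x) (s₁ x)) ({v}ᶜ ∩ {-v}ᶜ) :=
        continuous_dist.comp_continuousOn (hc2.prodMk hc1)
      have hda : dist (s₂ a) (s₁ a) = 2 := by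
        have h1 : s₂ a = -s₁ a := (hdich a ha).resolve_left ha'
        rw [h1, Subtype.dist_eq, dist_eq_norm]
        have : ((-s₁ a : S3) : EuclideanSpace ℝ (Fin 4)) - (s₁ a : EuclideanSpace ℝ (Fin 4)) =
            (-2 : ℝ) • (s₁ a : EuclideanSpace ℝ (Fin 4)) := by
          rw [neg_smul, two_smul]
          simp
          abel
        rw [this, norm_smul, s3_norm]
        norm_num
      have hdb : dist (s₂ b) (s₁ b) = 0 := by
        have h1 : s₂ b = s₁ b := (hdich b hb).resolve_right hb'
        rw [h1, dist_self]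
      have hmem : (1 : ℝ) ∈ (fun x => dist (s₂ x) (s₁ x)) '' ({v}ᶜ ∩ {-v}ᶜ : Set S3) := by
        apply hW.intermediate_value hb ha hg
        simp only [hda, hdb]
        constructor <;> norm_num
      obtain ⟨x, hx, hx1⟩ := hmem
      simp only at hx1
      rcases hdich x hx with h | h
      · rw [h, dist_self] at hx1
        exact zero_ne_one hx1
      · rw [h, Subtype.dist_eq, dist_eq_norm] at hx1
        have : ((-s₁ x : S3) : EuclideanSpace ℝ (Fin 4)) - (s₁ x : EuclideanSpace ℝ (Fin 4)) =
            (-2 : ℝ) • (s₁ x : EuclideanSpace ℝ (Fin 4)) := by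
          rw [neg_smul, two_smul]
          simp
          abel
        rw [this, norm_smul, s3_norm] at hx1
        norm_num at hx1
    rcases key with h | h
    · exact ⟨s₂, hs₂, hs₂', h⟩
    · refine ⟨fun x => -s₂ x, hs₂.neg, ?_, ?_⟩
      · intro x hx
        have h1 : π (s₂ x) = π (-s₂ x) := (hf _ _).2 (Or.inr rfl)
        rw [← h1]
        exact hs₂' x hx
      · intro x hx
        simp only
        rw [h x hx, neg_neg]
  -- the global section
  classical
  set s : S3 → S3 := fun x => if x = v then s₃ x else s₁ x with hsdef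
  have hs_on1 : ∀ x ∈ ({v}ᶜ : Set S3), s x = s₁ x := by
    intro x hx
    rw [hsdef]
    simp only
    rw [if_neg (show x ≠ v from hx)]
  have hs_on3 : ∀ x ∈ ({-v}ᶜ : Set S3), s x = s₃ x := by
    intro x hx
    rw [hsdef]
    simp only
    by_cases h : x = v
    · rw [if_pos h]
    · rw [if_neg h]
      exact (hagree x ⟨h, hx⟩).symm
  have hscont : Continuous s := by
    rw [continuous_iff_continuousAt]
    intro x
    by_cases h : x = v
    · have hx : x ∈ ({-v}ᶜ : Set S3) := by
        rw [h, mem_compl_iff, mem_singleton_iff]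
        exact s3_ne_neg v
      have hn : ({-v}ᶜ : Set S3) ∈ 𝓝 x := isOpen_compl_singleton.mem_nhds hx
      refine (hs₃.continuousAt hn).congr ?_
      filter_upwards [hn] with y hy
      exact (hs_on3 y hy).symm
    · have hn : ({v}ᶜ : Set S3) ∈ 𝓝 x := isOpen_compl_singleton.mem_nhds h
      refine (hs₁.continuousAt hn).congr ?_
      filter_upwards [hn] with y hy
      exact (hs_on1 y hy).symm
  have hsec : ∀ x, π (s x) = x := by
    intro x
    by_cases h : x = v
    · have hx : x ∈ ({-v}ᶜ : Set S3) := by
        rw [h, mem_compl_iff, mem_singleton_iff]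
        exact s3_ne_neg v
      rw [hs_on3 x hx]
      exact hs₃' x hx
    · rw [hs_on1 x h]
      exact hs₁' x h
  -- the decomposition
  have hpre : IsPreconnected (univ : Set S3) := by
    have h1 : 1 < Module.rank ℝ (EuclideanSpace ℝ (Fin 4)) := by
      rw [← Module.finrank_eq_rank]
      simp
    have := isPreconnected_sphere h1 (0 : EuclideanSpace ℝ (Fin 4)) 1
    exact (isPreconnected_iff_preconnectedSpace.1 this).isPreconnected_univ
  have hcl1 : IsClosed {u : S3 | s (π u) = u} := isClosed_eq (hscont.comp hc) continuous_id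
  have hcl2 : IsClosed {u : S3 | s (π u) = -u} := isClosed_eq (hscont.comp hc) continuous_neg
  have hcover : (univ : Set S3) ⊆ {u : S3 | s (π u) = u} ∪ {u : S3 | s (π u) = -u} := by
    intro u _
    have h1 : π u = π (s (π u)) := (hsec _).symm
    exact (hf _ _).1 h1
  have hne1 : ((univ : Set S3) ∩ {u : S3 | s (π u) = u}).Nonempty := by
    refine ⟨s v, mem_univ _, ?_⟩
    change s (π (s v)) = s v
    rw [hsec]
  have hne2 : ((univ : Set S3) ∩ {u : S3 | s (π u) = -u}).Nonempty := by
    refine ⟨-s v, mem_univ _, ?_⟩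
    change s (π (-s v)) = -(-s v)
    have h1 : π (s v) = π (-s v) := (hf _ _).2 (Or.inr rfl)
    rw [← h1, hsec, neg_neg]
  obtain ⟨u, -, hu1, hu2⟩ := (isPreconnected_closed_iff.1 hpre) _ _ hcl1 hcl2 hcover hne1 hne2
  have hu1' : s (π u) = u := hu1
  have hu2' : s (π u) = -u := hu2
  exact s3_ne_neg u (hu1'.symm.trans hu2')

/-- A quotient of the three-sphere by the antipodal map is not homeomorphic to the three-sphere. -/
theorem not_homeo_S3 {Z : Type*} [TopologicalSpace Z] (q : S3 → Z) (hc : Continuous q)
    (hs : Function.Surjective q) (hf : ∀ u v, q u = q v ↔ v = u ∨ v = -u) :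
    IsEmpty (Z ≃ₜ S3) := by
  refine ⟨fun φ => ?_⟩
  refine no_double_cover (fun u => φ (q u)) (φ.continuous.comp hc) (φ.surjective.comp hs) ?_
  intro u v
  rw [φ.injective.eq_iff]
  exact hf u v

end Pool.Agent.W_MP_654ec6_h2
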