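import Pool.Agent.W_MP_654ec6_h2.Model
import Pool.Agent.W_MP_654ec6_h2.T

/-!
# Part G, CrossZ: the model cone as a metric space and its cross-section

`Cn R` is the quotient of `ℝ⁴` by `u ↦ -u` with the distance `modDt R`; `ZR R` is the cross-section,
the quotient of the unit sphere by the antipodal map with the distance
`min (arccos (modC R u v)) (arccos (modC R u (-v)))`. It is compact, of diameter at most `π`, the metric
cone over it is `Cn R`, and it is not homeomorphic to the three-sphere.
-/

open scoped RealInnerProductSpace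
open InnerProductGeometry Filter Topology

namespace Pool.Agent.W_MP_654ec6_h2

open Pool.Agent.W_MP_654ec6

/-- `ℝ⁴` with the pseudo-distance `modDt R`. -/
def PC (_ : Subtype ROk) : Type := E4

noncomputable instance (R : Subtype ROk) : PseudoMetricSpace (PC R) where
  dist u v := modDt R.1 u v
  dist_self u := modDt_self R.1 u
  dist_comm u v := modDt_comm R.1 u v
  dist_triangle u v w := modDt_triangle R.2 u v w

/-- The model cone. -/
abbrev Cn (R : Subtype ROk) : Type := SeparationQuotient (PC R)

/-- The point of the model cone with coordinates `u`. -/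
noncomputable def toCn (R : Subtype ROk) (u : E4) : Cn R := SeparationQuotient.mk (show PC R from u)

theorem dist_toCn (R : Subtype ROk) (u v : E4) : dist (toCn R u) (toCn R v) = modDt R.1 u v := rfl

theorem toCn_surjective (R : Subtype ROk) : Function.Surjective (toCn R) := by
  intro y
  obtain ⟨u, hu⟩ := SeparationQuotient.surjective_mk y
  exact ⟨u, hu⟩

theorem toCn_eq_iff (R : Subtype ROk) {u v : E4} : toCn R u = toCn R v ↔ v = u ∨ v = -u := by
  rw [← dist_eq_zero, dist_toCn, modDt_eq_zero R.2]

theorem continuous_toCn (R : Subtype ROk) : Continuous (toCn R) := by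
  have : LipschitzWith 1 (toCn R) := by
    apply LipschitzWith.of_dist_le_mul
    intro u v
    rw [dist_toCn, NNReal.coe_one, one_mul, dist_eq_norm]
    exact modDt_le_norm_sub R.2 u v
  exact this.continuous

/-- The angle of the model. -/
noncomputable def angR (R : ℝ) (u v : E4) : ℝ := Real.arccos (modC R u v)

theorem angR_triangle {R : ℝ} (hR : ROk R) {u v w : E4} (hu : ‖u‖ = 1) (hv : ‖v‖ = 1)
    (hw : ‖w‖ = 1) : angR R u w ≤ angR R u v + angR R v w := by
  obtain ⟨U, V, W, hU, hV, hW, h1, h2, h3⟩ := exists_embed hR u v w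
  have key : ∀ A B : E4, ‖A‖ = 1 → ‖B‖ = 1 → angle A B = Real.arccos ⟪A, B⟫ := by
    intro A B hA hB
    unfold angle
    rw [hA, hB]
    simp
  unfold angR
  rw [← h1, ← h2, ← key U V (by rw [hU, hu]) (by rw [hV, hv]),
    ← key V W (by rw [hV, hv]) (by rw [hW, hw])]
  refine le_trans (Real.arccos_le_arccos h3) ?_
  rw [← key U W (by rw [hU, hu]) (by rw [hW, hw])]
  exact angle_le_angle_add_angle _ _ _

theorem angR_comm (R : ℝ) (u v : E4) : angR R u v = angR R v u := by
  unfold angR; rw [modC_comm]

theorem angR_neg_neg (R : ℝ) (u v : E4) : angR R (-u) (-v) = angR R u v := by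
  unfold angR; rw [modC_neg_neg]

theorem angR_neg_left (R : ℝ) (u v : E4) : angR R (-u) v = angR R u (-v) := by
  rw [← angR_neg_neg, neg_neg]

theorem angR_nonneg (R : ℝ) (u v : E4) : 0 ≤ angR R u v := Real.arccos_nonneg _

theorem angR_self {R : ℝ} {u : E4} (hu : ‖u‖ = 1) : angR R u u = 0 := by
  unfold angR
  rw [modC_self, hu]
  simp

/-- The angle of the quotient. -/
noncomputable def angT (R : ℝ) (u v : E4) : ℝ := min (angR R u v) (angR R u (-v))

theorem angT_comm (R : ℝ) (u v : E4) : angT R u v = angT R v u := by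
  unfold angT
  rw [angR_comm R u v, ← angR_neg_left R u v, angR_comm R (-u) v]

theorem angT_triangle {R : ℝ} (hR : ROk R) {u v w : E4} (hu : ‖u‖ = 1) (hv : ‖v‖ = 1)
    (hw : ‖w‖ = 1) : angT R u w ≤ angT R u v + angT R v w := by
  have key : ∀ v' w', (v' = v ∨ v' = -v) → (w' = w ∨ w' = -w) →
      angT R u w ≤ angR R u v' + angR R v' w' := by
    intro v' w' hv' hw'
    have n1 : ‖v'‖ = 1 := by rcases hv' with h | h <;> rw [h] <;> simp [hv]
    have n2 : ‖w'‖ = 1 := by rcases hw' with h | h <;> rw [h] <;> simp [hw]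
    have h1 := angR_triangle hR hu n1 n2
    rcases hw' with h | h
    · subst h; exact (min_le_left _ _).trans h1
    · subst h; exact (min_le_right _ _).trans h1
  unfold angT at *
  rcases min_choice (angR R u v) (angR R u (-v)) with h | h <;>
  rcases min_choice (angR R v w) (angR R v (-w)) with h' | h' <;> rw [h, h']
  · exact key v w (Or.inl rfl) (Or.inl rfl)
  · exact key v (-w) (Or.inl rfl) (Or.inr rfl)
  · have := key (-v) (-w) (Or.inr rfl) (Or.inr rfl)
    rwa [angR_neg_neg R v w] at this
  · have := key (-v) w (Or.inr rfl) (Or.inl rfl)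
    rwa [angR_neg_left R v w] at this

/-- The unit sphere with the pseudo-distance `angT R`. -/
def PZ (_ : Subtype ROk) : Type := S3

noncomputable instance (R : Subtype ROk) : PseudoMetricSpace (PZ R) where
  dist u v := angT R.1 (u : S3).1 (v : S3).1
  dist_self u := by
    apply le_antisymm _ (le_min (angR_nonneg _ _ _) (angR_nonneg _ _ _))
    exact (min_le_left _ _).trans (angR_self (s3_norm u)).le
  dist_comm u v := angT_comm R.1 _ _
  dist_triangle u v w := angT_triangle R.2 (s3_norm u) (s3_norm v) (s3_norm w)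

/-- The cross-section. -/
abbrev ZR (R : Subtype ROk) : Type := SeparationQuotient (PZ R)

/-- The projection of the sphere to the cross-section. -/
noncomputable def toZ (R : Subtype ROk) (u : S3) : ZR R := SeparationQuotient.mk (show PZ R from u)

theorem dist_toZ (R : Subtype ROk) (u v : S3) : dist (toZ R u) (toZ R v) = angT R.1 u.1 v.1 := rfl

theorem toZ_surjective (R : Subtype ROk) : Function.Surjective (toZ R) := by
  intro y
  obtain ⟨u, hu⟩ := SeparationQuotient.surjective_mk y
  exact ⟨u, hu⟩

theorem continuous_toZ (R : Subtype ROk) : Continuous (toZ R) := by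
  rw [continuous_iff_continuousAt]
  intro u
  rw [ContinuousAt, tendsto_iff_dist_tendsto_zero]
  have h1 : Tendsto (fun v : S3 => Real.arccos ⟪v.1, u.1⟫) (𝓝 u) (𝓝 0) := by
    have h2 : Continuous (fun v : S3 => Real.arccos ⟪v.1, u.1⟫) := by
      apply Real.continuous_arccos.comp
      exact continuous_subtype_val.inner continuous_const
    have h3 : Real.arccos ⟪u.1, u.1⟫ = 0 := by
      rw [real_inner_self_eq_norm_sq, s3_norm]
      simp
    have h4 := h2.tendsto u
    rwa [h3] at h4
  refine squeeze_zero (fun _ => dist_nonneg) (fun v => ?_) h1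
  rw [dist_toZ]
  refine (min_le_left _ _).trans ?_
  exact Real.arccos_le_arccos (inner_le_modC R.2.pos.le R.2.le_one _ _)

theorem toZ_eq_iff (R : Subtype ROk) (u v : S3) : toZ R u = toZ R v ↔ v = u ∨ v = -u := by
  rw [← dist_eq_zero, dist_toZ]
  have hn : ∀ w : E4, ‖w‖ = 1 → angR R.1 u.1 w = 0 → w = u.1 := by
    intro w hw h
    unfold angR at h
    rw [Real.arccos_eq_zero] at h
    have h2 : modD R.1 u.1 w = 0 := by
      unfold modD
      apply Real.sqrt_eq_zero_of_nonpos
      rw [s3_norm u, hw]
      linarith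
    exact (eq_of_modD_eq_zero R.2 h2).symm
  constructor
  · intro h
    unfold angT at h
    rcases min_choice (angR R.1 u.1 v.1) (angR R.1 u.1 (-v.1)) with h' | h'
    · rw [h'] at h
      exact Or.inl (Subtype.ext (hn _ (s3_norm v) h))
    · rw [h'] at h
      right
      have := hn (-v.1) (by rw [norm_neg, s3_norm]) h
      apply Subtype.ext
      rw [← neg_neg v.1, this]
      rfl
  · intro h
    apply le_antisymm _ (le_min (angR_nonneg _ _ _) (angR_nonneg _ _ _))
    rcases h with h | h
    · subst h
      exact (min_le_left _ _).trans (angR_self (s3_norm v)).le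
    · subst h
      refine (min_le_right _ _).trans ?_
      have : -((-u : S3).1) = u.1 := by
        change -(-u.1) = u.1
        rw [neg_neg]
      rw [this]
      exact (angR_self (s3_norm u)).le

instance (R : Subtype ROk) : CompactSpace (ZR R) := by
  constructor
  rw [← (toZ_surjective R).range_eq]
  exact isCompact_range (continuous_toZ R)

theorem dist_ZR_le (R : Subtype ROk) (a b : ZR R) : dist a b ≤ Real.pi := by
  obtain ⟨u, rfl⟩ := toZ_surjective R a
  obtain ⟨v, rfl⟩ := toZ_surjective R b
  rw [dist_toZ]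
  exact (min_le_left _ _).trans (Real.arccos_le_pi _)

/-- The cross-section is not homeomorphic to the three-sphere. -/
theorem isEmpty_ZR (R : Subtype ROk) : IsEmpty (ZR R ≃ₜ Metric.sphere (0 : E4) 1) :=
  not_homeo_S3 (toZ R) (continuous_toZ R) (toZ_surjective R) (toZ_eq_iff R)

theorem cos_angT {R : ℝ} {u v : E4} (hu : ‖u‖ = 1) (hv : ‖v‖ = 1) :
    Real.cos (angT R u v) = max (modC R u v) (modC R u (-v)) := by
  have b1 := abs_le.1 (abs_modC_le R u v)
  have b2 := abs_le.1 (abs_modC_le R u (-v))
  rw [norm_neg] at b2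
  rw [hu, hv] at b1 b2
  unfold angT angR
  rcases le_total (modC R u v) (modC R u (-v)) with h | h
  · rw [max_eq_right h, min_eq_right (Real.arccos_le_arccos h), Real.cos_arccos] <;> linarith
  · rw [max_eq_left h, min_eq_left (Real.arccos_le_arccos h), Real.cos_arccos] <;> linarith

theorem coneDist_toZ (R : Subtype ROk) (u v : S3) (s t : NNReal) :
    coneDist (toZ R u, s) (toZ R v, t) = modDt R.1 ((s : ℝ) • u.1) ((t : ℝ) • v.1) := by
  unfold coneDist modDt modD
  rw [dist_toZ, cos_angT (s3_norm u) (s3_norm v), ← smul_neg, modC_smul_left (NNReal.coe_nonneg s),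
    modC_smul_right (NNReal.coe_nonneg t), modC_smul_left (NNReal.coe_nonneg s),
    modC_smul_right (NNReal.coe_nonneg t)]
  have n1 : ‖(s : ℝ) • u.1‖ = s := by
    rw [norm_smul, s3_norm, mul_one, Real.norm_eq_abs, abs_of_nonneg (NNReal.coe_nonneg s)]
  have n2 : ‖(t : ℝ) • v.1‖ = t := by
    rw [norm_smul, s3_norm, mul_one, Real.norm_eq_abs, abs_of_nonneg (NNReal.coe_nonneg t)]
  have n3 : ‖(t : ℝ) • (-v.1)‖ = t := by rw [smul_neg, norm_neg, n2]
  rw [n1, n2, n3]
  have hst : 0 ≤ (s : ℝ) * t := mul_nonneg (NNReal.coe_nonneg s) (NNReal.coe_nonneg t)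
  simp only
  rcases le_total (modC R.1 u.1 v.1) (modC R.1 u.1 (-v.1)) with h | h
  · rw [max_eq_right h, min_eq_right]
    · congr 1; ring
    · apply Real.sqrt_le_sqrt
      nlinarith [mul_le_mul_of_nonneg_left h hst]
  · rw [max_eq_left h, min_eq_left]
    · congr 1; ring
    · apply Real.sqrt_le_sqrt
      nlinarith [mul_le_mul_of_nonneg_left h hst]

/-- A vector of the unit sphere in the direction of `u`. -/
noncomputable def dirn (u : E4) : S3 :=
  if h : u = 0 then ⟨bv 0, by simp [bv]⟩
  else ⟨‖u‖⁻¹ • u, by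
    rw [mem_sphere_zero_iff_norm, norm_smul, norm_inv, norm_norm]
    exact inv_mul_cancel₀ (norm_ne_zero_iff.2 h)⟩

theorem norm_smul_dirn (u : E4) : ‖u‖ • (dirn u).1 = u := by
  unfold dirn
  split_ifs with h
  · rw [h]; simp
  · simp only
    rw [smul_smul, mul_inv_cancel₀ (norm_ne_zero_iff.2 h), one_smul]

/-- The point of the metric cone over `ZR R` with coordinates `u`. -/
noncomputable def toK (R : Subtype ROk) (u : E4) : ZR R × NNReal := (toZ R (dirn u), ‖u‖₊)

theorem coneDist_toK (R : Subtype ROk) (u v : E4) : coneDist (toK R u) (toK R v) = modDt R.1 u v := by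
  unfold toK
  rw [coneDist_toZ, coe_nnnorm, coe_nnnorm, norm_smul_dirn, norm_smul_dirn]

theorem exists_coneDist (R : Subtype ROk) (y : ZR R × NNReal) :
    ∃ u : E4, ‖u‖ = y.2 ∧ ∀ v, coneDist y (toK R v) = modDt R.1 u v := by
  obtain ⟨z, s⟩ := y
  obtain ⟨a, rfl⟩ := toZ_surjective R z
  refine ⟨(s : ℝ) • a.1, ?_, ?_⟩
  · rw [norm_smul, s3_norm, mul_one, Real.norm_eq_abs, abs_of_nonneg (NNReal.coe_nonneg s)]
  · intro v
    unfold toK
    rw [coneDist_toZ, coe_nnnorm, norm_smul_dirn]

end Pool.Agent.W_MP_654ec6_h2
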