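import Pool.Agent.W_MP_654ec6_h2.G1
import Pool.Agent.W_MP_654ec6.G.Fin

/-!
# The convergence `Sp(n) → X` and the conclusion
-/

open scoped ContDiff Topology
open Filter Real

namespace Pool.Agent.W_MP_654ec6_h2

open Pool.Agent.W_MP_654ec6 PreP

theorem spConv (K : Core) : SpConv K := by
  intro X _ e he hd
  obtain ⟨n₁, h7, hL⟩ := large_ev K
  have H : ∀ n : ℕ, ∃ (Θ : (sp K ⊤ le_top).Pt →
        (sp K ((n + n₁ + 2 : ℕ) : ℕ∞) (two_le_add_two (n + n₁))).Pt)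
      (Φ : (sp K ((n + n₁ + 2 : ℕ) : ℕ∞) (two_le_add_two (n + n₁))).Pt → (sp K ⊤ le_top).Pt),
      (∀ a b, dist (Θ a) (Θ b) ≤ (1 + g1err (n + n₁ + 2)) * dist a b + g1err (n + n₁ + 2)) ∧
      (∀ a b, dist (Φ a) (Φ b) ≤ (1 + g1err (n + n₁ + 2)) * dist a b + g1err (n + n₁ + 2)) ∧
      (∀ a, dist (Φ (Θ a)) a ≤ g1err (n + n₁ + 2)) ∧
      (∀ m, dist (Θ (Φ m)) m ≤ g1err (n + n₁ + 2)) ∧
      Φ (sp K ((n + n₁ + 2 : ℕ) : ℕ∞) (two_le_add_two (n + n₁))).base = (sp K ⊤ le_top).base := by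
    intro n
    obtain ⟨Θ, Φ, a1, a2, a3, a4, a5⟩ := g1_pair K (n := n + n₁ + 2) (by omega)
      (hL _ (by omega)) (two_le_add_two (n + n₁))
    exact ⟨Θ, Φ, a1, a2, a3, a4, base_map K (by omega) (two_le_add_two (n + n₁)) a5⟩
  choose Θ Φ a1 a2 a3 a4 a5 using H
  refine pgh_shift (fun n : ℕ => (sp K ((n + 2 : ℕ) : ℕ∞) (two_le_add_two n)).Pt)
    (fun n : ℕ => (sp K ((n + 2 : ℕ) : ℕ∞) (two_le_add_two n)).base) _ n₁ ?_
  refine pgh_of_maps he hd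
    (fun n : ℕ => (sp K ((n + n₁ + 2 : ℕ) : ℕ∞) (two_le_add_two (n + n₁))).Pt) Θ Φ
    (sp K ⊤ le_top).base _ a5 (fun n => g1err (n + n₁ + 2)) ?_ a1 a2 a3 a4
  have h1 : Tendsto (fun n : ℕ => n + n₁ + 2) atTop atTop := by
    refine tendsto_atTop_mono (fun n => ?_) tendsto_id
    change n ≤ n + n₁ + 2
    omega
  exact g1err_tendsto.comp h1

/-- **The bad set of a noncollapsed four-dimensional Ricci limit space need not be discrete.** -/
theorem notDiscrete : NotDiscrete := by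
  obtain ⟨K⟩ := nonempty_core
  exact notDiscrete_of_conv K (spConv K)

end Pool.Agent.W_MP_654ec6_h2
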