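import Pool.Agent.W_MP_654ec6_h2.Model

/-!
# Part G, Fold: the radial folding of the model cone
-/

open scoped RealInnerProductSpace Topology
open Filter

namespace Pool.Agent.W_MP_654ec6_h2

open Pool.Agent.W_MP_654ec6

/-- The norm of the folded vector: `s` for `s ≤ c`, `2 c - s` for `c ≤ s ≤ 2 c`, `0` for `s ≥ 2 c`. -/
noncomputable def foldN (c s : ℝ) : ℝ := min s (max 0 (2 * c - s))

/-- The folding map: identity for `‖u‖ ≤ c`, zero for `‖u‖ ≥ 2 c`. -/
noncomputable def fold (c : ℝ) (u : E4) : E4 := (foldN c ‖u‖ / ‖u‖) • u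

theorem foldN_nonneg {c s : ℝ} (hs : 0 ≤ s) : 0 ≤ foldN c s := le_min hs (le_max_left _ _)

theorem foldN_le {c s : ℝ} : foldN c s ≤ s := min_le_left _ _

theorem foldN_eq {c s : ℝ} (h : s ≤ c) : foldN c s = s := by
  unfold foldN
  apply min_eq_left
  refine le_trans ?_ (le_max_right _ _)
  linarith

theorem foldN_zero {c s : ℝ} (hs : 0 ≤ s) (h : 2 * c ≤ s) : foldN c s = 0 := by
  unfold foldN
  rw [max_eq_left (by linarith)]
  exact min_eq_right hs

theorem foldN_lip (c s t : ℝ) : |foldN c s - foldN c t| ≤ |s - t| := by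
  unfold foldN
  refine (abs_min_sub_min_le_max _ _ _ _).trans (max_le le_rfl ?_)
  refine (abs_max_sub_max_le_max _ _ _ _).trans (max_le (by simp) ?_)
  have : 2 * c - s - (2 * c - t) = -(s - t) := by ring
  rw [this, abs_neg]

theorem fold_of_le {c : ℝ} {u : E4} (h : ‖u‖ ≤ c) : fold c u = u := by
  unfold fold
  rw [foldN_eq h]
  by_cases hu : u = 0
  · rw [hu]; simp
  · rw [div_self (norm_ne_zero_iff.2 hu), one_smul]

theorem fold_of_ge {c : ℝ} {u : E4} (h : 2 * c ≤ ‖u‖) : fold c u = 0 := by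
  unfold fold
  rw [foldN_zero (norm_nonneg u) h, zero_div, zero_smul]

theorem norm_fold (c : ℝ) (u : E4) : ‖fold c u‖ = foldN c ‖u‖ := by
  unfold fold
  by_cases hu : u = 0
  · rw [hu]
    simp only [norm_zero, smul_zero]
    apply le_antisymm (foldN_nonneg le_rfl) foldN_le
  · rw [norm_smul, norm_div, norm_norm, Real.norm_eq_abs, abs_of_nonneg (foldN_nonneg (norm_nonneg u))]
    exact div_mul_cancel₀ _ (norm_ne_zero_iff.2 hu)

theorem fold_neg (c : ℝ) (u : E4) : fold c (-u) = -fold c u := by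
  unfold fold
  rw [norm_neg, smul_neg]

theorem modD_fold_le (R c : ℝ) (u v : E4) : modD R (fold c u) (fold c v) ≤ modD R u v := by
  apply Real.sqrt_le_sqrt
  rw [norm_fold, norm_fold]
  by_cases hu : u = 0
  · have h0 : foldN c 0 = 0 := le_antisymm foldN_le (foldN_nonneg le_rfl)
    have h1 := foldN_le (c := c) (s := ‖v‖)
    have h2 := foldN_nonneg (c := c) (norm_nonneg v)
    rw [hu, norm_zero, h0]
    unfold fold modC
    simp only [tl_zero, smul_zero, norm_zero, PiLp.zero_apply]
    nlinarith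
  by_cases hv : v = 0
  · have h0 : foldN c 0 = 0 := le_antisymm foldN_le (foldN_nonneg le_rfl)
    have h1 := foldN_le (c := c) (s := ‖u‖)
    have h2 := foldN_nonneg (c := c) (norm_nonneg u)
    rw [hv, norm_zero, h0]
    unfold fold modC
    simp only [tl_zero, smul_zero, norm_zero, PiLp.zero_apply]
    nlinarith
  have hu' := norm_pos_iff.2 hu
  have hv' := norm_pos_iff.2 hv
  have a0 := foldN_nonneg (c := c) hu'.le
  have b0 := foldN_nonneg (c := c) hv'.le
  unfold fold
  rw [modC_smul_left (div_nonneg a0 hu'.le), modC_smul_right (div_nonneg b0 hv'.le)]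
  have a1 := foldN_le (c := c) (s := ‖u‖)
  have b1 := foldN_le (c := c) (s := ‖v‖)
  have hl := sq_le_sq.2 (foldN_lip c ‖u‖ ‖v‖)
  have hC := modC_le R u v
  generalize foldN c ‖u‖ = a at *
  generalize foldN c ‖v‖ = b at *
  generalize modC R u v = m at *
  generalize ‖u‖ = s at *
  generalize ‖v‖ = t at *
  have h1 : a / s * (b / t * m) = (a * b) * (m / (s * t)) := by
    field_simp
  rw [h1]
  have h2 : m = (s * t) * (m / (s * t)) := by field_simp
  have h3 : m / (s * t) ≤ 1 := by
    rw [div_le_one (by positivity)]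
    exact hC
  have h4 : a * b ≤ s * t := mul_le_mul a1 b1 b0 hu'.le
  generalize m / (s * t) = k at *
  subst h2
  nlinarith [mul_nonneg (sub_nonneg.2 h3) (sub_nonneg.2 h4)]

theorem modDt_fold_le (R c : ℝ) (u v : E4) : modDt R (fold c u) (fold c v) ≤ modDt R u v := by
  unfold modDt
  rw [← fold_neg]
  exact min_le_min (modD_fold_le R c u v) (modD_fold_le R c u (-v))

end Pool.Agent.W_MP_654ec6_h2
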