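import Pool.Agent.W_MP_654ec6.F.Sep
import Pool.Agent.W_MP_654ec6_h2.Cover
import Pool.Agent.W_MP_654ec6_h2.Zones

/-!
# Part G1: the zones of the bolts are small

`q` has the host `inl (inr ⟨k, w⟩)`. `N = n`: every such point with `aSq < (2 thr)²`, or in the bolt, has
a label in the Eguchi-Hanson patches `ixE k i` with `ehR ≤ 2 thr` (a label of the patches D, E of the
block has `aSq ≥ (sin (t0/2)/2)² > (2 thr)²`; a label `u` of the patch F is the label `u` of `EHI.F`), use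
`bolt_diam` with `M = 2 * 2 ^ n`. `N = ⊤`: it has a label `u` of the patch F, `0 < ‖u‖ < 2 thr`; there the
metric is flat (`s² |v|²`, `s ≤ 1`); join `u` to `flab` or `-flab` by a segment which does not contain `0`.
-/

open scoped ContDiff Topology
open Filter Real

namespace Pool.Agent.W_MP_654ec6_h2

open Pool.Agent.W_MP_654ec6

/-! ### Parameters -/

theorem zb_thr_pos (K : Core) (n k : ℕ) : 0 < thr K n k := by
  unfold thr
  exact mul_pos (by positivity) (spA_pos K (ENat.natCast_ne_top n) k)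

theorem zb_a_lt (K : Core) {n : ℕ} {N : ℕ∞} (hNn : N = (n : ℕ∞) ∨ N = ⊤) (k : ℕ) :
    spA K N k < 3 / 2 * thr K n k := by
  rcases hNn with rfl | rfl
  · have h1 := spA_pos K (ENat.natCast_ne_top n) k
    have h2 : (1 : ℝ) ≤ 2 ^ n := one_le_pow₀ (by norm_num)
    unfold thr
    nlinarith
  · rw [spA_top]
    have := zb_thr_pos K n k
    linarith

theorem zb_thr_lt (K : Core) {n : ℕ} (hL : Large K n) (k : ℕ) :
    2 * thr K n k < K.A0 ∧ 2 * thr K n k < sin (K.t0 / 2) / 2 ∧ 2 * thr K n k < sin K.t0 := by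
  obtain ⟨h1, h2, h3, -⟩ := sin_half (spBlk K ⊤ k)
  have h1' : 0 < sin (K.t0 / 2) := h1
  have h2' : sin (K.t0 / 2) < sin K.t0 := h2
  have h3' : K.A0 < sin (K.t0 / 2) / 2 := h3
  have h4 := hL.thr_le k
  have h5 := K.A0_pos
  refine ⟨by linarith, by linarith, by linarith⟩

theorem zb_norm_flab (K : Core) (n k : ℕ) : ‖flab K n k‖ = 3 / 2 * thr K n k := by
  unfold flab
  have h : ‖(EuclideanSpace.single 0 (3 / 2 * thr K n k) : E4)‖ = ‖3 / 2 * thr K n k‖ :=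
    PiLp.norm_single 2 (fun _ : Fin 4 => ℝ) 0 _
  rw [h, Real.norm_of_nonneg]
  have := zb_thr_pos K n k
  linarith

theorem zb_mem_VF (K : Core) {n : ℕ} (hL : Large K n) {N : ℕ∞} {k : ℕ} {u : E4}
    (h1 : spA K N k < ‖u‖) (h2 : ‖u‖ < 2 * thr K n k) : u ∈ VF (spBlk K N k) :=
  ⟨h1, h2.trans (zb_thr_lt K hL k).2.2⟩

theorem zb_flab_mem (K : Core) {n : ℕ} (hL : Large K n) {N : ℕ∞} (hNn : N = (n : ℕ∞) ∨ N = ⊤)
    (k : ℕ) : flab K n k ∈ VF (spBlk K N k) := by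
  have h := zb_thr_pos K n k
  refine zb_mem_VF K hL ?_ ?_
  · rw [zb_norm_flab]
    exact zb_a_lt K hNn k
  · rw [zb_norm_flab]
    linarith

theorem zb_kN {n : ℕ} {N : ℕ∞} (hNn : N = (n : ℕ∞) ∨ N = ⊤) {k : ℕ} (hkn : k < n) :
    (k : ℕ∞) ≤ N := by
  rcases hNn with rfl | rfl
  · exact_mod_cast hkn.le
  · exact le_top

/-! ### Points of the block -/

section

variable (K : Core) (N : ℕ∞) (hN : 2 ≤ N)

theorem zb_rQ (k : ℕ) (x : (bP (spBlk K N k) (N ≠ ⊤)).Pt) :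
    (spFam K N hN).glueData.rQ ⟨k, x⟩ = bR (spBlk K N k) (N ≠ ⊤) x := rfl

/-- The host of a label of the patch `F`. -/
theorem zb_psi_F {k : ℕ} {u : E4} (hu : u ∈ VF (spBlk K N k)) :
    (spP K N hN).ψ (ixB K N hN k 2) u =
      (Sum.inl (Sum.inr ⟨k, Sum.inl (blkPsi (spBlk K N k) 2 u)⟩) : (spP K N hN).Pt) := by
  have h1 : bR (spBlk K N k) (N ≠ ⊤) (Sum.inl (blkPsi (spBlk K N k) 2 u)) ≤ 0 := by
    rw [Sp1_bR_inl]
    have h2 := rBlk_EF (spBlk K N k) (i := 2) (by decide) hu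
    have h3 := (spBlk K N k).ρ_pos
    exact max_le h2.le (by linarith)
  exact congrArg Sum.inl (PreP.glueMap_of_le (spFam K N hN).glueData
    (p := ⟨k, Sum.inl (blkPsi (spBlk K N k) 2 u)⟩) h1)

/-- A label of the patch `F` is a label of the annulus of the bolt. -/
theorem zb_psi_EF {k : ℕ} {u : E4} (hNt : N ≠ ⊤) (hu : u ∈ VF (spBlk K N k)) :
    (spP K N hN).ψ (ixE K N hN k EHI.F) u = (spP K N hN).ψ (ixB K N hN k 2) u := by
  have h1 : 0 < (bGlue (spBlk K N k) (N ≠ ⊤)).rQ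
      (((ehP (blkEHD (spBlk K N k))).restr (N ≠ ⊤)).ψ EHI.F u) := by
    change 0 < ehR (WPt.mk ehm (ehs (spBlk K N k).a EHI.F u)) - (spBlk K N k).a
    rw [ehR_F]
    exact sub_pos.2 hu.1
  have h2 := PreP.glueMap_of_pos (bGlue (spBlk K N k) (N ≠ ⊤)) (d := EHI.F) rfl
    (u := u) ⟨hNt, hu⟩ h1
  have h3 : (bP (spBlk K N k) (N ≠ ⊤)).ψ (Sum.inr EHI.F) u =
      (bP (spBlk K N k) (N ≠ ⊤)).ψ (Sum.inl (2 : Fin 3)) u := h2
  change Sum.inl (PreP.glueMap (spFam K N hN).glueData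
    ⟨k, (bP (spBlk K N k) (N ≠ ⊤)).ψ (Sum.inr EHI.F) u⟩) = _
  rw [h3]
  rfl

/-- Equality in `Sp(N)`. -/
theorem zb_eq {i : (spP K N hN).ι} {a : E4} (ha : a ∈ (spP K N hN).V i) {q : (sp K N hN).Pt}
    (h : (spP K N hN).ψ i a = q.1) : (sp K N hN).ψ i a = q :=
  Subtype.ext ((PreP.Pre_cpsi_val (spP K N hN) (spBase K N hN) ha).trans h)

theorem zb_val {i : (spP K N hN).ι} {a : E4} (ha : a ∈ (spP K N hN).V i) :
    ((sp K N hN).ψ i a).1 = (spP K N hN).ψ i a :=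
  PreP.Pre_cpsi_val (spP K N hN) (spBase K N hN) ha

/-- A point of a block has a label in the block. -/
theorem zb_cover {q : (sp K N hN).Pt} {k : ℕ} {x : (bP (spBlk K N k) (N ≠ ⊤)).Pt}
    (h : q.1 = (Sum.inl (Sum.inr ⟨k, x⟩) : (spP K N hN).Pt)) :
    (1 ≤ k ∧ (k : ℕ∞) ≤ N) ∧ ∃ (j : (bP (spBlk K N k) (N ≠ ⊤)).ι),
      ∃ a ∈ (bP (spBlk K N k) (N ≠ ⊤)).V j, (bP (spBlk K N k) (N ≠ ⊤)).ψ j a = x ∧
        (sp K N hN).ψ (Sum.inl (Sum.inr ⟨k, j⟩)) a = q := by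
  obtain ⟨i, a, ha, hq⟩ := q.2
  obtain ⟨i', b, hb, hb2⟩ := glue_inl_cover (midGlue K N hN) ha (hq.trans h)
  obtain ⟨⟨l, j⟩, c, hc, hc2, rfl, rfl, -⟩ := glue_inr_cover (spFam K N hN).glueData hb hb2
  have e1 : l = k := congrArg Sigma.fst hc2
  subst e1
  refine ⟨hc.1, j, b, hc.2, eq_of_heq (Sigma.mk.inj hc2).2, ?_⟩
  refine zb_eq K N hN hb ?_
  rw [h]
  exact congrArg Sum.inl hb2

end

/-- In the patches D and E the function `aSq` is not small. -/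
theorem zb_aSq_DE (P : BlkPar) {i : Fin 3} (hi : i ≠ 2) {u : E4} (hu : u ∈ blkV P i) :
    (sin (P.K.t0 / 2) / 2) ^ 2 < aSq (blkPsi P i u) := by
  obtain ⟨s1, s2, s3, s4⟩ := sin_half P
  have s5 := P.K.sin_t0.2
  fin_cases i
  · change (sin (P.K.t0 / 2) / 2) ^ 2 < aSq (blkPsi P 0 u)
    rw [aSq_D P hu]
    obtain ⟨h1, -⟩ := mem_VD P hu
    have h2 : sq2 u / ‖u‖ ^ 2 ≤ 1 := by
      rw [div_le_one (by positivity), ← sq12]
      linarith [sq1_nonneg u]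
    have h3 : 0 ≤ sq2 u / ‖u‖ ^ 2 := div_nonneg (sq2_nonneg u) (by positivity)
    have h4 : sin (P.K.t0 / 2) < qt P.K ‖u‖ := by
      have h5 := qt_strictMono P.K (by linarith [P.K.isCore.t0_pos]) hu.1
      rwa [qt_of_le P.K (by linarith [P.K.isCore.t0_pos])] at h5
    have h5 : max 0 (1 - qt P.K ‖u‖ ^ 2) ≤ 1 - sin (P.K.t0 / 2) ^ 2 :=
      max_le (by nlinarith) (by nlinarith)
    have h6 : 0 ≤ max 0 (1 - qt P.K ‖u‖ ^ 2) := le_max_left _ _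
    have h7 : max 0 (1 - qt P.K ‖u‖ ^ 2) * (sq2 u / ‖u‖ ^ 2) ≤ 1 - sin (P.K.t0 / 2) ^ 2 := by
      nlinarith
    nlinarith
  · change (sin (P.K.t0 / 2) / 2) ^ 2 < aSq (blkPsi P 1 u)
    rw [aSq_E P hu]
    have h1 := hu.2.2
    linarith
  · exact absurd rfl hi

/-- A label of a point with small `aSq`. -/
theorem zb_label (K : Core) {n : ℕ} (hL : Large K n) {N : ℕ∞} (hN : 2 ≤ N) {k : ℕ}
    {q : (sp K N hN).Pt} {w : WPt ![1, 2, 1]}
    (h : q.1 = (Sum.inl (Sum.inr ⟨k, Sum.inl w⟩) : (spP K N hN).Pt))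
    (hw : aSq w < (2 * thr K n k) ^ 2) :
    (1 ≤ k ∧ (k : ℕ∞) ≤ N) ∧ ∃ u ∈ VF (spBlk K N k), ‖u‖ < 2 * thr K n k ∧
      (sp K N hN).ψ (ixB K N hN k 2) u = q := by
  obtain ⟨hk, j, a, ha, h1, -⟩ := zb_cover K N hN h
  obtain ⟨i, b, hb, hb2⟩ := glue_inl_cover (bGlue (spBlk K N k) (N ≠ ⊤)) ha h1
  refine ⟨hk, ?_⟩
  obtain ⟨t1, t2, t3⟩ := zb_thr_lt K hL k
  have t0 := zb_thr_pos K n k
  obtain ⟨i, rfl⟩ : ∃ i' : Fin 3, i' = i := ⟨i, rfl⟩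
  have hb3 : blkPsi (spBlk K N k) i b = w := hb2
  have hb4 : b ∈ blkV (spBlk K N k) i := hb
  have hi : i = 2 := by
    by_contra hi
    have h2 : (sin (K.t0 / 2) / 2) ^ 2 < aSq (blkPsi (spBlk K N k) i b) :=
      zb_aSq_DE (spBlk K N k) hi hb4
    have h3 : (2 * thr K n k) ^ 2 < (sin (K.t0 / 2) / 2) ^ 2 :=
      pow_lt_pow_left₀ t2 (by linarith) (by norm_num)
    rw [hb3] at h2
    linarith
  subst hi
  have hb5 : b ∈ VF (spBlk K N k) := hb4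
  refine ⟨b, hb5, ?_, ?_⟩
  · rw [← hb3, aSq_F _ hb5] at hw
    exact lt_of_pow_lt_pow_left₀ 2 (by linarith) hw
  · refine zb_eq K N hN (i := ixB K N hN k 2) ⟨hk, hb5⟩ ?_
    rw [zb_psi_F K N hN hb5, h, hb3]

/-- The hosts of the points of the zone. -/
theorem zb_host (K : Core) {n : ℕ} {N : ℕ∞} (hN : 2 ≤ N) {k : ℕ} {q : (sp K N hN).Pt}
    (hq : sph K N hN q ∈ hZB K n k) :
    (∃ w : WPt ![1, 2, 1], q.1 = (Sum.inl (Sum.inr ⟨k, Sum.inl w⟩) : (spP K N hN).Pt) ∧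
      aSq w < (2 * thr K n k) ^ 2) ∨
    ∃ w : WPt ehm, q.1 = (Sum.inl (Sum.inr ⟨k, Sum.inr w⟩) : (spP K N hN).Pt) := by
  obtain ⟨p, hp⟩ := q
  rcases p with ((τ | ⟨l, (w | w)⟩) | w)
  · exact hq.elim
  · obtain ⟨h1, h2⟩ : l = k ∧ aSq w < (2 * thr K n k) ^ 2 := hq
    subst h1
    exact Or.inl ⟨w, rfl, h2⟩
  · obtain rfl : l = k := hq
    exact Or.inr ⟨w, rfl⟩
  · exact hq.elim

/-- A label of a point of the bolt. -/
theorem zb_label_E (K : Core) {N : ℕ∞} (hN : 2 ≤ N) {k : ℕ} {q : (sp K N hN).Pt} {w : WPt ehm}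
    (h : q.1 = (Sum.inl (Sum.inr ⟨k, Sum.inr w⟩) : (spP K N hN).Pt)) :
    N ≠ ⊤ ∧ ∃ (j : EHI), ∃ a ∈ (sp K N hN).V (ixE K N hN k j),
      ehR (WPt.mk ehm (ehs (spA K N k) j a)) ≤ spA K N k ∧
        (sp K N hN).ψ (ixE K N hN k j) a = q := by
  obtain ⟨hk, j, a, ha, h1, h2⟩ := zb_cover K N hN h
  obtain ⟨j', b, hb, hb2, rfl, rfl, h3⟩ :=
    glue_inr_cover (bGlue (spBlk K N k) (N ≠ ⊤)) ha h1
  refine ⟨hb.1, j', a, ⟨hk, hb⟩, ?_, h2⟩
  have h4 : ehR w - spA K N k ≤ 0 := h3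
  have h5 : WPt.mk ehm (ehs (spA K N k) j' a) = w := hb2
  rw [h5]
  linarith

/-- The case `N = n`. -/
theorem zb_fin (K : Core) {n : ℕ} (hL : Large K n) (hN : 2 ≤ (n : ℕ∞)) {k : ℕ} (hk : 1 ≤ k)
    (hkn : k < n) {j : EHI} {a : E4} (ha : a ∈ (sp K n hN).V (ixE K n hN k j))
    (ha' : ehR (WPt.mk ehm (ehs (spA K n k) j a)) ≤ 2 * thr K n k) :
    dist ((sp K n hN).ψ (ixE K n hN k j) a) (cBpt K n hN n k) < 50 * thr K n k := by
  have hnt : (n : ℕ∞) ≠ ⊤ := ENat.natCast_ne_top n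
  have hkN := zb_kN (N := (n : ℕ∞)) (Or.inl rfl) hkn
  have hF := zb_flab_mem K hL (N := (n : ℕ∞)) (Or.inl rfl) k
  have hb : flab K n k ∈ (sp K n hN).V (ixE K n hN k EHI.F) := ⟨⟨hk, hkN⟩, hnt, hF⟩
  have hb2 : flab K n k ∈ (sp K n hN).V (ixB K n hN k 2) := ⟨⟨hk, hkN⟩, hF⟩
  have t0 := zb_thr_pos K n k
  have e : 2 * 2 ^ n * spA K n k = 2 * thr K n k := by
    unfold thr
    ring
  have h1 := bolt_diam K n hN hnt hk hkN (M := 2 * 2 ^ n)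
    (by have : (1 : ℝ) ≤ 2 ^ n := one_le_pow₀ (by norm_num)
        linarith) (by rw [e]; exact hL.thr_le k) ha hb (by rw [e]; exact ha')
    (by rw [e, ehR_F, zb_norm_flab]; linarith)
  have h2 : (sp K n hN).ψ (ixE K n hN k EHI.F) (flab K n k) = cBpt K n hN n k := by
    refine zb_eq K n hN hb ?_
    rw [zb_psi_EF K n hN hnt hF]
    exact (zb_val K n hN hb2).symm
  rw [h2] at h1
  have h3 : 20 * (2 * 2 ^ n) * spA K n k = 40 * thr K n k := by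
    unfold thr
    ring
  rw [h3] at h1
  linarith

theorem zb_s_le (K : Core) (N : ℕ∞) (k : ℕ) : 0 < (spB K N k).s ∧ (spB K N k).s ≤ 1 := by
  have hs : 0 < (spB K N k).s := (spB_ok K N k).blk.s_pos
  have h1 := (spB_ok K N k).blk.size2
  have h2 := (spB_ok K N k).blk.T2_gt
  have h3 := K.isCore.T0_gt
  have h4 := spRad_lt K N k
  refine ⟨hs, ?_⟩
  nlinarith

/-- The metric of the patch `F` of `Sp(⊤)` near the vertex. -/
theorem zb_flat (K : Core) (hN : 2 ≤ (⊤ : ℕ∞)) {k : ℕ} {u : E4} (hu : ‖u‖ ≤ K.A0) (v : E4) :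
    √(qf ((sp K ⊤ hN).g (ixB K ⊤ hN k 2) u) v) ≤ ‖v‖ := by
  have h1 : (sp K ⊤ hN).g (ixB K ⊤ hN k 2) =
      smulMet ((spB K ⊤ k).s ^ 2) (u2Z (K.U (spA K ⊤ k)) (K.W (spA K ⊤ k))) := rfl
  have hv := K.v_zero ‖u‖ hu
  have hU : K.U (spA K ⊤ k) ‖u‖ = 1 := by
    unfold Core.U
    rw [spA_top, hv]
    ring
  have hW : K.W (spA K ⊤ k) ‖u‖ = 1 := by
    unfold Core.W
    rw [spA_top, hv]
    ring
  obtain ⟨s1, s2⟩ := zb_s_le K ⊤ k
  rw [h1, qf_smulMet, qf_u2Z, hU, hW]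
  have h2 : (spB K ⊤ k).s ^ 2 * (nsq v + (1 / 1 - 1) / ‖u‖ ^ 2 * dotu u v ^ 2 +
      (1 - 1) / ‖u‖ ^ 2 * dotj u v ^ 2) = ((spB K ⊤ k).s * ‖v‖) ^ 2 := by
    rw [nsq_eq_norm]
    ring
  rw [h2, Real.sqrt_sq (mul_nonneg s1.le (norm_nonneg v))]
  exact mul_le_of_le_one_left (norm_nonneg v) s2

/-- A segment which does not contain `0`. -/
theorem zb_seg {u f : E4} (hu : u ≠ 0) (hf : f ≠ 0) (h : 0 ≤ inner ℝ u f) {c : E4}
    (hc : c ∈ segment ℝ u f) : c ≠ 0 := by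
  obtain ⟨s, t, hs, ht, hst, rfl⟩ := hc
  intro h0
  have h1 : inner ℝ (s • u + t • f) f = s * inner ℝ u f + t * ‖f‖ ^ 2 := by
    rw [inner_add_left, real_inner_smul_left, real_inner_smul_left, real_inner_self_eq_norm_sq]
  rw [h0, inner_zero_left] at h1
  have h2 : 0 < ‖f‖ ^ 2 := by
    have := norm_pos_iff.2 hf
    positivity
  have h3 : 0 ≤ s * inner ℝ u f := mul_nonneg hs h
  have h4 : t = 0 := by
    by_contra h5
    have h6 : 0 < t := lt_of_le_of_ne ht (Ne.symm h5)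
    have h7 : 0 < t * ‖f‖ ^ 2 := mul_pos h6 h2
    linarith
  subst h4
  have h5 : s = 1 := by linarith
  subst h5
  rw [one_smul, zero_smul, add_zero] at h0
  exact hu h0

/-- The case `N = ⊤`. -/
theorem zb_top (K : Core) {n : ℕ} (hL : Large K n) (hN : 2 ≤ (⊤ : ℕ∞)) {k : ℕ} (hk : 1 ≤ k)
    {u : E4} (hu : u ∈ VF (spBlk K ⊤ k)) (hu2 : ‖u‖ < 2 * thr K n k) :
    dist ((sp K ⊤ hN).ψ (ixB K ⊤ hN k 2) u) (cBpt K ⊤ hN n k) < 50 * thr K n k := by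
  have t0 := zb_thr_pos K n k
  obtain ⟨t1, t2, t3⟩ := zb_thr_lt K hL k
  have hkk : 1 ≤ k ∧ (k : ℕ∞) ≤ ⊤ := ⟨hk, le_top⟩
  have ha0 : spA K ⊤ k = 0 := spA_top K k
  have hu0 : u ≠ 0 := by
    have h1 : spA K ⊤ k < ‖u‖ := hu.1
    rw [ha0] at h1
    exact norm_pos_iff.1 h1
  have key : ∀ f : E4, ‖f‖ = 3 / 2 * thr K n k → 0 ≤ inner ℝ u f →
      dist ((sp K ⊤ hN).ψ (ixB K ⊤ hN k 2) u) ((sp K ⊤ hN).ψ (ixB K ⊤ hN k 2) f) <
        50 * thr K n k := by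
    intro f hf hi
    have hf0 : f ≠ 0 := norm_pos_iff.1 (by rw [hf]; linarith)
    have hnorm : ∀ c ∈ segment ℝ u f, ‖c‖ < 2 * thr K n k := by
      intro c hc
      have h1 : segment ℝ u f ⊆ Metric.ball (0 : E4) (2 * thr K n k) :=
        (convex_ball (0 : E4) _).segment_subset (by simpa using hu2)
          (by rw [mem_ball_zero_iff, hf]; linarith)
      simpa using h1 hc
    have h1 : dist ((sp K ⊤ hN).ψ (ixB K ⊤ hN k 2) u) ((sp K ⊤ hN).ψ (ixB K ⊤ hN k 2) f) ≤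
        ‖f - u‖ := by
      refine (sp K ⊤ hN).dist_segment (norm_nonneg _) ?_ ?_
      · intro c hc
        refine ⟨hkk, zb_mem_VF K hL ?_ (hnorm c hc)⟩
        rw [ha0]
        exact norm_pos_iff.2 (zb_seg hu0 hf0 hi hc)
      · intro c hc
        exact zb_flat K hN ((hnorm c hc).le.trans t1.le) _
    have h2 : ‖f - u‖ ≤ ‖f‖ + ‖u‖ := norm_sub_le f u
    rw [hf] at h2
    linarith
  rcases le_total 0 (inner ℝ u (flab K n k)) with h | h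
  · exact key (flab K n k) (zb_norm_flab K n k) h
  · have h1 := key (-flab K n k) (by rw [norm_neg, zb_norm_flab]) (by rw [inner_neg_right]; linarith)
    have hF := zb_flab_mem K hL (N := ⊤) (Or.inr rfl) k
    have hF' : -flab K n k ∈ VF (spBlk K ⊤ k) := by
      refine ⟨?_, ?_⟩
      · rw [norm_neg]
        exact hF.1
      · rw [norm_neg]
        exact hF.2
    have h2 : (sp K ⊤ hN).ψ (ixB K ⊤ hN k 2) (-flab K n k) = cBpt K ⊤ hN n k := by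
      refine zb_eq K ⊤ hN (i := ixB K ⊤ hN k 2) ⟨hkk, hF'⟩ ?_
      refine Eq.trans ?_ (zb_val K ⊤ hN (i := ixB K ⊤ hN k 2) (a := flab K n k) ⟨hkk, hF⟩).symm
      rw [zb_psi_F K ⊤ hN hF, zb_psi_F K ⊤ hN hF',
        (blkPsi_F_iff (spBlk K ⊤ k) hF' hF).2 (Or.inr (neg_neg _).symm)]
    rwa [h2] at h1

theorem zoneB_bound (K : Core) {n : ℕ} (hL : Large K n) {N : ℕ∞} (hN : 2 ≤ N)
    (hNn : N = (n : ℕ∞) ∨ N = ⊤) {k : ℕ} (hk : 1 ≤ k) (hkn : k < n) {q : (sp K N hN).Pt}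
    (hq : sph K N hN q ∈ hZB K n k) : dist q (cBpt K N hN n k) < 50 * thr K n k := by
  have t0 := zb_thr_pos K n k
  rcases zb_host K hN hq with ⟨w, h1, h2⟩ | ⟨w, h1⟩
  · obtain ⟨hkk, u, hu, hu2, hq2⟩ := zb_label K hL hN h1 h2
    rcases hNn with rfl | rfl
    · have hnt : (n : ℕ∞) ≠ ⊤ := ENat.natCast_ne_top n
      have hE : u ∈ (sp K n hN).V (ixE K n hN k EHI.F) := ⟨hkk, hnt, hu⟩
      have h3 : (sp K n hN).ψ (ixE K n hN k EHI.F) u = q := by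
        refine zb_eq K n hN hE ?_
        rw [zb_psi_EF K n hN hnt hu, ← hq2]
        exact (zb_val K n hN (i := ixB K n hN k 2) ⟨hkk, hu⟩).symm
      rw [← h3]
      exact zb_fin K hL hN hk hkn hE (by rw [ehR_F]; exact hu2.le)
    · rw [← hq2]
      exact zb_top K hL hN hk hu hu2
  · obtain ⟨hnt, j, a, ha, h2, h3⟩ := zb_label_E K hN h1
    rcases hNn with rfl | rfl
    · rw [← h3]
      refine zb_fin K hL hN hk hkn ha (h2.trans ?_)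
      have h4 := zb_a_lt K (N := (n : ℕ∞)) (Or.inl rfl) k
      linarith
    · exact absurd rfl hnt

/-- The centres of different blocks are separated (`blk_sep`; `cBpt k` is in `UB k`, its host is not in
the ambient part (`rBlk < 0` in the patch F), and `cBpt l` is not in `UB k` (`spEq_QQ_ne`)). -/
theorem cBpt_sep (K : Core) {n : ℕ} (hL : Large K n) {N : ℕ∞} (hN : 2 ≤ N)
    (hNn : N = (n : ℕ∞) ∨ N = ⊤) {k l : ℕ} (hk : 1 ≤ k) (hkn : k < n) (hl : 1 ≤ l) (hln : l < n)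
    (hkl : k ≠ l) : zz k ^ 2 / 100 ≤ dist (cBpt K N hN n k) (cBpt K N hN n l) := by
  have hkN := zb_kN hNn hkn
  have hlN := zb_kN hNn hln
  have hmk : flab K n k ∈ (spP K N hN).V (ixB K N hN k 2) :=
    ⟨⟨hk, hkN⟩, zb_flab_mem K hL hNn k⟩
  have hml : flab K n l ∈ (spP K N hN).V (ixB K N hN l 2) :=
    ⟨⟨hl, hlN⟩, zb_flab_mem K hL hNn l⟩
  rw [← spRad_eq_top K hk N]
  refine blk_sep K N hN hk hkN ?_ ?_ ?_
  · exact Or.inl ⟨(2 : Fin 3), flab K n k, hmk, rfl⟩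
  · intro x h
    have h1 := (zb_val K N hN hmk).symm.trans h
    rw [zb_psi_F K N hN (zb_flab_mem K hL hNn k)] at h1
    cases Sum.inl_injective h1
  · rintro (⟨j, a, ha, h⟩ | ⟨j, a, ha, h⟩)
    · have h1 := (PreP.Pre_cpsi_iff (spP K N hN) (spBase K N hN) ha hml).1 h
      exact spEq_QQ_ne K N hN (Sum.inl j) (Sum.inl (2 : Fin 3)) ⟨hk, hkN⟩ ⟨hl, hlN⟩ ha.2 hml.2 hkl h1
    · have h1 := (PreP.Pre_cpsi_iff (spP K N hN) (spBase K N hN) ha hml).1 h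
      exact spEq_QQ_ne K N hN (Sum.inr j) (Sum.inl (2 : Fin 3)) ⟨hk, hkN⟩ ⟨hl, hlN⟩ ha.2 hml.2 hkl h1

end Pool.Agent.W_MP_654ec6_h2
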