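import Pool.Agent.W_MP_654ec6.F.Sep
import Pool.Agent.W_MP_654ec6_h2.Zones

/-!
# Part G1: the zone of the middle vertex has diameter `O(zz n)`

Put `F = FF ⊤ (zz n) = FF N (zz n)`, `Y₁ = F + 4 zz n`. Write `lab X Y ξ = mk4 (lc N 0 X Y) (sc N 0 X Y) ξ`
(`ξ` a unit vector): for `GG N X < Y` outside the disks it is a label of the patch `0` over `(X, Y)`
(`helper2`'s `W_MP_654ec6_h2/Upper.lean`: `ca`, `pX_ca`, ... is the same for `N = ⊤`).
(a) A point of the zone in a block `k ≥ n` (host `inl (inr ⟨k, _⟩)`), or an ambient point over `(X, Y)` with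
`||X| - zz k| ≤ ρ k` which is below the disk `k` (then its distance to the vertex is `≤ 1.01 ρ k < 3/2 ρ k`:
`GG N X ≥ FF (zz k) - ||X| - zz k|/10`, so it is in `UB K N hN k`; here `k ≥ n - 1`... because `|X| < 5/4 zz n`, in
fact `k ≥ n`) has distance `≤ 30 ρ k ≤ zz n` (`UB_diam`) from the label over
`(zz k, FF (zz k) + 3/2 ρ k)`, which is in `UB K N hN k` (collar) and in the ambient part. A point of
the middle block (`N = n`): distance `≤ 30 ρ 0 ≤ zz n` from the label over `(0, midY + 3/2 ρ 0)` (`mid_diam`).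
(b) For all other ambient points `(j, u)` of the zone the vertical segment upwards to `Y₁` stays
outside the disks; in the patch `j` it is the segment `u + t (aa, ξ)/oj` (`ξ` the direction of `u`, any unit
vector if `n3 u = 0`), of speed 1 for `gC` (`qf_gC`: the velocity is `∥` to the radial direction), so the
distance to the point over `(X, Y₁)` is `≤ Y₁ - Y ≤ 6 zz n` (`dist_segment`).
(c) Horizontally at the height `Y₁` from `X` to `0` (a segment in the patch `0`, speed 1): `≤ 5/4 zz n`.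
(d) At `(0, Y₁)` turn `ξ` to `![1, 0, 0]`: a circle of length `≤ π bb ≤ π R (Y₁ - FF N 0) ≤ zz n * 4` (`bb_le`).
(e) Vertically down from `Y₁` to `F + 5/2 zz n`: `≤ 3/2 zz n`.
Generous constant.
-/

open scoped ContDiff Topology
open Filter Real

namespace Pool.Agent.W_MP_654ec6_h2

open Pool.Agent.W_MP_654ec6

/-! ### Labels -/

theorem zoneX_mk4_coord (l s : ℝ) (ξ : Fin 3 → ℝ) : (mk4 l s ξ) 0 = l ∧ (mk4 l s ξ) 1 = s * ξ 0 ∧
    (mk4 l s ξ) 2 = s * ξ 1 ∧ (mk4 l s ξ) 3 = s * ξ 2 := ⟨rfl, rfl, rfl, rfl⟩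

theorem zoneX_n3 (l : ℝ) {s : ℝ} (hs : 0 ≤ s) {ξ : Fin 3 → ℝ}
    (hξ : ξ 0 ^ 2 + ξ 1 ^ 2 + ξ 2 ^ 2 = 1) : n3 (mk4 l s ξ) = s := n3_mk4 l hs hξ

/-- The metric on vectors in the half plane. -/
theorem zoneX_qf_line (R : ℝ) (N : ℕ∞) (j : ℕ) {l s : ℝ} (hs : 0 ≤ s) {ξ : Fin 3 → ℝ}
    (hξ : ξ 0 ^ 2 + ξ 1 ^ 2 + ξ 2 ^ 2 = 1) (l' s' l'' s'' : ℝ) :
    qf (gC R N j (mk4 l s ξ)) (mk4 l' s' ξ - mk4 l'' s'' ξ) = (l' - l'') ^ 2 + (s' - s'') ^ 2 := by
  have hn := zoneX_n3 l hs hξ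
  have e0 : (mk4 l' s' ξ - mk4 l'' s'' ξ) 0 = l' - l'' := rfl
  have e1 : (mk4 l' s' ξ - mk4 l'' s'' ξ) 1 = s' * ξ 0 - s'' * ξ 0 := rfl
  have e2 : (mk4 l' s' ξ - mk4 l'' s'' ξ) 2 = s' * ξ 1 - s'' * ξ 1 := rfl
  have e3 : (mk4 l' s' ξ - mk4 l'' s'' ξ) 3 = s' * ξ 2 - s'' * ξ 2 := rfl
  by_cases h0 : n3 (mk4 l s ξ) = 0
  · rw [qf_gC_zero R N j h0, e0, e1, e2, e3]
    linear_combination (s' - s'') ^ 2 * hξ
  · rw [qf_gC R N j h0, e0, e1, e2, e3, hn]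
    rw [hn] at h0
    obtain ⟨-, f1, f2, f3⟩ := zoneX_mk4_coord l s ξ
    rw [f1, f2, f3]
    have h1 : (s * ξ 0 * (s' * ξ 0 - s'' * ξ 0) + s * ξ 1 * (s' * ξ 1 - s'' * ξ 1) +
        s * ξ 2 * (s' * ξ 2 - s'' * ξ 2)) / s = s' - s'' := by
      have h2 : s * ξ 0 * (s' * ξ 0 - s'' * ξ 0) + s * ξ 1 * (s' * ξ 1 - s'' * ξ 1) +
        s * ξ 2 * (s' * ξ 2 - s'' * ξ 2) = s * (s' - s'') := by
        linear_combination (s * (s' - s'')) * hξ
      rw [h2, mul_div_cancel_left₀ _ h0]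
    rw [h1]
    have h3 : (s' * ξ 0 - s'' * ξ 0) ^ 2 + (s' * ξ 1 - s'' * ξ 1) ^ 2 +
        (s' * ξ 2 - s'' * ξ 2) ^ 2 = (s' - s'') ^ 2 := by
      linear_combination (s' - s'') ^ 2 * hξ
    rw [h3, sub_self, mul_zero, add_zero]

/-- Convex combinations of labels with the same direction. -/
theorem zoneX_combo (N : ℕ∞) (j : ℕ) {s t : ℝ} (hst : s + t = 1) (X Y X' Y' : ℝ)
    (ξ : Fin 3 → ℝ) :
    s • mk4 (lc N j X Y) (sc N j X Y) ξ + t • mk4 (lc N j X' Y') (sc N j X' Y') ξ =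
      mk4 (lc N j (s * X + t * X') (s * Y + t * Y')) (sc N j (s * X + t * X') (s * Y + t * Y'))
        ξ := by
  have h1 : lc N j (s * X + t * X') (s * Y + t * Y') = s * lc N j X Y + t * lc N j X' Y' := by
    unfold lc
    have : s = 1 - t := by linarith
    subst this
    ring
  have h2 : sc N j (s * X + t * X') (s * Y + t * Y') = s * sc N j X Y + t * sc N j X' Y' := by
    unfold sc
    have : s = 1 - t := by linarith
    subst this
    ring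
  rw [h1, h2]
  ext i
  fin_cases i
  · simp [mk4]
  · simp [mk4]
    ring
  · simp [mk4]
    ring
  · simp [mk4]
    ring

/-- The point of the ambient space represented by a label. -/
theorem zoneX_psi {R : ℝ} {N : ℕ∞} {j : ℕ} (hj : (j : ℕ∞) ≤ N) {X Y : ℝ} (hW : GG N X < Y)
    {ξ : Fin 3 → ℝ} (hξ : ξ 0 ^ 2 + ξ 1 ^ 2 + ξ 2 ^ 2 = 1) :
    TauPt.mk (repA R N j (mk4 (lc N j X Y) (sc N j X Y) ξ)) = AmbConn_pt R N X Y ξ := by
  have hs := sc_pos hj hW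
  unfold repA AmbConn_pt
  rw [pX_mk4 N j hs.le hξ, pY_mk4 N j hs.le hξ, n3_mk4 _ hs.le hξ]
  congr 1
  refine Prod.ext rfl (Prod.ext rfl ?_)
  funext k
  show bb R N X Y * (mk4 (lc N j X Y) (sc N j X Y) ξ k.succ / sc N j X Y) = bb R N X Y * ξ k
  rw [transC_mk4_succ]
  field_simp

/-- Every label has the form `mk4 (lc X Y) (sc X Y) ξ`. -/
theorem zoneX_eta (N : ℕ∞) (j : ℕ) (u : E4) : ∃ ξ : Fin 3 → ℝ, ξ 0 ^ 2 + ξ 1 ^ 2 + ξ 2 ^ 2 = 1 ∧
    u = mk4 (lc N j (pX N j u) (pY N j u)) (sc N j (pX N j u) (pY N j u)) ξ := by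
  rw [lc_p, sc_p]
  by_cases h0 : n3 u = 0
  · refine ⟨![1, 0, 0], by simp, ?_⟩
    obtain ⟨h1, h2, h3⟩ := n3_eq_zero.1 h0
    ext i
    fin_cases i
    · rfl
    · simp [mk4, h0, h1]
    · simp [mk4, h0, h2]
    · simp [mk4, h0, h3]
  · obtain ⟨h1, h2⟩ := mk4_eta h0
    exact ⟨![u 1 / n3 u, u 2 / n3 u, u 3 / n3 u], h2, h1.symm⟩

theorem zoneX_N (N : ℕ∞) (hN : 2 ≤ N) : 1 ≤ N := le_trans (by norm_num) hN

/-! ### Moving up -/

theorem zoneX_out_up {N : ℕ∞} {ρ : ℕ → ℝ} (hN : 1 ≤ N) {X Y Y' : ℝ} (hG : GG N X ≤ Y)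
    (hW : OutDisks N ρ X Y) (hpos : ∀ k, 0 < ρ k) (hb : ∀ k, ¬ AmbConn_Bad N ρ X Y k)
    (h : Y ≤ Y') : OutDisks N ρ X Y' := by
  refine ⟨fun k hk hkN => ?_, fun hNt => ?_⟩
  · have h1 := hW.1 k hk hkN
    by_cases h2 : |(|X| - zz k)| ≤ ρ k
    · have h3 : FF N (zz k) ≤ Y := by
        by_contra h4
        exact hb k ⟨hk, hkN, h2, not_le.1 h4⟩
      nlinarith only [h3, h1, h]
    · have h3 := not_le.1 h2
      have h4 : ρ k ^ 2 < |(|X| - zz k)| ^ 2 :=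
        pow_lt_pow_left₀ h3 (hpos k).le two_ne_zero
      rw [sq_abs] at h4
      nlinarith only [sq_nonneg (Y' - FF N (zz k)), h4]
  · have h1 := hW.2 hNt
    have h2 := AmbConn_mid_le hN hNt X
    nlinarith

/-- The distance along a segment with a fixed direction in a patch. -/
theorem zoneX_seg (K : Core) {N : ℕ∞} (hN : 2 ≤ N) {j : ℕ} (hj : (j : ℕ∞) ≤ N)
    {X Y X' Y' L : ℝ} (hL : 0 ≤ L) (hLL : (X' - X) ^ 2 + (Y' - Y) ^ 2 ≤ L ^ 2) {ξ : Fin 3 → ℝ}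
    (hξ : ξ 0 ^ 2 + ξ 1 ^ 2 + ξ 2 ^ 2 = 1)
    (hG : ∀ s t : ℝ, 0 ≤ s → 0 ≤ t → s + t = 1 →
      GG N (s * X + t * X') ≤ s * Y + t * Y')
    (hV : ∀ s t : ℝ, 0 ≤ s → 0 ≤ t → s + t = 1 →
      mk4 (lc N j (s * X + t * X') (s * Y + t * Y')) (sc N j (s * X + t * X') (s * Y + t * Y')) ξ
        ∈ VA N (spRad K N) j) :
    dist ((sp K N hN).ψ (ixC K N hN j) (mk4 (lc N j X Y) (sc N j X Y) ξ))
      ((sp K N hN).ψ (ixC K N hN j) (mk4 (lc N j X' Y') (sc N j X' Y') ξ)) ≤ L := by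
  refine (sp K N hN).dist_segment hL ?_ ?_
  · rintro c ⟨s, t, hs, ht, hst, rfl⟩
    rw [zoneX_combo N j hst]
    exact hV s t hs ht hst
  · rintro c ⟨s, t, hs, ht, hst, rfl⟩
    rw [zoneX_combo N j hst]
    have h1 : 0 ≤ sc N j (s * X + t * X') (s * Y + t * Y') := by
      rw [sc_eq]
      have h2 := line_le_GG hj (s * X + t * X')
      have h3 := hG s t hs ht hst
      exact div_nonneg (by linarith) (Coord_oj_pos N j).le
    have h4 : qf ((sp K N hN).g (ixC K N hN j)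
        (mk4 (lc N j (s * X + t * X') (s * Y + t * Y'))
          (sc N j (s * X + t * X') (s * Y + t * Y')) ξ))
        (mk4 (lc N j X' Y') (sc N j X' Y') ξ - mk4 (lc N j X Y) (sc N j X Y) ξ) =
        (X' - X) ^ 2 + (Y' - Y) ^ 2 := by
      rw [← lc_sc_dist N j X' Y' X Y]
      exact zoneX_qf_line K.R N j h1 hξ _ _ _ _
    rw [h4]
    exact Real.sqrt_le_iff.2 ⟨hL, hLL⟩

/-- The point over `(X, Y)` with the direction `ξ`. -/
noncomputable def zoneXPt (K : Core) (N : ℕ∞) (hN : 2 ≤ N) (X Y : ℝ) (ξ : Fin 3 → ℝ) :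
    (sp K N hN).Pt :=
  (sp K N hN).ψ (ixC K N hN 0) (mk4 (lc N 0 X Y) (sc N 0 X Y) ξ)

/-- Segments in the interior. -/
theorem zoneX_seg0 (K : Core) {N : ℕ∞} (hN : 2 ≤ N) {X Y X' Y' L : ℝ} (hL : 0 ≤ L)
    (hLL : (X' - X) ^ 2 + (Y' - Y) ^ 2 ≤ L ^ 2) {ξ : Fin 3 → ℝ}
    (hξ : ξ 0 ^ 2 + ξ 1 ^ 2 + ξ 2 ^ 2 = 1)
    (hV : ∀ s t : ℝ, 0 ≤ s → 0 ≤ t → s + t = 1 →
      AmbConn_W N (spRad K N) (s * X + t * X') (s * Y + t * Y')) :
    dist (zoneXPt K N hN X Y ξ) (zoneXPt K N hN X' Y' ξ) ≤ L :=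
  zoneX_seg K hN (AmbConn_zero_le N) hL hLL hξ (fun s t hs ht hst => (hV s t hs ht hst).1.le)
    (fun s t hs ht hst => AmbConn_mem (hV s t hs ht hst) hξ)

/-- Two labels of the same point. -/
theorem zoneX_patch (K : Core) {N : ℕ∞} (hN : 2 ≤ N) {j : ℕ} (hj : (j : ℕ∞) ≤ N) {X Y : ℝ}
    (hW : AmbConn_W N (spRad K N) X Y) {ξ : Fin 3 → ℝ}
    (hξ : ξ 0 ^ 2 + ξ 1 ^ 2 + ξ 2 ^ 2 = 1) :
    (sp K N hN).ψ (ixC K N hN j) (mk4 (lc N j X Y) (sc N j X Y) ξ) = zoneXPt K N hN X Y ξ := by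
  have hs := sc_pos hj hW.1
  have h1 : mk4 (lc N j X Y) (sc N j X Y) ξ ∈ VA N (spRad K N) j := by
    refine ⟨hj, Or.inl ?_, ?_⟩
    · rw [pX_mk4 N j hs.le hξ, pY_mk4 N j hs.le hξ]
      exact hW.1
    · rw [pX_mk4 N j hs.le hξ, pY_mk4 N j hs.le hξ]
      exact hW.2
  have h2 : mk4 (lc N 0 X Y) (sc N 0 X Y) ξ ∈ (spP K N hN).V (ixC K N hN 0) :=
    AmbConn_mem hW hξ
  refine (PreP.Pre_cpsi_iff (spP K N hN) (spBase K N hN) h1 h2).2 ?_
  rw [spEq_CC, zoneX_psi hj hW.1 hξ, zoneX_psi (AmbConn_zero_le N) hW.1 hξ]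

/-- From a point which is not below a disk we may go upwards. -/
theorem zoneX_up (K : Core) {N : ℕ∞} (hN : 2 ≤ N) {j : ℕ} {u : E4}
    (hu : u ∈ VA N (spRad K N) j)
    (hb : ∀ k, ¬ AmbConn_Bad N (spRad K N) (pX N j u) (pY N j u) k) {Y' : ℝ}
    (hY : pY N j u < Y') : ∃ ξ : Fin 3 → ℝ, ξ 0 ^ 2 + ξ 1 ^ 2 + ξ 2 ^ 2 = 1 ∧
      dist ((sp K N hN).ψ (ixC K N hN j) u) (zoneXPt K N hN (pX N j u) Y' ξ) ≤
        Y' - pY N j u := by
  obtain ⟨hj, hVC, hout⟩ := hu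
  have hN1 := zoneX_N N hN
  have hG := GG_le_pY hj hVC
  obtain ⟨ξ, hξ, he⟩ := zoneX_eta N j u
  set X := pX N j u with hX
  set Y := pY N j u with hYd
  refine ⟨ξ, hξ, ?_⟩
  have hup : ∀ Y₂ : ℝ, Y ≤ Y₂ → OutDisks N (spRad K N) X Y₂ := fun Y₂ h2 =>
    zoneX_out_up hN1 hG hout (spRad_pos K N) hb h2
  have hW' : AmbConn_W N (spRad K N) X Y' := ⟨lt_of_le_of_lt hG hY, hup Y' hY.le⟩
  rw [← zoneX_patch K hN hj hW' hξ]
  have key := zoneX_seg K hN hj (X := X) (Y := Y) (X' := X) (Y' := Y') (L := Y' - Y)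
    (by linarith) (by rw [sub_self]; nlinarith) hξ ?_ ?_
  · rw [← he] at key
    exact key
  · intro s t hs ht hst
    have e1 : s * X + t * X = X := by rw [← add_mul, hst, one_mul]
    rw [e1]
    have e2 : s * Y + t * Y' = Y + t * (Y' - Y) := by
      have : s = 1 - t := by linarith
      rw [this]; ring
    rw [e2]
    have : 0 ≤ t * (Y' - Y) := mul_nonneg ht (by linarith)
    linarith
  · intro s t hs ht hst
    have e1 : s * X + t * X = X := by rw [← add_mul, hst, one_mul]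
    have e2 : s * Y + t * Y' = Y + t * (Y' - Y) := by
      have : s = 1 - t := by linarith
      rw [this]; ring
    rw [e1, e2]
    rcases ht.eq_or_lt with h0 | h0
    · rw [← h0, zero_mul, add_zero, ← he]
      exact ⟨hj, hVC, hout⟩
    · have h1 : 0 < t * (Y' - Y) := mul_pos h0 (by linarith)
      have h2 : GG N X < Y + t * (Y' - Y) := by linarith
      have hs := sc_pos hj h2
      refine ⟨hj, Or.inl ?_, ?_⟩
      · rw [pX_mk4 N j hs.le hξ, pY_mk4 N j hs.le hξ]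
        exact h2
      · rw [pX_mk4 N j hs.le hξ, pY_mk4 N j hs.le hξ]
        exact hup _ (by linarith)

/-! ### Turning -/

/-- Great circles through `(1, 0, 0)`. -/
theorem zoneX_circle {ξ : Fin 3 → ℝ} (hξ : ξ 0 ^ 2 + ξ 1 ^ 2 + ξ 2 ^ 2 = 1) :
    ∃ (θ : ℝ) (η : Fin 3 → ℝ), 0 ≤ θ ∧ θ ≤ π ∧ η 0 ^ 2 + η 1 ^ 2 + η 2 ^ 2 = 1 ∧
      ξ 0 * η 0 + ξ 1 * η 1 + ξ 2 * η 2 = 0 ∧
      (∀ k, (![1, 0, 0] : Fin 3 → ℝ) k = cos θ * ξ k + sin θ * η k) := by
  by_cases h : ξ 0 ^ 2 < 1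
  · have h1 : -1 ≤ ξ 0 ∧ ξ 0 ≤ 1 := by constructor <;> nlinarith only [h]
    have hs : 0 < 1 - ξ 0 ^ 2 := by linarith
    have hs' : 0 < √(1 - ξ 0 ^ 2) := Real.sqrt_pos.2 hs
    have hs2 : √(1 - ξ 0 ^ 2) ^ 2 = 1 - ξ 0 ^ 2 := Real.sq_sqrt hs.le
    have hcos : cos (arccos (ξ 0)) = ξ 0 := Real.cos_arccos h1.1 h1.2
    have hsin : sin (arccos (ξ 0)) = √(1 - ξ 0 ^ 2) := Real.sin_arccos _
    set s := √(1 - ξ 0 ^ 2) with hsd
    refine ⟨arccos (ξ 0), ![(1 - ξ 0 * ξ 0) / s, (0 - ξ 0 * ξ 1) / s, (0 - ξ 0 * ξ 2) / s],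
      Real.arccos_nonneg _, Real.arccos_le_pi _, ?_, ?_, ?_⟩
    · change ((1 - ξ 0 * ξ 0) / s) ^ 2 + ((0 - ξ 0 * ξ 1) / s) ^ 2 +
        ((0 - ξ 0 * ξ 2) / s) ^ 2 = 1
      rw [div_pow, div_pow, div_pow, ← add_div, ← add_div, hs2, div_eq_one_iff_eq hs.ne']
      linear_combination (ξ 0 ^ 2) * hξ
    · change ξ 0 * ((1 - ξ 0 * ξ 0) / s) + ξ 1 * ((0 - ξ 0 * ξ 1) / s) +
        ξ 2 * ((0 - ξ 0 * ξ 2) / s) = 0
      have : ξ 0 * ((1 - ξ 0 * ξ 0) / s) + ξ 1 * ((0 - ξ 0 * ξ 1) / s) +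
        ξ 2 * ((0 - ξ 0 * ξ 2) / s) = ξ 0 * (1 - (ξ 0 ^ 2 + ξ 1 ^ 2 + ξ 2 ^ 2)) / s := by ring
      rw [this, hξ, sub_self, mul_zero, zero_div]
    · intro k
      rw [hcos, hsin]
      fin_cases k
      · change (1 : ℝ) = ξ 0 * ξ 0 + s * ((1 - ξ 0 * ξ 0) / s)
        field_simp
        ring
      · change (0 : ℝ) = ξ 0 * ξ 1 + s * ((0 - ξ 0 * ξ 1) / s)
        field_simp
        ring
      · change (0 : ℝ) = ξ 0 * ξ 2 + s * ((0 - ξ 0 * ξ 2) / s)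
        field_simp
        ring
  · have h0 : ξ 0 ^ 2 = 1 := by nlinarith only [sq_nonneg (ξ 1), sq_nonneg (ξ 2), h, hξ]
    have h1 : ξ 1 = 0 := by
      have : ξ 1 ^ 2 = 0 := by nlinarith only [sq_nonneg (ξ 1), sq_nonneg (ξ 2), h, hξ]
      exact pow_eq_zero_iff two_ne_zero |>.1 this
    have h2 : ξ 2 = 0 := by
      have : ξ 2 ^ 2 = 0 := by nlinarith only [sq_nonneg (ξ 1), sq_nonneg (ξ 2), h, hξ]
      exact pow_eq_zero_iff two_ne_zero |>.1 this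
    have h3 : ξ 0 = 1 ∨ ξ 0 = -1 := by
      have h4 : (ξ 0 - 1) * (ξ 0 + 1) = 0 := by linear_combination h0
      rcases mul_eq_zero.1 h4 with h5 | h5
      · left; linarith
      · right; linarith
    rcases h3 with h3 | h3
    · refine ⟨0, ![0, 1, 0], le_rfl, pi_pos.le, by simp, by simp [h1], ?_⟩
      intro k
      rw [Real.cos_zero, Real.sin_zero]
      fin_cases k
      · simp [h3]
      · simp [h1]
      · simp [h2]
    · refine ⟨π, ![0, 1, 0], pi_pos.le, le_rfl, by simp, by simp [h1], ?_⟩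
      intro k
      rw [Real.cos_pi, Real.sin_pi]
      fin_cases k
      · simp [h3]
      · simp [h1]
      · simp [h2]

/-- Turning the direction. -/
theorem zoneX_turn (K : Core) {N : ℕ∞} (hN : 2 ≤ N) {X Y : ℝ}
    (hW : AmbConn_W N (spRad K N) X Y) {ξ : Fin 3 → ℝ}
    (hξ : ξ 0 ^ 2 + ξ 1 ^ 2 + ξ 2 ^ 2 = 1) :
    dist (zoneXPt K N hN X Y ξ) (zoneXPt K N hN X Y ![1, 0, 0]) ≤ π * bb K.R N X Y := by
  obtain ⟨θ, η, hθ0, hθ1, hη, hξη, he⟩ := zoneX_circle hξ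
  have hN1 := zoneX_N N hN
  have hbb : 0 < bb K.R N X Y := bb_pos K.R_pos hN1 hW.1
  have hs := sc_pos (AmbConn_zero_le N) hW.1
  set l := lc N 0 X Y with hl
  set s := sc N 0 X Y with hsd
  let Ξ : ℝ → Fin 3 → ℝ := fun t k => cos (t * θ) * ξ k + sin (t * θ) * η k
  have hunit : ∀ t, Ξ t 0 ^ 2 + Ξ t 1 ^ 2 + Ξ t 2 ^ 2 = 1 := by
    intro t
    simp only [Ξ]
    have h1 := Real.sin_sq_add_cos_sq (t * θ)
    linear_combination (cos (t * θ)) ^ 2 * hξ + (sin (t * θ)) ^ 2 * hη +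
      2 * (cos (t * θ)) * (sin (t * θ)) * hξη + h1
  let γ : ℝ → E4 := fun t => mk4 l 0 ξ + cos (t * θ) • mk4 0 s ξ + sin (t * θ) • mk4 0 s η
  have hγ : ∀ t, γ t = mk4 l s (Ξ t) := by
    intro t
    ext i
    fin_cases i
    · simp [γ, mk4]
    · simp [γ, mk4, Ξ]
      ring
    · simp [γ, mk4, Ξ]
      ring
    · simp [γ, mk4, Ξ]
      ring
  let γ' : ℝ → E4 := fun t => (-(sin (t * θ)) * θ) • mk4 0 s ξ + (cos (t * θ) * θ) • mk4 0 s η
  have hd : ∀ t, HasDerivAt γ (γ' t) t := by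
    intro t
    have h0 : HasDerivAt (fun t : ℝ => t * θ) θ t := by
      simpa using (hasDerivAt_id t).mul_const θ
    have h1 := (h0.cos).smul_const (mk4 0 s ξ)
    have h2 := (h0.sin).smul_const (mk4 0 s η)
    have h3 := (h1.const_add (mk4 l 0 ξ)).add h2
    exact h3
  have key := (sp K N hN).dist_path (L := π * bb K.R N X Y) (by positivity)
    (i := ixC K N hN 0) (γ := γ) (γ' := γ') ?_ (fun t _ => (hd t).hasDerivWithinAt) ?_
  · have e0 : γ 0 = mk4 l s ξ := by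
      rw [hγ]
      congr 1
      funext k
      simp only [Ξ]
      rw [zero_mul, Real.cos_zero, Real.sin_zero]
      ring
    have e1 : γ 1 = mk4 l s ![1, 0, 0] := by
      rw [hγ]
      congr 1
      funext k
      simp only [Ξ]
      rw [one_mul]
      exact (he k).symm
    rw [e0, e1] at key
    exact key
  · intro t _
    rw [hγ]
    exact AmbConn_mem hW (hunit t)
  · intro t _
    have hn : n3 (γ t) = s := by
      rw [hγ]
      exact zoneX_n3 l hs.le (hunit t)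
    have hn0 : n3 (γ t) ≠ 0 := by
      rw [hn]
      exact hs.ne'
    have hX : pX N 0 (γ t) = X := by
      rw [hγ]
      exact pX_mk4 N 0 hs.le (hunit t)
    have hY : pY N 0 (γ t) = Y := by
      rw [hγ]
      exact pY_mk4 N 0 hs.le (hunit t)
    have hq : qf ((sp K N hN).g (ixC K N hN 0) (γ t)) (γ' t) = (θ * bb K.R N X Y) ^ 2 := by
      have h1 : qf ((sp K N hN).g (ixC K N hN 0) (γ t)) (γ' t) =
          qf (gC K.R N 0 (γ t)) (γ' t) := rfl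
      rw [h1, qf_gC K.R N 0 hn0, hX, hY, hn]
      have a0 : γ' t 0 = 0 := by simp [γ', mk4]
      have a1 : γ' t 1 = s * θ * (-(sin (t * θ)) * ξ 0 + cos (t * θ) * η 0) := by
        simp [γ', mk4]; ring
      have a2 : γ' t 2 = s * θ * (-(sin (t * θ)) * ξ 1 + cos (t * θ) * η 1) := by
        simp [γ', mk4]; ring
      have a3 : γ' t 3 = s * θ * (-(sin (t * θ)) * ξ 2 + cos (t * θ) * η 2) := by
        simp [γ', mk4]; ring
      have b1 : γ t 1 = s * (cos (t * θ) * ξ 0 + sin (t * θ) * η 0) := by rw [hγ]; rfl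
      have b2 : γ t 2 = s * (cos (t * θ) * ξ 1 + sin (t * θ) * η 1) := by rw [hγ]; rfl
      have b3 : γ t 3 = s * (cos (t * θ) * ξ 2 + sin (t * θ) * η 2) := by rw [hγ]; rfl
      have h2 := Real.sin_sq_add_cos_sq (t * θ)
      generalize cos (t * θ) = c at *
      generalize sin (t * θ) = d at *
      have h3 : γ t 1 * γ' t 1 + γ t 2 * γ' t 2 + γ t 3 * γ' t 3 = 0 := by
        rw [a1, a2, a3, b1, b2, b3]
        linear_combination (-(s ^ 2 * θ * c * d)) * hξ + (s ^ 2 * θ * c * d) * hη +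
          (s ^ 2 * θ * (c ^ 2 - d ^ 2)) * hξη
      have h4 : γ' t 1 ^ 2 + γ' t 2 ^ 2 + γ' t 3 ^ 2 = s ^ 2 * θ ^ 2 := by
        rw [a1, a2, a3]
        linear_combination (s ^ 2 * θ ^ 2 * d ^ 2) * hξ + (s ^ 2 * θ ^ 2 * c ^ 2) * hη -
          (2 * s ^ 2 * θ ^ 2 * c * d) * hξη + s ^ 2 * θ ^ 2 * h2
      rw [h3, h4, a0, zero_div]
      field_simp
      ring
    rw [hq, Real.sqrt_sq (by positivity)]
    exact mul_le_mul_of_nonneg_right hθ1 hbb.le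

/-! ### Numerical facts -/

section

variable {n : ℕ} {N : ℕ∞}

theorem zoneX_le (hNn : N = (n : ℕ∞) ∨ N = ⊤) : (n : ℕ∞) ≤ N := by
  rcases hNn with rfl | rfl
  · exact le_rfl
  · exact le_top

theorem zoneX_FF (hn : 1 ≤ n) (hNn : N = (n : ℕ∞) ∨ N = ⊤) {X : ℝ} (hX : 7 / 8 * zz n ≤ |X|) :
    FF N X = FF ⊤ X := by
  rcases hNn with rfl | rfl
  · exact FF_eq_top hn hX
  · rfl

theorem zoneX_FFn (hn : 1 ≤ n) (hNn : N = (n : ℕ∞) ∨ N = ⊤) {k : ℕ} (hk : k ≤ n) :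
    FF N (zz k) = FF ⊤ (zz k) := by
  refine zoneX_FF hn hNn ?_
  have h1 := zz_anti hk
  have h2 := zz_pos n
  rw [abs_of_pos (zz_pos k)]
  linarith

theorem zoneX_GGn (hn : 1 ≤ n) (hNn : N = (n : ℕ∞) ∨ N = ⊤) : GG N (zz n) = FF ⊤ (zz n) := by
  rw [GG_vertex hn (zoneX_le hNn), zoneX_FFn hn hNn le_rfl]

/-- Upper bound for the polygon. -/
theorem zoneX_GG_le (hn : 1 ≤ n) (hN : 1 ≤ N) (hNn : N = (n : ℕ∞) ∨ N = ⊤) {X : ℝ}
    (hX : |X| ≤ 5 / 4 * zz n) : GG N X ≤ FF ⊤ (zz n) + zz n / 40 := by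
  have h1 := GG_mono N hN (abs_nonneg X) hX
  rw [GG_abs] at h1
  have h2 := GG_lip N hN (5 / 4 * zz n) (zz n)
  have h3 := zz_pos n
  have h4 : |5 / 4 * zz n - zz n| = zz n / 4 := by
    rw [show 5 / 4 * zz n - zz n = zz n / 4 by ring, abs_of_pos (by positivity)]
  rw [h4] at h2
  have h5 := (abs_le.1 h2).2
  rw [zoneX_GGn hn hNn] at h5
  linarith

/-- Lower bound for `F`. -/
theorem zoneX_FF_ge (hn : 1 ≤ n) (hNn : N = (n : ℕ∞) ∨ N = ⊤) (X : ℝ) :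
    FF ⊤ (zz n) - zz n / 20 ≤ FF N X := by
  have h1 := FF_zero_le N X
  have h2 := FF_lip N (zz n) 0
  rw [sub_zero, abs_of_pos (zz_pos n)] at h2
  have h3 := (abs_le.1 h2).2
  rw [zoneX_FFn hn hNn le_rfl] at h3
  linarith

theorem zoneX_midY (hn : 1 ≤ n) (hNn : N = (n : ℕ∞) ∨ N = ⊤) (hNt : N ≠ ⊤) :
    midY N = FF ⊤ (zz n) := by
  rcases hNn with rfl | rfl
  · unfold midY
    have e : ((n : ℕ∞)).toNat = n := rfl
    rw [e]
    exact zoneX_FFn hn (Or.inl rfl) le_rfl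
  · exact absurd rfl hNt

theorem zoneX_rad0 (K : Core) (hNn : N = (n : ℕ∞) ∨ N = ⊤) (hNt : N ≠ ⊤) :
    spRad K N 0 ≤ zz n / 64 := by
  have h1 := AmbConn_rad0 K.R_pos (spRad_ok K N) (Sp2_R K) hNt
  rcases hNn with rfl | rfl
  · exact h1
  · exact absurd rfl hNt

theorem zoneX_rad (K : Core) (N : ℕ∞) {k : ℕ} (hk : 1 ≤ k) : spRad K N k ≤ zz k / 16 :=
  AmbConn_rad_lt (spRad_ok K N) (Sp2_R K) hk

theorem zoneX_zz {k : ℕ} (hk : k < n) : 2 * zz n ≤ zz k := by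
  have h2 := zz_anti (show k + 1 ≤ n by omega)
  rw [zz_succ] at h2
  linarith

/-- High points. -/
theorem zoneX_high (K : Core) (hn : 1 ≤ n) (hN : 1 ≤ N) (hNn : N = (n : ℕ∞) ∨ N = ⊤) {X Y : ℝ}
    (hX : |X| ≤ 5 / 4 * zz n) (hY : FF ⊤ (zz n) + 2 * zz n ≤ Y) :
    AmbConn_W N (spRad K N) X Y := by
  have hz := zz_pos n
  refine ⟨?_, fun k hk hkN => ?_, fun hNt => ?_⟩
  · have h1 := zoneX_GG_le hn hN hNn hX
    linarith
  · have hr := zoneX_rad K N hk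
    have hrp := spRad_pos K N k
    have hzk := zz_pos k
    rcases lt_or_ge k n with h | h
    · have h2 := zoneX_zz h
      have h3 : spRad K N k < zz k - |X| := by linarith
      have h4 : spRad K N k ^ 2 < (zz k - |X|) ^ 2 := pow_lt_pow_left₀ h3 hrp.le two_ne_zero
      nlinarith only [sq_nonneg (Y - FF N (zz k)), h4]
    · have h2 := zz_anti h
      have h3 := FF_mono N hzk.le h2
      rw [zoneX_FFn hn hNn le_rfl] at h3
      have h4 : spRad K N k < Y - FF N (zz k) := by linarith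
      have h5 : spRad K N k ^ 2 < (Y - FF N (zz k)) ^ 2 := pow_lt_pow_left₀ h4 hrp.le two_ne_zero
      nlinarith only [sq_nonneg (|X| - zz k), h5]
  · have h1 := zoneX_rad0 K hNn hNt
    have h2 := zoneX_midY hn hNn hNt
    have hrp := spRad_pos K N 0
    have h4 : spRad K N 0 < Y - midY N := by rw [h2]; linarith
    have h5 : spRad K N 0 ^ 2 < (Y - midY N) ^ 2 := pow_lt_pow_left₀ h4 hrp.le two_ne_zero
    nlinarith only [sq_nonneg X, h5]

/-- The coordinates of the patch `0` do not depend on `N`. -/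
theorem zoneX_coord0 (hn : 1 ≤ n) (hNn : N = (n : ℕ∞) ∨ N = ⊤) (X Y : ℝ) :
    lc N 0 X Y = lc ⊤ 0 X Y ∧ sc N 0 X Y = sc ⊤ 0 X Y := by
  have h0 : ((0 : ℕ) : ℕ∞) < N := lt_of_lt_of_le (by exact_mod_cast hn) (zoneX_le hNn)
  have h0' : ((0 : ℕ) : ℕ∞) < ⊤ := ENat.natCast_lt_top 0
  have h1 : aa N 0 = aa ⊤ 0 := aa_eq_top h0
  have h2 : oj N 0 = oj ⊤ 0 := by unfold oj; rw [h1]
  have h3 : OX N 0 = OX ⊤ 0 := by unfold OX; rw [if_pos h0, if_pos h0']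
  have h4 : OY N 0 = OY ⊤ 0 := by
    unfold OY
    rw [Line_vert_lt h0, Line_vert_lt h0']
    exact zoneX_FFn hn hNn (k := 0 + 1) hn
  unfold lc sc
  rw [h1, h2, h3, h4]
  exact ⟨rfl, rfl⟩

theorem zoneX_cXpt (K : Core) (hn : 1 ≤ n) (hN : 2 ≤ N) (hNn : N = (n : ℕ∞) ∨ N = ⊤) :
    cXpt K N hN n = zoneXPt K N hN 0 (FF ⊤ (zz n) + 5 / 2 * zz n) ![1, 0, 0] := by
  unfold cXpt xlab zoneXPt
  obtain ⟨h1, h2⟩ := zoneX_coord0 hn hNn 0 (FF ⊤ (zz n) + 5 / 2 * zz n)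
  rw [h1, h2]

/-- The ambient points of the zone which are not below a disk. -/
theorem zoneX_good (K : Core) (hn : 1 ≤ n) (hN : 2 ≤ N) (hNn : N = (n : ℕ∞) ∨ N = ⊤) {j : ℕ}
    {u : E4} (hu : u ∈ VA N (spRad K N) j) (hX : |pX N j u| ≤ 5 / 4 * zz n)
    (hY : pY N j u ≤ FF ⊤ (zz n) + 3 * zz n)
    (hb : ∀ k, ¬ AmbConn_Bad N (spRad K N) (pX N j u) (pY N j u) k) :
    dist ((sp K N hN).ψ (ixC K N hN j) u) (cXpt K N hN n) ≤ 10 * zz n := by
  have hz := zz_pos n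
  have hN1 := zoneX_N N hN
  have hlow : FF ⊤ (zz n) - zz n / 20 ≤ pY N j u :=
    (zoneX_FF_ge hn hNn (pX N j u)).trans ((FF_le_GG N hN1 _).trans (GG_le_pY hu.1 hu.2.1))
  set F := FF ⊤ (zz n) with hF
  set X := pX N j u with hXd
  set Y := pY N j u with hYd
  obtain ⟨ξ, hξ, h1⟩ := zoneX_up K hN hu hb (Y' := F + 4 * zz n) (by rw [← hYd]; linarith)
  rw [← hXd, ← hYd] at h1
  have h2 : dist (zoneXPt K N hN X (F + 4 * zz n) ξ) (zoneXPt K N hN 0 (F + 4 * zz n) ξ) ≤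
      5 / 4 * zz n := by
    refine zoneX_seg0 K hN (by positivity) ?_ hξ ?_
    · rw [sub_self]
      have h3 : X ^ 2 ≤ (5 / 4 * zz n) ^ 2 := by
        rw [← sq_abs X]
        exact pow_le_pow_left₀ (abs_nonneg X) hX 2
      linarith
    · intro s t hs ht hst
      refine zoneX_high K hn hN1 hNn ?_ ?_
      · rw [mul_zero, add_zero, abs_mul, abs_of_nonneg hs]
        have : s ≤ 1 := by linarith
        have h4 := abs_nonneg X
        nlinarith only [hz, hX, ht, hst, hs]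
      · rw [← add_mul, hst, one_mul]
        linarith
  have hWt : AmbConn_W N (spRad K N) 0 (F + 4 * zz n) :=
    zoneX_high K hn hN1 hNn (by rw [abs_zero]; positivity) (by linarith)
  have h3 := zoneX_turn K hN hWt hξ
  have h4 : π * bb K.R N 0 (F + 4 * zz n) ≤ 2 * zz n := by
    have e1 := bb_le_RD K.R_pos hN1 hWt.1.le
    have e2 := K.R_le
    have e3 := K.R_pos
    have e4 := zoneX_FF_ge hn hNn (0 : ℝ)
    rw [← hF] at e4
    have e5 : K.R * (F + 4 * zz n - FF N 0) ≤ 1 / 9 * (4 * zz n + zz n / 20) := by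
      apply mul_le_mul e2 (by linarith) _ (by norm_num)
      have := hWt.1
      have := FF_le_GG N hN1 0
      linarith
    have e6 := Real.pi_lt_four
    have e7 := Real.pi_pos
    have e8 : bb K.R N 0 (F + 4 * zz n) ≤ 1 / 9 * (4 * zz n + zz n / 20) := e1.trans e5
    have e9 : π * bb K.R N 0 (F + 4 * zz n) ≤ 4 * (1 / 9 * (4 * zz n + zz n / 20)) :=
      mul_le_mul e6.le e8 (bb_pos K.R_pos hN1 hWt.1).le (by norm_num)
    linarith
  have h5 : dist (zoneXPt K N hN 0 (F + 4 * zz n) ![1, 0, 0])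
      (zoneXPt K N hN 0 (F + 5 / 2 * zz n) ![1, 0, 0]) ≤ 3 / 2 * zz n := by
    refine zoneX_seg0 K hN (by positivity) ?_ (by simp) ?_
    · have e : (0 - 0) ^ 2 + (F + 5 / 2 * zz n - (F + 4 * zz n)) ^ 2 = (3 / 2 * zz n) ^ 2 := by ring
      rw [e]
    · intro s t hs ht hst
      refine zoneX_high K hn hN1 hNn ?_ ?_
      · rw [mul_zero, mul_zero, add_zero, abs_zero]
        positivity
      · have e1 : s * (F + 4 * zz n) + t * (F + 5 / 2 * zz n) =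
            (s + t) * (F + 5 / 2 * zz n) + s * (3 / 2 * zz n) := by ring
        rw [e1, hst, one_mul]
        have : 0 ≤ s * (3 / 2 * zz n) := by positivity
        linarith only [hz, this]
  rw [zoneX_cXpt K hn hN hNn]
  have t1 := dist_triangle ((sp K N hN).ψ (ixC K N hN j) u) (zoneXPt K N hN X (F + 4 * zz n) ξ)
    (zoneXPt K N hN 0 (F + 5 / 2 * zz n) ![1, 0, 0])
  have t2 := dist_triangle (zoneXPt K N hN X (F + 4 * zz n) ξ)
    (zoneXPt K N hN 0 (F + 4 * zz n) ξ) (zoneXPt K N hN 0 (F + 5 / 2 * zz n) ![1, 0, 0])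
  have t3 := dist_triangle (zoneXPt K N hN 0 (F + 4 * zz n) ξ)
    (zoneXPt K N hN 0 (F + 4 * zz n) ![1, 0, 0])
    (zoneXPt K N hN 0 (F + 5 / 2 * zz n) ![1, 0, 0])
  linarith

end

/-! ### Points near the vertices and near the middle point -/

theorem zoneX_near (K : Core) {N : ℕ∞} (hN : 2 ≤ N) {k : ℕ} (hk : 1 ≤ k) (hkN : (k : ℕ∞) ≤ N)
    {j : ℕ} {u : E4} (hu : u ∈ VA N (spRad K N) j)
    (h : (|pX N j u| - zz k) ^ 2 + (pY N j u - FF N (zz k)) ^ 2 < (2 * spRad K N k) ^ 2) :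
    (sp K N hN).ψ (ixC K N hN j) u ∈ UB K N hN k := by
  classical
  have hrp := spRad_pos K N k
  have hc := spColl K N hN hk hkN
  have hr : rAmb (spAmb K N hN) k (TauPt.mk (repA K.R N j u)) < spRad K N k := by
    have e1 : rAmb (spAmb K N hN) k (TauPt.mk (repA K.R N j u)) =
        √((|pX N j u| - zz k) ^ 2 + (pY N j u - FF N (zz k)) ^ 2) - spRad K N k := by
      have e2 := rAmb_repA (spAmb K N hN) k j u
      rw [if_pos ⟨hk, hkN⟩] at e2
      exact e2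
    rw [e1]
    have e3 : √((|pX N j u| - zz k) ^ 2 + (pY N j u - FF N (zz k)) ^ 2) < 2 * spRad K N k :=
      (Real.sqrt_lt' (by positivity)).2 h
    linarith
  obtain ⟨v, hv, he⟩ := hc.surj (j := j) (a := u) hu hr
  have hT2 : (spB K N k).T2 < ‖v‖ := hc.lt_T2 hv.1
  have hVD : v ∈ VD (spBlk K N k) := by
    refine ⟨?_, hv.2⟩
    have h1 := hc.blk.blk.T2_gt
    have h2 := K.isCore.T0_gt
    have h3 := K.isCore.t0_lt
    have h4 := K.isCore.t0_pos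
    change K.t0 / 2 < ‖v‖
    linarith
  left
  refine ⟨(0 : Fin 3), v, ⟨⟨hk, hkN⟩, hVD⟩, ?_⟩
  refine (PreP.Pre_cpsi_iff (spP K N hN) (spBase K N hN) (i := ixB K N hN k 0)
    (j := ixC K N hN j) ⟨⟨hk, hkN⟩, hVD⟩ hu).2 ?_
  exact ((spEq_CD K N hN ⟨hk, hkN⟩ hVD).2 ⟨hv.1, he⟩).symm

section

variable {n : ℕ} {N : ℕ∞}

/-- A point which is below a disk is near the vertex. -/
theorem zoneX_bad_near (K : Core) (hN : 1 ≤ N) {X Y : ℝ} {k : ℕ} (hG : GG N X ≤ Y)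
    (hb : AmbConn_Bad N (spRad K N) X Y k) :
    (|X| - zz k) ^ 2 + (Y - FF N (zz k)) ^ 2 < (2 * spRad K N k) ^ 2 := by
  obtain ⟨hk, hkN, h1, h2⟩ := hb
  have hrp := spRad_pos K N k
  have h3 := GG_lip N hN |X| (zz k)
  rw [GG_abs, GG_vertex hk hkN] at h3
  have h4 := (abs_le.1 h3).1
  have h5 : -(spRad K N k) ≤ Y - FF N (zz k) := by linarith
  have h6 : Y - FF N (zz k) ≤ 0 := by linarith
  have h7 : (|X| - zz k) ^ 2 ≤ spRad K N k ^ 2 := by
    rw [← sq_abs (|X| - zz k)]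
    exact pow_le_pow_left₀ (abs_nonneg _) h1 2
  have h8 : (Y - FF N (zz k)) ^ 2 ≤ spRad K N k ^ 2 := by nlinarith only [hrp, h4, hG, h1, h2]
  have h9 : 0 < spRad K N k ^ 2 := by positivity
  nlinarith only [h7, h9, h8]

/-- The label above the vertex `k`. -/
theorem zoneX_W_vertex (K : Core) (hNn : N = (n : ℕ∞) ∨ N = ⊤) {k : ℕ} (hk : 1 ≤ k)
    (hkN : (k : ℕ∞) ≤ N) :
    AmbConn_W N (spRad K N) (zz k) (FF N (zz k) + 3 / 2 * spRad K N k) ∧
      ∀ l, ¬ AmbConn_Bad N (spRad K N) (zz k) (FF N (zz k) + 3 / 2 * spRad K N k) l := by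
  have hrp := spRad_pos K N k
  have hzk := zz_pos k
  have hfar : ∀ l : ℕ, 1 ≤ l → l ≠ k → spRad K N l < |(|zz k| - zz l)| := by
    intro l hl hlk
    have hr := zoneX_rad K N hl
    have hzl := zz_pos l
    rw [abs_of_pos hzk]
    rcases AmbConn_zz_ne hlk.symm with h1 | h1
    · refine lt_of_lt_of_le ?_ (le_abs_self _)
      linarith
    · refine lt_of_lt_of_le ?_ (neg_le_abs _)
      linarith
  refine ⟨⟨?_, fun l hl hlN => ?_, fun hNt => ?_⟩, ?_⟩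
  · rw [GG_vertex hk hkN]
    linarith
  · by_cases hlk : l = k
    · subst hlk
      rw [abs_of_pos hzk]
      nlinarith
    · have h1 := hfar l hl hlk
      have h2 : spRad K N l ^ 2 < |(|zz k| - zz l)| ^ 2 :=
        pow_lt_pow_left₀ h1 (spRad_pos K N l).le two_ne_zero
      rw [sq_abs] at h2
      nlinarith only [sq_nonneg (FF N (zz k) + 3 / 2 * spRad K N k - FF N (zz l)), h2]
  · have h1 := zoneX_rad0 K hNn hNt
    have h2 : zz n ≤ zz k := by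
      rcases hNn with rfl | rfl
      · exact zz_anti (by exact_mod_cast hkN)
      · exact absurd rfl hNt
    have h3 := zz_pos n
    have h4 : spRad K N 0 < zz k := by linarith
    have h5 : spRad K N 0 ^ 2 < zz k ^ 2 := pow_lt_pow_left₀ h4 (spRad_pos K N 0).le two_ne_zero
    nlinarith only [sq_nonneg (FF N (zz k) + 3 / 2 * spRad K N k - midY N), h5]
  · rintro l ⟨hl, hlN, h1, h2⟩
    by_cases hlk : l = k
    · subst hlk
      linarith
    · exact absurd h1 (not_le.2 (hfar l hl hlk))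

/-- The points of the blocks `k ≥ n`. -/
theorem zoneX_blk (K : Core) (hn : 2 ≤ n) (hN : 2 ≤ N) (hNn : N = (n : ℕ∞) ∨ N = ⊤) {k : ℕ}
    (hnk : n ≤ k) (hkN : (k : ℕ∞) ≤ N) {q : (sp K N hN).Pt} (hq : q ∈ UB K N hN k) :
    dist q (cXpt K N hN n) ≤ 11 * zz n := by
  have hn1 : 1 ≤ n := by omega
  have hk : 1 ≤ k := by omega
  have hz := zz_pos n
  have hrp := spRad_pos K N k
  obtain ⟨hW, hb⟩ := zoneX_W_vertex K hNn hk hkN
  have hξ : (![1, 0, 0] : Fin 3 → ℝ) 0 ^ 2 + (![1, 0, 0] : Fin 3 → ℝ) 1 ^ 2 +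
    (![1, 0, 0] : Fin 3 → ℝ) 2 ^ 2 = 1 := by simp
  have hs := sc_pos (AmbConn_zero_le N) hW.1
  have hX := pX_mk4 N 0 hs.le hξ
  have hY := pY_mk4 N 0 hs.le hξ
  have hmem := AmbConn_mem hW hξ
  set u := mk4 (lc N 0 (zz k) (FF N (zz k) + 3 / 2 * spRad K N k))
    (sc N 0 (zz k) (FF N (zz k) + 3 / 2 * spRad K N k)) ![1, 0, 0] with hu
  have hzk := zz_pos k
  have hzkn := zz_anti hnk
  have h1 : (sp K N hN).ψ (ixC K N hN 0) u ∈ UB K N hN k := by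
    refine zoneX_near K hN hk hkN hmem ?_
    rw [hX, hY, abs_of_pos hzk]
    nlinarith only [hrp]
  have h2 := UB_diam K N hN hk hkN hq h1
  have h3 : 30 * spRad K N k ≤ zz n := by
    rw [spRad_eq_top K hk N]
    have h4 : zz k ≤ 1 := zz_le_one k
    nlinarith only [hzk, h4, hz, hzkn]
  have hFk : FF N (zz k) ≤ FF ⊤ (zz n) := by
    rw [← zoneX_FFn hn1 hNn le_rfl]
    exact FF_mono N hzk.le hzkn
  have h5 : dist ((sp K N hN).ψ (ixC K N hN 0) u) (cXpt K N hN n) ≤ 10 * zz n := by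
    refine zoneX_good K hn1 hN hNn hmem ?_ ?_ ?_
    · rw [hX, abs_of_pos hzk]
      linarith
    · rw [hY]
      linarith
    · rw [hX, hY]
      exact hb
  have h6 := dist_triangle q ((sp K N hN).ψ (ixC K N hN 0) u) (cXpt K N hN n)
  linarith

/-- The points of the middle block. -/
theorem zoneX_mid (K : Core) (hn : 2 ≤ n) (hN : 2 ≤ N) (hNn : N = (n : ℕ∞) ∨ N = ⊤)
    (hNt : N ≠ ⊤) {q : (sp K N hN).Pt} (hq : q ∈ UX K N hN) :
    dist q (cXpt K N hN n) ≤ 11 * zz n := by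
  have hn1 : 1 ≤ n := by omega
  have hz := zz_pos n
  have hNn' := hNn
  rcases hNn with rfl | rfl
  swap
  · exact absurd rfl hNt
  have hrp := spRad_pos K (n : ℕ∞) 0
  have hr0 := zoneX_rad0 K hNn' hNt
  have hmY := zoneX_midY hn1 hNn' hNt
  have hξ : (![1, 0, 0] : Fin 3 → ℝ) 0 ^ 2 + (![1, 0, 0] : Fin 3 → ℝ) 1 ^ 2 +
    (![1, 0, 0] : Fin 3 → ℝ) 2 ^ 2 = 1 := by simp
  obtain ⟨u, hu⟩ : ∃ u : E4, u = mk4 0 (3 / 2 * spRad K (n : ℕ∞) 0) ![1, 0, 0] := ⟨_, rfl⟩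
  have hu0 : u 0 = 0 := by rw [hu]; rfl
  have hu3 : n3 u = 3 / 2 * spRad K (n : ℕ∞) 0 := by
    rw [hu]
    exact zoneX_n3 0 (by positivity) hξ
  have hnorm : ‖u‖ = 3 / 2 * spRad K (n : ℕ∞) 0 := by
    have h1 := Mid_norm u
    rw [hu0, hu3] at h1
    have h2 : ‖u‖ ^ 2 = (3 / 2 * spRad K (n : ℕ∞) 0) ^ 2 := by rw [h1]; ring
    exact (pow_left_inj₀ (norm_nonneg u) (by positivity) two_ne_zero).1 h2
  have hX : pX (n : ℕ∞) n u = 0 := by rw [Mid_pX, hu0]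
  have hY : pY (n : ℕ∞) n u = FF ⊤ (zz n) + 3 / 2 * spRad K (n : ℕ∞) 0 := by
    rw [Mid_pY, hu3, hmY]
  have hmem : u ∈ VA (n : ℕ∞) (spRad K n) n :=
    Mid_mem K.R_pos (Sp2_R K) hn1 (spRad_ok K n) (by rw [hnorm]; linarith)
      (by rw [hnorm]; linarith)
  have hVX : u ∈ (spP K (n : ℕ∞) hN).V (ixX K (n : ℕ∞) hN EHI.F) := by
    refine ⟨hNt, ?_, ?_⟩
    · change spX K (n : ℕ∞) < ‖u‖
      have := spX_lt K (n : ℕ∞)
      rw [hnorm]
      linarith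
    · change ‖u‖ < 2 * spRad K (n : ℕ∞) 0
      rw [hnorm]
      linarith
  have h1 : (sp K (n : ℕ∞) hN).ψ (ixC K (n : ℕ∞) hN n) u ∈ UX K (n : ℕ∞) hN := by
    refine ⟨EHI.F, u, hVX, ?_⟩
    refine (PreP.Pre_cpsi_iff (spP K (n : ℕ∞) hN) (spBase K (n : ℕ∞) hN)
      (i := ixX K (n : ℕ∞) hN EHI.F) (j := ixC K (n : ℕ∞) hN n) hVX hmem).2 ?_
    refine ((PreP.glue_inl_inr_iff (midGlue K (n : ℕ∞) hN) (i := Sum.inl n) (j := EHI.F)
      (a := u) (b := u) hVX).2 ⟨?_, EHI.F, rfl, u, hVX, rfl, rfl⟩).symm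
    change 0 < ehR (WPt.mk ehm (ehs (spX K (n : ℕ∞)) EHI.F u)) - spRad K (n : ℕ∞) 0
    rw [ehR_F, hnorm]
    linarith
  have h2 := mid_diam K (n : ℕ∞) hN hNt hq h1
  have h5 : dist ((sp K (n : ℕ∞) hN).ψ (ixC K (n : ℕ∞) hN n) u) (cXpt K (n : ℕ∞) hN n) ≤
      10 * zz n := by
    refine zoneX_good K hn1 hN hNn' hmem ?_ ?_ ?_
    · rw [hX, abs_zero]
      positivity
    · rw [hY]
      linarith
    · rintro k ⟨hk, hkN, h3, h4⟩
      rw [hX, abs_zero, zero_sub, abs_neg, abs_of_pos (zz_pos k)] at h3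
      have h6 := zoneX_rad K (n : ℕ∞) hk
      have h7 := zz_pos k
      linarith
  have h6 := dist_triangle q ((sp K (n : ℕ∞) hN).ψ (ixC K (n : ℕ∞) hN n) u)
    (cXpt K (n : ℕ∞) hN n)
  linarith

end

/-- The zone of the middle vertex. -/
theorem zoneX_bound (K : Core) {n : ℕ} (hn : 2 ≤ n) {N : ℕ∞} (hN : 2 ≤ N)
    (hNn : N = (n : ℕ∞) ∨ N = ⊤) {q : (sp K N hN).Pt} (hq : sph K N hN q ∈ hZX n) :
    dist q (cXpt K N hN n) < 100 * zz n := by
  have hz := zz_pos n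
  have hn1 : 1 ≤ n := by omega
  have hN1 := zoneX_N N hN
  suffices h : dist q (cXpt K N hN n) ≤ 11 * zz n by linarith
  obtain ⟨i, a, ha, rfl⟩ := (sp K N hN).cover q
  have hval : ((sp K N hN).ψ i a).1 = (spP K N hN).ψ i a :=
    PreP.Pre_cpsi_val (spP K N hN) (spBase K N hN) ha
  rcases i with (j | ⟨k, j⟩) | j
  · -- an ambient point
    have h1 : sph K N hN ((sp K N hN).ψ (Sum.inl (Sum.inl j)) a) =
        Sum.inl (Sum.inl (nrmTau (TauPt.mk (repA K.R N j a)))) := by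
      unfold sph
      rw [hval]
      rfl
    rw [h1] at hq
    have h2 : |pX N j a| < 5 / 4 * zz n ∧ pY N j a < FF ⊤ (zz n) + 3 * zz n := hq
    have hVA : a ∈ VA N (spRad K N) j := ha
    by_cases hb : ∃ k, AmbConn_Bad N (spRad K N) (pX N j a) (pY N j a) k
    · obtain ⟨k, hb⟩ := hb
      have hk := hb.1
      have hkN := hb.2.1
      have h3 := hb.2.2.1
      have h4 := zoneX_rad K N hk
      have h5 := zz_pos k
      have h6 := (abs_le.1 h3).1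
      have hnk : n ≤ k := by
        by_contra hlt
        have h7 := zoneX_zz (not_le.1 hlt)
        linarith [h2.1]
      refine zoneX_blk K hn hN hNn hnk hkN ?_
      exact zoneX_near K hN hk hkN hVA
        (zoneX_bad_near K hN1 (GG_le_pY hVA.1 hVA.2.1) hb)
    · have h3 : dist ((sp K N hN).ψ (ixC K N hN j) a) (cXpt K N hN n) ≤ 10 * zz n :=
        zoneX_good K hn1 hN hNn hVA h2.1.le h2.2.le (fun k hk => hb ⟨k, hk⟩)
      have h4 : dist ((sp K N hN).ψ (Sum.inl (Sum.inl j)) a) (cXpt K N hN n) ≤ 10 * zz n := h3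
      linarith
  · -- a point of a block
    have hk : 1 ≤ k := ha.1.1
    have hkN : (k : ℕ∞) ≤ N := ha.1.2
    have hnk : n ≤ k := by
      by_contra hlt
      have h7 := zoneX_zz (not_le.1 hlt)
      by_cases h0 : 0 < (spFam K N hN).glueData.rQ ((spFam K N hN).S.ψ ⟨k, j⟩ a)
      · obtain ⟨⟨k', d⟩, hd, u, hu, e1, h1, e2⟩ :=
          PreP.Pre_glueMap_pos (spFam K N hN).glueData (j := ⟨k, j⟩) ha h0
        have hkk : k' = k := congrArg Sigma.fst e1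
        subst hkk
        obtain rfl : d = (spFam K N hN).d k' := hd
        have h8 : sph K N hN ((sp K N hN).ψ (Sum.inl (Sum.inr ⟨k', j⟩)) a) =
            Sum.inl (Sum.inl (nrmTau (collE (spAmb K N hN) k' (spB K N k') u))) := by
          unfold sph
          rw [hval]
          change Sum.map (Sum.map nrmTau id) id (Sum.inl (PreP.glueMap (spFam K N hN).glueData
            ((spFam K N hN).S.ψ ⟨k', j⟩ a))) = _
          rw [e2]
          rfl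
        rw [h8] at hq
        have hC := (spFam K N hN).coll k' hk hkN
        have h9 := hC.qX_ge ((spFam K N hN).mem_coll hk hkN hu.2 h1)
        have h10 : |qX N k' (spB K N k').Φ (spB K N k').s (spB K N k').tstar u| <
            5 / 4 * zz n := hq.1
        have h11 := le_abs_self (qX N k' (spB K N k').Φ (spB K N k').s (spB K N k').tstar u)
        have h12 : 7 / 8 * zz k' ≤ qX N k' (spB K N k').Φ (spB K N k').s (spB K N k').tstar u :=
          h9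
        linarith
      · have e2 := PreP.glueMap_of_le (spFam K N hN).glueData (not_lt.1 h0)
        have h8 : sph K N hN ((sp K N hN).ψ (Sum.inl (Sum.inr ⟨k, j⟩)) a) =
            Sum.inl (Sum.inr ((spFam K N hN).S.ψ ⟨k, j⟩ a)) := by
          unfold sph
          rw [hval]
          change Sum.map (Sum.map nrmTau id) id (Sum.inl (PreP.glueMap (spFam K N hN).glueData
            ((spFam K N hN).S.ψ ⟨k, j⟩ a))) = _
          rw [e2]
          rfl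
        rw [h8] at hq
        have h9 : n ≤ k := hq
        omega
    refine zoneX_blk K hn hN hNn hnk hkN ?_
    rcases j with i | i
    · exact Or.inl ⟨i, a, ha, rfl⟩
    · exact Or.inr ⟨i, a, ha, rfl⟩
  · -- a point of the middle block
    exact zoneX_mid K hn hN hNn ha.1 ⟨j, a, ha, rfl⟩

end Pool.Agent.W_MP_654ec6_h2
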