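import Pool.Agent.W_MP_654ec6_h2.Bad
import Pool.Agent.W_MP_654ec6_h2.Comp2
import Pool.Agent.W_MP_654ec6_h2.CompatD
import Pool.Agent.W_MP_654ec6_h2.ZoneB
import Pool.Agent.W_MP_654ec6_h2.ZoneX

/-!
# Part G1: the spaces `Sp(n)` converge to the completion of `Sp(⊤)`
-/

open scoped ContDiff Topology
open Filter Real

namespace Pool.Agent.W_MP_654ec6_h2

open Pool.Agent.W_MP_654ec6 PreP

section centres

variable (K : Core) {n : ℕ}

theorem xlab_good (hn : 2 ≤ n) : GoodC K n 0 (xlab n) := by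
  have hn1 : 1 ≤ n := by omega
  have hj0 : 0 < n := by omega
  have hz := zz_pos n
  set Y := FF ⊤ (zz n) + 5 / 2 * zz n with hY
  have hg : goodXY n |(0 : ℝ)| Y := Or.inr (by linarith)
  have hX : |(0 : ℝ)| ≤ zz n := by rw [abs_zero]; exact hz.le
  obtain ⟨h1, h2, -⟩ := compareC_high hn1 hX (Y := Y) (by linarith)
  have hξ : (![1, 0, 0] : Fin 3 → ℝ) 0 ^ 2 + (![1, 0, 0] : Fin 3 → ℝ) 1 ^ 2 +
      (![1, 0, 0] : Fin 3 → ℝ) 2 ^ 2 = 1 := by simp
  obtain ⟨f1, f2, -, -⟩ := lab0_spec (N := ⊤) h2 hξ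
  have hlab : lab0 ⊤ 0 Y ![1, 0, 0] = xlab n := rfl
  rw [hlab] at f1 f2
  have hc := coord_eq_top hj0 (xlab n)
  have hO : OutDisks ⊤ (spRad K ⊤) 0 Y := by
    refine ⟨fun k hk _ => ?_, fun h => absurd rfl h⟩
    have h5 := (spRad_ok K ⊤).pos k
    have h4 := (spRad_ok K ⊤).le k hk
    have h3 := zz_pos k
    rw [abs_zero]
    have h6 : spRad K ⊤ k ^ 2 < (0 - zz k) ^ 2 := by nlinarith only [h4, h5]
    nlinarith only [sq_nonneg (Y - FF ⊤ (zz k)), h6]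
  refine ⟨hj0, ⟨by simp, ?_, ?_⟩, ⟨by simp, ?_, ?_⟩, ?_⟩
  · left
    rw [hc.1, hc.2, f1, f2]
    exact h1
  · rw [hc.1, hc.2, f1, f2]
    exact (outDisks_cmp K hn1 hg).2 hO
  · left
    rw [f1, f2]
    exact h2
  · rw [f1, f2]
    exact hO
  · rw [f1, f2]
    exact hg

theorem flab_good (hL : Large K n) {k : ℕ} (hk : 1 ≤ k) (hkn : k < n) :
    GoodB K n k 2 (flab K n k) := by
  have ht := thr_pos K n k
  have hnorm : ‖flab K n k‖ = 3 / 2 * thr K n k := by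
    unfold flab
    rw [PiLp.norm_single, Real.norm_of_nonneg (by positivity)]
  have h1 := hL.thr_le k
  have h2 := thr_ge K n k
  obtain ⟨s1, s2, s3, s4⟩ := sin_half (spBlk K n k)
  have h3 : K.A0 < sin K.t0 := by
    have e1 : K.A0 < sin (K.t0 / 2) / 2 := s3
    have e2 : 0 < sin (K.t0 / 2) := s1
    have e3 : sin (K.t0 / 2) < sin K.t0 := s2
    linarith
  have hA0 := K.A0_pos
  have hV : flab K n k ∈ VF (spBlk K n k) := by
    refine ⟨?_, ?_⟩
    · rw [hnorm]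
      change spA K n k < _
      linarith
    · rw [hnorm]
      change _ < sin K.t0
      linarith
  refine ⟨⟨hk, hkn⟩, hV, ⟨?_, ?_⟩, ?_⟩
  · rw [hnorm]
    change spA K ⊤ k < _
    rw [spA_top]
    positivity
  · rw [hnorm]
    change _ < sin K.t0
    linarith
  · rw [aSq_F _ hV, hnorm]
    nlinarith only [ht]

theorem cXpt_host (hn : 2 ≤ n) {N : ℕ∞} (hN : 2 ≤ N) (hNn : N = (n : ℕ∞) ∨ N = ⊤) :
    sph K N hN (cXpt K N hN n) = Sum.inl (Sum.inl (TauPt.mk (nA ⊤ 0 (xlab n)))) :=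
  goodC_host hNn (xlab_good K hn)

theorem cXpt_good (hn : 2 ≤ n) {N : ℕ∞} (hN : 2 ≤ N) (hNn : N = (n : ℕ∞) ∨ N = ⊤) :
    sph K N hN (cXpt K N hN n) ∈ hGood K n := by
  rw [cXpt_host K hn hN hNn]
  exact goodC_good (xlab_good K hn)

theorem cBpt_host (hL : Large K n) {N : ℕ∞} (hN : 2 ≤ N) (hNn : N = (n : ℕ∞) ∨ N = ⊤) {k : ℕ}
    (hk : 1 ≤ k) (hkn : k < n) (hn : 2 ≤ (n : ℕ∞)) :
    sph K N hN (cBpt K N hN n k) = sph K n hn (cBpt K n hn n k) :=
  goodB_host' hn hNn (flab_good K hL hk hkn)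

theorem cBpt_good (hL : Large K n) {N : ℕ∞} (hN : 2 ≤ N) (hNn : N = (n : ℕ∞) ∨ N = ⊤) {k : ℕ}
    (hk : 1 ≤ k) (hkn : k < n) : sph K N hN (cBpt K N hN n k) ∈ hGood K n := by
  have hn : 2 ≤ (n : ℕ∞) := by exact_mod_cast hL.two_le
  rw [cBpt_host K hL hN hNn hk hkn hn]
  exact (goodB_host hn (flab_good K hL hk hkn)).2

end centres

/-! ### Numbers -/

theorem thr_le_zz (K : Core) (n k : ℕ) : thr K n k ≤ zz n ^ 5 := by
  have h1 := spA_le6 K (ENat.natCast_ne_top n) k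
  rw [ENat.toNat_natCast] at h1
  have h2 : (2 : ℝ) ^ n * zz n = 1 := by
    unfold zz
    rw [← mul_pow]
    norm_num
  unfold thr
  calc (2 : ℝ) ^ n * spA K n k ≤ 2 ^ n * zz n ^ 6 := mul_le_mul_of_nonneg_left h1 (by positivity)
    _ = (2 ^ n * zz n) * zz n ^ 5 := by ring
    _ = zz n ^ 5 := by rw [h2, one_mul]

/-- The error. -/
noncomputable def g1err (n : ℕ) : ℝ :=
  ((1 + zz n) ^ (n + 1) - 1) + 2 * (1 + zz n) ^ n * (200 * zz n + n * (50 * zz n ^ 5)) +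
    100 * zz n

theorem nzz_tendsto : Tendsto (fun n : ℕ => (n : ℝ) * zz n) atTop (𝓝 0) := by
  have h := tendsto_self_mul_const_pow_of_lt_one (r := (1 / 2 : ℝ)) (by norm_num) (by norm_num)
  exact h

theorem pow_zz_tendsto (m : ℕ) : Tendsto (fun n : ℕ => (1 + zz n) ^ (n + m)) atTop (𝓝 1) := by
  have h1 : Tendsto (fun n : ℕ => Real.exp (((n : ℝ) + m) * zz n)) atTop (𝓝 1) := by
    have h2 : Tendsto (fun n : ℕ => ((n : ℝ) + m) * zz n) atTop (𝓝 0) := by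
      have h3 : (fun n : ℕ => ((n : ℝ) + m) * zz n) = fun n : ℕ => (n : ℝ) * zz n + m * zz n := by
        funext n
        ring
      rw [h3]
      have h4 := nzz_tendsto.add (zz_tendsto.const_mul (m : ℝ))
      simpa using h4
    have h5 := (Real.continuous_exp.tendsto 0).comp h2
    rw [Real.exp_zero] at h5
    exact h5
  refine tendsto_of_tendsto_of_tendsto_of_le_of_le tendsto_const_nhds h1 ?_ ?_
  · intro n
    exact one_le_pow₀ (by linarith [zz_pos n])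
  · intro n
    have h6 : 1 + zz n ≤ Real.exp (zz n) := by
      have := Real.add_one_le_exp (zz n)
      linarith
    calc (1 + zz n) ^ (n + m) ≤ Real.exp (zz n) ^ (n + m) :=
          pow_le_pow_left₀ (by linarith [zz_pos n]) h6 _
      _ = Real.exp (((n : ℝ) + m) * zz n) := by
          rw [← Real.exp_nat_mul]
          push_cast
          ring_nf

theorem g1err_tendsto : Tendsto g1err atTop (𝓝 0) := by
  have h1 := pow_zz_tendsto 1
  have h0 := pow_zz_tendsto 0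
  have h2 : Tendsto (fun n : ℕ => 200 * zz n + n * (50 * zz n ^ 5)) atTop (𝓝 0) := by
    have h3 : (fun n : ℕ => 200 * zz n + n * (50 * zz n ^ 5)) =
        fun n : ℕ => 200 * zz n + 50 * ((n * zz n) * zz n ^ 4) := by
      funext n
      ring
    rw [h3]
    have h4 := (zz_tendsto.const_mul 200).add
      ((nzz_tendsto.mul (zz_tendsto.pow 4)).const_mul 50)
    simpa using h4
  have h5 := ((h1.sub_const 1).add ((h0.const_mul 2).mul h2)).add (zz_tendsto.const_mul 100)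
  have h6 : g1err = fun n : ℕ => ((1 + zz n) ^ (n + 1) - 1) +
      2 * (1 + zz n) ^ n * (200 * zz n + n * (50 * zz n ^ 5)) + 100 * zz n := rfl
  rw [h6]
  simpa using h5

theorem zz_small {n : ℕ} (hn : 7 ≤ n) : zz n ≤ 1 / 128 := by
  have h := zz_anti hn
  have h7 : zz 7 = 1 / 128 := by
    unfold zz
    norm_num
  rwa [h7] at h

theorem nzz_le (n : ℕ) : (n : ℝ) * zz n ≤ 1 := by
  have h1 : (n : ℝ) ≤ 2 ^ n := by
    have := Nat.lt_two_pow_self (n := n)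
    exact_mod_cast this.le
  have h2 : (2 : ℝ) ^ n * zz n = 1 := by
    unfold zz
    rw [← mul_pow]
    norm_num
  have := zz_pos n
  nlinarith

theorem g1_T {z : ℝ} (hz : 0 < z) (hz' : z ≤ 1 / 128) :
    50 * z ^ 5 + (1 + z) * (50 * z ^ 5) / z ≤ 60 * z ^ 4 := by
  have h1 : (1 + z) * (50 * z ^ 5) / z = 50 * z ^ 4 + 50 * z ^ 5 := by
    field_simp
  rw [h1]
  have h2 : z ^ 5 ≤ z ^ 4 * (1 / 128) := by
    have : z ^ 5 = z ^ 4 * z := by ring
    rw [this]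
    exact mul_le_mul_of_nonneg_left hz' (by positivity)
  have h3 : 0 < z ^ 4 := by positivity
  linarith

/-- The two comparison maps for one `n`. -/
theorem g1_pair (K : Core) {n : ℕ} (hn7 : 7 ≤ n) (hL : Large K n) (hn : 2 ≤ (n : ℕ∞)) :
    ∃ (Θ : (sp K ⊤ le_top).Pt → (sp K n hn).Pt) (Φ : (sp K n hn).Pt → (sp K ⊤ le_top).Pt),
      (∀ a b, dist (Θ a) (Θ b) ≤ (1 + g1err n) * dist a b + g1err n) ∧
      (∀ a b, dist (Φ a) (Φ b) ≤ (1 + g1err n) * dist a b + g1err n) ∧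
      (∀ a, dist (Φ (Θ a)) a ≤ g1err n) ∧ (∀ m, dist (Θ (Φ m)) m ≤ g1err n) ∧
      ∀ a, sph K n hn a ∈ hGood K n → sph K ⊤ le_top (Φ a) = sph K n hn a := by
  have hn2 : 2 ≤ n := by omega
  have hz := zz_pos n
  have hz' := zz_small hn7
  have hne : (n : ℕ∞) ≠ ⊤ := ENat.natCast_ne_top n
  obtain ⟨m, rfl⟩ : ∃ m, n = m + 1 := ⟨n - 1, by omega⟩
  set n := m + 1 with hnm
  set ZB : Fin m → Set Host := fun j => hZB K n (j.1 + 1) with hZBdef
  have hjn : ∀ j : Fin m, 1 ≤ j.1 + 1 ∧ j.1 + 1 < n := fun j => ⟨by omega, by omega⟩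
  have hXB : ∀ j, Disjoint (hZX n) (ZB j) := fun j => hZX_disjoint K (hjn j).2
  have hBB : ∀ i j, i ≠ j → Disjoint (ZB i) (ZB j) := by
    intro i j hij
    refine hZB_disjoint K n ?_
    intro h
    exact hij (Fin.ext (by omega))
  have mkSide : ∀ (N N' : ℕ∞) (hN : 2 ≤ N) (hN' : 2 ≤ N') (_ : N = (n : ℕ∞) ∨ N = ⊤)
      (_ : N' = (n : ℕ∞) ∨ N' = ⊤) (_ : N ≠ N'),
      Side (P := sp K N hN) (Q := sp K N' hN') (sph K N hN) (sph K N' hN') (hGood K n) (hZX n) m ZB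
        (1 + zz n) := by
    intro N N' hN hN' h1 h2 h3
    refine ⟨fun p hp => side_compat hn2 h1 h2 h3 p hp, fun p hp => ?_⟩
    rcases side_bad K hL hN h1 hp with h4 | ⟨k, hk, hkn, h4⟩
    · exact Or.inl h4
    · right
      refine ⟨⟨k - 1, by omega⟩, ?_⟩
      have h5 : ZB ⟨k - 1, by omega⟩ = hZB K n k := by
        simp only [hZBdef]
        rw [Nat.sub_add_cancel hk]
      rw [h5]
      exact h4
  have S := mkSide ⊤ n le_top hn (Or.inr rfl) (Or.inl rfl) hne.symm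
  have S' := mkSide n ⊤ hn le_top (Or.inl rfl) (Or.inr rfl) hne
  set τ : ℝ := 50 * zz n ^ 5 with hτ
  have hτ0 : 0 < τ := by positivity
  have hr0 : 0 < 100 * zz n := by positivity
  have bX : ∀ (N : ℕ∞) (hN : 2 ≤ N) (_ : N = (n : ℕ∞) ∨ N = ⊤) (q : (sp K N hN).Pt),
      sph K N hN q ∈ hZX n → dist q (cXpt K N hN n) < 100 * zz n :=
    fun N hN h q hq => zoneX_bound K hn2 hN h hq
  have bB : ∀ (N : ℕ∞) (hN : 2 ≤ N) (_ : N = (n : ℕ∞) ∨ N = ⊤) (j : Fin m) (q : (sp K N hN).Pt),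
      sph K N hN q ∈ ZB j → dist q (cBpt K N hN n (j.1 + 1)) < τ := by
    intro N hN h j q hq
    have h1 := zoneB_bound K hL hN h (hjn j).1 (hjn j).2 hq
    have h2 := thr_le_zz K n (j.1 + 1)
    linarith
  have hT := g1_T hz hz'
  have hsep : ∀ (N : ℕ∞) (hN : 2 ≤ N) (_ : N = (n : ℕ∞) ∨ N = ⊤) (i j : Fin m), i ≠ j →
      τ + (1 + zz n) * τ / zz n ≤ dist (cBpt K N hN n (i.1 + 1)) (cBpt K N hN n (j.1 + 1)) := by
    intro N hN h i j hij
    have h1 := cBpt_sep K hL hN h (hjn i).1 (hjn i).2 (hjn j).1 (hjn j).2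
      (fun h => hij (Fin.ext (by omega)))
    have h2 := zz_anti (hjn i).2.le
    have h3 : zz n ^ 2 ≤ zz (i.1 + 1) ^ 2 := pow_le_pow_left₀ hz.le h2 2
    have h4 : 60 * zz n ^ 4 ≤ zz n ^ 2 / 100 := by
      have h5 : zz n ^ 2 ≤ (1 / 128) ^ 2 := pow_le_pow_left₀ hz.le hz' 2
      have h6 : zz n ^ 4 = zz n ^ 2 * zz n ^ 2 := by ring
      rw [h6]
      nlinarith only [sq_nonneg (zz n), h5]
    linarith
  have hcount : 2 * (m : ℝ) * (τ + (1 + zz n) * τ / zz n) ≤ 100 * zz n := by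
    have h1 : (m : ℝ) * zz n ≤ 1 := by
      have h2 := nzz_le n
      have h3 : (n : ℝ) = m + 1 := by
        rw [hnm]
        push_cast
        ring
      rw [h3] at h2
      linarith
    have hm0 : (0 : ℝ) ≤ m := Nat.cast_nonneg m
    calc 2 * (m : ℝ) * (τ + (1 + zz n) * τ / zz n) ≤ 2 * m * (60 * zz n ^ 4) :=
          mul_le_mul_of_nonneg_left hT (by positivity)
      _ = 120 * (m * zz n) * zz n ^ 3 := by ring
      _ ≤ 120 * 1 * zz n ^ 3 := by gcongr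
      _ = 120 * zz n ^ 2 * zz n := by ring
      _ ≤ 120 * (1 / 128) ^ 2 * zz n := by gcongr
      _ ≤ 100 * zz n := by nlinarith only [hz]
  have hK0 : 0 ≤ 1 + zz n := by linarith
  have hp1 : (1 : ℝ) ≤ (1 + zz n) ^ (n + 1) := one_le_pow₀ (by linarith)
  have hmn : (m : ℝ) ≤ n := by
    rw [hnm]
    push_cast
    linarith
  have hp0 : (0 : ℝ) ≤ 2 * (1 + zz n) ^ n := by positivity
  have herr2 : 2 * (1 + zz n) ^ (m + 1) * (2 * (100 * zz n) + m * τ) ≤ g1err n := by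
    unfold g1err
    have h1 : 2 * (1 + zz n) ^ (m + 1) * (2 * (100 * zz n) + m * τ) ≤
        2 * (1 + zz n) ^ n * (200 * zz n + n * (50 * zz n ^ 5)) := by
      refine mul_le_mul_of_nonneg_left ?_ hp0
      have : (m : ℝ) * τ ≤ n * (50 * zz n ^ 5) := mul_le_mul_of_nonneg_right hmn hτ0.le
      linarith
    linarith
  have herr1 : (1 + zz n) * (1 + zz n) ^ (m + 1) ≤ 1 + g1err n := by
    unfold g1err
    have h1 : (1 + zz n) * (1 + zz n) ^ (m + 1) = (1 + zz n) ^ (n + 1) := by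
      rw [← pow_succ']
    have h2 : 0 ≤ 2 * (1 + zz n) ^ n * (200 * zz n + n * (50 * zz n ^ 5)) := by positivity
    rw [h1]
    linarith
  have herr3 : 100 * zz n ≤ g1err n := by
    unfold g1err
    have h2 : 0 ≤ 2 * (1 + zz n) ^ n * (200 * zz n + n * (50 * zz n ^ 5)) := by positivity
    linarith
  have hτr : τ ≤ 100 * zz n := by
    have h1 : zz n ^ 5 ≤ zz n := by
      have : zz n ^ 5 ≤ zz n ^ 1 := pow_le_pow_of_le_one hz.le (by linarith) (by norm_num)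
      simpa using this
    linarith
  refine ⟨cmpMap (sph K ⊤ le_top) (sph K n hn) (hGood K n) (hZX n) m ZB (cXpt K n hn n)
      (fun j => cBpt K n hn n (j.1 + 1)),
    cmpMap (sph K n hn) (sph K ⊤ le_top) (hGood K n) (hZX n) m ZB (cXpt K ⊤ le_top n)
      (fun j => cBpt K ⊤ le_top n (j.1 + 1)), ?_, ?_, ?_, ?_, ?_⟩
  · intro a b
    have h1 := cmpMap_lip (cX := cXpt K n hn n) (cB := fun j => cBpt K n hn n (j.1 + 1)) S
      (sph_injective K n hn) hXB hBB hK0 hr0 hτ0 hz (bX n hn (Or.inl rfl))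
      (bB n hn (Or.inl rfl)) (hsep n hn (Or.inl rfl)) hcount a b
    have h2 := mul_le_mul_of_nonneg_right herr1 (dist_nonneg (x := a) (y := b))
    linarith
  · intro a b
    have h1 := cmpMap_lip (cX := cXpt K ⊤ le_top n) (cB := fun j => cBpt K ⊤ le_top n (j.1 + 1)) S'
      (sph_injective K ⊤ le_top) hXB hBB hK0 hr0 hτ0 hz (bX ⊤ le_top (Or.inr rfl))
      (bB ⊤ le_top (Or.inr rfl)) (hsep ⊤ le_top (Or.inr rfl)) hcount a b
    have h2 := mul_le_mul_of_nonneg_right herr1 (dist_nonneg (x := a) (y := b))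
    linarith
  · intro a
    refine (cmpMap_inv S S' (sph_injective K ⊤ le_top) hXB hBB ?_ ?_ ?_ ?_ hr0 hτr
      (bX ⊤ le_top (Or.inr rfl)) (bB ⊤ le_top (Or.inr rfl)) a).trans herr3
    · rw [cXpt_host K hn2 hn (Or.inl rfl), cXpt_host K hn2 le_top (Or.inr rfl)]
    · exact cXpt_good K hn2 hn (Or.inl rfl)
    · intro j
      exact (cBpt_host K hL le_top (Or.inr rfl) (hjn j).1 (hjn j).2 hn).symm
    · intro j
      exact cBpt_good K hL hn (Or.inl rfl) (hjn j).1 (hjn j).2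
  · intro a
    refine (cmpMap_inv S' S (sph_injective K n hn) hXB hBB ?_ ?_ ?_ ?_ hr0 hτr
      (bX n hn (Or.inl rfl)) (bB n hn (Or.inl rfl)) a).trans herr3
    · rw [cXpt_host K hn2 hn (Or.inl rfl), cXpt_host K hn2 le_top (Or.inr rfl)]
    · exact cXpt_good K hn2 le_top (Or.inr rfl)
    · intro j
      exact cBpt_host K hL le_top (Or.inr rfl) (hjn j).1 (hjn j).2 hn
    · intro j
      exact cBpt_good K hL le_top (Or.inr rfl) (hjn j).1 (hjn j).2
  · intro a ha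
    exact cmpMap_good S' ha

/-! ### The base points -/

/-- The points of the patch `0` over `(0, 10)` do not depend on `N`. -/
theorem base_pred (K : Core) {n : ℕ} (hn : 2 ≤ n) (hn' : 2 ≤ (n : ℕ∞)) (a : E4) :
    (a ∈ Pool.Agent.W_MP_654ec6.VA (spAmb K n hn').N (spAmb K n hn').ρ 0 ∧
      pX (spAmb K n hn').N 0 a = 0 ∧ pY (spAmb K n hn').N 0 a = 10) ↔
    (a ∈ Pool.Agent.W_MP_654ec6.VA (spAmb K ⊤ le_top).N (spAmb K ⊤ le_top).ρ 0 ∧
      pX (spAmb K ⊤ le_top).N 0 a = 0 ∧ pY (spAmb K ⊤ le_top).N 0 a = 10) := by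
  have hn1 : 1 ≤ n := by omega
  have hj0 : 0 < n := by omega
  have hz := zz_pos n
  have hz1 := zz_anti hn
  have hz2 : zz 2 = 1 / 4 := by unfold zz; norm_num
  have hc := coord_eq_top hj0 a
  have hF : FF ⊤ (zz n) ≤ 0 := by
    have h1 := FF_mono ⊤ hz.le (show zz n ≤ 1 by linarith)
    have h2 : FF ⊤ 1 = 0 := by
      unfold FF
      simp
    linarith
  change (a ∈ Pool.Agent.W_MP_654ec6.VA n (spRad K n) 0 ∧ pX n 0 a = 0 ∧ pY n 0 a = 10) ↔
    (a ∈ Pool.Agent.W_MP_654ec6.VA ⊤ (spRad K ⊤) 0 ∧ pX ⊤ 0 a = 0 ∧ pY ⊤ 0 a = 10)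
  rw [hc.1, hc.2]
  have key : pX ⊤ 0 a = 0 → pY ⊤ 0 a = 10 →
      (a ∈ Pool.Agent.W_MP_654ec6.VA n (spRad K n) 0 ↔
        a ∈ Pool.Agent.W_MP_654ec6.VA ⊤ (spRad K ⊤) 0) := by
    intro h1 h2
    have hg : goodXY n |pX ⊤ 0 a| (pY ⊤ 0 a) := by
      right
      rw [h2]
      linarith
    have hV := VC_high hn1 hj0 (u := a) (by rw [h1, abs_zero]; exact hz.le)
      (by rw [h2]; linarith)
    constructor
    · rintro ⟨-, -, h3⟩
      refine ⟨le_top, hV.2, ?_⟩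
      rw [hc.1, hc.2] at h3
      exact (outDisks_cmp K hn1 hg).1 h3
    · rintro ⟨-, -, h3⟩
      refine ⟨by simp, hV.1, ?_⟩
      rw [hc.1, hc.2]
      exact (outDisks_cmp K hn1 hg).2 h3
  constructor
  · rintro ⟨h1, h2, h3⟩
    exact ⟨(key h2 h3).1 h1, h2, h3⟩
  · rintro ⟨h1, h2, h3⟩
    exact ⟨(key h2 h3).2 h1, h2, h3⟩

theorem choose_congr {α : Type} {p q : α → Prop} (h : p = q) (hp : ∃ a, p a) (hq : ∃ a, q a) :
    Classical.choose hp = Classical.choose hq := by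
  subst h
  rfl

theorem spPt_eq (K : Core) {n : ℕ} (hn : 2 ≤ n) (hn' : 2 ≤ (n : ℕ∞)) :
    spPt K n hn' = spPt K ⊤ le_top := by
  unfold spPt
  exact choose_congr (funext fun a => propext (base_pred K hn hn' a)) _ _

theorem base_goodC (K : Core) {n : ℕ} (hn : 2 ≤ n) : GoodC K n 0 (spPt K ⊤ le_top) := by
  have hn1 : 1 ≤ n := by omega
  have hn' : 2 ≤ (n : ℕ∞) := by exact_mod_cast hn
  have h1 := Classical.choose_spec (amb_nonempty (spAmb K ⊤ le_top))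
  have h2 := (base_pred K hn hn' _).2 h1
  have hz := zz_pos n
  have hz1 := zz_anti hn
  have hz2 : zz 2 = 1 / 4 := by unfold zz; norm_num
  have hF : FF ⊤ (zz n) ≤ 0 := by
    have h1 := FF_mono ⊤ hz.le (show zz n ≤ 1 by linarith)
    have h2 : FF ⊤ 1 = 0 := by
      unfold FF
      simp
    linarith
  refine ⟨by omega, h2.1, h1.1, ?_⟩
  right
  have h3 : pY ⊤ 0 (spPt K ⊤ le_top) = 10 := h1.2.2
  rw [h3]
  linarith

theorem base_host (K : Core) {n : ℕ} (hn : 2 ≤ n) {N : ℕ∞} (hN : 2 ≤ N)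
    (hNn : N = (n : ℕ∞) ∨ N = ⊤) :
    sph K N hN (sp K N hN).base = Sum.inl (Sum.inl (TauPt.mk (nA ⊤ 0 (spPt K ⊤ le_top)))) := by
  have hpt : spPt K N hN = spPt K ⊤ le_top := by
    rcases hNn with rfl | rfl
    · exact spPt_eq K hn hN
    · rfl
  have h1 : (sp K N hN).base = (sp K N hN).ψ (ixC K N hN 0) (spPt K ⊤ le_top) := by
    symm
    refine sp_eq_of_val (i := ixC K N hN 0) ((base_goodC K hn).mem hNn) ?_
    rw [← hpt]
    rfl
  rw [h1, goodC_host hNn (base_goodC K hn)]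

theorem base_map (K : Core) {n : ℕ} (hn : 2 ≤ n) (hn' : 2 ≤ (n : ℕ∞))
    {Φ : (sp K n hn').Pt → (sp K ⊤ le_top).Pt}
    (hΦ : ∀ a, sph K n hn' a ∈ hGood K n → sph K ⊤ le_top (Φ a) = sph K n hn' a) :
    Φ (sp K n hn').base = (sp K ⊤ le_top).base := by
  apply sph_injective K ⊤ le_top
  have h1 := base_host K hn hn' (Or.inl rfl)
  have h2 := base_host K hn le_top (Or.inr rfl)
  rw [hΦ _ (by rw [h1]; exact goodC_good (base_goodC K hn)), h1, h2]

/-! ### The convergence -/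

theorem large_ev (K : Core) : ∃ n₁ : ℕ, 7 ≤ n₁ ∧ ∀ n, n₁ ≤ n → Large K n := by
  have h1 : Tendsto (fun n : ℕ => 2 * zz n ^ 5) atTop (𝓝 0) := by
    have := (zz_tendsto.pow 5).const_mul 2
    simpa using this
  have hA := K.A0_pos
  obtain ⟨n₁, hn₁⟩ := eventually_atTop.1 (h1.eventually_lt_const (show 0 < K.A0 / 4 by positivity))
  refine ⟨max n₁ 7, le_max_right _ _, fun n hn => ⟨?_, fun k => ?_⟩⟩
  · have := le_max_right n₁ 7
    omega
  · have h2 := hn₁ n ((le_max_left _ _).trans hn)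
    have h3 := thr_le_zz K n k
    linarith

/-- Pointed Gromov-Hausdorff convergence from almost isometries for large indices. -/
theorem pgh_shift {X : Type} [MetricSpace X] (M : ℕ → Type) [∀ n, MetricSpace (M n)]
    (p : ∀ n, M n) (x : X) (n₁ : ℕ)
    (h : PGH (fun n => (dist : M (n + n₁) → M (n + n₁) → ℝ)) (fun n => p (n + n₁))
      (dist : X → X → ℝ) x) :
    PGH (fun n => (dist : M n → M n → ℝ)) p (dist : X → X → ℝ) x := by
  intro r hr ε hε
  obtain ⟨n₀, hn₀⟩ := h r hr ε hε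
  refine ⟨n₀ + n₁, fun n hn => ?_⟩
  obtain ⟨m, rfl⟩ : ∃ m, n = m + n₁ := ⟨n - n₁, by omega⟩
  exact hn₀ m (by omega)

end Pool.Agent.W_MP_654ec6_h2
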