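import Pool.Agent.W_MP_654ec6_h2.GDefs

/-!
# Part G, Geod: distances and geodesics of the model cone

`modD_cv_sq`: the model distance of `(X₁, M₁ ξ₁)` and `(X₂, M₂ ξ₂)`.

`exists_geod`: a geodesic of the model from `(X, y ξ)` to `(X', y' ξ')`. PROOF. Let `θ = ∠ ξ ξ'`,
`α = R θ ∈ [0, π/2]` (`R ≤ 1/2`), and let `ξ₂` be a unit vector orthogonal to `ξ` with
`ξ' = cos θ ξ + sin θ ξ₂` (if `θ = 0` or `θ = π` any unit vector orthogonal to `ξ`, otherwise
`(ξ' - cos θ ξ) / sin θ`). Put `E φ = cos φ ξ + sin φ ξ₂`, so `⟪E φ, E ψ⟫ = cos (φ - ψ)`. Let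
`z t = (1 - t) y + t y' exp (i α)` (a complex number with positive real part for `y, y' > 0`, except
that for `α = π/2`, `t = 1` the real part is `0`), `Yt t = ‖z t‖`, `φ t = arg (z t) ∈ [0, α]`
(if `φ > α`, then `sin (φ - α) > 0`, but `‖z‖ sin (φ - α) = Im z cos α - Re z sin α =
-(1 - t) y sin α ≤ 0`), `Xt t = (1 - t) X + t X'`, `Ξ t = E (φ t / R)`.
For `s, t ∈ [0,1]`: `|φ s - φ t| / R ≤ θ ≤ π`, so `∠ (Ξ s) (Ξ t) = |φ s - φ t| / R` and
`modD ^ 2 = (Xs - Xt)² + ‖z s‖² + ‖z t‖² - 2 ‖z s‖ ‖z t‖ cos (φ s - φ t) = (Xs - Xt)² + ‖z s - z t‖²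
= (s - t)² ((X' - X)² + ‖z 1 - z 0‖²) = (s - t)² modD (start) (end) ^ 2`.
`‖z t‖² = (1-t)² y² + t² y'² + 2 t (1-t) y y' cos α ≥ ((1-t)² + t²) min² ≥ min² / 2 ≥ (min / 2)²`, and
`‖z t‖ ≤ max y y'` by convexity. Continuity: `Complex.continuousAt_arg` (`z t ∈ slitPlane`, also in the
case `α = π/2`, `t = 1`, where `z = i y'`).
-/

open scoped RealInnerProductSpace Topology
open Filter InnerProductGeometry

namespace Pool.Agent.W_MP_654ec6_h2

open Pool.Agent.W_MP_654ec6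

theorem modD_cv_sq (R : ℝ) {X₁ X₂ M₁ M₂ : ℝ} {ξ₁ ξ₂ : E3} (h1 : 0 ≤ M₁) (h2 : 0 ≤ M₂)
    (hξ₁ : ‖ξ₁‖ = 1) (hξ₂ : ‖ξ₂‖ = 1) :
    modD R (cv X₁ (M₁ • ξ₁)) (cv X₂ (M₂ • ξ₂)) ^ 2 =
      (X₁ - X₂) ^ 2 + (M₁ - M₂) ^ 2 + 2 * (M₁ * M₂) * (1 - Real.cos (R * angle ξ₁ ξ₂)) := by
  have e : ‖tl (cv X₁ (M₁ • ξ₁))‖ * ‖tl (cv X₂ (M₂ • ξ₂))‖ *
      Real.cos (R * angle (tl (cv X₁ (M₁ • ξ₁))) (tl (cv X₂ (M₂ • ξ₂)))) =
      M₁ * M₂ * Real.cos (R * angle ξ₁ ξ₂) := by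
    rw [tl_cv, tl_cv, norm_smul, norm_smul, hξ₁, hξ₂, mul_one, mul_one, Real.norm_eq_abs,
      Real.norm_eq_abs, abs_of_nonneg h1, abs_of_nonneg h2]
    rcases h1.eq_or_lt with h | h
    · rw [← h]; simp
    · rcases h2.eq_or_lt with h' | h'
      · rw [← h']; simp
      · rw [angle_smul_left_of_pos _ _ h, angle_smul_right_of_pos _ _ h']
  rw [modD_sq, norm_cv_sq, norm_cv_sq]
  unfold modC
  rw [e, norm_smul, norm_smul, hξ₁, hξ₂, mul_one, mul_one, Real.norm_eq_abs,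
      Real.norm_eq_abs, sq_abs, sq_abs, cv_zero, cv_zero]
  ring

theorem geod_orth {ξ : E3} (hξ : ‖ξ‖ = 1) : ∃ ξ₂ : E3, ‖ξ₂‖ = 1 ∧ inner ℝ ξ ξ₂ = 0 := by
  have hne : ξ ≠ 0 := by
    intro h
    rw [h, norm_zero] at hξ
    exact zero_ne_one hξ
  have : Fact (Module.finrank ℝ E3 = 2 + 1) := ⟨by simp [E3]⟩
  have h1 : Module.finrank ℝ (Submodule.span ℝ {ξ})ᗮ = 2 :=
    Submodule.finrank_orthogonal_span_singleton hne
  have h2 : (Submodule.span ℝ {ξ})ᗮ ≠ ⊥ := by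
    intro h
    rw [h, finrank_bot] at h1
    omega
  obtain ⟨v, hv, hv0⟩ := Submodule.exists_mem_ne_zero_of_ne_bot h2
  refine ⟨‖v‖⁻¹ • v, ?_, ?_⟩
  · rw [norm_smul, norm_inv, norm_norm]
    exact inv_mul_cancel₀ (norm_ne_zero_iff.2 hv0)
  · rw [inner_smul_right, Submodule.mem_orthogonal_singleton_iff_inner_right.1 hv, mul_zero]

theorem geod_frame {ξ ξ' : E3} (hξ : ‖ξ‖ = 1) (hξ' : ‖ξ'‖ = 1) : ∃ ξ₂ : E3, ‖ξ₂‖ = 1 ∧
    inner ℝ ξ ξ₂ = 0 ∧ ξ' = Real.cos (angle ξ ξ') • ξ + Real.sin (angle ξ ξ') • ξ₂ := by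
  have hin : inner ℝ ξ ξ' = Real.cos (angle ξ ξ') := by
    rw [InnerProductGeometry.cos_angle, hξ, hξ', mul_one, div_one]
  set θ := angle ξ ξ' with hθ
  have hcs := Real.sin_sq_add_cos_sq θ
  have hn : ‖ξ' - Real.cos θ • ξ‖ ^ 2 = Real.sin θ ^ 2 := by
    rw [norm_sub_sq_real, inner_smul_right, real_inner_comm, hin, norm_smul, hξ, hξ', mul_one,
      Real.norm_eq_abs, sq_abs]
    nlinarith
  by_cases hs : Real.sin θ = 0
  · obtain ⟨ξ₂, h1, h2⟩ := geod_orth hξ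
    refine ⟨ξ₂, h1, h2, ?_⟩
    rw [hs, zero_smul, add_zero]
    rw [hs] at hn
    have : ‖ξ' - Real.cos θ • ξ‖ = 0 := by
      have h3 : ‖ξ' - Real.cos θ • ξ‖ ^ 2 = 0 := by rw [hn]; ring
      exact pow_eq_zero_iff (two_ne_zero) |>.1 h3
    exact sub_eq_zero.1 (norm_eq_zero.1 this)
  · have hspos : 0 < Real.sin θ :=
      lt_of_le_of_ne (Real.sin_nonneg_of_nonneg_of_le_pi (angle_nonneg _ _) (angle_le_pi _ _))
        (Ne.symm hs)
    have hn' : ‖ξ' - Real.cos θ • ξ‖ = Real.sin θ := by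
      have := (sq_eq_sq₀ (norm_nonneg _) hspos.le).1 hn
      exact this
    refine ⟨(Real.sin θ)⁻¹ • (ξ' - Real.cos θ • ξ), ?_, ?_, ?_⟩
    · rw [norm_smul, hn', Real.norm_eq_abs, abs_inv, abs_of_pos hspos]
      exact inv_mul_cancel₀ hs
    · rw [inner_smul_right, inner_sub_right, inner_smul_right, hin, real_inner_self_eq_norm_sq, hξ]
      ring
    · rw [smul_smul, mul_inv_cancel₀ hs, one_smul]
      abel

/-- the great circle -/
noncomputable def geod_E (ξ ξ₂ : E3) (φ : ℝ) : E3 := Real.cos φ • ξ + Real.sin φ • ξ₂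

theorem geod_E_inner {ξ ξ₂ : E3} (hξ : ‖ξ‖ = 1) (hξ₂ : ‖ξ₂‖ = 1) (ho : inner ℝ ξ ξ₂ = 0)
    (a b : ℝ) : inner ℝ (geod_E ξ ξ₂ a) (geod_E ξ ξ₂ b) = Real.cos (a - b) := by
  unfold geod_E
  rw [inner_add_left, inner_add_right, inner_add_right, inner_smul_left, inner_smul_left,
    inner_smul_left, inner_smul_left, inner_smul_right, inner_smul_right, inner_smul_right,
    inner_smul_right, real_inner_self_eq_norm_sq, real_inner_self_eq_norm_sq, hξ, hξ₂, ho,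
    real_inner_comm ξ ξ₂, ho, Real.cos_sub]
  simp

theorem geod_E_norm {ξ ξ₂ : E3} (hξ : ‖ξ‖ = 1) (hξ₂ : ‖ξ₂‖ = 1) (ho : inner ℝ ξ ξ₂ = 0)
    (a : ℝ) : ‖geod_E ξ ξ₂ a‖ = 1 := by
  have h := geod_E_inner hξ hξ₂ ho a a
  rw [real_inner_self_eq_norm_sq, sub_self, Real.cos_zero] at h
  exact (sq_eq_sq₀ (norm_nonneg _) zero_le_one).1 (by rw [h]; norm_num)

theorem geod_E_angle {ξ ξ₂ : E3} (hξ : ‖ξ‖ = 1) (hξ₂ : ‖ξ₂‖ = 1) (ho : inner ℝ ξ ξ₂ = 0)
    {a b : ℝ} (hab : |a - b| ≤ Real.pi) :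
    angle (geod_E ξ ξ₂ a) (geod_E ξ ξ₂ b) = |a - b| := by
  unfold angle
  rw [geod_E_inner hξ hξ₂ ho, geod_E_norm hξ hξ₂ ho, geod_E_norm hξ hξ₂ ho, mul_one, div_one,
    ← Real.cos_abs, Real.arccos_cos (abs_nonneg _) hab]

/-- the point of the plane -/
noncomputable def geod_z (y y' α t : ℝ) : ℂ :=
  (((1 - t) * y + t * y' * Real.cos α : ℝ) : ℂ) + ((t * y' * Real.sin α : ℝ) : ℂ) * Complex.I

theorem geod_z_re (y y' α t : ℝ) : (geod_z y y' α t).re = (1 - t) * y + t * y' * Real.cos α := by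
  unfold geod_z
  rw [Complex.add_re, Complex.ofReal_re, Complex.re_ofReal_mul, Complex.I_re, mul_zero, add_zero]

theorem geod_z_im (y y' α t : ℝ) : (geod_z y y' α t).im = t * y' * Real.sin α := by
  unfold geod_z
  rw [Complex.add_im, Complex.ofReal_im, Complex.im_ofReal_mul, Complex.I_im, mul_one, zero_add]

theorem geod_z_cont (y y' α : ℝ) : Continuous (geod_z y y' α) := by
  unfold geod_z
  fun_prop

theorem geod_z_normsq (y y' α t : ℝ) : ‖geod_z y y' α t‖ ^ 2 =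
    ((1 - t) * y + t * y' * Real.cos α) ^ 2 + (t * y' * Real.sin α) ^ 2 := by
  rw [Complex.sq_norm, Complex.normSq_apply, geod_z_re, geod_z_im]
  ring

theorem geod_z_zero {y : ℝ} (y' α : ℝ) : geod_z y y' α 0 = (y : ℂ) := by
  unfold geod_z
  simp

theorem geod_z_one (y : ℝ) (y' α : ℝ) :
    geod_z y y' α 1 = (y' : ℂ) * (Complex.cos α + Complex.sin α * Complex.I) := by
  unfold geod_z
  push_cast
  ring

theorem geod_z_slit {y y' α t : ℝ} (hy : 0 < y) (hy' : 0 < y') (hα0 : 0 ≤ α)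
    (hα : α ≤ Real.pi / 2) (ht : t ∈ Set.Icc (0 : ℝ) 1) :
    geod_z y y' α t ∈ Complex.slitPlane := by
  rw [Complex.mem_slitPlane_iff, geod_z_re, geod_z_im]
  have hc : 0 ≤ Real.cos α := Real.cos_nonneg_of_neg_pi_div_two_le_of_le (by linarith [Real.pi_pos]) hα
  obtain ⟨h0, h1⟩ := ht
  rcases lt_or_eq_of_le h1 with h | h
  · left
    have h2 : 0 < (1 - t) * y := mul_pos (by linarith) hy
    have h3 : 0 ≤ t * y' * Real.cos α := by positivity
    linarith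
  · subst h
    rcases lt_or_eq_of_le hc with hc' | hc'
    · left
      have : 0 < 1 * y' * Real.cos α := by positivity
      linarith
    · right
      have hs : Real.sin α ≠ 0 := by
        intro h5
        have := Real.sin_sq_add_cos_sq α
        rw [h5, ← hc'] at this
        norm_num at this
      rw [one_mul]
      exact mul_ne_zero hy'.ne' hs

/-- the angle of the point -/
noncomputable def geod_phi (y y' α t : ℝ) : ℝ := Complex.arg (geod_z y y' α t)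

theorem geod_phi_mem {y y' α t : ℝ} (hy : 0 < y) (hy' : 0 < y') (hα0 : 0 ≤ α)
    (hα : α ≤ Real.pi / 2) (ht : t ∈ Set.Icc (0 : ℝ) 1) :
    0 ≤ geod_phi y y' α t ∧ geod_phi y y' α t ≤ α := by
  have hslit := geod_z_slit hy hy' hα0 hα ht
  have hc : 0 ≤ Real.cos α := Real.cos_nonneg_of_neg_pi_div_two_le_of_le (by linarith [Real.pi_pos]) hα
  have hs : 0 ≤ Real.sin α := Real.sin_nonneg_of_nonneg_of_le_pi hα0 (by linarith [Real.pi_pos])
  obtain ⟨h0, h1⟩ := ht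
  have h1' : 0 ≤ 1 - t := by linarith
  have hne : geod_z y y' α t ≠ 0 := Complex.slitPlane_ne_zero hslit
  have hpos : 0 < ‖geod_z y y' α t‖ := norm_pos_iff.2 hne
  have hge : 0 ≤ geod_phi y y' α t := by
    unfold geod_phi
    rw [Complex.arg_nonneg_iff, geod_z_im]
    positivity
  refine ⟨hge, ?_⟩
  by_contra hlt
  push Not at hlt
  have hle : |geod_phi y y' α t| ≤ Real.pi / 2 := by
    unfold geod_phi
    rw [Complex.abs_arg_le_pi_div_two_iff, geod_z_re]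
    positivity
  rw [abs_of_nonneg hge] at hle
  have hsp : 0 < Real.sin (geod_phi y y' α t - α) :=
    Real.sin_pos_of_pos_of_lt_pi (by linarith) (by linarith [Real.pi_pos])
  have e1 : ‖geod_z y y' α t‖ * Real.cos (geod_phi y y' α t) = (geod_z y y' α t).re :=
    Complex.norm_mul_cos_arg _
  have e2 : ‖geod_z y y' α t‖ * Real.sin (geod_phi y y' α t) = (geod_z y y' α t).im :=
    Complex.norm_mul_sin_arg _
  rw [geod_z_re] at e1
  rw [geod_z_im] at e2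
  have h5 : ‖geod_z y y' α t‖ * Real.sin (geod_phi y y' α t - α) = -((1 - t) * y * Real.sin α) := by
    rw [Real.sin_sub]
    linear_combination Real.cos α * e2 - Real.sin α * e1
  have h6 : 0 < ‖geod_z y y' α t‖ * Real.sin (geod_phi y y' α t - α) := mul_pos hpos hsp
  have h7 : 0 ≤ (1 - t) * y * Real.sin α := by positivity
  linarith

theorem geod_phi_cont {y y' α : ℝ} (hy : 0 < y) (hy' : 0 < y') (hα0 : 0 ≤ α)
    (hα : α ≤ Real.pi / 2) : ContinuousOn (geod_phi y y' α) (Set.Icc 0 1) := by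
  intro t ht
  exact (ContinuousAt.comp (f := geod_z y y' α) (Complex.continuousAt_arg
    (geod_z_slit hy hy' hα0 hα ht)) (geod_z_cont y y' α).continuousAt).continuousWithinAt

theorem geod_norm_bounds {y y' α t : ℝ} (hy : 0 < y) (hy' : 0 < y') (hα0 : 0 ≤ α)
    (hα : α ≤ Real.pi / 2) (ht : t ∈ Set.Icc (0 : ℝ) 1) :
    min y y' / 2 ≤ ‖geod_z y y' α t‖ ∧ ‖geod_z y y' α t‖ ≤ max y y' := by
  have hc : 0 ≤ Real.cos α := Real.cos_nonneg_of_neg_pi_div_two_le_of_le (by linarith [Real.pi_pos]) hα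
  have hc1 := Real.cos_le_one α
  have hcs := Real.sin_sq_add_cos_sq α
  obtain ⟨h0, h1⟩ := ht
  have h1' : 0 ≤ 1 - t := by linarith
  have hsq : ‖geod_z y y' α t‖ ^ 2 = ((1 - t) * y) ^ 2 + (t * y') ^ 2 +
      2 * ((1 - t) * y) * (t * y') * Real.cos α := by
    rw [geod_z_normsq]
    linear_combination (t * y') ^ 2 * hcs
  have hA : 0 ≤ (1 - t) * y := by positivity
  have hB : 0 ≤ t * y' := by positivity
  have hm : 0 < min y y' := lt_min hy hy'
  constructor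
  · refine le_of_sq_le_sq ?_ (norm_nonneg _)
    rw [hsq]
    have hA' : (1 - t) * min y y' ≤ (1 - t) * y := mul_le_mul_of_nonneg_left (min_le_left _ _) h1'
    have hB' : t * min y y' ≤ t * y' := mul_le_mul_of_nonneg_left (min_le_right _ _) h0
    have hA2 : ((1 - t) * min y y') ^ 2 ≤ ((1 - t) * y) ^ 2 :=
      pow_le_pow_left₀ (by positivity) hA' 2
    have hB2 : (t * min y y') ^ 2 ≤ (t * y') ^ 2 := pow_le_pow_left₀ (by positivity) hB' 2
    have hC : 0 ≤ 2 * ((1 - t) * y) * (t * y') * Real.cos α := by positivity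
    nlinarith [sq_nonneg ((2 * t - 1) * min y y'), sq_nonneg (min y y')]
  · have h2 : ‖geod_z y y' α t‖ ≤ (1 - t) * y + t * y' := by
      refine le_of_sq_le_sq ?_ (by positivity)
      rw [hsq]
      have hC : 2 * ((1 - t) * y) * (t * y') * Real.cos α ≤ 2 * ((1 - t) * y) * (t * y') := by
        have : 0 ≤ 2 * ((1 - t) * y) * (t * y') := by positivity
        nlinarith
      nlinarith
    have hA' : (1 - t) * y ≤ (1 - t) * max y y' := mul_le_mul_of_nonneg_left (le_max_left _ _) h1'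
    have hB' : t * y' ≤ t * max y y' := mul_le_mul_of_nonneg_left (le_max_right _ _) h0
    linarith

theorem geod_cos_sub (y y' α s t : ℝ) :
    ‖geod_z y y' α s‖ * ‖geod_z y y' α t‖ *
      Real.cos (geod_phi y y' α s - geod_phi y y' α t) =
      ((1 - s) * y + s * y' * Real.cos α) * ((1 - t) * y + t * y' * Real.cos α) +
        (s * y' * Real.sin α) * (t * y' * Real.sin α) := by
  have e1 : ‖geod_z y y' α s‖ * Real.cos (geod_phi y y' α s) = (geod_z y y' α s).re :=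
    Complex.norm_mul_cos_arg _
  have e2 : ‖geod_z y y' α s‖ * Real.sin (geod_phi y y' α s) = (geod_z y y' α s).im :=
    Complex.norm_mul_sin_arg _
  have e3 : ‖geod_z y y' α t‖ * Real.cos (geod_phi y y' α t) = (geod_z y y' α t).re :=
    Complex.norm_mul_cos_arg _
  have e4 : ‖geod_z y y' α t‖ * Real.sin (geod_phi y y' α t) = (geod_z y y' α t).im :=
    Complex.norm_mul_sin_arg _
  rw [geod_z_re] at e1 e3
  rw [geod_z_im] at e2 e4
  rw [← e1, ← e2, ← e3, ← e4, Real.cos_sub]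
  ring

theorem exists_geod {R : ℝ} (hR : 0 < R) (hR' : R ≤ 1 / 2) (X X' : ℝ) {y y' : ℝ} (hy : 0 < y)
    (hy' : 0 < y') {ξ ξ' : E3} (hξ : ‖ξ‖ = 1) (hξ' : ‖ξ'‖ = 1) :
    ∃ (Y : ℝ → ℝ) (Ξ : ℝ → E3), ContinuousOn Y (Set.Icc 0 1) ∧ ContinuousOn Ξ (Set.Icc 0 1) ∧
      Y 0 = y ∧ Y 1 = y' ∧ Ξ 0 = ξ ∧ Ξ 1 = ξ' ∧
      (∀ t ∈ Set.Icc (0 : ℝ) 1, ‖Ξ t‖ = 1 ∧ min y y' / 2 ≤ Y t ∧ Y t ≤ max y y') ∧
      ∀ s ∈ Set.Icc (0 : ℝ) 1, ∀ t ∈ Set.Icc (0 : ℝ) 1,
        modD R (cv ((1 - s) * X + s * X') (Y s • Ξ s)) (cv ((1 - t) * X + t * X') (Y t • Ξ t)) =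
          |s - t| * modD R (cv X (y • ξ)) (cv X' (y' • ξ')) := by
  have hπ := Real.pi_pos
  obtain ⟨ξ₂, h2n, h2o, h2e⟩ := geod_frame hξ hξ'
  set θ := angle ξ ξ' with hθ
  have hθ0 : 0 ≤ θ := angle_nonneg _ _
  have hθπ : θ ≤ Real.pi := angle_le_pi _ _
  set α := R * θ with hα
  have hα0 : 0 ≤ α := mul_nonneg hR.le hθ0
  have hα1 : α ≤ Real.pi / 2 := by
    have : R * θ ≤ 1 / 2 * Real.pi := mul_le_mul hR' hθπ hθ0 (by norm_num)
    linarith
  have hcs := Real.sin_sq_add_cos_sq α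
  refine ⟨fun t => ‖geod_z y y' α t‖, fun t => geod_E ξ ξ₂ (geod_phi y y' α t / R),
    (geod_z_cont y y' α).norm.continuousOn, ?_, ?_, ?_, ?_, ?_, ?_, ?_⟩
  · have hE : Continuous (geod_E ξ ξ₂) := by
      unfold geod_E
      fun_prop
    exact hE.comp_continuousOn ((geod_phi_cont hy hy' hα0 hα1).div_const R)
  · show ‖geod_z y y' α 0‖ = y
    rw [geod_z_zero, Complex.norm_real, Real.norm_eq_abs, abs_of_pos hy]
  · show ‖geod_z y y' α 1‖ = y'
    have h : ‖geod_z y y' α 1‖ ^ 2 = y' ^ 2 := by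
      rw [geod_z_normsq]
      linear_combination y' ^ 2 * hcs
    exact (sq_eq_sq₀ (norm_nonneg _) hy'.le).1 h
  · show geod_E ξ ξ₂ (geod_phi y y' α 0 / R) = ξ
    unfold geod_phi geod_E
    rw [geod_z_zero, Complex.arg_ofReal_of_nonneg hy.le, zero_div, Real.cos_zero, Real.sin_zero]
    simp
  · show geod_E ξ ξ₂ (geod_phi y y' α 1 / R) = ξ'
    unfold geod_phi geod_E
    rw [geod_z_one, Complex.arg_mul_cos_add_sin_mul_I hy' ⟨by linarith, by linarith⟩, hα,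
      mul_div_cancel_left₀ _ hR.ne']
    exact h2e.symm
  · intro t ht
    refine ⟨geod_E_norm hξ h2n h2o _, ?_, ?_⟩
    · exact (geod_norm_bounds hy hy' hα0 hα1 ht).1
    · exact (geod_norm_bounds hy hy' hα0 hα1 ht).2
  · intro s hs t ht
    obtain ⟨hs1, hs2⟩ := geod_phi_mem hy hy' hα0 hα1 hs
    obtain ⟨ht1, ht2⟩ := geod_phi_mem hy hy' hα0 hα1 ht
    have habs : |geod_phi y y' α s - geod_phi y y' α t| ≤ α := by
      rw [abs_le]
      constructor <;> linarith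
    have hq : |geod_phi y y' α s / R - geod_phi y y' α t / R| =
        |geod_phi y y' α s - geod_phi y y' α t| / R := by
      rw [← sub_div, abs_div, abs_of_pos hR]
    have hang : angle (geod_E ξ ξ₂ (geod_phi y y' α s / R)) (geod_E ξ ξ₂ (geod_phi y y' α t / R)) =
        |geod_phi y y' α s - geod_phi y y' α t| / R := by
      rw [geod_E_angle hξ h2n h2o, hq]
      rw [hq, div_le_iff₀ hR]
      calc |geod_phi y y' α s - geod_phi y y' α t| ≤ R * θ := habs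
        _ = θ * R := by ring
        _ ≤ Real.pi * R := mul_le_mul_of_nonneg_right hθπ hR.le
    have hL := modD_cv_sq R (X₁ := (1 - s) * X + s * X') (X₂ := (1 - t) * X + t * X')
      (norm_nonneg (geod_z y y' α s)) (norm_nonneg (geod_z y y' α t))
      (geod_E_norm hξ h2n h2o (geod_phi y y' α s / R))
      (geod_E_norm hξ h2n h2o (geod_phi y y' α t / R))
    rw [hang, mul_div_cancel₀ _ hR.ne', Real.cos_abs] at hL
    have hRr := modD_cv_sq R (X₁ := X) (X₂ := X') hy.le hy'.le hξ hξ'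
    rw [← hθ, ← hα] at hRr
    have hc := geod_cos_sub y y' α s t
    have hn1 := geod_z_normsq y y' α s
    have hn2 := geod_z_normsq y y' α t
    have hfin : modD R (cv ((1 - s) * X + s * X') (‖geod_z y y' α s‖ •
        geod_E ξ ξ₂ (geod_phi y y' α s / R))) (cv ((1 - t) * X + t * X')
        (‖geod_z y y' α t‖ • geod_E ξ ξ₂ (geod_phi y y' α t / R))) ^ 2 =
        (|s - t| * modD R (cv X (y • ξ)) (cv X' (y' • ξ'))) ^ 2 := by
      rw [mul_pow, sq_abs, hRr, hL]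
      linear_combination hn1 + hn2 - 2 * hc + (s - t) ^ 2 * y' ^ 2 * hcs
    exact (sq_eq_sq₀ (modD_nonneg _ _ _) (mul_nonneg (abs_nonneg _) (modD_nonneg _ _ _))).1 hfin

end Pool.Agent.W_MP_654ec6_h2
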