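import Pool.Agent.W_MP_654ec6_h2.Polar
import Pool.Agent.W_MP_654ec6_h2.Geod

/-!
# Part G, ThetaLip: comparison of the ambient metric and the model metric, infinitesimally
-/

open scoped RealInnerProductSpace Topology
open Filter InnerProductGeometry

namespace Pool.Agent.W_MP_654ec6_h2

open Pool.Agent.W_MP_654ec6

theorem continuous_tl : Continuous tl := by
  unfold tl
  fun_prop

theorem continuous_n3 : Continuous n3 := by
  have : n3 = fun u => ‖tl u‖ := funext n3_eq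
  rw [this]
  exact continuous_tl.norm

theorem continuous_pX (N : ℕ∞) (j : ℕ) : Continuous (pX N j) := by
  unfold pX
  have := continuous_n3
  fun_prop

theorem continuous_pY (N : ℕ∞) (j : ℕ) : Continuous (pY N j) := by
  unfold pY
  have := continuous_n3
  fun_prop

theorem oj_pos (N : ℕ∞) (j : ℕ) : 0 < oj N j := by
  unfold oj
  positivity

theorem oj_sq (N : ℕ∞) (j : ℕ) : oj N j ^ 2 = 1 + aa N j ^ 2 := by
  unfold oj
  exact Real.sq_sqrt (by positivity)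

theorem sc_pX_pY (N : ℕ∞) (j : ℕ) (u : E4) : sc N j (pX N j u) (pY N j u) = n3 u := by
  unfold sc pX pY
  have h1 := oj_pos N j
  have h2 := oj_sq N j
  field_simp
  rw [h2]
  ring

theorem lc_pX_pY (N : ℕ∞) (j : ℕ) (u : E4) : lc N j (pX N j u) (pY N j u) = u 0 := by
  unfold lc pX pY
  have h1 := oj_pos N j
  have h2 := oj_sq N j
  field_simp
  rw [h2]
  ring

theorem rotation (N : ℕ∞) (j : ℕ) (u v : E4) :
    (pX N j u - pX N j v) ^ 2 + (pY N j u - pY N j v) ^ 2 =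
      (u 0 - v 0) ^ 2 + (‖tl u‖ - ‖tl v‖) ^ 2 := by
  rw [← n3_eq, ← n3_eq]
  unfold pX pY
  have h1 := oj_pos N j
  have h2 := oj_sq N j
  have e1 : OX N j + (u 0 - aa N j * n3 u) / oj N j - (OX N j + (v 0 - aa N j * n3 v) / oj N j) =
      ((u 0 - v 0) - aa N j * (n3 u - n3 v)) / oj N j := by ring
  have e2 : OY N j + (aa N j * u 0 + n3 u) / oj N j - (OY N j + (aa N j * v 0 + n3 v) / oj N j) =
      (aa N j * (u 0 - v 0) + (n3 u - n3 v)) / oj N j := by ring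
  rw [e1, e2, div_pow, div_pow, ← add_div, h2]
  have h3 : 0 < 1 + aa N j ^ 2 := by positivity
  field_simp
  ring

theorem abs_pX_sub_le (N : ℕ∞) (j : ℕ) (u v : E4) : |pX N j u - pX N j v| ≤ ‖u - v‖ := by
  apply abs_le_of_sq_le_sq _ (norm_nonneg _)
  have h1 := rotation N j u v
  have h2 := norm_sq_split (u - v)
  have h3 : (‖tl u‖ - ‖tl v‖) ^ 2 ≤ ‖tl (u - v)‖ ^ 2 := by
    rw [tl_sub]
    exact sq_le_sq.2 (by
      rw [abs_of_nonneg (norm_nonneg (tl u - tl v))]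
      exact abs_norm_sub_norm_le _ _)
  have h4 : (u - v) 0 = u 0 - v 0 := rfl
  rw [h4] at h2
  nlinarith [sq_nonneg (pY N j u - pY N j v)]

/-- The angle is at most the chord up to a factor close to `1`. -/
theorem angle_sq_le {δ : ℝ} (hδ : 0 < δ) : ∃ κ > (0 : ℝ), ∀ ξ₁ ξ₂ : E3, ‖ξ₁‖ = 1 → ‖ξ₂‖ = 1 →
    ‖ξ₁ - ξ₂‖ < κ → angle ξ₁ ξ₂ ^ 2 ≤ (1 + δ) * ‖ξ₁ - ξ₂‖ ^ 2 := by
  refine ⟨min (1 / 2) (Real.sqrt (δ / (1 + δ))), by positivity, ?_⟩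
  intro ξ₁ ξ₂ h1 h2 h
  have hlt1 := h.trans_le (min_le_left _ _)
  have hlt2 := h.trans_le (min_le_right _ _)
  have e1 : ‖ξ₁ - ξ₂‖ ^ 2 = 2 * (1 - Real.cos (angle ξ₁ ξ₂)) := by
    rw [norm_sub_sq_real, ← cos_angle_mul_norm_mul_norm ξ₁ ξ₂, h1, h2]
    ring
  set φ := angle ξ₁ ξ₂ with hφ
  have p0 : 0 ≤ φ := angle_nonneg _ _
  have p1 : φ ≤ Real.pi := angle_le_pi _ _
  have hπ := Real.pi_pos
  have hπ4 := Real.pi_le_four
  have q1 := Real.cos_le_one_sub_mul_cos_sq (x := φ) (by rw [abs_of_nonneg p0]; exact p1)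
  -- `φ ≤ 2 ‖Δ‖`
  have q2 : φ ^ 2 ≤ 4 * ‖ξ₁ - ξ₂‖ ^ 2 := by
    have h3 : 4 / Real.pi ^ 2 * φ ^ 2 ≤ ‖ξ₁ - ξ₂‖ ^ 2 := by
      rw [e1]
      have : 4 / Real.pi ^ 2 * φ ^ 2 = 2 * (2 / Real.pi ^ 2 * φ ^ 2) := by ring
      linarith
    have h4 : φ ^ 2 = Real.pi ^ 2 / 4 * (4 / Real.pi ^ 2 * φ ^ 2) := by
      field_simp
    rw [h4]
    have h5 : Real.pi ^ 2 / 4 ≤ 4 := by nlinarith
    have h6 : 0 ≤ 4 / Real.pi ^ 2 * φ ^ 2 := by positivity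
    nlinarith
  have q3 : φ ≤ 1 := by
    have : φ ^ 2 ≤ 1 := by nlinarith [norm_nonneg (ξ₁ - ξ₂)]
    nlinarith
  have q4 := Real.cos_bound (x := φ) (by rw [abs_of_nonneg p0]; exact q3)
  rw [abs_of_nonneg p0] at q4
  have q5 := (abs_le.1 q4).2
  have q6 : φ ^ 2 - 5 / 48 * φ ^ 4 ≤ ‖ξ₁ - ξ₂‖ ^ 2 := by
    rw [e1]; linarith
  have q7 : ‖ξ₁ - ξ₂‖ ^ 2 ≤ δ / (1 + δ) := by
    have := Real.sq_sqrt (show 0 ≤ δ / (1 + δ) by positivity)
    nlinarith [norm_nonneg (ξ₁ - ξ₂), Real.sqrt_nonneg (δ / (1 + δ))]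
  -- `1 - 5/48 φ² ≥ 1/(1+δ)`
  have q8 : 5 / 48 * φ ^ 2 ≤ δ / (1 + δ) := by nlinarith
  have q9 : 1 / (1 + δ) = 1 - δ / (1 + δ) := by field_simp; ring
  have q10 : φ ^ 2 * (1 / (1 + δ)) ≤ ‖ξ₁ - ξ₂‖ ^ 2 := by
    rw [q9]
    nlinarith [sq_nonneg φ]
  rw [mul_one_div, div_le_iff₀ (by positivity)] at q10
  linarith

theorem norm_sub_le_angle {ξ₁ ξ₂ : E3} (h1 : ‖ξ₁‖ = 1) (h2 : ‖ξ₂‖ = 1) :
    ‖ξ₁ - ξ₂‖ ^ 2 ≤ angle ξ₁ ξ₂ ^ 2 := by
  have e1 : ‖ξ₁ - ξ₂‖ ^ 2 = 2 * (1 - Real.cos (angle ξ₁ ξ₂)) := by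
    rw [norm_sub_sq_real, ← cos_angle_mul_norm_mul_norm ξ₁ ξ₂, h1, h2]
    ring
  have := Real.one_sub_sq_div_two_le_cos (x := angle ξ₁ ξ₂)
  rw [e1]
  linarith

theorem two_one_sub_cos_le (x : ℝ) : 2 * (1 - Real.cos x) ≤ x ^ 2 := by
  have := Real.one_sub_sq_div_two_le_cos (x := x)
  linarith

/-- The vector of the ambient point, with the ordinate lowered by `FF + ε |X|`. -/
noncomputable def thM (ε : ℝ) (j : ℕ) (u : E4) : ℝ :=
  max 0 (pY ⊤ j u - FF ⊤ (pX ⊤ j u) - ε * |pX ⊤ j u|)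

/-- The vector of the ambient point, with the ordinate lowered by `FF + ε |X|`. -/
noncomputable def th (ε : ℝ) (j : ℕ) (u : E4) : E4 := cv (pX ⊤ j u) (thM ε j u • dir3 u)

theorem thM_nonneg (ε : ℝ) (j : ℕ) (u : E4) : 0 ≤ thM ε j u := le_max_left _ _

theorem continuous_thM {R : ℝ} (hA : AmbFun R) (ε : ℝ) (j : ℕ) : Continuous (thM ε j) := by
  unfold thM
  have h1 := continuous_pX ⊤ j
  have h2 := continuous_pY ⊤ j
  have h3 := hA.FF_cont.comp h1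
  apply continuous_const.max
  apply (h2.sub h3).sub
  exact continuous_const.mul h1.abs

theorem continuousAt_dir3 {a : E4} (ha : tl a ≠ 0) : ContinuousAt dir3 a := by
  unfold dir3
  apply ContinuousAt.fun_smul
  · apply ContinuousAt.inv₀
    · exact continuous_tl.norm.continuousAt
    · exact norm_ne_zero_iff.2 ha
  · exact continuous_tl.continuousAt

/-- At interior points `√B ‖tl a‖ = bb`. -/
theorem interior_data {R : ℝ} (hA : AmbFun R) {j : ℕ} {a : E4}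
    (h : GG ⊤ (pX ⊤ j a) < pY ⊤ j a) : tl a ≠ 0 ∧ 0 < BC R ⊤ j a ∧
      Real.sqrt (BC R ⊤ j a) * ‖tl a‖ = bb R ⊤ (pX ⊤ j a) (pY ⊤ j a) := by
  have h1 := hA.sc_pos j _ _ h
  rw [sc_pX_pY, n3_eq] at h1
  have h2 := hA.bb_pos _ _ h
  have h3 : BC R ⊤ j a = (bb R ⊤ (pX ⊤ j a) (pY ⊤ j a) / ‖tl a‖) ^ 2 := by
    unfold BC
    rw [n3_eq, if_neg h1.ne']
  refine ⟨norm_pos_iff.1 h1, ?_, ?_⟩
  · rw [h3]; positivity
  · rw [h3, Real.sqrt_sq (by positivity)]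
    field_simp

theorem thM_le {R : ℝ} (hR : 0 < R) (hA : AmbFun R) {ε : ℝ} (hε : 0 < ε) :
    ∃ η > (0 : ℝ), ∀ (j : ℕ) (a : E4), GG ⊤ (pX ⊤ j a) < pY ⊤ j a → |pX ⊤ j a| ≤ η →
      R * thM ε j a ≤ bb R ⊤ (pX ⊤ j a) (pY ⊤ j a) := by
  obtain ⟨η, hη, h⟩ := hA.GG_small (ε / 2) (by positivity)
  refine ⟨η, hη, ?_⟩
  intro j a h1 h2
  have h3 := h _ h2
  have h4 := hA.FF_le_GG (pX ⊤ j a)
  have h5 := hA.bb_pos _ _ h1
  unfold thM
  rcases le_total (5 / 4 * (GG ⊤ (pX ⊤ j a) - FF ⊤ (pX ⊤ j a))) (pY ⊤ j a - FF ⊤ (pX ⊤ j a))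
    with h6 | h6
  · rw [hA.bb_eq _ _ h1 h6]
    apply mul_le_mul_of_nonneg_left _ hR.le
    apply max_le (by linarith)
    have : 0 ≤ ε * |pX ⊤ j a| := by positivity
    linarith
  · rw [max_eq_left]
    · rw [mul_zero]; exact h5.le
    · have : 0 ≤ ε * |pX ⊤ j a| := by positivity
      nlinarith

theorem ar_k7 {dX dY M ε : ℝ} (hε : 0 < ε) (h : |M| ≤ |dY| + 2 * ε * |dX|) :
    dX ^ 2 + M ^ 2 ≤ (1 + 2 * ε) ^ 2 * (dX ^ 2 + dY ^ 2) := by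
  have h1 : M ^ 2 ≤ (|dY| + 2 * ε * |dX|) ^ 2 := by
    rw [← sq_abs M]
    exact pow_le_pow_left₀ (abs_nonneg _) h 2
  rw [← sq_abs dX, ← sq_abs dY]
  have h0 := abs_nonneg dX
  have h0' := abs_nonneg dY
  generalize |dX| = x at *
  generalize |dY| = y at *
  have h2 : 2 * (x * y) ≤ x ^ 2 + y ^ 2 := by nlinarith [sq_nonneg (x - y)]
  have h3 : (y + 2 * ε * x) ^ 2 = y ^ 2 + 2 * ε * (2 * (x * y)) + 4 * ε ^ 2 * x ^ 2 := by ring
  have h4 := mul_le_mul_of_nonneg_left h2 hε.le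
  have h5 : 0 ≤ ε ^ 2 * y ^ 2 := by positivity
  have h6 : 0 ≤ ε * (x ^ 2 + y ^ 2) := by positivity
  nlinarith

theorem ar_k8 {P c R φ n d b : ℝ} (hP : 0 ≤ P) (hn : 0 ≤ n) (hd : 0 < d)
    (k3 : 2 * c ≤ (R * φ) ^ 2) (k4 : φ ^ 2 ≤ (1 + d) * n) (q2 : R ^ 2 * P < (1 + d) * b ^ 2) :
    2 * P * c ≤ (1 + d) ^ 2 * (b ^ 2 * n) := by
  have h2 : 2 * c ≤ R ^ 2 * ((1 + d) * n) := by
    refine k3.trans ?_
    rw [mul_pow]
    exact mul_le_mul_of_nonneg_left k4 (sq_nonneg R)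
  have h1 : P * (2 * c) ≤ P * (R ^ 2 * ((1 + d) * n)) := mul_le_mul_of_nonneg_left h2 hP
  have h3 : 0 ≤ (1 + d) * n := by positivity
  have h4 := mul_le_mul_of_nonneg_right q2.le h3
  calc 2 * P * c = P * (2 * c) := by ring
    _ ≤ P * (R ^ 2 * ((1 + d) * n)) := h1
    _ = R ^ 2 * P * ((1 + d) * n) := by ring
    _ ≤ (1 + d) * b ^ 2 * ((1 + d) * n) := h4
    _ = (1 + d) ^ 2 * (b ^ 2 * n) := by ring

theorem ar_k9 {A B S T Q ε d δ : ℝ} (hε : 0 < ε) (hε' : ε ≤ 1) (hd0 : 0 < d) (hd1 : d ≤ 1)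
    (hd2 : d ≤ δ / 9) (hS0 : 0 ≤ S) (hT0 : 0 ≤ T) (hQ0 : 0 ≤ Q) (k7 : A ≤ (1 + 2 * ε) ^ 2 * S)
    (k8 : B ≤ (1 + d) ^ 2 * T) (k1 : S + T ≤ (1 + d) * Q) :
    A + B ≤ (1 + 2 * ε + δ) ^ 2 * Q := by
  have h1 : A + B ≤ ((1 + 2 * ε) * (1 + d)) ^ 2 * (S + T) := by
    have a1 : (1 + 2 * ε) ^ 2 * S ≤ ((1 + 2 * ε) * (1 + d)) ^ 2 * S := by
      apply mul_le_mul_of_nonneg_right _ hS0
      apply pow_le_pow_left₀ (by positivity)
      have : 0 ≤ (1 + 2 * ε) * d := by positivity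
      linarith
    have a2 : (1 + d) ^ 2 * T ≤ ((1 + 2 * ε) * (1 + d)) ^ 2 * T := by
      apply mul_le_mul_of_nonneg_right _ hT0
      apply pow_le_pow_left₀ (by positivity)
      have : 0 ≤ 2 * ε * (1 + d) := by positivity
      linarith
    rw [mul_add]
    linarith
  refine h1.trans ?_
  have h2 : ((1 + 2 * ε) * (1 + d)) ^ 2 * (S + T) ≤
      ((1 + 2 * ε) * (1 + d)) ^ 2 * ((1 + d) * Q) :=
    mul_le_mul_of_nonneg_left k1 (by positivity)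
  refine h2.trans ?_
  rw [← mul_assoc]
  apply mul_le_mul_of_nonneg_right _ hQ0
  have h3 : (1 + 2 * ε) * (1 + d) ^ 2 ≤ 1 + 2 * ε + δ := by
    have a0 : d ^ 2 ≤ d := by nlinarith
    have a1 : (1 + d) ^ 2 ≤ 1 + 3 * d := by linarith
    have a2 : (1 + 2 * ε) * (1 + d) ^ 2 ≤ (1 + 2 * ε) * (1 + 3 * d) :=
      mul_le_mul_of_nonneg_left a1 (by positivity)
    have a3 : ε * d ≤ 1 * d := mul_le_mul_of_nonneg_right hε' hd0.le
    linarith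
  have h4 : ((1 + 2 * ε) * (1 + d)) ^ 2 * (1 + d) ≤ ((1 + 2 * ε) * (1 + d) ^ 2) ^ 2 := by
    have h5 : ((1 + 2 * ε) * (1 + d) ^ 2) ^ 2 = ((1 + 2 * ε) * (1 + d)) ^ 2 * (1 + d) ^ 2 := by
      ring
    rw [h5]
    apply mul_le_mul_of_nonneg_left _ (by positivity)
    nlinarith
  exact h4.trans (pow_le_pow_left₀ (by positivity) h3 2)

/-- The map `th` is infinitesimally `(1 + 2 ε)`-Lipschitz. -/
theorem th_lip {R : ℝ} (hR : 0 < R) (hA : AmbFun R) {ε : ℝ} (hε : 0 < ε) (hε' : ε ≤ 1) :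
    ∃ η > (0 : ℝ), ∀ (j : ℕ) (a : E4), a ∈ VC ⊤ j → |pX ⊤ j a| < η → ∀ δ > (0 : ℝ),
      ∀ᶠ q in 𝓝 (a, a), modD R (th ε j q.1) (th ε j q.2) ≤
        (1 + 2 * ε + δ) * Real.sqrt (qf (gC R ⊤ j a) (q.1 - q.2)) := by
  obtain ⟨η₁, hη₁, H1⟩ := hA.FF_small ε hε
  obtain ⟨η₂, hη₂, H2⟩ := thM_le hR hA hε
  obtain ⟨η₃, hη₃, H3⟩ := hA.GG_small (ε / 2) (by positivity)
  refine ⟨min η₁ (min η₂ η₃), by positivity, ?_⟩
  intro j a haV haX δ hδ
  have hX1 : |pX ⊤ j a| < η₁ := haX.trans_le (min_le_left _ _)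
  have hX2 : |pX ⊤ j a| < η₂ := haX.trans_le ((min_le_right _ _).trans (min_le_left _ _))
  have hX3 : |pX ⊤ j a| < η₃ := haX.trans_le ((min_le_right _ _).trans (min_le_right _ _))
  have cX1 : Continuous (fun q : E4 × E4 => pX ⊤ j q.1) := (continuous_pX ⊤ j).comp continuous_fst
  have cX2 : Continuous (fun q : E4 × E4 => pX ⊤ j q.2) := (continuous_pX ⊤ j).comp continuous_snd
  have cM1 : Continuous (fun q : E4 × E4 => thM ε j q.1) :=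
    (continuous_thM hA ε j).comp continuous_fst
  have cM2 : Continuous (fun q : E4 × E4 => thM ε j q.2) :=
    (continuous_thM hA ε j).comp continuous_snd
  by_cases hint : GG ⊤ (pX ⊤ j a) < pY ⊤ j a
  · -- interior points
    obtain ⟨htl, hB, hBb⟩ := interior_data hA hint
    set b := bb R ⊤ (pX ⊤ j a) (pY ⊤ j a) with hb
    have hbpos : 0 < b := hA.bb_pos _ _ hint
    set d : ℝ := min 1 (δ / 9) with hd
    have hd0 : 0 < d := by positivity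
    have hd1 : d ≤ 1 := min_le_left _ _
    have hd2 : d ≤ δ / 9 := min_le_right _ _
    obtain ⟨κ, hκ, Hκ⟩ := angle_sq_le hd0
    have t1 := polar_close htl hB hd0
    rw [hBb] at t1
    have t2 : ∀ᶠ q in 𝓝 (a, a), R ^ 2 * (thM ε j q.1 * thM ε j q.2) < (1 + d) * b ^ 2 := by
      have h1 : Continuous (fun q : E4 × E4 => R ^ 2 * (thM ε j q.1 * thM ε j q.2)) :=
        continuous_const.mul (cM1.mul cM2)
      apply (h1.tendsto (a, a)).eventually (gt_mem_nhds _)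
      have h2 := H2 j a hint hX2.le
      have h3 : 0 ≤ R * thM ε j a := mul_nonneg hR.le (thM_nonneg _ _ _)
      have h4 : (R * thM ε j a) ^ 2 ≤ b ^ 2 := pow_le_pow_left₀ h3 h2 2
      have h5 : 0 < d * b ^ 2 := by positivity
      simp only
      nlinarith
    have t3 : ∀ᶠ q in 𝓝 (a, a), |pX ⊤ j q.1| < η₁ ∧ |pX ⊤ j q.2| < η₁ :=
      ((cX1.abs.tendsto (a, a)).eventually (gt_mem_nhds hX1)).and
        ((cX2.abs.tendsto (a, a)).eventually (gt_mem_nhds hX1))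
    have t4 : ∀ᶠ q in 𝓝 (a, a), tl q.1 ≠ 0 ∧ tl q.2 ≠ 0 := by
      have c1 : Continuous (fun q : E4 × E4 => tl q.1) := continuous_tl.comp continuous_fst
      have c2 : Continuous (fun q : E4 × E4 => tl q.2) := continuous_tl.comp continuous_snd
      exact (c1.continuousAt.eventually_ne htl).and (c2.continuousAt.eventually_ne htl)
    have t5 : ∀ᶠ q in 𝓝 (a, a), ‖dir3 q.1 - dir3 q.2‖ < κ := by
      have c1 : ContinuousAt (fun q : E4 × E4 => dir3 q.1) (a, a) :=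
        ContinuousAt.comp (f := fun q : E4 × E4 => q.1) (g := dir3) (continuousAt_dir3 htl)
          continuousAt_fst
      have c2 : ContinuousAt (fun q : E4 × E4 => dir3 q.2) (a, a) :=
        ContinuousAt.comp (f := fun q : E4 × E4 => q.2) (g := dir3) (continuousAt_dir3 htl)
          continuousAt_snd
      have c3 := (c1.sub c2).norm
      apply c3.tendsto.eventually (gt_mem_nhds _)
      simp [hκ]
    filter_upwards [t1, t2, t3, t4, t5] with q q1 q2 q3 q4 q5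
    rw [qf_gC']
    have hQ0 : 0 ≤ QB (BC R ⊤ j a) a (q.1 - q.2) := QB_nonneg hB.le
    have k1 : PB b q.1 q.2 ≤ (1 + d) * QB (BC R ⊤ j a) a (q.1 - q.2) := by
      have := (abs_le.1 q1).2
      linarith
    have hn1 := norm_dir3 q4.1
    have hn2 := norm_dir3 q4.2
    have k2 := modD_cv_sq R (X₁ := pX ⊤ j q.1) (X₂ := pX ⊤ j q.2) (thM_nonneg ε j q.1)
      (thM_nonneg ε j q.2) hn1 hn2
    have k3 := two_one_sub_cos_le (R * angle (dir3 q.1) (dir3 q.2))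
    have k4 := Hκ _ _ hn1 hn2 q5
    have k5 := H1 _ _ q3.1.le q3.2.le
    have k6 : |thM ε j q.1 - thM ε j q.2| ≤
        |pY ⊤ j q.1 - pY ⊤ j q.2| + 2 * ε * |pX ⊤ j q.1 - pX ⊤ j q.2| := by
      unfold thM
      refine (abs_max_sub_max_le_max _ _ _ _).trans (max_le (by rw [sub_self, abs_zero]; positivity) ?_)
      have e1 : pY ⊤ j q.1 - FF ⊤ (pX ⊤ j q.1) - ε * |pX ⊤ j q.1| -
          (pY ⊤ j q.2 - FF ⊤ (pX ⊤ j q.2) - ε * |pX ⊤ j q.2|) =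
          (pY ⊤ j q.1 - pY ⊤ j q.2) - (FF ⊤ (pX ⊤ j q.1) - FF ⊤ (pX ⊤ j q.2)) -
            ε * (|pX ⊤ j q.1| - |pX ⊤ j q.2|) := by ring
      rw [e1]
      have e2 : |ε * (|pX ⊤ j q.1| - |pX ⊤ j q.2|)| ≤ ε * |pX ⊤ j q.1 - pX ⊤ j q.2| := by
        rw [abs_mul, abs_of_pos hε]
        exact mul_le_mul_of_nonneg_left (abs_abs_sub_abs_le_abs_sub _ _) hε.le
      have e3 := abs_sub ((pY ⊤ j q.1 - pY ⊤ j q.2) - (FF ⊤ (pX ⊤ j q.1) - FF ⊤ (pX ⊤ j q.2)))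
        (ε * (|pX ⊤ j q.1| - |pX ⊤ j q.2|))
      have e4 := abs_sub (pY ⊤ j q.1 - pY ⊤ j q.2) (FF ⊤ (pX ⊤ j q.1) - FF ⊤ (pX ⊤ j q.2))
      linarith
    have hrot := rotation ⊤ j q.1 q.2
    set dX := pX ⊤ j q.1 - pX ⊤ j q.2 with hdX
    set dY := pY ⊤ j q.1 - pY ⊤ j q.2 with hdY
    have hM12 : 0 ≤ thM ε j q.1 * thM ε j q.2 := mul_nonneg (thM_nonneg _ _ _) (thM_nonneg _ _ _)
    have k7 : dX ^ 2 + (thM ε j q.1 - thM ε j q.2) ^ 2 ≤ (1 + 2 * ε) ^ 2 * (dX ^ 2 + dY ^ 2) :=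
      ar_k7 hε k6
    have k8 : 2 * (thM ε j q.1 * thM ε j q.2) *
        (1 - Real.cos (R * angle (dir3 q.1) (dir3 q.2))) ≤
        (1 + d) ^ 2 * (b ^ 2 * ‖dir3 q.1 - dir3 q.2‖ ^ 2) :=
      ar_k8 hM12 (sq_nonneg _) hd0 k3 k4 q2
    have k9 : modD R (th ε j q.1) (th ε j q.2) ^ 2 ≤
        ((1 + 2 * ε + δ) * Real.sqrt (QB (BC R ⊤ j a) a (q.1 - q.2))) ^ 2 := by
      rw [mul_pow, Real.sq_sqrt hQ0]
      unfold th
      rw [k2]
      have hPB : PB b q.1 q.2 = dX ^ 2 + dY ^ 2 + b ^ 2 * ‖dir3 q.1 - dir3 q.2‖ ^ 2 := by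
        unfold PB
        rw [hrot]
      rw [hPB] at k1
      exact ar_k9 hε hε' hd0 hd1 hd2 (by positivity) (by positivity) hQ0 k7 k8 k1
    exact le_of_sq_le_sq k9 (by positivity)
  · -- points of the edge
    have hV : n3 a = 0 ∧ opEdge ⊤ j (pX ⊤ j a) := by
      rcases haV with h | h
      · exact absurd h hint
      · exact h
    have hXpos : 0 < pX ⊤ j a := by
      have h1 := hV.2.2.1 (by exact ENat.natCast_lt_top j)
      have h2 : 0 < zz (j + 1) := by unfold zz; positivity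
      linarith
    have hY := hA.edge_Y j a hV.1 hV.2
    have h4 := H3 _ hX3.le
    have hneg : pY ⊤ j a - FF ⊤ (pX ⊤ j a) - ε * |pX ⊤ j a| < 0 := by
      rw [hY]
      have : 0 < ε * |pX ⊤ j a| := by
        have := abs_pos.2 hXpos.ne'
        positivity
      linarith
    have hc : Continuous (fun u => pY ⊤ j u - FF ⊤ (pX ⊤ j u) - ε * |pX ⊤ j u|) :=
      ((continuous_pY ⊤ j).sub (hA.FF_cont.comp (continuous_pX ⊤ j))).sub
        (continuous_const.mul (continuous_pX ⊤ j).abs)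
    have hz : ∀ᶠ u in 𝓝 a, thM ε j u = 0 := by
      have := (hc.tendsto a).eventually (gt_mem_nhds hneg)
      filter_upwards [this] with u hu
      exact max_eq_left hu.le
    have t1 : ∀ᶠ q in 𝓝 (a, a), thM ε j q.1 = 0 ∧ thM ε j q.2 = 0 := by
      rw [nhds_prod_eq]
      exact hz.prod_mk hz
    filter_upwards [t1] with q hq
    unfold th
    rw [hq.1, hq.2, zero_smul, zero_smul, qf_gC']
    have e1 : BC R ⊤ j a = 1 := by
      unfold BC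
      rw [if_pos hV.1]
    have e2 : QB (BC R ⊤ j a) a (q.1 - q.2) = ‖q.1 - q.2‖ ^ 2 := by
      unfold QB
      rw [e1]; ring
    rw [e2, Real.sqrt_sq (norm_nonneg _)]
    have e3 : modD R (cv (pX ⊤ j q.1) 0) (cv (pX ⊤ j q.2) 0) = |pX ⊤ j q.1 - pX ⊤ j q.2| := by
      have h5 : modD R (cv (pX ⊤ j q.1) 0) (cv (pX ⊤ j q.2) 0) ^ 2 =
          (pX ⊤ j q.1 - pX ⊤ j q.2) ^ 2 := by
        rw [modD_sq, norm_cv_sq, norm_cv_sq]
        unfold modC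
        rw [tl_cv, tl_cv, cv_zero, cv_zero]
        simp
        ring
      rw [← sq_abs (pX ⊤ j q.1 - pX ⊤ j q.2)] at h5
      exact (sq_eq_sq₀ (modD_nonneg _ _ _) (abs_nonneg _)).1 h5
    rw [e3]
    have h6 := abs_pX_sub_le ⊤ j q.1 q.2
    have h7 := norm_nonneg (q.1 - q.2)
    nlinarith

end Pool.Agent.W_MP_654ec6_h2
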