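import Pool.Agent.W_MP_654ec6.B.Clamp
import Pool.Agent.W_MP_654ec6_h2.CrossZ
import Pool.Agent.W_MP_654ec6_h2.Fold
import Pool.Agent.W_MP_654ec6_h2.ThetaLip

/-!
# Part G, Lower: lower bounds of distances near `x` by comparison with the model cone
-/

open scoped RealInnerProductSpace Topology
open Filter InnerProductGeometry

namespace Pool.Agent.W_MP_654ec6_h2

open Pool.Agent.W_MP_654ec6

/-- The comparison map on vectors. -/
noncomputable def TV (R : Subtype ROk) (r : ℝ) (u : E4) : Cn R × ℝ :=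
  (toCn R (fold (2 * r) u), min ‖u‖ (4 * r))

theorem dist_TV (R : Subtype ROk) (r : ℝ) (u v : E4) :
    dist (TV R r u) (TV R r v) =
      max (modDt R.1 (fold (2 * r) u) (fold (2 * r) v)) |min ‖u‖ (4 * r) - min ‖v‖ (4 * r)| := by
  rw [Prod.dist_eq, Real.dist_eq]
  rfl

theorem dist_TV_le (R : Subtype ROk) (r : ℝ) (u v : E4) :
    dist (TV R r u) (TV R r v) ≤ modDt R.1 u v := by
  rw [dist_TV]
  apply max_le (modDt_fold_le _ _ _ _)
  have h1 : |min ‖u‖ (4 * r) - min ‖v‖ (4 * r)| ≤ |‖u‖ - ‖v‖| := by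
    refine (abs_min_sub_min_le_max _ _ _ _).trans (max_le le_rfl ?_)
    rw [sub_self, abs_zero]
    exact abs_nonneg _
  exact h1.trans (abs_norm_sub_le_modDt _ _ _)

theorem TV_neg (R : Subtype ROk) (r : ℝ) (u : E4) : TV R r (-u) = TV R r u := by
  unfold TV
  rw [norm_neg, fold_neg]
  congr 1
  exact (toCn_eq_iff R).2 (Or.inr (neg_neg _).symm)

theorem TV_far (R : Subtype ROk) {r : ℝ} {u : E4} (h : 4 * r ≤ ‖u‖) :
    TV R r u = (toCn R 0, 4 * r) := by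
  unfold TV
  rw [min_eq_right h, fold_of_ge (by linarith)]

section

variable {R : ℝ} {ρ : ℕ → ℝ} {C : ℝ} {W : Type} [MetricSpace W] {ψ : ℕ → E4 → W} {U : ℕ → Set W}

open Classical in
/-- The model vector of a point of `W`. -/
noncomputable def thW (ρ : ℕ → ℝ) (ψ : ℕ → E4 → W) (U : ℕ → Set W) (ε : ℝ) (w : W) : E4 :=
  if h : ∃ p : ℕ × E4, p.2 ∈ VA ⊤ ρ p.1 ∧ ψ p.1 p.2 = w then th ε h.choose.1 h.choose.2
  else if h' : ∃ k : ℕ, 1 ≤ k ∧ w ∈ U k then cv (zz h'.choose) 0 else 0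

theorem FF_abs (hA : AmbFun R) (X : ℝ) : FF ⊤ |X| = FF ⊤ X := by
  rcases abs_choice X with h | h <;> rw [h]
  exact hA.FF_even X

theorem th_of_same (hA : AmbFun R) {ε : ℝ} {i j : ℕ} {a b : E4} (h : SamePt ⊤ i a j b) :
    th ε i a = th ε j b ∨ th ε i a = -th ε j b := by
  obtain ⟨hY, h | h⟩ := h
  · left
    unfold th thM
    rw [hY, h.1, h.2]
  · right
    unfold th thM
    rw [hY, h.1, h.2, hA.FF_even, abs_neg, cv_neg, smul_neg]

theorem thW_amb (D : AmbData R ⊤ ρ C ψ U) (hA : AmbFun R) (ε : ℝ) {j : ℕ} {a : E4}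
    (ha : a ∈ VA ⊤ ρ j) :
    thW ρ ψ U ε (ψ j a) = th ε j a ∨ thW ρ ψ U ε (ψ j a) = -th ε j a := by
  have h : ∃ p : ℕ × E4, p.2 ∈ VA ⊤ ρ p.1 ∧ ψ p.1 p.2 = ψ j a := ⟨(j, a), ha, rfl⟩
  have e : thW ρ ψ U ε (ψ j a) = th ε h.choose.1 h.choose.2 := dif_pos h
  rw [e]
  obtain ⟨h1, h2⟩ := h.choose_spec
  exact th_of_same hA ((D.same _ _ le_top le_top _ h1 _ ha).1 h2)

theorem thW_blk (D : AmbData R ⊤ ρ C ψ U) (ε : ℝ) {w : W} {k : ℕ} (hk : 1 ≤ k) (hw : w ∈ U k)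
    (hn : ¬ ∃ p : ℕ × E4, p.2 ∈ VA ⊤ ρ p.1 ∧ ψ p.1 p.2 = w) :
    thW ρ ψ U ε w = cv (zz k) 0 := by
  unfold thW
  rw [dif_neg hn]
  have h' : ∃ k : ℕ, 1 ≤ k ∧ w ∈ U k := ⟨k, hk, hw⟩
  rw [dif_pos h']
  have h1 := h'.choose_spec
  generalize h'.choose = l at h1 ⊢
  have : l = k := by
    by_contra hne
    exact Set.disjoint_left.1 (D.disj l k hne) h1.2 hw
  rw [this]

theorem zz_pos' (k : ℕ) : 0 < zz k := by unfold zz; positivity

theorem zz_succ' (k : ℕ) : zz (k + 1) = zz k / 2 := by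
  unfold zz
  rw [pow_succ]; ring

theorem zz_anti' {k l : ℕ} (h : k ≤ l) : zz l ≤ zz k := by
  unfold zz
  exact pow_le_pow_of_le_one (by norm_num) (by norm_num) h

theorem zz_le_one' (k : ℕ) : zz k ≤ 1 := by
  have := zz_anti' (Nat.zero_le k)
  unfold zz at this ⊢
  simpa using this

theorem vd_bounds {N : ℕ∞} {k : ℕ} {X Y s : ℝ} (hs : 0 ≤ s) (h : vd N k X Y < s) :
    |(|X| - zz k)| < s ∧ |Y - FF N (zz k)| < s := by
  unfold vd at h
  have h1 := Real.sq_sqrt (show 0 ≤ (|X| - zz k) ^ 2 + (Y - FF N (zz k)) ^ 2 by positivity)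
  have h2 := Real.sqrt_nonneg ((|X| - zz k) ^ 2 + (Y - FF N (zz k)) ^ 2)
  have h3 : (|X| - zz k) ^ 2 + (Y - FF N (zz k)) ^ 2 < s ^ 2 := by
    rw [← h1]
    exact pow_lt_pow_left₀ h h2 two_ne_zero
  constructor
  · exact abs_lt_of_sq_lt_sq ((le_add_of_nonneg_right (sq_nonneg _)).trans_lt h3) hs
  · exact abs_lt_of_sq_lt_sq ((le_add_of_nonneg_left (sq_nonneg _)).trans_lt h3) hs

theorem norm_cv_le (X : ℝ) (η : E3) : ‖cv X η‖ ≤ |X| + ‖η‖ := by
  have h := norm_cv_sq X η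
  have h1 : ‖cv X η‖ ^ 2 ≤ (|X| + ‖η‖) ^ 2 := by
    rw [h, ← sq_abs X]
    linarith [mul_nonneg (abs_nonneg X) (norm_nonneg η)]
  exact le_of_sq_le_sq h1 (by positivity)

theorem abs_le_norm_cv (X : ℝ) (η : E3) : |X| ≤ ‖cv X η‖ := by
  have h := norm_cv_sq X η
  apply abs_le_of_sq_le_sq _ (norm_nonneg _)
  rw [h]
  exact le_add_of_nonneg_right (sq_nonneg _)

theorem norm_cv_zero (X : ℝ) : ‖cv X 0‖ = |X| := by
  have h := norm_cv_sq X 0
  rw [norm_zero, ← sq_abs X] at h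
  have h2 : ‖cv X 0‖ ^ 2 = |X| ^ 2 := by rw [h]; ring
  exact (sq_eq_sq₀ (norm_nonneg _) (abs_nonneg _)).1 h2

theorem norm_dir3_le (u : E4) : ‖dir3 u‖ ≤ 1 := by
  by_cases h : tl u = 0
  · rw [dir3_of_eq_zero h, norm_zero]; exact zero_le_one
  · exact (norm_dir3 h).le

/-- Points of a near block. -/
theorem blk_near (D : AmbData R ⊤ ρ C ψ U) (hA : AmbFun R) {ε η : ℝ} (hε : 0 < ε) (hε1 : ε ≤ 1)
    (H : ∀ X X' : ℝ, |X| ≤ η → |X'| ≤ η → |FF ⊤ X - FF ⊤ X'| ≤ ε * |X - X'|) {k : ℕ} (hk : 1 ≤ k)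
    (hz : 2 * zz k ≤ η) {w : W} (hw : w ∈ U k) :
    modDt R (thW ρ ψ U ε w) (cv (zz k) 0) ≤ 6 * ρ k := by
  have hρ := D.ρ_pos k
  have hρ' := D.ρ_le k hk
  have hz0 := zz_pos' k
  have hz1 := zz_le_one' k
  have hρ2 : ρ k ≤ zz k / 100 := by
    have h0 : zz k * zz k ≤ zz k * 1 := mul_le_mul_of_nonneg_left hz1 hz0.le
    linarith only [h0, hρ']
  have hR : ROk R := Or.inl ⟨D.R_pos, D.R_le.trans (by norm_num)⟩
  by_cases hn : ∃ p : ℕ × E4, p.2 ∈ VA ⊤ ρ p.1 ∧ ψ p.1 p.2 = w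
  · obtain ⟨⟨j, a⟩, ha, rfl⟩ := hn
    simp only at ha hw ⊢
    have hc := D.collar j le_top a ha k hk le_top hw
    obtain ⟨h1, h2⟩ := vd_bounds (by positivity) hc
    have h1' := abs_lt.1 h1
    have h2' := abs_lt.1 h2
    set X := pX ⊤ j a with hX
    have hXη : |X| ≤ η := by linarith only [h1'.2, hρ2, hz0, hz]
    have h3 := H (zz k) |X| (by rw [abs_of_pos hz0]; linarith only [hz, hz0])
      (by rw [abs_abs]; exact hXη)
    rw [FF_abs hA, abs_sub_comm (zz k) |X|] at h3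
    have h4 : ε * |(|X| - zz k)| ≤ 1 * (2 * ρ k) :=
      mul_le_mul hε1 h1.le (abs_nonneg _) zero_le_one
    have h5 := le_abs_self (FF ⊤ (zz k) - FF ⊤ X)
    have hM : thM ε j a ≤ 4 * ρ k := by
      unfold thM
      apply max_le (by positivity)
      have h0 : 0 ≤ ε * |X| := mul_nonneg hε.le (abs_nonneg _)
      linarith only [h0, h3, h4, h5, h2'.2]
    have hM0 := thM_nonneg ε j a
    have hMn : ‖thM ε j a • dir3 a‖ ≤ 4 * ρ k := by
      rw [norm_smul, Real.norm_eq_abs, abs_of_nonneg hM0]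
      exact (mul_le_of_le_one_right hM0 (norm_dir3_le a)).trans hM
    have key : modDt R (th ε j a) (cv (zz k) 0) ≤ 6 * ρ k := by
      unfold th
      rcases le_total 0 X with h0 | h0
      · rw [abs_of_nonneg h0] at h1
        refine (modDt_le_norm_sub hR _ _).trans ?_
        rw [cv_sub, sub_zero]
        refine (norm_cv_le _ _).trans ?_
        linarith only [h1, hMn]
      · rw [abs_of_nonpos h0] at h1
        rw [← modDt_neg_right]
        refine (modDt_le_norm_sub hR _ _).trans ?_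
        rw [cv_neg, cv_sub, neg_zero, sub_zero]
        refine (norm_cv_le _ _).trans ?_
        have e1 : X - -zz k = -(-X - zz k) := by ring
        rw [e1, abs_neg]
        linarith only [h1, hMn]
    rcases thW_amb D hA ε ha with h | h
    · rw [h]; exact key
    · rw [h, modDt_neg_left]; exact key
  · rw [thW_blk D ε hk hw hn, modDt_self]
    positivity

/-- Points of a far block. -/
theorem blk_far (D : AmbData R ⊤ ρ C ψ U) (hA : AmbFun R) (ε : ℝ) {k : ℕ} (hk : 1 ≤ k) {r : ℝ}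
    (hz : 8 * r ≤ zz k) (hr : 0 < r) {w : W} (hw : w ∈ U k) : 4 * r ≤ ‖thW ρ ψ U ε w‖ := by
  have hρ := D.ρ_pos k
  have hρ' := D.ρ_le k hk
  have hz0 := zz_pos' k
  have hz1 := zz_le_one' k
  have hρ2 : ρ k ≤ zz k / 100 := by
    have h0 : zz k * zz k ≤ zz k * 1 := mul_le_mul_of_nonneg_left hz1 hz0.le
    linarith only [h0, hρ']
  by_cases hn : ∃ p : ℕ × E4, p.2 ∈ VA ⊤ ρ p.1 ∧ ψ p.1 p.2 = w
  · obtain ⟨⟨j, a⟩, ha, rfl⟩ := hn
    simp only at ha hw ⊢
    have hc := D.collar j le_top a ha k hk le_top hw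
    obtain ⟨h1, h2⟩ := vd_bounds (by positivity) hc
    have h1' := abs_lt.1 h1
    have h3 : ‖thW ρ ψ U ε (ψ j a)‖ = ‖th ε j a‖ := by
      rcases thW_amb D hA ε ha with h | h
      · rw [h]
      · rw [h, norm_neg]
    rw [h3]
    unfold th
    have h4 := abs_le_norm_cv (pX ⊤ j a) (thM ε j a • dir3 a)
    linarith only [h4, h1'.1, hρ2, hz, hz0]
  · rw [thW_blk D ε hk hw hn, norm_cv_zero, abs_of_pos hz0]
    linarith only [hz, hz0]

/-- Infinitesimal estimate at ambient points. -/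
theorem amb_inf (D : AmbData R ⊤ ρ C ψ U) (hA : AmbFun R) (hR : ROk R) {ε : ℝ} (hε : 0 < ε)
    (hε1 : ε ≤ 1) : ∃ η > (0 : ℝ), ∀ r, 0 < r → 8 * r ≤ η → ∀ (j : ℕ) (a : E4), a ∈ VA ⊤ ρ j →
      ∀ δ > (0 : ℝ), ∀ᶠ q in 𝓝 (ψ j a, ψ j a),
        dist (TV ⟨R, hR⟩ r (thW ρ ψ U ε q.1)) (TV ⟨R, hR⟩ r (thW ρ ψ U ε q.2)) ≤
          (1 + 2 * ε + δ) * dist q.1 q.2 := by
  obtain ⟨η, hη, H⟩ := th_lip D.R_pos hA hε hε1
  refine ⟨η, hη, ?_⟩
  intro r hr hrη j a ha δ hδ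
  have hTV : ∀ v ∈ VA ⊤ ρ j, TV ⟨R, hR⟩ r (thW ρ ψ U ε (ψ j v)) = TV ⟨R, hR⟩ r (th ε j v) := by
    intro v hv
    rcases thW_amb D hA ε hv with h | h
    · rw [h]
    · rw [h, TV_neg]
  have hVA : VA ⊤ ρ j ∈ 𝓝 a := (D.isOpen_VA j le_top).mem_nhds ha
  by_cases hX : |pX ⊤ j a| < 8 * r
  · set d : ℝ := min 1 (δ / 8) with hd
    have hd0 : 0 < d := by positivity
    have hd1 : d ≤ 1 := min_le_left _ _
    have hd2 : d ≤ δ / 8 := min_le_right _ _
    have h1 := H j a ha.1 (by linarith) d hd0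
    have h2 := D.lower j le_top a ha d hd0
    have h12 := h1.and h2
    rw [nhds_prod_eq] at h12
    obtain ⟨S, hS, hSS⟩ := Filter.mem_prod_self_iff.1 h12
    have h3 := D.opn j le_top a ha (S ∩ VA ⊤ ρ j) (inter_mem hS hVA)
    have h4 : ∀ᶠ q in 𝓝 (ψ j a, ψ j a), q.1 ∈ ψ j '' (S ∩ VA ⊤ ρ j) ∧
        q.2 ∈ ψ j '' (S ∩ VA ⊤ ρ j) := by
      rw [nhds_prod_eq]
      exact (Filter.prod_mem_prod h3 h3)
    filter_upwards [h4] with q hq
    obtain ⟨⟨x, ⟨hx, hxV⟩, hx'⟩, ⟨y, ⟨hy, hyV⟩, hy'⟩⟩ := hq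
    rw [← hx', ← hy', hTV x hxV, hTV y hyV]
    refine (dist_TV_le _ _ _ _).trans ((min_le_left _ _).trans ?_)
    obtain ⟨h5, h6⟩ := hSS (Set.mk_mem_prod hx hy)
    change modD R (th ε j x) (th ε j y) ≤ (1 + 2 * ε + d) * Real.sqrt (qf (gC R ⊤ j a) (x - y)) at h5
    change Real.sqrt (qf (gC R ⊤ j a) (x - y)) ≤ (1 + d) * dist (ψ j x) (ψ j y) at h6
    refine h5.trans ((mul_le_mul_of_nonneg_left h6 (by positivity)).trans ?_)
    rw [← mul_assoc]
    apply mul_le_mul_of_nonneg_right _ dist_nonneg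
    have h7 : ε * d ≤ 1 * d := mul_le_mul_of_nonneg_right hε1 hd0.le
    have h8 : d * d ≤ d * 1 := mul_le_mul_of_nonneg_left hd1 hd0.le
    linarith
  · have hX' : 4 * r < |pX ⊤ j a| := by
      push Not at hX
      linarith
    have h1 : ∀ᶠ v in 𝓝 a, 4 * r < |pX ⊤ j v| :=
      ((continuous_pX ⊤ j).abs.tendsto a).eventually (lt_mem_nhds hX')
    have h3 := D.opn j le_top a ha ({v | 4 * r < |pX ⊤ j v|} ∩ VA ⊤ ρ j) (inter_mem h1 hVA)
    have h4 : ∀ᶠ q in 𝓝 (ψ j a, ψ j a), q.1 ∈ ψ j '' ({v | 4 * r < |pX ⊤ j v|} ∩ VA ⊤ ρ j) ∧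
        q.2 ∈ ψ j '' ({v | 4 * r < |pX ⊤ j v|} ∩ VA ⊤ ρ j) := by
      rw [nhds_prod_eq]
      exact (Filter.prod_mem_prod h3 h3)
    filter_upwards [h4] with q hq
    obtain ⟨⟨x, ⟨hx, hxV⟩, hx'⟩, ⟨y, ⟨hy, hyV⟩, hy'⟩⟩ := hq
    have e : ∀ v ∈ VA ⊤ ρ j, 4 * r < |pX ⊤ j v| →
        TV ⟨R, hR⟩ r (thW ρ ψ U ε (ψ j v)) = (toCn ⟨R, hR⟩ 0, 4 * r) := by
      intro v hv hv'
      rw [hTV v hv]
      apply TV_far
      unfold th
      have := abs_le_norm_cv (pX ⊤ j v) (thM ε j v • dir3 v)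
      linarith
    rw [← hx', ← hy', e x hxV hx, e y hyV hy, dist_self]
    have : 0 ≤ 1 + 2 * ε + δ := by positivity
    exact mul_nonneg this dist_nonneg

theorem exists_small_pow {ε : ℝ} (hε : 0 < ε) (n : ℕ) : ∃ e > (0 : ℝ), e ≤ 1 ∧ (1 + e) ^ n ≤ 1 + ε := by
  have h1 : Continuous (fun e : ℝ => (1 + e) ^ n) := by fun_prop
  have h2 := h1.tendsto 0
  simp only [add_zero, one_pow] at h2
  have h3 := h2.eventually (gt_mem_nhds (show (1 : ℝ) < 1 + ε by linarith))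
  obtain ⟨e, he, H⟩ := Metric.eventually_nhds_iff.1 h3
  refine ⟨min (e / 2) 1, by positivity, min_le_right _ _, (H ?_).le⟩
  rw [Real.dist_eq, sub_zero, abs_of_pos (by positivity)]
  have := min_le_left (e / 2) 1
  linarith

/-- The main lower bound. -/
theorem lower_main (D : AmbData R ⊤ ρ C ψ U) (hA : AmbFun R) {δ : ℝ} (hδ : 0 < δ) :
    ∃ ε : ℝ, 0 < ε ∧ ε ≤ 1 ∧ ε ≤ δ ∧ ∃ K₀ : ℕ, ∀ m : ℕ, K₀ ≤ m → ∀ p q : W,
      modDt R (fold (2 * zz m) (thW ρ ψ U ε p)) (fold (2 * zz m) (thW ρ ψ U ε q)) ≤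
        (1 + δ) * dist p q + δ * zz m ∧
      |min ‖thW ρ ψ U ε p‖ (4 * zz m) - min ‖thW ρ ψ U ε q‖ (4 * zz m)| ≤
        (1 + δ) * dist p q + δ * zz m := by
  have hR : ROk R := Or.inl ⟨D.R_pos, D.R_le.trans (by norm_num)⟩
  set ε : ℝ := min 1 (δ / 8) with hεdef
  have hε : 0 < ε := by positivity
  have hε1 : ε ≤ 1 := min_le_left _ _
  have hε8 : ε ≤ δ / 8 := min_le_right _ _
  refine ⟨ε, hε, hε1, by linarith only [hε8, hδ], ?_⟩
  obtain ⟨η₁, hη₁, H1⟩ := amb_inf D hA hR hε hε1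
  obtain ⟨η₂, hη₂, H2⟩ := hA.FF_small ε hε
  -- the number of blocks
  obtain ⟨n, hn⟩ : ∃ n : ℕ, zz n < ε / 16 := by
    obtain ⟨n, hn⟩ := exists_pow_lt_of_lt_one (show 0 < ε / 16 by positivity)
      (show (1 / 2 : ℝ) < 1 by norm_num)
    exact ⟨n, hn⟩
  obtain ⟨e, he, he1, hen⟩ := exists_small_pow hε (n + 3)
  -- the scale
  set τ : ℝ := min (min (η₁ / 8) (η₂ / 8)) (min (e / 4) (ε / (8 * (n + 3)))) with hτdef
  have hτ : 0 < τ := by positivity
  have hτ1 : τ ≤ η₁ / 8 := (min_le_left _ _).trans (min_le_left _ _)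
  have hτ2 : τ ≤ η₂ / 8 := (min_le_left _ _).trans (min_le_right _ _)
  have hτ3 : τ ≤ e / 4 := (min_le_right _ _).trans (min_le_left _ _)
  have hτ4 : τ ≤ ε / (8 * (n + 3)) := (min_le_right _ _).trans (min_le_right _ _)
  obtain ⟨K, hK⟩ : ∃ K : ℕ, zz K < τ :=
    exists_pow_lt_of_lt_one hτ (show (1 / 2 : ℝ) < 1 by norm_num)
  refine ⟨K + 3, ?_⟩
  intro m hm p q
  set r := zz m with hr
  have hr0 : 0 < r := zz_pos' m
  have hrτ : r < τ := (zz_anti' (by omega)).trans_lt hK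
  have hz4 : ∀ k, m ≤ k + 2 → zz k ≤ 4 * r := by
    intro k hk
    have h1 := zz_anti' hk
    rw [zz_succ', zz_succ'] at h1
    linarith only [h1]
  -- facts on `ρ k` for the relevant blocks
  have hρk : ∀ k, 1 ≤ k → m ≤ k + 2 → 7 * ρ k ≤ zz k / 8 ∧ (1 + e) * (7 * ρ k) / e ≤ zz k / 4 ∧
      7 * ρ k ≤ 2 * r * τ := by
    intro k hk hk2
    have h1 := D.ρ_le k hk
    have h2 := hz4 k hk2
    have h3 := zz_pos' k
    have h4 : zz k ^ 2 ≤ zz k * (4 * r) := by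
      rw [sq]
      exact mul_le_mul_of_nonneg_left h2 h3.le
    have h5 : zz k * (4 * r) ≤ zz k * (4 * τ) := mul_le_mul_of_nonneg_left (by linarith only [hrτ]) h3.le
    have h6 : 7 * ρ k ≤ 7 / 100 * (zz k * (4 * τ)) := by linarith only [h1, h4, h5]
    refine ⟨?_, ?_, ?_⟩
    · have : zz k * (4 * τ) ≤ zz k * 1 :=
        mul_le_mul_of_nonneg_left (by linarith only [hτ3, he1]) h3.le
      linarith only [h6, this, h3]
    · rw [div_le_iff₀ he]
      have h7 : (1 + e) * (7 * ρ k) ≤ 2 * (7 / 100 * (zz k * (4 * τ))) := by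
        have h0 : 0 ≤ 7 * ρ k := mul_nonneg (by norm_num) (D.ρ_pos k).le
        have h00 := mul_le_mul_of_nonneg_right (show 1 + e ≤ 2 by linarith only [he1]) h0
        linarith only [h00, h6]
      have h8 : zz k * (4 * τ) ≤ zz k * e :=
        mul_le_mul_of_nonneg_left (by linarith only [hτ3]) h3.le
      have h9 : 0 ≤ zz k * e := mul_nonneg h3.le he.le
      linarith only [h7, h8, h9]
    · have h7 : zz k * (4 * τ) ≤ (4 * r) * (4 * τ) := mul_le_mul_of_nonneg_right h2 (by positivity)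
      linarith only [h6, h7, mul_pos hr0 hτ]
  -- the balls
  let c : Fin (n + 3) → Cn ⟨R, hR⟩ × ℝ := fun i =>
    if (i : ℕ) = 0 then TV ⟨R, hR⟩ r 0 else TV ⟨R, hR⟩ r (cv (zz (m + i - 3)) 0)
  let rr : Fin (n + 3) → ℝ := fun i => if (i : ℕ) = 0 then 3 / 2 * zz (m + n) else 7 * ρ (m + i - 3)
  have hc0 : ∀ i : Fin (n + 3), (i : ℕ) = 0 → c i = TV ⟨R, hR⟩ r 0 := fun i hi => if_pos hi
  have hc1 : ∀ i : Fin (n + 3), (i : ℕ) ≠ 0 → c i = TV ⟨R, hR⟩ r (cv (zz (m + i - 3)) 0) :=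
    fun i hi => if_neg hi
  have hr0' : ∀ i : Fin (n + 3), (i : ℕ) = 0 → rr i = 3 / 2 * zz (m + n) := fun i hi => if_pos hi
  have hr1' : ∀ i : Fin (n + 3), (i : ℕ) ≠ 0 → rr i = 7 * ρ (m + i - 3) := fun i hi => if_neg hi
  have hrr : ∀ i, 0 < rr i := by
    intro i
    by_cases hi : (i : ℕ) = 0
    · rw [hr0' i hi]
      have := zz_pos' (m + n)
      positivity
    · rw [hr1' i hi]
      have := D.ρ_pos (m + i - 3)
      positivity
  have hdc : ∀ k l, m ≤ k + 2 → m ≤ l + 2 →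
      |zz k - zz l| ≤ dist (TV ⟨R, hR⟩ r (cv (zz k) 0)) (TV ⟨R, hR⟩ r (cv (zz l) 0)) := by
    intro k l hk hl
    rw [dist_TV]
    refine le_trans (le_of_eq ?_) (le_max_right _ _)
    rw [norm_cv_zero, norm_cv_zero, abs_of_pos (zz_pos' k), abs_of_pos (zz_pos' l),
      min_eq_left (hz4 k hk), min_eq_left (hz4 l hl)]
  have hdc0 : ∀ l, m ≤ l + 2 → zz l ≤ dist (TV ⟨R, hR⟩ r 0) (TV ⟨R, hR⟩ r (cv (zz l) 0)) := by
    intro l hl
    rw [dist_TV]
    refine le_trans (le_of_eq ?_) (le_max_right _ _)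
    rw [norm_cv_zero, norm_zero, abs_of_pos (zz_pos' l), min_eq_left (hz4 l hl),
      min_eq_left (by positivity), zero_sub, abs_neg, abs_of_pos (zz_pos' l)]
  have hsep : ∀ i j, i < j → rr i + (1 + (fun _ => e) j) * rr j / (fun _ => e) j ≤
      dist (c i) (c j) := by
    intro i j hij
    have hij' : (i : ℕ) < (j : ℕ) := hij
    have hj0 : (j : ℕ) ≠ 0 := by omega
    have hj := j.2
    simp only
    rw [hc1 j hj0, hr1' j hj0]
    have hjk : 1 ≤ m + (j : ℕ) - 3 := by omega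
    have hjk2 : m ≤ m + (j : ℕ) - 3 + 2 := by omega
    obtain ⟨b1, b2, b3⟩ := hρk _ hjk hjk2
    by_cases hi : (i : ℕ) = 0
    · rw [hc0 i hi, hr0' i hi]
      refine le_trans ?_ (hdc0 _ hjk2)
      have h1 : zz (m + n) ≤ zz (m + (j : ℕ) - 3) / 2 := by
        rw [← zz_succ']
        exact zz_anti' (by omega)
      linarith only [h1, b2]
    · rw [hc1 i hi, hr1' i hi]
      have hik : 1 ≤ m + (i : ℕ) - 3 := by omega
      have hik2 : m ≤ m + (i : ℕ) - 3 + 2 := by omega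
      obtain ⟨a1, a2, a3⟩ := hρk _ hik hik2
      refine le_trans ?_ (hdc _ _ hik2 hjk2)
      have h1 : zz (m + (j : ℕ) - 3) ≤ zz (m + (i : ℕ) - 3) / 2 := by
        rw [← zz_succ']
        exact zz_anti' (by omega)
      have h2 := zz_pos' (m + (j : ℕ) - 3)
      rw [abs_of_nonneg (by linarith only [h1, h2])]
      linarith only [a1, b2, h1, h2]
  -- the comparison
  have key := compare D.locLip (fun w => TV ⟨R, hR⟩ r (thW ρ ψ U ε w)) (n + 3) c rr (fun _ => e)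
    hrr (fun _ => he) hsep (K := 1 + 2 * ε) (by positivity) ?_ p q
  · have hprod : ∏ _j : Fin (n + 3), (1 + (fun _ : Fin (n + 3) => e) _j) = (1 + e) ^ (n + 3) := by
      simp
    rw [hprod] at key
    have hsum : ∑ i, rr i ≤ 3 / 2 * zz (m + n) + (n + 3) * (2 * r * τ) := by
      have h1 : ∀ i : Fin (n + 3), rr i ≤ (if i = 0 then 3 / 2 * zz (m + n) else 0) + 2 * r * τ := by
        intro i
        by_cases hi : i = 0
        · rw [if_pos hi]
          have : (i : ℕ) = 0 := by rw [hi]; rfl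
          rw [hr0' i this]
          exact le_add_of_nonneg_right (mul_nonneg (mul_nonneg zero_le_two hr0.le) hτ.le)
        · rw [if_neg hi, zero_add]
          have : (i : ℕ) ≠ 0 := fun h => hi (Fin.ext h)
          rw [hr1' i this]
          exact (hρk _ (by omega) (by omega)).2.2
      refine (Finset.sum_le_sum fun i _ => h1 i).trans ?_
      rw [Finset.sum_add_distrib, Finset.sum_ite_eq' Finset.univ (0 : Fin (n + 3))]
      simp
    have hzmn : zz (m + n) = r * zz n := by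
      rw [hr]
      unfold zz
      rw [pow_add]
    have hsum2 : ∑ i, rr i ≤ ε / 2 * r := by
      refine hsum.trans ?_
      rw [hzmn]
      have h1 : (n + 3) * (2 * r * τ) ≤ ε / 4 * r := by
        have h2 : ((n : ℝ) + 3) * τ ≤ ε / 8 := by
          rw [le_div_iff₀ (by positivity)] at hτ4
          linarith only [hτ4]
        have h3 : ((n : ℝ) + 3) * (2 * r * τ) = 2 * r * (((n : ℝ) + 3) * τ) := by ring
        rw [h3]
        have := mul_le_mul_of_nonneg_left h2 (mul_nonneg zero_le_two hr0.le)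
        linarith only [this]
      have h4 : 3 / 2 * (r * zz n) ≤ ε / 4 * r := by
        have h40 := mul_le_mul_of_nonneg_left hn.le hr0.le
        have h41 := mul_pos hr0 hε
        linarith only [h40, h41]
      linarith only [h1, h4]
    have hfin : dist (TV ⟨R, hR⟩ r (thW ρ ψ U ε p)) (TV ⟨R, hR⟩ r (thW ρ ψ U ε q)) ≤
        (1 + δ) * dist p q + δ * r := by
      refine key.trans ?_
      have h1 : (1 + 2 * ε) * (1 + e) ^ (n + 3) ≤ 1 + δ := by
        have : (1 + 2 * ε) * (1 + e) ^ (n + 3) ≤ (1 + 2 * ε) * (1 + ε) :=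
          mul_le_mul_of_nonneg_left hen (by positivity)
        have h0 : ε * ε ≤ ε * 1 := mul_le_mul_of_nonneg_left hε1 hε.le
        linarith only [this, h0, hε8, hδ]
      have h2 : (1 + 2 * ε) * (1 + e) ^ (n + 3) * dist p q ≤ (1 + δ) * dist p q :=
        mul_le_mul_of_nonneg_right h1 dist_nonneg
      have h3 : 2 * (1 + e) ^ (n + 3) * ∑ i, rr i ≤ 2 * (1 + ε) * (ε / 2 * r) := by
        apply mul_le_mul _ hsum2 (Finset.sum_nonneg fun i _ => (hrr i).le) (by positivity)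
        linarith only [hen]
      have h4 : 2 * (1 + ε) * (ε / 2 * r) ≤ δ * r := by
        have h5 : 2 * (1 + ε) * (ε / 2 * r) = ((1 + ε) * ε) * r := by ring
        rw [h5]
        apply mul_le_mul_of_nonneg_right _ hr0.le
        have h0 : ε * ε ≤ ε * 1 := mul_le_mul_of_nonneg_left hε1 hε.le
        linarith only [h0, hε8, hδ]
      linarith only [h2, h3, h4]
    rw [dist_TV] at hfin
    exact ⟨(le_max_left _ _).trans hfin, (le_max_right _ _).trans hfin⟩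
  · intro w
    by_cases hn : ∃ p : ℕ × E4, p.2 ∈ VA ⊤ ρ p.1 ∧ ψ p.1 p.2 = w
    · left
      obtain ⟨⟨j, a⟩, ha, rfl⟩ := hn
      exact H1 r hr0 (by linarith only [hτ1, hrτ]) j a ha
    · have hk : ∃ k : ℕ, 1 ≤ k ∧ w ∈ U k := by
        rcases D.cover w with ⟨j, _, a, ha, hw⟩ | ⟨k, _, hk, hw⟩
        · exact absurd ⟨(j, a), ha, hw⟩ hn
        · exact ⟨k, hk rfl, hw⟩
      obtain ⟨k, hk, hw⟩ := hk
      have hU := (D.isOpen_U k).mem_nhds hw
      by_cases hfar : k + 2 < m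
      · -- far block
        left
        intro d hd
        have hz8 : 8 * r ≤ zz k := by
          have h1 := zz_anti' (show k + 3 ≤ m by omega)
          rw [zz_succ', zz_succ', zz_succ'] at h1
          linarith only [h1]
        have h4 : ∀ᶠ q in 𝓝 (w, w), q.1 ∈ U k ∧ q.2 ∈ U k := by
          rw [nhds_prod_eq]
          exact (Filter.prod_mem_prod hU hU)
        filter_upwards [h4] with q hq
        rw [TV_far _ (blk_far D hA ε hk hz8 hr0 hq.1), TV_far _ (blk_far D hA ε hk hz8 hr0 hq.2),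
          dist_self]
        exact mul_nonneg (by positivity) dist_nonneg
      · right
        have hk2 : m ≤ k + 2 := by omega
        have hzk := hz4 k hk2
        have hnear : ∀ q ∈ U k, dist (TV ⟨R, hR⟩ r (thW ρ ψ U ε q)) (TV ⟨R, hR⟩ r (cv (zz k) 0)) ≤
            6 * ρ k := by
          intro q hq
          exact (dist_TV_le _ _ _ _).trans (blk_near D hA hε hε1 H2 hk (by linarith only [hzk, hrτ, hτ2]) hq)
        have hρ := D.ρ_pos k
        obtain ⟨a1, a2, a3⟩ := hρk k hk hk2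
        by_cases hmn : k < m + n
        · refine ⟨⟨k + 3 - m, by omega⟩, ?_⟩
          filter_upwards [hU] with q hq
          have e1 : ((⟨k + 3 - m, by omega⟩ : Fin (n + 3)) : ℕ) ≠ 0 := by
            simp only
            omega
          rw [hc1 _ e1, hr1' _ e1]
          simp only
          have e2 : m + (k + 3 - m) - 3 = k := by omega
          rw [e2]
          have := hnear q hq
          linarith only [this, hρ]
        · refine ⟨⟨0, by omega⟩, ?_⟩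
          filter_upwards [hU] with q hq
          rw [hc0 _ rfl, hr0' _ rfl]
          have h1 := hnear q hq
          have h2 : dist (TV ⟨R, hR⟩ r (cv (zz k) 0)) (TV ⟨R, hR⟩ r 0) ≤ zz k := by
            refine (dist_TV_le _ _ _ _).trans ?_
            rw [modDt_comm, modDt_zero_left, norm_cv_zero, abs_of_pos (zz_pos' k)]
          have h3 := dist_triangle (TV ⟨R, hR⟩ r (thW ρ ψ U ε q)) (TV ⟨R, hR⟩ r (cv (zz k) 0))
            (TV ⟨R, hR⟩ r 0)
          have h4 : zz k ≤ zz (m + n) := zz_anti' (by omega)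
          have h5 := zz_pos' k
          linarith only [h1, h2, h3, h4, h5, a1, hρ]

end

end Pool.Agent.W_MP_654ec6_h2
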