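import Pool.Agent.W_MP_654ec6.Stmt

/-!
# Part G, Model: the model distance of the tangent cones

Points of the model cone are vectors `u` of `ℝ⁴`, `u = (X, Y ξ)`, `X ∈ ℝ`, `Y ≥ 0`, `ξ` a unit vector
of `ℝ³`; `modD R u v` is the distance
`√((X - X')² + Y² + Y'² - 2 Y Y' cos (R ∠ ξ ξ'))` of `ℝ × C(S²_R)`, and `modDt` is the distance of the
quotient by `u ↦ -u`. Here `R ∈ (0, 1/2]` or `R = 1` (`R = 1`: `modD` is the euclidean distance).
-/

open scoped RealInnerProductSpace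
open InnerProductGeometry

namespace Pool.Agent.W_MP_654ec6_h2

open Pool.Agent.W_MP_654ec6

/-- Euclidean three-space. -/
abbrev E3 : Type := EuclideanSpace ℝ (Fin 3)

/-- The last three coordinates. -/
noncomputable def tl (u : E4) : E3 := WithLp.toLp 2 (fun i => u i.succ)

/-- The bilinear form of the model. -/
noncomputable def modC (R : ℝ) (u v : E4) : ℝ :=
  u 0 * v 0 + ‖tl u‖ * ‖tl v‖ * Real.cos (R * angle (tl u) (tl v))

/-- The distance of `ℝ × C(S²_R)`. -/
noncomputable def modD (R : ℝ) (u v : E4) : ℝ := Real.sqrt (‖u‖ ^ 2 + ‖v‖ ^ 2 - 2 * modC R u v)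

/-- The distance of `(ℝ × C(S²_R)) / ±`. -/
noncomputable def modDt (R : ℝ) (u v : E4) : ℝ := min (modD R u v) (modD R u (-v))

/-- The admissible values of `R`. -/
def ROk (R : ℝ) : Prop := (0 < R ∧ R ≤ 1 / 2) ∨ R = 1

theorem ROk.pos {R : ℝ} (h : ROk R) : 0 < R := by
  rcases h with h | h
  · exact h.1
  · rw [h]; exact one_pos

theorem ROk.le_one {R : ℝ} (h : ROk R) : R ≤ 1 := by
  rcases h with h | h
  · linarith [h.2]
  · rw [h]

theorem tl_add (u v : E4) : tl (u + v) = tl u + tl v := by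
  ext i; simp [tl]

theorem tl_neg (u : E4) : tl (-u) = -tl u := by
  ext i; simp [tl]

theorem tl_sub (u v : E4) : tl (u - v) = tl u - tl v := by
  ext i; simp [tl]

theorem tl_smul (a : ℝ) (u : E4) : tl (a • u) = a • tl u := by
  ext i; simp [tl]

theorem tl_zero : tl 0 = 0 := by
  ext i; simp [tl]

theorem inner_split (u v : E4) : ⟪u, v⟫ = u 0 * v 0 + ⟪tl u, tl v⟫ := by
  simp only [PiLp.inner_apply, Fin.sum_univ_succ (n := 3)]
  simp [tl, mul_comm]

theorem norm_sq_split (u : E4) : ‖u‖ ^ 2 = u 0 ^ 2 + ‖tl u‖ ^ 2 := by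
  rw [← real_inner_self_eq_norm_sq, inner_split, real_inner_self_eq_norm_sq]
  ring

theorem modC_comm (R : ℝ) (u v : E4) : modC R u v = modC R v u := by
  unfold modC
  rw [angle_comm]
  ring

theorem modC_neg_neg (R : ℝ) (u v : E4) : modC R (-u) (-v) = modC R u v := by
  unfold modC
  rw [tl_neg, tl_neg, angle_neg_neg, norm_neg, norm_neg]
  simp

theorem modC_neg_left (R : ℝ) (u v : E4) : modC R (-u) v = modC R u (-v) := by
  rw [← modC_neg_neg, neg_neg]

theorem modC_self (R : ℝ) (u : E4) : modC R u u = ‖u‖ ^ 2 := by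
  rw [norm_sq_split]
  unfold modC
  by_cases h : tl u = 0
  · rw [h]; simp [sq]
  · rw [angle_self h]
    simp [sq]

theorem modC_smul_left {a : ℝ} (ha : 0 ≤ a) (R : ℝ) (u v : E4) :
    modC R (a • u) v = a * modC R u v := by
  rcases ha.eq_or_lt with h | h
  · rw [← h]
    unfold modC
    simp [tl_zero]
  · unfold modC
    rw [tl_smul, angle_smul_left_of_pos _ _ h, norm_smul, Real.norm_eq_abs, abs_of_pos h]
    simp only [PiLp.smul_apply, smul_eq_mul]
    ring

theorem modC_smul_right {a : ℝ} (ha : 0 ≤ a) (R : ℝ) (u v : E4) :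
    modC R u (a • v) = a * modC R u v := by
  rw [modC_comm, modC_smul_left ha, modC_comm]

/-- `modC` is at most the product of the norms. -/
theorem abs_modC_le (R : ℝ) (u v : E4) : |modC R u v| ≤ ‖u‖ * ‖v‖ := by
  apply abs_le_of_sq_le_sq _ (by positivity)
  rw [mul_pow, norm_sq_split u, norm_sq_split v]
  unfold modC
  set c := Real.cos (R * angle (tl u) (tl v)) with hc
  have h1 : c ^ 2 ≤ 1 := by
    have := Real.abs_cos_le_one (R * angle (tl u) (tl v))
    rw [← sq_abs]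
    have h0 := abs_nonneg c
    nlinarith
  have h2 : 0 ≤ (u 0 * ‖tl v‖ - v 0 * ‖tl u‖ * c) ^ 2 := sq_nonneg _
  have h3 : (‖tl u‖ * ‖tl v‖ * c) ^ 2 ≤ (‖tl u‖ * ‖tl v‖) ^ 2 := by
    rw [mul_pow (‖tl u‖ * ‖tl v‖) c 2]
    have : 0 ≤ (‖tl u‖ * ‖tl v‖) ^ 2 := by positivity
    nlinarith
  have h4 : (v 0 * ‖tl u‖ * c) ^ 2 ≤ (v 0 * ‖tl u‖) ^ 2 := by
    rw [mul_pow (v 0 * ‖tl u‖) c 2]
    have : 0 ≤ (v 0 * ‖tl u‖) ^ 2 := by positivity
    nlinarith
  nlinarith [h2, h3, h4]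

theorem modC_le (R : ℝ) (u v : E4) : modC R u v ≤ ‖u‖ * ‖v‖ :=
  (abs_le.1 (abs_modC_le R u v)).2

theorem inner_le_modC {R : ℝ} (h0 : 0 ≤ R) (h1 : R ≤ 1) (u v : E4) : ⟪u, v⟫ ≤ modC R u v := by
  rw [inner_split]
  unfold modC
  have h2 : ⟪tl u, tl v⟫ = ‖tl u‖ * ‖tl v‖ * Real.cos (angle (tl u) (tl v)) := by
    rw [← cos_angle_mul_norm_mul_norm]
    ring
  rw [h2]
  have h3 : Real.cos (angle (tl u) (tl v)) ≤ Real.cos (R * angle (tl u) (tl v)) := by
    apply Real.cos_le_cos_of_nonneg_of_le_pi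
    · exact mul_nonneg h0 (angle_nonneg _ _)
    · exact angle_le_pi _ _
    · have := angle_nonneg (tl u) (tl v)
      nlinarith
  have h4 : 0 ≤ ‖tl u‖ * ‖tl v‖ := by positivity
  nlinarith [mul_le_mul_of_nonneg_left h3 h4]

theorem modC_one (u v : E4) : modC 1 u v = ⟪u, v⟫ := by
  rw [inner_split]
  unfold modC
  rw [one_mul, ← cos_angle_mul_norm_mul_norm (tl u) (tl v)]
  ring

theorem modD_arg_nonneg (R : ℝ) (u v : E4) : 0 ≤ ‖u‖ ^ 2 + ‖v‖ ^ 2 - 2 * modC R u v := by
  nlinarith [modC_le R u v, sq_nonneg (‖u‖ - ‖v‖)]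

theorem modD_sq (R : ℝ) (u v : E4) : modD R u v ^ 2 = ‖u‖ ^ 2 + ‖v‖ ^ 2 - 2 * modC R u v :=
  Real.sq_sqrt (modD_arg_nonneg R u v)

theorem modD_nonneg (R : ℝ) (u v : E4) : 0 ≤ modD R u v := Real.sqrt_nonneg _

theorem modD_comm (R : ℝ) (u v : E4) : modD R u v = modD R v u := by
  unfold modD
  rw [modC_comm]
  ring_nf

theorem modD_self (R : ℝ) (u : E4) : modD R u u = 0 := by
  unfold modD
  rw [modC_self]
  ring_nf
  exact Real.sqrt_zero

theorem modD_neg_neg (R : ℝ) (u v : E4) : modD R (-u) (-v) = modD R u v := by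
  unfold modD
  rw [modC_neg_neg, norm_neg, norm_neg]

theorem modD_neg_left (R : ℝ) (u v : E4) : modD R (-u) v = modD R u (-v) := by
  rw [← modD_neg_neg, neg_neg]

theorem modD_le_norm_sub {R : ℝ} (h0 : 0 ≤ R) (h1 : R ≤ 1) (u v : E4) :
    modD R u v ≤ ‖u - v‖ := by
  apply Real.sqrt_le_iff.2
  refine ⟨norm_nonneg _, ?_⟩
  rw [norm_sub_sq_real]
  linarith [inner_le_modC h0 h1 u v]

theorem modD_one (u v : E4) : modD 1 u v = ‖u - v‖ := by
  unfold modD
  rw [modC_one]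
  have : ‖u‖ ^ 2 + ‖v‖ ^ 2 - 2 * ⟪u, v⟫ = ‖u - v‖ ^ 2 := by
    rw [norm_sub_sq_real]; ring
  rw [this, Real.sqrt_sq (norm_nonneg _)]

theorem abs_norm_sub_le_modD (R : ℝ) (u v : E4) : |‖u‖ - ‖v‖| ≤ modD R u v := by
  apply Real.le_sqrt_of_sq_le
  rw [sq_abs]
  nlinarith [modC_le R u v]

theorem modD_zero_left (R : ℝ) (u : E4) : modD R 0 u = ‖u‖ := by
  unfold modD modC
  simp [tl_zero]

theorem modD_smul {a : ℝ} (ha : 0 ≤ a) (R : ℝ) (u v : E4) :
    modD R (a • u) (a • v) = a * modD R u v := by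
  unfold modD
  rw [modC_smul_left ha, modC_smul_right ha, norm_smul, norm_smul, Real.norm_eq_abs,
    abs_of_nonneg ha]
  have : (a * ‖u‖) ^ 2 + (a * ‖v‖) ^ 2 - 2 * (a * (a * modC R u v)) =
      a ^ 2 * (‖u‖ ^ 2 + ‖v‖ ^ 2 - 2 * modC R u v) := by ring
  rw [this, Real.sqrt_mul (sq_nonneg a), Real.sqrt_sq ha]

/-- `modD R u v = 0` only if `u = v`. -/
theorem eq_of_modD_eq_zero {R : ℝ} (hR : ROk R) {u v : E4} (h : modD R u v = 0) : u = v := by
  have h1 : modD R u v ^ 2 = 0 := by rw [h]; ring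
  rw [modD_sq] at h1
  have e1 := norm_sq_split u
  have e2 := norm_sq_split v
  have hp := hR.pos
  have hl := hR.le_one
  set θ := angle (tl u) (tl v) with hθ
  have h2 : (u 0 - v 0) ^ 2 + (‖tl u‖ - ‖tl v‖) ^ 2 +
      2 * (‖tl u‖ * ‖tl v‖ * (1 - Real.cos (R * θ))) = 0 := by
    have : modC R u v = u 0 * v 0 + ‖tl u‖ * ‖tl v‖ * Real.cos (R * θ) := rfl
    rw [this] at h1
    nlinarith
  have h3 : 0 ≤ ‖tl u‖ * ‖tl v‖ * (1 - Real.cos (R * θ)) := by
    have := Real.cos_le_one (R * θ)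
    have h4 : 0 ≤ 1 - Real.cos (R * θ) := by linarith
    positivity
  have h5 : (u 0 - v 0) ^ 2 = 0 := by nlinarith [sq_nonneg (u 0 - v 0), sq_nonneg (‖tl u‖ - ‖tl v‖)]
  have h6 : (‖tl u‖ - ‖tl v‖) ^ 2 = 0 := by
    nlinarith [sq_nonneg (u 0 - v 0), sq_nonneg (‖tl u‖ - ‖tl v‖)]
  have h7 : ‖tl u‖ * ‖tl v‖ * (1 - Real.cos (R * θ)) = 0 := by
    nlinarith [sq_nonneg (u 0 - v 0), sq_nonneg (‖tl u‖ - ‖tl v‖)]
  have h8 : u 0 = v 0 := by
    have := pow_eq_zero_iff (two_ne_zero) |>.1 h5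
    linarith
  have h9 : ‖tl u‖ = ‖tl v‖ := by
    have := pow_eq_zero_iff (two_ne_zero) |>.1 h6
    linarith
  have h10 : tl u = tl v := by
    rcases mul_eq_zero.1 h7 with h | h
    · rcases mul_eq_zero.1 h with h' | h'
      · rw [h'] at h9
        rw [norm_eq_zero.1 h', norm_eq_zero.1 h9.symm]
      · rw [h'] at h9
        rw [norm_eq_zero.1 h', norm_eq_zero.1 h9]
    · have h11 : Real.cos (R * θ) = 1 := by linarith
      have h12 : 0 ≤ θ := angle_nonneg _ _
      have h13 : θ ≤ Real.pi := angle_le_pi _ _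
      have h14 : R * θ = 0 := by
        have := (Real.cos_eq_one_iff_of_lt_of_lt (x := R * θ) (by nlinarith [Real.pi_pos])
          (by nlinarith [Real.pi_pos])).1 h11
        exact this
      have h15 : θ = 0 := by
        rcases mul_eq_zero.1 h14 with h | h
        · linarith
        · exact h
      have h16 : ‖tl u - tl v‖ ^ 2 = 0 := by
        rw [norm_sub_sq_real, ← cos_angle_mul_norm_mul_norm (tl u) (tl v), ← hθ, h15,
          Real.cos_zero, h9]
        ring
      exact sub_eq_zero.1 (norm_eq_zero.1 (pow_eq_zero_iff two_ne_zero |>.1 h16))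
  ext i
  refine Fin.cases h8 (fun j => ?_) i
  have := congrArg (fun w : E3 => w j) h10
  simpa [tl] using this

/-- The embedding lemma: three points of the model cone can be placed in `ℝ⁴` so that two of the
three inner products are preserved and the third does not increase. -/
theorem exists_embed {R : ℝ} (hR : ROk R) (u v w : E4) :
    ∃ U V W : E4, ‖U‖ = ‖u‖ ∧ ‖V‖ = ‖v‖ ∧ ‖W‖ = ‖w‖ ∧ ⟪U, V⟫ = modC R u v ∧
      ⟪V, W⟫ = modC R v w ∧ ⟪U, W⟫ ≤ modC R u w := by
  rcases hR with ⟨h0, h1⟩ | h1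
  · -- planar placement of the directions
    set α := R * angle (tl u) (tl v) with hα
    set β := R * angle (tl v) (tl w) with hβ
    let P : E4 → ℝ → E4 := fun u φ =>
      WithLp.toLp 2 ![u 0, ‖tl u‖ * Real.cos φ, ‖tl u‖ * Real.sin φ, 0]
    have hPn : ∀ u φ, ‖P u φ‖ = ‖u‖ := by
      intro u φ
      have h2 : ‖P u φ‖ ^ 2 = ‖u‖ ^ 2 := by
        rw [norm_sq_split u, EuclideanSpace.norm_sq_eq]
        simp only [P, Fin.sum_univ_four, Real.norm_eq_abs, sq_abs]
        simp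
        nlinarith [Real.sin_sq_add_cos_sq φ]
      exact (sq_eq_sq₀ (norm_nonneg _) (norm_nonneg _)).1 h2
    have hPi : ∀ u v φ ψ, ⟪P u φ, P v ψ⟫ = u 0 * v 0 + ‖tl u‖ * ‖tl v‖ * Real.cos (ψ - φ) := by
      intro u v φ ψ
      rw [PiLp.inner_apply, Fin.sum_univ_four, Real.cos_sub]
      simp [P]
      ring
    refine ⟨P u 0, P v α, P w (α + β), hPn _ _, hPn _ _, hPn _ _, ?_, ?_, ?_⟩
    · rw [hPi, sub_zero]; rfl
    · rw [hPi]
      have : α + β - α = β := by ring
      rw [this]; rfl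
    · rw [hPi, sub_zero]
      unfold modC
      have h2 : angle (tl u) (tl w) ≤ angle (tl u) (tl v) + angle (tl v) (tl w) :=
        angle_le_angle_add_angle _ _ _
      have h3 : Real.cos (α + β) ≤ Real.cos (R * angle (tl u) (tl w)) := by
        apply Real.cos_le_cos_of_nonneg_of_le_pi
        · exact mul_nonneg h0.le (angle_nonneg _ _)
        · have h4 := angle_le_pi (tl u) (tl v)
          have h5 := angle_le_pi (tl v) (tl w)
          have h6 := angle_nonneg (tl u) (tl v)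
          have h7 := angle_nonneg (tl v) (tl w)
          rw [hα, hβ]
          nlinarith
        · rw [hα, hβ, ← mul_add]
          exact mul_le_mul_of_nonneg_left h2 h0.le
      have h4 : 0 ≤ ‖tl u‖ * ‖tl w‖ := by positivity
      nlinarith [mul_le_mul_of_nonneg_left h3 h4]
  · subst h1
    refine ⟨u, v, w, rfl, rfl, rfl, ?_, ?_, ?_⟩
    · rw [modC_one]
    · rw [modC_one]
    · rw [modC_one]

theorem modD_triangle {R : ℝ} (hR : ROk R) (u v w : E4) :
    modD R u w ≤ modD R u v + modD R v w := by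
  obtain ⟨U, V, W, hU, hV, hW, h1, h2, h3⟩ := exists_embed hR u v w
  have e1 : modD R u v = ‖U - V‖ := by
    unfold modD
    rw [← h1, ← hU, ← hV]
    have : ‖U‖ ^ 2 + ‖V‖ ^ 2 - 2 * ⟪U, V⟫ = ‖U - V‖ ^ 2 := by
      rw [norm_sub_sq_real]; ring
    rw [this, Real.sqrt_sq (norm_nonneg _)]
  have e2 : modD R v w = ‖V - W‖ := by
    unfold modD
    rw [← h2, ← hW, ← hV]
    have : ‖V‖ ^ 2 + ‖W‖ ^ 2 - 2 * ⟪V, W⟫ = ‖V - W‖ ^ 2 := by
      rw [norm_sub_sq_real]; ring
    rw [this, Real.sqrt_sq (norm_nonneg _)]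
  have e3 : modD R u w ≤ ‖U - W‖ := by
    apply Real.sqrt_le_iff.2
    refine ⟨norm_nonneg _, ?_⟩
    rw [norm_sub_sq_real, hU, hW]
    linarith
  rw [e1, e2]
  refine e3.trans ?_
  have : U - W = (U - V) + (V - W) := by abel
  rw [this]
  exact norm_add_le _ _

theorem modDt_nonneg (R : ℝ) (u v : E4) : 0 ≤ modDt R u v :=
  le_min (modD_nonneg _ _ _) (modD_nonneg _ _ _)

theorem modDt_comm (R : ℝ) (u v : E4) : modDt R u v = modDt R v u := by
  unfold modDt
  rw [modD_comm R u v, ← modD_neg_left R u v, modD_comm R (-u) v]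

theorem modDt_self (R : ℝ) (u : E4) : modDt R u u = 0 := by
  apply le_antisymm _ (modDt_nonneg _ _ _)
  exact (min_le_left _ _).trans (modD_self R u).le

theorem modDt_neg_right (R : ℝ) (u v : E4) : modDt R u (-v) = modDt R u v := by
  unfold modDt
  rw [neg_neg, min_comm]

theorem modDt_neg_left (R : ℝ) (u v : E4) : modDt R (-u) v = modDt R u v := by
  rw [modDt_comm, modDt_neg_right, modDt_comm]

theorem modDt_triangle {R : ℝ} (hR : ROk R) (u v w : E4) :
    modDt R u w ≤ modDt R u v + modDt R v w := by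
  have key : ∀ v' w', (v' = v ∨ v' = -v) → (w' = w ∨ w' = -w) →
      modDt R u w ≤ modD R u v' + modD R v' w' := by
    intro v' w' _ hw
    have h1 := modD_triangle hR u v' w'
    rcases hw with h | h
    · subst h; exact (min_le_left _ _).trans h1
    · subst h; exact (min_le_right _ _).trans h1
  unfold modDt at *
  rcases min_choice (modD R u v) (modD R u (-v)) with h | h <;>
  rcases min_choice (modD R v w) (modD R v (-w)) with h' | h' <;> rw [h, h']
  · exact key v w (Or.inl rfl) (Or.inl rfl)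
  · exact key v (-w) (Or.inl rfl) (Or.inr rfl)
  · have := key (-v) (-w) (Or.inr rfl) (Or.inr rfl)
    rwa [modD_neg_neg R v w] at this
  · have := key (-v) w (Or.inr rfl) (Or.inl rfl)
    rwa [modD_neg_left R v w] at this

theorem modDt_le_norm_sub {R : ℝ} (hR : ROk R) (u v : E4) : modDt R u v ≤ ‖u - v‖ :=
  (min_le_left _ _).trans (modD_le_norm_sub hR.pos.le hR.le_one u v)

theorem modDt_zero_left (R : ℝ) (u : E4) : modDt R 0 u = ‖u‖ := by
  unfold modDt
  rw [modD_zero_left, modD_zero_left, norm_neg, min_self]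

theorem modDt_smul {a : ℝ} (ha : 0 ≤ a) (R : ℝ) (u v : E4) :
    modDt R (a • u) (a • v) = a * modDt R u v := by
  unfold modDt
  rw [modD_smul ha, ← smul_neg, modD_smul ha, mul_min_of_nonneg _ _ ha]

theorem abs_norm_sub_le_modDt (R : ℝ) (u v : E4) : |‖u‖ - ‖v‖| ≤ modDt R u v := by
  apply le_min (abs_norm_sub_le_modD R u v)
  have := abs_norm_sub_le_modD R u (-v)
  rwa [norm_neg] at this

theorem modDt_one (u v : E4) : modDt 1 u v = min ‖u - v‖ ‖u + v‖ := by
  unfold modDt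
  rw [modD_one, modD_one, sub_neg_eq_add]

theorem modDt_eq_zero {R : ℝ} (hR : ROk R) {u v : E4} :
    modDt R u v = 0 ↔ v = u ∨ v = -u := by
  constructor
  · intro h
    unfold modDt at h
    rcases min_choice (modD R u v) (modD R u (-v)) with h' | h'
    · rw [h'] at h
      exact Or.inl (eq_of_modD_eq_zero hR h).symm
    · rw [h'] at h
      right
      rw [eq_of_modD_eq_zero hR h, neg_neg]
  · rintro (h | h)
    · rw [h]; exact modDt_self R u
    · rw [h, modDt_neg_right]; exact modDt_self R u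

end Pool.Agent.W_MP_654ec6_h2
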