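import Pool.Agent.W_MP_654ec6_h2.GDefs

/-!
# Part G, Polar: the ambient metric in polar form, infinitesimally
-/

open scoped RealInnerProductSpace Topology
open Filter

namespace Pool.Agent.W_MP_654ec6_h2

open Pool.Agent.W_MP_654ec6

/-- The quadratic form `v₀² + (radial part)² + B (tangential part)²`. -/
noncomputable def QB (B : ℝ) (a v : E4) : ℝ :=
  ‖v‖ ^ 2 + (B - 1) * (‖tl v‖ ^ 2 - (⟪tl a, tl v⟫ / ‖tl a‖) ^ 2)

theorem qf_gC' (R : ℝ) (N : ℕ∞) (j : ℕ) (u v : E4) :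
    qf (gC R N j u) v = QB (BC R N j u) u v := qf_gC R N j u v

/-- The polar form of the difference of two vectors. -/
noncomputable def PB (b : ℝ) (p q : E4) : ℝ :=
  (p 0 - q 0) ^ 2 + (‖tl p‖ - ‖tl q‖) ^ 2 + b ^ 2 * ‖dir3 p - dir3 q‖ ^ 2

theorem inner_div_norm (a v : E4) : ⟪tl a, tl v⟫ / ‖tl a‖ = ⟪tl v, dir3 a⟫ := by
  unfold dir3
  rw [inner_smul_right, real_inner_comm]
  ring

theorem QB_ge {B : ℝ} {a v : E4} : min 1 B * ‖tl v‖ ^ 2 + v 0 ^ 2 ≤ QB B a v := by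
  unfold QB
  rw [norm_sq_split v, inner_div_norm]
  have h1 : ⟪tl v, dir3 a⟫ ^ 2 ≤ ‖tl v‖ ^ 2 := by
    have h2 := abs_real_inner_le_norm (tl v) (dir3 a)
    have h3 : ‖dir3 a‖ ≤ 1 := by
      by_cases h : tl a = 0
      · rw [dir3_of_eq_zero h, norm_zero]; exact zero_le_one
      · exact (norm_dir3 h).le
    have h4 : |⟪tl v, dir3 a⟫| ≤ ‖tl v‖ :=
      h2.trans (mul_le_of_le_one_right (norm_nonneg _) h3)
    exact sq_le_sq' (by linarith [neg_abs_le ⟪tl v, dir3 a⟫]) (by linarith [le_abs_self ⟪tl v, dir3 a⟫])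
  have h5 : 0 ≤ ⟪tl v, dir3 a⟫ ^ 2 := sq_nonneg _
  rcases le_total 1 B with h | h
  · rw [min_eq_left h]
    have h6 := mul_nonneg (sub_nonneg.2 h) (sub_nonneg.2 h1)
    linarith
  · rw [min_eq_right h]
    have h6 := mul_nonneg (sub_nonneg.2 h) h5
    linarith

theorem QB_nonneg {B : ℝ} (hB : 0 ≤ B) {a v : E4} : 0 ≤ QB B a v := by
  refine le_trans ?_ QB_ge
  have : 0 ≤ min 1 B := le_min zero_le_one hB
  positivity

theorem norm_dir3_sub_sq {p q : E4} (hp : tl p ≠ 0) (hq : tl q ≠ 0) :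
    ‖tl p‖ * ‖tl q‖ * ‖dir3 p - dir3 q‖ ^ 2 = ‖tl (p - q)‖ ^ 2 - (‖tl p‖ - ‖tl q‖) ^ 2 := by
  have hp' := norm_pos_iff.2 hp
  have hq' := norm_pos_iff.2 hq
  rw [norm_sub_sq_real, norm_dir3 hp, norm_dir3 hq, tl_sub, norm_sub_sq_real]
  unfold dir3
  rw [inner_smul_left, inner_smul_right]
  simp only [conj_trivial]
  field_simp
  ring

theorem polar_close {a : E4} (ha : tl a ≠ 0) {B : ℝ} (hB : 0 < B) {ε : ℝ} (hε : 0 < ε) :
    ∀ᶠ q in 𝓝 (a, a), |PB (Real.sqrt B * ‖tl a‖) q.1 q.2 - QB B a (q.1 - q.2)| ≤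
      ε * QB B a (q.1 - q.2) := by
  have ha' : 0 < ‖tl a‖ := norm_pos_iff.2 ha
  have hm : 0 < min 1 B := lt_min one_pos hB
  set κ : ℝ := ε * min 1 B / (2 * |1 - B| + B) with hκ
  have hκ0 : 0 < κ := by positivity
  have hct : Continuous tl := by
    unfold tl
    fun_prop
  have c1 : Continuous (fun q : E4 × E4 => tl q.1) := hct.comp continuous_fst
  have c2 : Continuous (fun q : E4 × E4 => tl q.2) := hct.comp continuous_snd
  -- the first continuity statement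
  have t1 : ∀ᶠ q in 𝓝 (a, a), ‖(‖tl q.1‖ + ‖tl q.2‖)⁻¹ • (tl q.1 + tl q.2) - dir3 a‖ < κ := by
    have h1 : ContinuousAt
        (fun q : E4 × E4 => ‖(‖tl q.1‖ + ‖tl q.2‖)⁻¹ • (tl q.1 + tl q.2) - dir3 a‖) (a, a) := by
      apply ContinuousAt.norm
      apply ContinuousAt.sub _ continuousAt_const
      apply ContinuousAt.fun_smul
      · apply ContinuousAt.inv₀
        · exact (c1.norm.add c2.norm).continuousAt
        · simp only
          positivity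
      · exact (c1.add c2).continuousAt
    have h2 : ‖(‖tl a‖ + ‖tl a‖)⁻¹ • (tl a + tl a) - dir3 a‖ = 0 := by
      rw [norm_eq_zero, sub_eq_zero]
      unfold dir3
      rw [← two_mul, ← two_smul ℝ (tl a), smul_smul]
      congr 1
      field_simp
    have h3 := h1.tendsto
    simp only at h3
    rw [h2] at h3
    exact h3.eventually (gt_mem_nhds hκ0)
  have t2 : ∀ᶠ q in 𝓝 (a, a), |‖tl a‖ ^ 2 / (‖tl q.1‖ * ‖tl q.2‖) - 1| < κ := by
    have h1 : ContinuousAt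
        (fun q : E4 × E4 => |‖tl a‖ ^ 2 / (‖tl q.1‖ * ‖tl q.2‖) - 1|) (a, a) := by
      apply ContinuousAt.abs
      apply ContinuousAt.sub _ continuousAt_const
      apply ContinuousAt.div continuousAt_const
      · exact (c1.norm.mul c2.norm).continuousAt
      · simp only
        positivity
    have h2 : |‖tl a‖ ^ 2 / (‖tl a‖ * ‖tl a‖) - 1| = 0 := by
      rw [abs_eq_zero]
      field_simp
      ring
    have h3 := h1.tendsto
    simp only at h3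
    rw [h2] at h3
    exact h3.eventually (gt_mem_nhds hκ0)
  have t3 : ∀ᶠ q in 𝓝 (a, a), 0 < ‖tl q.1‖ :=
    (c1.norm.tendsto (a, a)).eventually (lt_mem_nhds ha')
  have t4 : ∀ᶠ q in 𝓝 (a, a), 0 < ‖tl q.2‖ :=
    (c2.norm.tendsto (a, a)).eventually (lt_mem_nhds ha')
  filter_upwards [t1, t2, t3, t4] with q h1 h2 h3 h4
  have e1 := norm_dir3_sub_sq (norm_pos_iff.1 h3) (norm_pos_iff.1 h4)
  set w := tl (q.1 - q.2) with hw
  set E := ‖tl q.1‖ - ‖tl q.2‖ with hE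
  set A := ⟪w, dir3 a⟫ with hA
  have hEA : |E - A| ≤ κ * ‖w‖ := by
    have h5 : E = ⟪w, (‖tl q.1‖ + ‖tl q.2‖)⁻¹ • (tl q.1 + tl q.2)⟫ := by
      rw [inner_smul_right, hw, tl_sub, inner_sub_left, inner_add_right, inner_add_right,
        real_inner_self_eq_norm_sq, real_inner_self_eq_norm_sq, real_inner_comm (tl q.1) (tl q.2),
        hE]
      field_simp
      ring
    rw [h5, hA, ← inner_sub_right]
    refine (abs_real_inner_le_norm _ _).trans ?_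
    rw [mul_comm]
    exact mul_le_mul_of_nonneg_right h1.le (norm_nonneg _)
  have hE1 : |E| ≤ ‖w‖ := by
    rw [hE, hw, tl_sub]
    exact abs_norm_sub_norm_le _ _
  have hA1 : |A| ≤ ‖w‖ := by
    have := abs_real_inner_le_norm w (dir3 a)
    rwa [norm_dir3 ha, mul_one] at this
  have hw0 := norm_nonneg w
  have hEA2 : |E ^ 2 - A ^ 2| ≤ 2 * κ * ‖w‖ ^ 2 := by
    have h5 : E ^ 2 - A ^ 2 = (E - A) * (E + A) := by ring
    rw [h5, abs_mul]
    have h6 : |E + A| ≤ 2 * ‖w‖ := (abs_add_le _ _).trans (by linarith)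
    calc |E - A| * |E + A| ≤ (κ * ‖w‖) * (2 * ‖w‖) :=
          mul_le_mul hEA h6 (abs_nonneg _) (by positivity)
      _ = 2 * κ * ‖w‖ ^ 2 := by ring
  have hE2 : 0 ≤ ‖w‖ ^ 2 - E ^ 2 := by
    have := sq_le_sq' (by linarith [neg_abs_le E]) ((le_abs_self E).trans hE1)
    linarith
  have hQ := @QB_ge B a (q.1 - q.2)
  have hP : PB (Real.sqrt B * ‖tl a‖) q.1 q.2 - QB B a (q.1 - q.2) =
      (1 - B) * (E ^ 2 - A ^ 2) +
        B * ((‖tl a‖ ^ 2 / (‖tl q.1‖ * ‖tl q.2‖) - 1) * (‖w‖ ^ 2 - E ^ 2)) := by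
    have h5 : ‖dir3 q.1 - dir3 q.2‖ ^ 2 = (‖w‖ ^ 2 - E ^ 2) / (‖tl q.1‖ * ‖tl q.2‖) := by
      rw [← e1]
      field_simp
    unfold PB QB
    rw [h5, mul_pow, Real.sq_sqrt hB.le, norm_sq_split (q.1 - q.2), ← hw, inner_div_norm, ← hw,
      ← hA, ← hE]
    simp only [PiLp.sub_apply]
    ring
  rw [hP]
  have hκ' : (2 * |1 - B| + B) * κ = ε * min 1 B := by
    rw [hκ]; field_simp
  calc |(1 - B) * (E ^ 2 - A ^ 2) +
        B * ((‖tl a‖ ^ 2 / (‖tl q.1‖ * ‖tl q.2‖) - 1) * (‖w‖ ^ 2 - E ^ 2))|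
      ≤ |1 - B| * (2 * κ * ‖w‖ ^ 2) + B * (κ * ‖w‖ ^ 2) := by
        refine (abs_add_le _ _).trans (add_le_add ?_ ?_)
        · rw [abs_mul]
          exact mul_le_mul_of_nonneg_left hEA2 (abs_nonneg _)
        · rw [abs_mul, abs_mul, abs_of_pos hB, abs_of_nonneg hE2]
          apply mul_le_mul_of_nonneg_left _ hB.le
          apply mul_le_mul h2.le _ hE2 hκ0.le
          linarith [sq_nonneg E]
    _ = ((2 * |1 - B| + B) * κ) * ‖w‖ ^ 2 := by ring
    _ = ε * (min 1 B * ‖w‖ ^ 2) := by rw [hκ']; ring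
    _ ≤ ε * QB B a (q.1 - q.2) := by
        apply mul_le_mul_of_nonneg_left _ hε.le
        linarith [sq_nonneg ((q.1 - q.2) 0)]

end Pool.Agent.W_MP_654ec6_h2
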